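import Mathlib

set_option autoImplicit false

/-!
# Permuting subgroups, solvable radical, Kegel's lemma for simple groups
-/

namespace Pool.Agent.T6.H25.PM

open Subgroup
open scoped Pointwise

universe u
variable {G : Type u} [Group G]

/-- elementwise permutability of two subgroups -/
def Pm (A B : Subgroup G) : Prop := ∀ a ∈ A, ∀ b ∈ B, ∃ b' ∈ B, ∃ a' ∈ A, a * b = b' * a'

lemma Pm.symm {A B : Subgroup G} (h : Pm A B) : Pm B A := by
  intro b hb a ha
  obtain ⟨b', hb', a', ha', e⟩ := h a⁻¹ (inv_mem ha) b⁻¹ (inv_mem hb)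
  refine ⟨a'⁻¹, inv_mem ha', b'⁻¹, inv_mem hb', ?_⟩
  have := congrArg (·⁻¹) e
  simpa [mul_inv_rev] using this

lemma pm_iff {A B : Subgroup G} : Pm A B ↔ (A : Set G) * (B : Set G) = (B : Set G) * (A : Set G) := by
  constructor
  · intro h
    apply Set.Subset.antisymm
    · rintro _ ⟨a, ha, b, hb, rfl⟩
      obtain ⟨b', hb', a', ha', e⟩ := h a ha b hb
      exact ⟨b', hb', a', ha', e.symm⟩
    · rintro _ ⟨b, hb, a, ha, rfl⟩
      obtain ⟨a', ha', b', hb', e⟩ := h.symm b hb a ha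
      exact ⟨a', ha', b', hb', e.symm⟩
  · intro h a ha b hb
    have : a * b ∈ (B : Set G) * (A : Set G) := by
      rw [← h]; exact ⟨a, ha, b, hb, rfl⟩
    obtain ⟨b', hb', a', ha', e⟩ := this
    exact ⟨b', hb', a', ha', e.symm⟩

lemma Pm.mem_sup {A B : Subgroup G} (h : Pm A B) {x : G} (hx : x ∈ A ⊔ B) :
    ∃ a ∈ A, ∃ b ∈ B, x = a * b := by
  let T : Subgroup G :=
    { carrier := {x | ∃ a ∈ A, ∃ b ∈ B, x = a * b}
      one_mem' := ⟨1, one_mem _, 1, one_mem _, by simp⟩
      mul_mem' := by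
        rintro _ _ ⟨a, ha, b, hb, rfl⟩ ⟨a1, ha1, b1, hb1, rfl⟩
        obtain ⟨a', ha', b', hb', e⟩ := h.symm b hb a1 ha1
        refine ⟨a * a', mul_mem ha ha', b' * b1, mul_mem hb' hb1, ?_⟩
        calc a * b * (a1 * b1) = a * (b * a1) * b1 := by group
          _ = a * (a' * b') * b1 := by rw [e]
          _ = _ := by group
      inv_mem' := by
        rintro _ ⟨a, ha, b, hb, rfl⟩
        obtain ⟨a', ha', b', hb', e⟩ := h.symm b⁻¹ (inv_mem hb) a⁻¹ (inv_mem ha)
        exact ⟨a', ha', b', hb', by rw [mul_inv_rev, e]⟩ }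
  have h1 : A ⊔ B ≤ T := sup_le (fun a ha => ⟨a, ha, 1, one_mem _, by simp⟩)
    (fun b hb => ⟨1, one_mem _, b, hb, by simp⟩)
  exact h1 hx

lemma Pm.sup_left {A A' B : Subgroup G} (h : Pm A B) (h' : Pm A' B) : Pm (A ⊔ A') B := by
  have key : ∀ x ∈ closure ((A : Set G) ∪ (A' : Set G)), ∀ b ∈ B, ∃ b' ∈ B,
      ∃ a' ∈ A ⊔ A', x * b = b' * a' := by
    have hgen : ∀ x ∈ (A : Set G) ∪ (A' : Set G), ∀ b ∈ B, ∃ b' ∈ B,
      ∃ a' ∈ A ⊔ A', x * b = b' * a' := by
      rintro x (hx | hx) b hb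
      · obtain ⟨b', hb', a', ha', e⟩ := h x hx b hb
        exact ⟨b', hb', a', le_sup_left (a := A) ha', e⟩
      · obtain ⟨b', hb', a', ha', e⟩ := h' x hx b hb
        exact ⟨b', hb', a', le_sup_right (a := A) ha', e⟩
    have hmul : ∀ x ∈ (A : Set G) ∪ (A' : Set G), ∀ y, (∀ b ∈ B, ∃ b' ∈ B,
      ∃ a' ∈ A ⊔ A', y * b = b' * a') → ∀ b ∈ B, ∃ b' ∈ B,
      ∃ a' ∈ A ⊔ A', (x * y) * b = b' * a' := by
      intro x hx y hy b hb
      obtain ⟨b1, hb1, a1, ha1, e1⟩ := hy b hb
      obtain ⟨b2, hb2, a2, ha2, e2⟩ := hgen x hx b1 hb1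
      refine ⟨b2, hb2, a2 * a1, mul_mem ha2 ha1, ?_⟩
      rw [mul_assoc, e1, ← mul_assoc, e2, mul_assoc]
    intro x hx
    induction hx using closure_induction_left with
    | one => exact fun b hb => ⟨b, hb, 1, one_mem _, by simp⟩
    | mul_left x hx y hy ih => exact hmul x hx y ih
    | inv_mul_cancel x hx y hy ih =>
      refine hmul x⁻¹ ?_ y ih
      rcases hx with hx | hx
      · exact Or.inl (inv_mem hx)
      · exact Or.inr (inv_mem hx)
  intro x hx b hb
  refine key x ?_ b hb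
  rw [← sup_eq_closure]; exact hx

lemma mem_cj {A : Subgroup G} {g x : G} : x ∈ MulAut.conj g • A ↔ g⁻¹ * x * g ∈ A := by
  rw [mem_pointwise_smul_iff_inv_smul_mem, ← map_inv, MulAut.smul_def, MulAut.conj_apply, inv_inv]

lemma Pm.cj {A B : Subgroup G} (h : Pm A B) (g : G) :
    Pm (MulAut.conj g • A) (MulAut.conj g • B) := by
  intro a ha b hb
  rw [mem_cj] at ha hb
  obtain ⟨b', hb', a', ha', e⟩ := h _ ha _ hb
  refine ⟨g * b' * g⁻¹, ?_, g * a' * g⁻¹, ?_, ?_⟩
  · rw [mem_cj]; convert hb' using 1; group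
  · rw [mem_cj]; convert ha' using 1; group
  · calc a * b = g * (g⁻¹ * a * g * (g⁻¹ * b * g)) * g⁻¹ := by group
      _ = g * (b' * a') * g⁻¹ := by rw [e]
      _ = _ := by group

lemma Pm.map {G' : Type*} [Group G'] (f : G →* G') {A B : Subgroup G} (h : Pm A B) :
    Pm (A.map f) (B.map f) := by
  rintro _ ⟨a, ha, rfl⟩ _ ⟨b, hb, rfl⟩
  obtain ⟨b', hb', a', ha', e⟩ := h a ha b hb
  exact ⟨f b', ⟨b', hb', rfl⟩, f a', ⟨a', ha', rfl⟩, by rw [← map_mul, e, map_mul]⟩

/-- if `A B = G` then `A B^g = G` -/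
lemma sup_cj_eq_top {A B : Subgroup G} (h : Pm A B) (htop : A ⊔ B = ⊤) (g : G) :
    A ⊔ MulAut.conj g • B = ⊤ := by
  rw [eq_top_iff]
  intro x _
  -- g = a b with a ∈ A, b ∈ B
  obtain ⟨a, ha, b, hb, e⟩ := h.mem_sup (x := g) (by rw [htop]; exact mem_top _)
  obtain ⟨a1, ha1, b1, hb1, e1⟩ := h.mem_sup (x := a⁻¹ * x * a) (by rw [htop]; exact mem_top _)
  have h1 : x = (a * a1 * a⁻¹) * (a * b1 * a⁻¹) := by
    calc x = a * (a⁻¹ * x * a) * a⁻¹ := by group
      _ = a * (a1 * b1) * a⁻¹ := by rw [e1]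
      _ = _ := by group
  rw [h1]
  refine mul_mem (le_sup_left (a := A) ?_) (le_sup_right (a := A) ?_)
  · exact mul_mem (mul_mem ha ha1) (inv_mem ha)
  · rw [mem_cj, e]
    have : (a * b)⁻¹ * (a * b1 * a⁻¹) * (a * b) = b⁻¹ * b1 * b := by group
    rw [this]
    exact mul_mem (mul_mem (inv_mem hb) hb1) hb

lemma cj_cj (g g' : G) (B : Subgroup G) :
    MulAut.conj g • MulAut.conj g' • B = MulAut.conj (g * g') • B := by
  rw [smul_smul, ← map_mul]

lemma cj_one (B : Subgroup G) : MulAut.conj (1 : G) • B = B := by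
  rw [map_one, one_smul]

lemma normalClosure_le_of {B N : Subgroup G} (h : ∀ g : G, ∀ b ∈ B, g * b * g⁻¹ ∈ N) :
    normalClosure (B : Set G) ≤ N := by
  rw [normalClosure, closure_le]
  intro x hx
  obtain ⟨a, ha, hax⟩ := Group.mem_conjugatesOfSet_iff.1 hx
  obtain ⟨c, rfl⟩ := isConj_iff.1 hax
  exact h c a ha

/-- Kegel's lemma for simple groups -/
lemma kegel [Finite G] [IsSimpleGroup G] {A B : Subgroup G} (hA : A ≠ ⊥) (hB : B ≠ ⊥)
    (h : ∀ g : G, Pm A (MulAut.conj g • B)) : A ⊔ B = ⊤ := by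
  by_contra hne
  let F : Set (Subgroup G) := {A | A ≠ ⊥ ∧ (∀ g : G, Pm A (MulAut.conj g • B)) ∧ A ⊔ B ≠ ⊤}
  obtain ⟨A0, hA0, hmax⟩ := (Set.toFinite F).exists_maximal ⟨A, hA, h, hne⟩
  obtain ⟨h1, h2, h3⟩ := hA0
  have key : ∀ g : G, ∀ x ∈ MulAut.conj g • B, MulAut.conj x • A0 ≤ A0 := by
    intro g x hx
    have hF : A0 ⊔ MulAut.conj x • A0 ∈ F := by
      have hpm : ∀ g' : G, Pm (A0 ⊔ MulAut.conj x • A0) (MulAut.conj g' • B) := by
        intro g'
        refine (h2 g').sup_left ?_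
        have := (h2 (x⁻¹ * g')).cj x
        rwa [cj_cj, mul_inv_cancel_left] at this
      refine ⟨?_, hpm, ?_⟩
      · intro h0
        apply h1
        rw [eq_bot_iff, ← h0]
        exact le_sup_left
      · intro htop
        have e1 : (A0 ⊔ MulAut.conj x • A0) ⊔ MulAut.conj g • B = ⊤ := by
          refine sup_cj_eq_top ?_ htop g
          have := hpm 1
          rwa [cj_one] at this
        have e2 : A0 ⊔ MulAut.conj g • B = ⊤ := by
          rw [eq_top_iff, ← e1]
          refine sup_le (sup_le le_sup_left ?_) le_sup_right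
          intro y hy
          rw [mem_cj] at hy
          have hx' : x ∈ A0 ⊔ MulAut.conj g • B := le_sup_right (a := A0) hx
          have : y = x * (x⁻¹ * y * x) * x⁻¹ := by group
          rw [this]
          exact mul_mem (mul_mem hx' (le_sup_left (a := A0) hy)) (inv_mem hx')
        apply h3
        have := sup_cj_eq_top (h2 g) e2 g⁻¹
        rwa [cj_cj, inv_mul_cancel, cj_one] at this
    exact le_sup_right.trans (hmax hF le_sup_left)
  have hN : normalClosure (B : Set G) ≤ normalizer (A0 : Set G) := by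
    apply normalClosure_le_of
    intro g b hb
    have hb' : g * b * g⁻¹ ∈ MulAut.conj g • B := by
      rw [mem_cj]; convert hb using 1; group
    rw [mem_normalizer_iff]
    intro a
    constructor
    · intro ha
      apply key g _ hb'
      rw [mem_cj]; convert ha using 1; group
    · intro ha
      have h5 := key g (g * b * g⁻¹)⁻¹ (inv_mem hb')
      apply h5
      rw [mem_cj]; convert ha using 1; group
  have hT : normalClosure (B : Set G) = ⊤ := by
    rcases IsSimpleGroup.eq_bot_or_eq_top_of_normal (normalClosure (B : Set G))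
      inferInstance with h0 | h0
    · exfalso
      apply hB
      rw [eq_bot_iff, ← h0]
      exact le_normalClosure
    · exact h0
  rw [hT, top_le_iff, normalizer_eq_top_iff] at hN
  rcases IsSimpleGroup.eq_bot_or_eq_top_of_normal A0 hN with h0 | h0
  · exact h1 h0
  · exact h3 (by rw [h0, top_sup_eq])

/-! ### solvable normal subgroups -/

lemma solv_sup {N M : Subgroup G} (hN : N.Normal) (h1 : Group.IsSolvable N)
    (h2 : Group.IsSolvable M) : Group.IsSolvable ↥(N ⊔ M) := by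
  have := hN
  have := h1
  have := h2
  rw [sup_comm]
  rw [Group.isSolvable_iff_subgroup_quotient (N.subgroupOf (M ⊔ N))]
  constructor
  · exact Group.isSolvable_of_isSolvable_injective
      (f := (Subgroup.subgroupOfEquivOfLe (le_sup_right : N ≤ M ⊔ N)).toMonoidHom)
      (Subgroup.subgroupOfEquivOfLe (le_sup_right : N ≤ M ⊔ N)).injective
  · exact Group.isSolvable_of_surjective
      (f := (QuotientGroup.quotientInfEquivProdNormalQuotient M N).toMonoidHom)
      (QuotientGroup.quotientInfEquivProdNormalQuotient M N).surjective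

/-- the largest normal subgroup with a property which passes to joins -/
lemma exists_largest [Finite G] (F : Subgroup G → Prop) (h0 : ∃ X, F X)
    (hsup : ∀ A B, F A → F B → F (A ⊔ B)) : ∃ R, F R ∧ ∀ A, F A → A ≤ R := by
  obtain ⟨R, hR, hmax⟩ := (Set.toFinite {X | F X}).exists_maximal h0
  exact ⟨R, hR, fun A hA => le_sup_right.trans (hmax (hsup R A hR hA) le_sup_left)⟩

lemma exists_rad (G : Type u) [Group G] [Finite G] :
    ∃ R : Subgroup G, (R.Normal ∧ Group.IsSolvable R) ∧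
      ∀ N : Subgroup G, (N.Normal ∧ Group.IsSolvable N) → N ≤ R :=
  exists_largest (fun N => N.Normal ∧ Group.IsSolvable N) ⟨⊥, inferInstance, inferInstance⟩
    (fun A B hA hB => ⟨by have := hA.1; have := hB.1; infer_instance, solv_sup hA.1 hA.2 hB.2⟩)

/-- no nontrivial solvable normal subgroup -/
def NoSol (G : Type u) [Group G] : Prop :=
  ∀ N : Subgroup G, N.Normal → Group.IsSolvable N → N = ⊥

lemma solv_map {G' : Type*} [Group G'] (f : G →* G') {N : Subgroup G} (h : Group.IsSolvable N) :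
    Group.IsSolvable (N.map f) :=
  Group.isSolvable_of_surjective (f := f.subgroupMap N) (f.subgroupMap_surjective N)

lemma NoSol.sub [Finite G] (h : NoSol G) {K : Subgroup G} (hK : K.Normal) : NoSol K := by
  obtain ⟨R, ⟨hR1, hR2⟩, hR3⟩ := exists_rad K
  have h1 : (R.map K.subtype).Normal := by
    constructor
    rintro _ ⟨y, hy, rfl⟩ g
    have h2 : R.map (MulAut.conjNormal g : K ≃* K).toMonoidHom ≤ R := by
      refine hR3 _ ⟨?_, solv_map _ hR2⟩
      exact hR1.map _ (MulAut.conjNormal g : K ≃* K).surjective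
    have h3 : (MulAut.conjNormal g : K ≃* K) y ∈ R := h2 ⟨y, hy, rfl⟩
    refine ⟨_, h3, ?_⟩
    simp
  have h2 := h _ h1 (solv_map _ hR2)
  rw [map_eq_bot_iff_of_injective _ K.subtype_injective] at h2
  intro N hN hNs
  rw [eq_bot_iff, ← h2]
  exact hR3 N ⟨hN, hNs⟩

end Pool.Agent.T6.H25.PM
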