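import Mathlib
import Pool.Agent.T6.H25.PMBasic

set_option autoImplicit false

/-!
# A `p`-subgroup permuting with all Sylow `q`-subgroups, `q ≠ p`, has solvable normal closure
-/

namespace Pool.Agent.T6.H25.PM

open Subgroup
open scoped Pointwise

/-- Burnside's theorem on groups of order `p ^ c * q ^ d`, as a hypothesis -/
def Burn : Prop := ∀ (G : Type) [Group G] [Finite G] (p q c d : ℕ), p.Prime → q.Prime →
  Nat.card G = p ^ c * q ^ d → Group.IsSolvable G

section
universe u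
variable {G : Type u} [Group G]

/-- `H` permutes with every Sylow `q`-subgroup for all primes `q ≠ p` -/
def SP (p : ℕ) (H : Subgroup G) : Prop :=
  ∀ q : ℕ, q.Prime → q ≠ p → ∀ Q : Sylow q G, Pm H Q

lemma coprime_one {x : G} {p q i j : ℕ} (hp : p.Prime) (hq : q.Prime) (hne : p ≠ q)
    (h1 : x ^ p ^ i = 1) (h2 : x ^ q ^ j = 1) : x = 1 := by
  have h3 : orderOf x ∣ p ^ i := orderOf_dvd_of_pow_eq_one h1
  have h4 : orderOf x ∣ q ^ j := orderOf_dvd_of_pow_eq_one h2
  have h5 : Nat.Coprime (p ^ i) (q ^ j) := Nat.Coprime.pow _ _ ((Nat.coprime_primes hp hq).2 hne)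
  exact orderOf_eq_one_iff.1 (Nat.eq_one_of_dvd_coprimes h5 h3 h4)

lemma pm_inf_normal {p q : ℕ} (hp : p.Prime) (hq : q.Prime) (hne : q ≠ p) {M H Q : Subgroup G}
    (hM : M.Normal) (hH : IsPGroup p H) (hQ : IsPGroup q Q) (h : Pm H Q) :
    Pm (H ⊓ M) (Q ⊓ M) := by
  rintro a ⟨ha, haM⟩ b ⟨hb, hbM⟩
  obtain ⟨b', hb', a', ha', e⟩ := h a ha b hb
  have h1 : b' * a' ∈ M := by rw [← e]; exact mul_mem haM hbM
  have h2 : (QuotientGroup.mk b' : G ⧸ M) * QuotientGroup.mk a' = 1 := by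
    rw [← QuotientGroup.mk_mul]; exact (QuotientGroup.eq_one_iff _).2 h1
  obtain ⟨i, hi⟩ := hH ⟨a', ha'⟩
  obtain ⟨j, hj⟩ := hQ ⟨b', hb'⟩
  have hi' : a' ^ p ^ i = 1 := congrArg Subtype.val hi
  have hj' : b' ^ q ^ j = 1 := congrArg Subtype.val hj
  have h3 : (QuotientGroup.mk b' : G ⧸ M) = 1 := by
    refine coprime_one (i := i) (j := j) hp hq hne.symm ?_ ?_
    · rw [eq_inv_of_mul_eq_one_left h2, inv_pow, ← QuotientGroup.mk_pow, hi']; simp
    · rw [← QuotientGroup.mk_pow, hj']; rfl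
  have hbM' : b' ∈ M := (QuotientGroup.eq_one_iff _).1 h3
  exact ⟨b', ⟨hb', hbM'⟩, a', ⟨ha', (Subgroup.mul_mem_cancel_left M hbM').1 h1⟩, e⟩

lemma Pm.subgroupOf {H Q M : Subgroup G} (h : Pm (H ⊓ M) (Q ⊓ M)) :
    Pm (H.subgroupOf M) (Q.subgroupOf M) := by
  intro a ha b hb
  rw [mem_subgroupOf] at ha hb
  obtain ⟨b', hb', a', ha', e⟩ := h a ⟨ha, a.2⟩ b ⟨hb, b.2⟩
  exact ⟨⟨b', hb'.2⟩, mem_subgroupOf.2 hb'.1, ⟨a', ha'.2⟩, mem_subgroupOf.2 ha'.1, Subtype.ext e⟩

lemma isPGroup_subgroupOf {p : ℕ} {H : Subgroup G} (hH : IsPGroup p H) (M : Subgroup G) :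
    IsPGroup p (H.subgroupOf M) := by
  rintro ⟨x, hx⟩
  rw [mem_subgroupOf] at hx
  obtain ⟨i, hi⟩ := hH ⟨x, hx⟩
  have hi' : (x : G) ^ p ^ i = 1 := congrArg Subtype.val hi
  refine ⟨i, Subtype.ext (Subtype.ext ?_)⟩
  simpa using hi'

lemma SP.sub [Finite G] {p : ℕ} (hp : p.Prime) {H : Subgroup G} (hH : IsPGroup p H) (h : SP p H)
    {M : Subgroup G} (hM : M.Normal) : SP p (H.subgroupOf M) := by
  intro q hq hne Q'
  have : Fact q.Prime := ⟨hq⟩
  obtain ⟨Q, hQ⟩ := (Q'.2.map M.subtype).exists_le_sylow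
  have h1 : (Q : Subgroup G).subgroupOf M = Q' := by
    apply Q'.is_maximal' (isPGroup_subgroupOf Q.2 M)
    intro y hy
    rw [mem_subgroupOf]
    exact hQ ⟨y, hy, rfl⟩
  have h2 := (pm_inf_normal hp hq hne hM hH Q.2 (h q hq hne Q)).subgroupOf
  rwa [h1] at h2

lemma SP.map [Finite G] {p : ℕ} {H : Subgroup G} (h : SP p H) {G' : Type*} [Group G']
    {f : G →* G'} (hf : Function.Surjective f) : SP p (H.map f) := by
  intro q hq hne Q'
  have : Fact q.Prime := ⟨hq⟩
  obtain ⟨Q, rfl⟩ := Sylow.mapSurjective_surjective hf q Q'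
  exact (h q hq hne Q).map f

lemma exists_simple_quotient [Finite G] [Nontrivial G] :
    ∃ M : Subgroup G, ∃ _ : M.Normal, M ≠ ⊤ ∧ IsSimpleGroup (G ⧸ M) := by
  obtain ⟨M, ⟨hM1, hM2⟩, hmax⟩ := (Set.toFinite {M : Subgroup G | M.Normal ∧ M ≠ ⊤}).exists_maximal
    ⟨⊥, inferInstance, bot_ne_top⟩
  refine ⟨M, hM1, hM2, ?_⟩
  have hnt : Nontrivial (G ⧸ M) := by
    rw [← not_subsingleton_iff_nontrivial]
    intro hs
    exact hM2 (QuotientGroup.subgroup_eq_top_of_subsingleton M hs)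
  refine ⟨fun N hN => ?_⟩
  have h1 : (N.comap (QuotientGroup.mk' M)).Normal := inferInstance
  have h2 : M ≤ N.comap (QuotientGroup.mk' M) := by
    intro x hx
    rw [mem_comap]
    have : QuotientGroup.mk' M x = 1 := (QuotientGroup.eq_one_iff x).2 hx
    rw [this]; exact one_mem _
  have h3 : (N.comap (QuotientGroup.mk' M)).map (QuotientGroup.mk' M) = N :=
    map_comap_eq_self_of_surjective (QuotientGroup.mk'_surjective M) N
  by_cases h4 : N.comap (QuotientGroup.mk' M) = ⊤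
  · right
    rw [← h3, h4, ← MonoidHom.range_eq_map, MonoidHom.range_eq_top]
    exact QuotientGroup.mk'_surjective M
  · left
    have h5 := hmax ⟨h1, h4⟩ h2
    rw [← h3, eq_bot_iff]
    rintro _ ⟨x, hx, rfl⟩
    exact (QuotientGroup.eq_one_iff x).2 (h5 hx)

end

section

/-- the simple quotient is solvable -/
lemma simple_solv (bu : Burn) {p : ℕ} (hp : p.Prime) {S : Type} [Group S] [Finite S]
    [IsSimpleGroup S] {H : Subgroup S} (hH : IsPGroup p H) (h : SP p H) (hne : H ≠ ⊥) :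
    Group.IsSolvable S := by
  have : Fact p.Prime := ⟨hp⟩
  by_cases hex : ∃ q : ℕ, q.Prime ∧ q ≠ p ∧ q ∣ Nat.card S
  · obtain ⟨q, hq, hqp, hd⟩ := hex
    have : Fact q.Prime := ⟨hq⟩
    obtain ⟨Q⟩ : Nonempty (Sylow q S) := inferInstance
    have hQ : (Q : Subgroup S) ≠ ⊥ := Q.ne_bot_of_dvd_card hd
    have h1 : H ⊔ Q = ⊤ := kegel hne hQ (fun g => by
      have := h q hq hqp (g • Q)
      rwa [Sylow.coe_subgroup_smul] at this)
    have h2 := (h q hq hqp Q)
    obtain ⟨a, ha⟩ := IsPGroup.iff_card.1 hH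
    obtain ⟨b, hb⟩ := IsPGroup.iff_card.1 Q.2
    have h3 : IsComplement' H (Q : Subgroup S) := by
      apply isComplement'_of_disjoint_and_mul_eq_univ
      · exact IsPGroup.disjoint_of_ne p q hqp.symm _ _ hH Q.2
      · rw [Set.eq_univ_iff_forall]
        intro x
        obtain ⟨y, hy, z, hz, e⟩ := h2.mem_sup (x := x) (by rw [h1]; exact mem_top _)
        exact ⟨y, hy, z, hz, e.symm⟩
    have h4 := h3.card_mul_card
    exact bu S p q a b hp hq (by rw [← h4, ha, hb])
  · have h1 : Nat.card S = p ^ (Nat.card S).primeFactorsList.length := by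
      apply Nat.eq_prime_pow_of_unique_prime_dvd Nat.card_pos.ne'
      intro d hd hdS
      by_contra hne
      exact hex ⟨d, hd, hne, hdS⟩
    exact bu S p p (Nat.card S).primeFactorsList.length 0 hp hp (by rw [pow_zero, mul_one]; exact h1)

theorem solv_core (bu : Burn) {p : ℕ} (hp : p.Prime) : ∀ (n : ℕ) (L : Type) [Group L] [Finite L],
    Nat.card L = n → NoSol L → ∀ H : Subgroup L, IsPGroup p H → SP p H → H = ⊥ := by
  intro n
  induction n using Nat.strong_induction_on with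
  | _ n ih =>
  intro L _ _ hn hL H hH hSP
  by_contra hne
  have hfact : Fact p.Prime := ⟨hp⟩
  have hcard : ∀ K : Subgroup L, K ≠ ⊤ → Nat.card K < n := by
    intro K hK
    rw [← hn]
    rcases (Subgroup.card_le_card_group K).lt_or_eq with h | h
    · exact h
    · exact absurd (Subgroup.eq_top_of_card_eq _ h) hK
  have hres : ∀ K : Subgroup L, K.Normal → K ≠ ⊤ → H ⊓ K = ⊥ := by
    intro K hK hKt
    have h1 := ih _ (hcard K hKt) K rfl (hL.sub hK) (H.subgroupOf K) (isPGroup_subgroupOf hH K)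
      (hSP.sub hp hH hK)
    rwa [subgroupOf_eq_bot, disjoint_iff] at h1
  by_cases hK : normalClosure (H : Set L) = ⊤
  · have hLnt : Nontrivial L := by
      rw [← not_subsingleton_iff_nontrivial]
      intro hs
      exact hne (Subsingleton.elim _ _)
    obtain ⟨M, hM, hMt, hMs⟩ := exists_simple_quotient (G := L)
    have h1 := hres M hM hMt
    have hHM : H.map (QuotientGroup.mk' M) ≠ ⊥ := by
      intro h0
      rw [Subgroup.map_eq_bot_iff, QuotientGroup.ker_mk'] at h0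
      apply hMt
      rw [eq_top_iff, ← hK]
      exact normalClosure_le_normal h0
    have hsol : Group.IsSolvable (L ⧸ M) := simple_solv bu hp (hH.map _)
      (hSP.map (QuotientGroup.mk'_surjective M)) hHM
    have hcomm := IsSimpleGroup.comm_iff_isSolvable.2 hsol
    -- each Sylow subgroup for a prime `q ≠ p` is contained in `M`
    have hQM : ∀ q : ℕ, q.Prime → q ≠ p → ∀ Q : Sylow q L, (Q : Subgroup L) ≤ M := by
      intro q hq hqp Q
      let _ : CommGroup (L ⧸ M) := { (inferInstance : Group (L ⧸ M)) with mul_comm := hcomm }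
      have hpr : (Nat.card (L ⧸ M)).Prime := IsSimpleGroup.prime_card
      have hpd : Nat.card (L ⧸ M) = p := by
        obtain ⟨a, ha⟩ := IsPGroup.iff_card.1 (hH.map (QuotientGroup.mk' M))
        have ha0 : a ≠ 0 := by
          rintro rfl
          rw [pow_zero, Subgroup.card_eq_one] at ha
          exact hHM ha
        have h2 : p ∣ Nat.card (L ⧸ M) := by
          refine (dvd_pow_self p ha0).trans ?_
          rw [← ha]
          exact Subgroup.card_subgroup_dvd_card _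
        exact ((Nat.prime_dvd_prime_iff_eq hp hpr).1 h2).symm
      intro x hx
      obtain ⟨j, hj⟩ := Q.2 ⟨x, hx⟩
      have hj' : x ^ q ^ j = 1 := congrArg Subtype.val hj
      refine (QuotientGroup.eq_one_iff x).1 ?_
      refine coprime_one (i := 1) (j := j) hp hq hqp.symm ?_ ?_
      · rw [pow_one, ← hpd]; exact pow_card_eq_one'
      · rw [← QuotientGroup.mk_pow, hj']; rfl
    have hQnorm : ∀ q : ℕ, q.Prime → q ≠ p → ∀ Q : Sylow q L, ∀ h ∈ H, ∀ x ∈ Q,
        h * x * h⁻¹ ∈ Q := by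
      intro q hq hqp Q h hh x hx
      obtain ⟨x', hx', h', hh', e⟩ := hSP q hq hqp Q h hh x hx
      have hxM := hQM q hq hqp Q hx
      have hxM' := hQM q hq hqp Q hx'
      have h2 : h' * h⁻¹ ∈ H ⊓ M := by
        refine mem_inf.2 ⟨mul_mem hh' (inv_mem hh), ?_⟩
        have h3 : h * x * h⁻¹ ∈ M := hM.conj_mem _ hxM h
        rw [e, mul_assoc] at h3
        exact (Subgroup.mul_mem_cancel_left M hxM').1 h3
      rw [h1, mem_bot, mul_inv_eq_one] at h2
      rw [e, h2, mul_inv_cancel_right]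
      exact hx'
    have hQn : ∀ q : ℕ, q.Prime → q ≠ p → ∀ Q : Sylow q L, (Q : Subgroup L).Normal := by
      intro q hq hqp Q
      rw [← normalizer_eq_top_iff, eq_top_iff, ← hK]
      apply normalClosure_le_of
      intro g b hb
      have key : ∀ b ∈ H, ∀ x ∈ Q, (g * b * g⁻¹) * x * (g * b * g⁻¹)⁻¹ ∈ Q := by
        intro b hb x hx
        have h2 : g⁻¹ * x * g ∈ g⁻¹ • Q := by
          change g⁻¹ * x * g ∈ (g⁻¹ • Q : Sylow q L).toSubgroup
          rw [Sylow.coe_subgroup_smul, mem_cj]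
          have e : g⁻¹⁻¹ * (g⁻¹ * x * g) * g⁻¹ = x := by group
          rw [e]; exact hx
        have h3 := hQnorm q hq hqp (g⁻¹ • Q) b hb _ h2
        change _ ∈ (g⁻¹ • Q : Sylow q L).toSubgroup at h3
        rw [Sylow.coe_subgroup_smul, mem_cj] at h3
        have e : g⁻¹⁻¹ * (b * (g⁻¹ * x * g) * b⁻¹) * g⁻¹ = g * b * g⁻¹ * x * (g * b * g⁻¹)⁻¹ := by
          group
        rw [e] at h3; exact h3
      rw [mem_normalizer_iff]
      intro x
      constructor
      · exact fun hx => key b hb x hx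
      · intro hx
        have h2 := key b⁻¹ (inv_mem hb) _ hx
        have h3 : g * b⁻¹ * g⁻¹ * (g * b * g⁻¹ * x * (g * b * g⁻¹)⁻¹) * (g * b⁻¹ * g⁻¹)⁻¹ = x := by
          group
        rw [h3] at h2
        exact h2
    have hpg : ∀ q : ℕ, q.Prime → q ∣ Nat.card L → q = p := by
      intro q hq hqL
      by_contra hqp
      have : Fact q.Prime := ⟨hq⟩
      obtain ⟨Q⟩ : Nonempty (Sylow q L) := inferInstance
      have hnil : Group.IsNilpotent Q := Q.2.isNilpotent
      exact Q.ne_bot_of_dvd_card hqL (hL Q (hQn q hq hqp Q) inferInstance)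
    have h2 := Nat.eq_prime_pow_of_unique_prime_dvd (Nat.card_pos (α := L)).ne'
      (fun {d} hd hdS => hpg d hd hdS)
    have hpL : IsPGroup p L := IsPGroup.of_card h2
    have hnil : Group.IsNilpotent L := hpL.isNilpotent
    have h3 : (⊤ : Subgroup L) = ⊥ := hL ⊤ inferInstance inferInstance
    exact hne (le_bot_iff.1 (h3 ▸ le_top))
  · have h1 := hres _ inferInstance hK
    rw [inf_eq_left.2 le_normalClosure] at h1
    exact hne h1

end

end Pool.Agent.T6.H25.PM
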