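import Mathlib
import Pool.Agent.T6.H25.PMSolv

set_option autoImplicit false

/-!
# Propermutable `p`-subgroups have solvable normal closure
-/

namespace Pool.Agent.T6.H25.PM

open Subgroup
open scoped Pointwise

section
universe u
variable {G : Type u} [Group G]

lemma index_eq_relIndex {N B : Subgroup G} (h : ∀ g : G, ∃ n ∈ N, ∃ b ∈ B, g = n * b) :
    N.index = N.relIndex B := by
  symm
  let f : B ⧸ N.subgroupOf B → G ⧸ N := Quotient.map' (fun b : B => (b : G)) (by
    intro a b hab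
    rw [QuotientGroup.leftRel_apply] at hab ⊢
    rw [mem_subgroupOf] at hab
    simpa using hab)
  change Nat.card (B ⧸ N.subgroupOf B) = Nat.card (G ⧸ N)
  refine Nat.card_eq_of_bijective f ⟨?_, ?_⟩
  · intro a b hab
    obtain ⟨a, rfl⟩ := QuotientGroup.mk_surjective a
    obtain ⟨b, rfl⟩ := QuotientGroup.mk_surjective b
    have h1 : (QuotientGroup.mk (a : G) : G ⧸ N) = QuotientGroup.mk (b : G) := hab
    rw [QuotientGroup.eq] at h1 ⊢
    rw [mem_subgroupOf]
    simpa using h1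
  · intro g
    obtain ⟨g, rfl⟩ := QuotientGroup.mk_surjective g
    obtain ⟨n, hn, b, hb, e⟩ := h g⁻¹
    refine ⟨QuotientGroup.mk (⟨b, hb⟩⁻¹ : B), ?_⟩
    change (QuotientGroup.mk ((⟨b, hb⟩⁻¹ : B) : G) : G ⧸ N) = QuotientGroup.mk g
    rw [QuotientGroup.eq]
    have : g = b⁻¹ * n⁻¹ := by rw [← mul_inv_rev, ← e, inv_inv]
    rw [this]
    simpa using hn

lemma sp_of [Finite G] {p : ℕ} (hp : p.Prime) {H B : Subgroup G} (hH : IsPGroup p H)
    (htop : H ⊔ B = ⊤) (hperm : ∀ X ≤ B, Pm H X) : SP p H := by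
  intro q hq hqp Q
  have : Fact q.Prime := ⟨hq⟩
  have : Fact p.Prime := ⟨hp⟩
  obtain ⟨QB⟩ : Nonempty (Sylow q B) := inferInstance
  have hle : (QB : Subgroup B).map B.subtype ≤ B := map_subtype_le _
  have hpg : IsPGroup q ((QB : Subgroup B).map B.subtype) := QB.2.map _
  have hidx : ¬ q ∣ ((QB : Subgroup B).map B.subtype).index := by
    rw [index_map_subtype]
    apply hq.not_dvd_mul QB.not_dvd_index
    have h1 : B.index = B.relIndex H := by
      apply index_eq_relIndex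
      intro g
      obtain ⟨a, ha, b, hb, e⟩ := (hperm B le_rfl).symm.mem_sup (x := g) (by
        rw [sup_comm, htop]; exact mem_top _)
      exact ⟨a, ha, b, hb, e⟩
    have h2 : B.relIndex H ∣ Nat.card H := (B.subgroupOf H).index_dvd_card
    obtain ⟨a, ha⟩ := IsPGroup.iff_card.1 hH
    intro hd
    rw [h1] at hd
    have h3 := hd.trans h2
    rw [ha] at h3
    exact hqp ((Nat.prime_dvd_prime_iff_eq hq hp).1 (hq.dvd_of_dvd_pow h3))
  obtain ⟨x, hx⟩ := MulAction.exists_smul_eq G (hpg.toSylow hidx) Q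
  obtain ⟨h, hh, b, hb, e⟩ := (hperm B le_rfl).mem_sup (x := x) (by rw [htop]; exact mem_top _)
  have h1 : (Q : Subgroup G) = MulAut.conj h • (MulAut.conj b • (QB : Subgroup B).map B.subtype) := by
    rw [← hx, Sylow.coe_subgroup_smul, cj_cj, e]
    rfl
  have h2 : MulAut.conj b • (QB : Subgroup B).map B.subtype ≤ B := by
    intro y hy
    rw [mem_cj] at hy
    have h3 := hle hy
    have h4 := mul_mem (mul_mem hb h3) (inv_mem hb)
    have h5 : b * (b⁻¹ * y * b) * b⁻¹ = y := by group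
    rwa [h5] at h4
  have h3 := (hperm _ h2).cj h
  have h4 : MulAut.conj h • H = H := by
    ext y
    rw [mem_cj]
    constructor
    · intro hy
      have h5 := mul_mem (mul_mem hh hy) (inv_mem hh)
      have h6 : h * (h⁻¹ * y * h) * h⁻¹ = y := by group
      rwa [h6] at h5
    · intro hy
      exact mul_mem (mul_mem (inv_mem hh) hy) hh
  rw [h4] at h3
  rw [h1]
  exact h3

lemma exists_solv_of_noSol [Finite G]
    (H : Subgroup G) (h : ∀ R : Subgroup G, ∀ _ : R.Normal, NoSol (G ⧸ R) →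
      H.map (QuotientGroup.mk' R) = ⊥) :
    ∃ N : Subgroup G, N.Normal ∧ Group.IsSolvable N ∧ H ≤ N := by
  obtain ⟨R, ⟨hR1, hR2⟩, hR3⟩ := exists_rad G
  refine ⟨R, hR1, hR2, ?_⟩
  have h1 : NoSol (G ⧸ R) := by
    intro N hN hNs
    have h2 : (N.comap (QuotientGroup.mk' R)).Normal := inferInstance
    have hle : R ≤ N.comap (QuotientGroup.mk' R) := by
      intro x hx
      rw [mem_comap]
      have : QuotientGroup.mk' R x = 1 := (QuotientGroup.eq_one_iff x).2 hx
      rw [this]; exact one_mem _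
    have h3 : Group.IsSolvable (N.comap (QuotientGroup.mk' R)) := by
      refine Group.isSolvable_of_ker_le_range (Subgroup.inclusion hle)
        ((QuotientGroup.mk' R).subgroupComap N) ?_
      intro x hx
      have hx1 : (QuotientGroup.mk' R) (x : G) = 1 := congrArg Subtype.val (MonoidHom.mem_ker.1 hx)
      have hx2 : (x : G) ∈ R := (QuotientGroup.eq_one_iff _).1 hx1
      exact ⟨⟨x, hx2⟩, Subtype.ext rfl⟩
    have h4 := hR3 _ ⟨h2, h3⟩
    rw [eq_bot_iff]
    intro y hy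
    obtain ⟨x, rfl⟩ := QuotientGroup.mk_surjective y
    exact (QuotientGroup.eq_one_iff x).2 (h4 hy)
  have h2 := h R hR1 h1
  rwa [Subgroup.map_eq_bot_iff, QuotientGroup.ker_mk'] at h2

end

section
variable {G : Type} [Group G] [Finite G]

theorem exists_solv (bu : Burn) {p : ℕ} (hp : p.Prime) {H : Subgroup G} (hH : IsPGroup p H)
    (h : SP p H) : ∃ N : Subgroup G, N.Normal ∧ Group.IsSolvable N ∧ H ≤ N :=
  exists_solv_of_noSol H fun R _ hR => solv_core bu hp _ (G ⧸ R) rfl hR _ (hH.map _)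
    (h.map (QuotientGroup.mk'_surjective R))

theorem solv_closure (bu : Burn) {p : ℕ} (hp : p.Prime) {H B : Subgroup G} (hH : IsPGroup p H)
    (hB : ∀ g : G, ∃ n ∈ normalizer (H : Set G), ∃ b ∈ B, g = n * b)
    (hperm : ∀ X ≤ B, Pm H X) : Group.IsSolvable (normalClosure (H : Set G)) := by
  have hSP : SP p (H.subgroupOf (H ⊔ B)) := by
    refine sp_of hp (B := B.subgroupOf (H ⊔ B)) (isPGroup_subgroupOf hH _) ?_ ?_
    · rw [← subgroupOf_sup le_sup_left le_sup_right, subgroupOf_self]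
    · intro X hX
      have h1 : X.map (H ⊔ B).subtype ≤ B := by
        rintro _ ⟨y, hy, rfl⟩
        exact mem_subgroupOf.1 (hX hy)
      intro a ha x hx
      obtain ⟨b', hb', a', ha', e⟩ := hperm _ h1 a (mem_subgroupOf.1 ha) x ⟨x, hx, rfl⟩
      obtain ⟨y, hy, rfl⟩ := hb'
      exact ⟨y, hy, ⟨a', le_sup_left (a := H) ha'⟩, mem_subgroupOf.2 ha', Subtype.ext e⟩
  obtain ⟨N, hN, hNs, hHN⟩ := exists_solv bu hp (isPGroup_subgroupOf hH (H ⊔ B)) hSP
  have h1 : normalClosure (H : Set G) ≤ N.map (H ⊔ B).subtype := by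
    apply normalClosure_le_of
    intro g x hx
    obtain ⟨n, hn, b, hb, e⟩ := hB g⁻¹
    have e' : g = b⁻¹ * n⁻¹ := by rw [← mul_inv_rev, ← e, inv_inv]
    have h2 : n⁻¹ * x * n⁻¹⁻¹ ∈ H := (mem_normalizer_iff.1 (inv_mem hn) x).1 hx
    have h3 : (⟨n⁻¹ * x * n⁻¹⁻¹, le_sup_left (a := H) h2⟩ : (H ⊔ B : Subgroup G)) ∈ N :=
      hHN (mem_subgroupOf.2 h2)
    have hb' : b⁻¹ ∈ H ⊔ B := le_sup_right (a := H) (inv_mem hb)
    refine ⟨_, hN.conj_mem _ h3 ⟨b⁻¹, hb'⟩, ?_⟩
    change b⁻¹ * (n⁻¹ * x * n⁻¹⁻¹) * b⁻¹⁻¹ = g * x * g⁻¹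
    rw [e']; group
  have h2 : Group.IsSolvable (N.map (H ⊔ B).subtype) := solv_map _ hNs
  exact Group.isSolvable_of_isSolvable_injective (f := Subgroup.inclusion h1)
    (Subgroup.inclusion_injective h1)

end

end Pool.Agent.T6.H25.PM
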