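import Mathlib
import Pool.Agent.T6.H25.PMClos

set_option autoImplicit false

/-!
# Conjugates under a Sylow subgroup
-/

namespace Pool.Agent.T6.H25.PM

open Subgroup
open scoped Pointwise

universe u
variable {G : Type u} [Group G]

/-- every conjugate of `H` is a `P`-conjugate -/
def TI (P H : Subgroup G) : Prop := ∀ g : G, ∃ n ∈ normalizer (H : Set G), ∃ p ∈ P, g = n * p

lemma mul_of_coprime_index [Finite G] {N B : Subgroup G} (h : Nat.Coprime N.index B.index) :
    ∀ g : G, ∃ n ∈ N, ∃ b ∈ B, g = n * b := by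
  let f : B ⧸ N.subgroupOf B → G ⧸ N := Quotient.map' (fun b : B => (b : G)) (by
    intro a b hab
    rw [QuotientGroup.leftRel_apply] at hab ⊢
    rw [mem_subgroupOf] at hab
    simpa using hab)
  have hinj : Function.Injective f := by
    intro a b hab
    obtain ⟨a, rfl⟩ := QuotientGroup.mk_surjective a
    obtain ⟨b, rfl⟩ := QuotientGroup.mk_surjective b
    have h1 : (QuotientGroup.mk (a : G) : G ⧸ N) = QuotientGroup.mk (b : G) := hab
    rw [QuotientGroup.eq] at h1 ⊢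
    rw [mem_subgroupOf]
    simpa using h1
  have h1 : (N ⊓ B).relIndex B * B.index = (N ⊓ B).index := relIndex_mul_index inf_le_right
  rw [inf_relIndex_right] at h1
  have h2 : N.index ∣ (N ⊓ B).index := index_dvd_of_le inf_le_left
  rw [← h1] at h2
  have h3 : N.index ∣ N.relIndex B := h.dvd_of_dvd_mul_right h2
  have h4 : N.relIndex B ≠ 0 := by
    intro h0
    have := index_ne_zero_of_finite (H := N.subgroupOf B)
    exact this h0
  have h5 : Nat.card (G ⧸ N) ≤ Nat.card (B ⧸ N.subgroupOf B) := Nat.le_of_dvd (Nat.pos_of_ne_zero h4) h3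
  have hbij := hinj.bijective_of_nat_card_le h5
  intro g
  obtain ⟨b, hb⟩ := hbij.2 (QuotientGroup.mk g⁻¹)
  obtain ⟨b, rfl⟩ := QuotientGroup.mk_surjective b
  have h6 : (QuotientGroup.mk (b : G) : G ⧸ N) = QuotientGroup.mk g⁻¹ := hb
  rw [QuotientGroup.eq] at h6
  refine ⟨((b : G)⁻¹ * g⁻¹)⁻¹, inv_mem h6, (b : G)⁻¹, inv_mem b.2, ?_⟩
  group

lemma ti_of_propermutable [Finite G] {H B T : Subgroup G} (P : Sylow 2 G) (hH : IsPGroup 2 H)
    (hT : IsPGroup 2 T) (hTn : T.Normal)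
    (hB : ∀ g : G, ∃ n ∈ normalizer (H : Set G), ∃ b ∈ B, g = n * b)
    (hperm : ∀ X ≤ B, Pm H X) : TI (P : Subgroup G) (H ⊓ T) := by
  have hle : normalizer (H : Set G) ≤ normalizer ((H ⊓ T : Subgroup G) : Set G) := by
    intro g hg
    rw [mem_normalizer_iff] at hg ⊢
    intro x
    rw [mem_inf, mem_inf, ← hg x]
    refine and_congr_right fun _ => ?_
    constructor
    · exact fun h => hTn.conj_mem x h g
    · intro h
      have h1 := hTn.conj_mem _ h g⁻¹
      have h2 : g⁻¹ * (g * x * g⁻¹) * g⁻¹⁻¹ = x := by group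
      rwa [h2] at h1
  have hidx : (normalizer ((H ⊓ T : Subgroup G) : Set G)).index =
      (normalizer ((H ⊓ T : Subgroup G) : Set G)).relIndex B := by
    apply index_eq_relIndex
    intro g
    obtain ⟨n, hn, b, hb, e⟩ := hB g
    exact ⟨n, hle hn, b, hb, e⟩
  have hsup : IsPGroup 2 (H ⊔ T : Subgroup G) := hH.to_sup_of_normal_right hT
  apply mul_of_coprime_index
  apply Nat.Coprime.symm
  apply Nat.Coprime.symm
  rw [Nat.coprime_iff_isRelPrime]
  rw [← Nat.coprime_iff_isRelPrime]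
  apply Nat.coprime_of_dvd
  intro q hq hq1 hq2
  have hq2' : q ≠ 2 := by
    rintro rfl
    exact P.not_dvd_index hq2
  have : Fact q.Prime := ⟨hq⟩
  have : Fact (Nat.Prime 2) := ⟨Nat.prime_two⟩
  obtain ⟨Q⟩ : Nonempty (Sylow q B) := inferInstance
  have hQ : (Q : Subgroup B) ≤ (normalizer ((H ⊓ T : Subgroup G) : Set G)).subgroupOf B := by
    have key : ∀ x ∈ (Q : Subgroup B).map B.subtype, ∀ h ∈ H ⊓ T, x * h * x⁻¹ ∈ H ⊓ T := by
      intro x hx h hh
      have h1 := (hperm _ (map_subtype_le (Q : Subgroup B))).symm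
      obtain ⟨h', hh', x', hx', e⟩ := h1 x hx h hh.1
      have hT1 : x * h * x⁻¹ ∈ T := hTn.conj_mem _ hh.2 x
      have h2 : x' * x⁻¹ ∈ H ⊔ T := by
        have h3 : x' * x⁻¹ = h'⁻¹ * (x * h * x⁻¹) := by
          rw [e]; group
        rw [h3]
        exact mul_mem (le_sup_left (a := H) (inv_mem hh')) (le_sup_right (a := H) hT1)
      have h3 : x' * x⁻¹ ∈ (Q : Subgroup B).map B.subtype := mul_mem hx' (inv_mem hx)
      obtain ⟨i, hi⟩ := hsup ⟨_, h2⟩
      obtain ⟨j, hj⟩ := (Q.2.map B.subtype) ⟨_, h3⟩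
      have h4 : x' * x⁻¹ = 1 := coprime_one (i := i) (j := j) Nat.prime_two hq hq2'.symm
        (congrArg Subtype.val hi) (congrArg Subtype.val hj)
      refine mem_inf.2 ⟨?_, hT1⟩
      rw [e, mul_assoc, h4, mul_one]
      exact hh'
    intro y hy
    rw [mem_subgroupOf, mem_normalizer_iff]
    have hy' : (y : G) ∈ (Q : Subgroup B).map B.subtype := ⟨y, hy, rfl⟩
    intro h
    constructor
    · exact fun hh => key _ hy' h hh
    · intro hh
      have h1 := key _ (inv_mem hy') _ hh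
      have h2 : (y : G)⁻¹ * (y * h * (y : G)⁻¹) * (y : G)⁻¹⁻¹ = h := by group
      rwa [h2] at h1
  have h1 : (normalizer ((H ⊓ T : Subgroup G) : Set G)).relIndex B ∣ (Q : Subgroup B).index :=
    index_dvd_of_le hQ
  exact Q.not_dvd_index ((hidx ▸ hq1).trans h1)

/-- `P`-normal and `TI` gives normal -/
lemma TI.normal {P H : Subgroup G} (h : TI P H) (hP : P ≤ normalizer (H : Set G)) : H.Normal := by
  rw [← normalizer_eq_top_iff, eq_top_iff]
  intro g _
  obtain ⟨n, hn, p, hp, rfl⟩ := h g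
  exact mul_mem hn (hP hp)

lemma TI.sup {P H F : Subgroup G} (h : TI P H) (hF : F.Normal) : TI P (H ⊔ F) := by
  intro g
  obtain ⟨n, hn, p, hp, rfl⟩ := h g
  refine ⟨n, ?_, p, hp, rfl⟩
  have key : ∀ n ∈ normalizer (H : Set G), ∀ x ∈ H ⊔ F, n * x * n⁻¹ ∈ H ⊔ F := by
    intro n hn x hx
    obtain ⟨y, hy, z, hz, rfl⟩ := (mem_sup_of_normal_right).1 hx
    have h1 : n * (y * z) * n⁻¹ = (n * y * n⁻¹) * (n * z * n⁻¹) := by group
    rw [h1]
    exact mul_mem (le_sup_left (a := H) ((mem_normalizer_iff.1 hn y).1 hy))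
      (le_sup_right (a := H) (hF.conj_mem _ hz n))
  rw [mem_normalizer_iff]
  intro x
  constructor
  · exact key n hn x
  · intro hx
    have h1 := key n⁻¹ (inv_mem hn) _ hx
    have h2 : n⁻¹ * (n * x * n⁻¹) * n⁻¹⁻¹ = x := by group
    rwa [h2] at h1

end Pool.Agent.T6.H25.PM
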