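import Mathlib
import Pool.Agent.T6.H25.PMTwo

set_option autoImplicit false

/-!
# Chains of subgroups normalised by a 2-group
-/

namespace Pool.Agent.T6.H25.PM

open Subgroup
open scoped Pointwise

lemma exists_fix {P V : Type*} [Group P] [Group V] [Finite V] [MulAction P V] {p : ℕ}
    [hp : Fact p.Prime] (hP : IsPGroup p P) (hV : IsPGroup p V) (S : Subgroup V) (hS : S ≠ ⊤)
    (hinv : ∀ (g : P) (a b : V), a⁻¹ * b ∈ S → (g • a)⁻¹ * (g • b) ∈ S)
    (h1 : ∀ g : P, g • (1 : V) ∈ S) :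
    ∃ v, v ∉ S ∧ ∀ g : P, v⁻¹ * (g • v) ∈ S := by
  have : MulAction.QuotientAction P S := ⟨fun g a b => hinv g a b⟩
  have hcard : p ∣ Nat.card (V ⧸ S) := by
    obtain ⟨n, hn⟩ := hV.index S
    change p ∣ S.index
    rw [hn]
    apply dvd_pow_self
    rintro rfl
    rw [pow_zero, index_eq_one] at hn
    exact hS hn
  have h0 : ((1 : V) : V ⧸ S) ∈ MulAction.fixedPoints P (V ⧸ S) := by
    intro g
    rw [MulAction.Quotient.smul_coe, eq_comm, QuotientGroup.eq, inv_one, one_mul]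
    exact h1 g
  obtain ⟨b, hb, hne⟩ := hP.exists_fixed_point_of_prime_dvd_card_of_fixed_point (V ⧸ S) hcard h0
  obtain ⟨v, rfl⟩ := QuotientGroup.mk_surjective b
  refine ⟨v, ?_, ?_⟩
  · intro hv
    apply hne
    rw [QuotientGroup.eq, inv_one, one_mul]
    exact hv
  · intro g
    have h2 := hb g
    rw [MulAction.Quotient.smul_mk, eq_comm, QuotientGroup.eq] at h2
    exact h2

universe u
variable {G : Type u} [Group G]

lemma mem_norm {A : Subgroup G} {g : G} (hg : g ∈ normalizer (A : Set G)) {x : G} (hx : x ∈ A) :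
    g * x * g⁻¹ ∈ A := (mem_normalizer_iff.1 hg x).1 hx

lemma mem_norm' {A : Subgroup G} {g : G} (hg : g ∈ normalizer (A : Set G)) {x : G} (hx : x ∈ A) :
    g⁻¹ * x * g ∈ A := by
  have := mem_norm (inv_mem hg) hx
  rwa [inv_inv] at this

lemma mem_norm_of [Finite G] {A : Subgroup G} {g : G} (h : ∀ x ∈ A, g * x * g⁻¹ ∈ A) :
    g ∈ normalizer (A : Set G) := by
  have h1 : MulAut.conj g • A ≤ A := by
    intro y hy
    rw [mem_cj] at hy
    have := h _ hy
    have e : g * (g⁻¹ * y * g) * g⁻¹ = y := by group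
    rwa [e] at this
  have h2 : MulAut.conj g • A = A := by
    apply Subgroup.eq_of_le_of_card_ge h1
    exact (Nat.card_congr (equivSMul (MulAut.conj g) A).toEquiv).le
  rw [mem_normalizer_iff]
  intro x
  refine ⟨fun hx => h x hx, fun hx => ?_⟩
  rw [← h2, mem_cj] at hx
  have e : g⁻¹ * (g * x * g⁻¹) * g = x := by group
  rwa [e] at hx

lemma card_mul_relIndex {A B : Subgroup G} (h : A ≤ B) :
    Nat.card A * A.relIndex B = Nat.card B := by
  have := relIndex_mul_relIndex (⊥ : Subgroup G) A B bot_le h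
  rwa [relIndex_bot_left, relIndex_bot_left] at this

/-- adjoining an element whose square lies in the subgroup -/
lemma exists_ext2 {A : Subgroup G} {y : G} (hn : y ∈ normalizer (A : Set G)) (h2 : y * y ∈ A)
    (hy : y ∉ A) : ∃ X : Subgroup G, (∀ z, z ∈ X ↔ z ∈ A ∨ y⁻¹ * z ∈ A) ∧
      Nat.card X = 2 * Nat.card A ∧ X = zpowers y ⊔ A := by
  let X : Subgroup G :=
    { carrier := {z | z ∈ A ∨ y⁻¹ * z ∈ A}
      one_mem' := Or.inl (one_mem _)
      mul_mem' := by
        rintro z w (hz | hz) (hw | hw)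
        · exact Or.inl (mul_mem hz hw)
        · right
          have e : y⁻¹ * (z * w) = (y⁻¹ * z * y) * (y⁻¹ * w) := by group
          rw [e]
          exact mul_mem (mem_norm' hn hz) hw
        · right
          rw [← mul_assoc]
          exact mul_mem hz hw
        · left
          have e : z * w = (y * y) * (y⁻¹ * (y⁻¹ * z) * y) * (y⁻¹ * w) := by group
          rw [e]
          exact mul_mem (mul_mem h2 (mem_norm' hn hz)) hw
      inv_mem' := by
        rintro z (hz | hz)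
        · exact Or.inl (inv_mem hz)
        · right
          have e : y⁻¹ * z⁻¹ = (y⁻¹ * (y⁻¹ * z)⁻¹ * y) * (y * y)⁻¹ := by group
          rw [e]
          exact mul_mem (mem_norm' hn (inv_mem hz)) (inv_mem h2) }
  have hX : ∀ z, z ∈ X ↔ z ∈ A ∨ y⁻¹ * z ∈ A := fun z => Iff.rfl
  have hAX : A ≤ X := fun z hz => Or.inl hz
  have hyX : y ∈ X := Or.inr (by rw [inv_mul_cancel]; exact one_mem _)
  refine ⟨X, hX, ?_, ?_⟩
  · rw [← card_mul_relIndex hAX, mul_comm]
    congr 1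
    change (A.subgroupOf X).index = 2
    rw [index_eq_two_iff']
    refine ⟨⟨y, hyX⟩⁻¹, fun b => ?_⟩
    have hb := b.2
    rw [hX] at hb
    rw [mem_subgroupOf, mem_subgroupOf]
    change Xor (y⁻¹ * (b : G) ∈ A) ((b : G) ∈ A)
    by_cases h : (b : G) ∈ A
    · refine Or.inr ⟨h, fun h3 => hy ?_⟩
      have h4 := mul_mem h3 (inv_mem h)
      rw [mul_inv_cancel_right] at h4
      exact (inv_mem_iff).1 h4
    · exact Or.inl ⟨hb.resolve_left h, h⟩
  · apply le_antisymm
    · intro z hz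
      rcases (hX z).1 hz with h | h
      · exact le_sup_right (a := zpowers y) h
      · have e : z = y * (y⁻¹ * z) := by group
        rw [e]
        exact mul_mem (le_sup_left (a := zpowers y) (mem_zpowers y)) (le_sup_right (a := zpowers y) h)
    · exact sup_le (zpowers_le.2 hyX) hAX

/-- the bottom lemma -/
lemma bottom [Finite G] {P A B : Subgroup G} (hP : IsPGroup 2 P) (hAB : A ≤ B) (hne : A ≠ B)
    (hBP : B ≤ P) (hA : P ≤ normalizer (A : Set G)) (hB : P ≤ normalizer (B : Set G)) :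
    ∃ X : Subgroup G, A ≤ X ∧ X ≤ B ∧ P ≤ normalizer (X : Set G) ∧ Nat.card X = 2 * Nat.card A := by
  have : Fact (Nat.Prime 2) := ⟨Nat.prime_two⟩
  let act : MulAction P B :=
    { smul := fun g b => ⟨g * b * (g : G)⁻¹, mem_norm (hB g.2) b.2⟩
      one_smul := fun b => Subtype.ext (by
        change ((1 : P) : G) * b * ((1 : P) : G)⁻¹ = b
        simp)
      mul_smul := fun g h b => Subtype.ext (by
        change ((g * h : P) : G) * b * ((g * h : P) : G)⁻¹ = g * (h * b * (h : G)⁻¹) * (g : G)⁻¹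
        rw [Subgroup.coe_mul]; group) }
  have hsm : ∀ (g : P) (b : B), ((g • b : B) : G) = g * b * (g : G)⁻¹ := fun g b => rfl
  obtain ⟨v, hv1, hv2⟩ := exists_fix (P := P) (V := B) hP (hP.to_le hBP) (A.subgroupOf B)
    (by
      intro h
      rw [subgroupOf_eq_top] at h
      exact hne (le_antisymm hAB h))
    (by
      intro g a b hab
      rw [mem_subgroupOf] at hab ⊢
      rw [Subgroup.coe_mul, Subgroup.coe_inv, hsm, hsm]
      have h1 := mem_norm (hA g.2) hab
      rw [Subgroup.coe_mul, Subgroup.coe_inv] at h1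
      have e : ((g : G) * (a : G) * (g : G)⁻¹)⁻¹ * ((g : G) * (b : G) * (g : G)⁻¹) =
          (g : G) * ((a : G)⁻¹ * (b : G)) * (g : G)⁻¹ := by
        group
      rw [e]; exact h1)
    (by
      intro g
      rw [mem_subgroupOf, hsm]
      simp)
  -- powers of v
  have hpow : ∀ n : ℕ, ∀ g ∈ P, ((v : G) ^ n)⁻¹ * (g * (v : G) ^ n * g⁻¹) ∈ A := by
    intro n g hg
    induction n with
    | zero => simp
    | succ n ih =>
      have h1 := hv2 ⟨g, hg⟩
      rw [mem_subgroupOf, Subgroup.coe_mul, Subgroup.coe_inv, hsm] at h1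
      have h2 := mem_norm' (hA (hBP v.2)) ih
      have e : ((v : G) ^ (n + 1))⁻¹ * (g * (v : G) ^ (n + 1) * g⁻¹) =
          ((v : G)⁻¹ * (((v : G) ^ n)⁻¹ * (g * (v : G) ^ n * g⁻¹)) * v) *
            ((v : G)⁻¹ * (g * v * g⁻¹)) := by
        rw [pow_succ]; group
      rw [e]
      exact mul_mem h2 h1
  obtain ⟨n, hn⟩ := hP ⟨v, hBP v.2⟩
  have hn' : (v : G) ^ 2 ^ n = 1 := congrArg Subtype.val hn
  have hex : ∃ n, (v : G) ^ 2 ^ n ∈ A := ⟨n, by rw [hn']; exact one_mem _⟩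
  classical
  have hm := Nat.find_spec hex
  have hm0 : Nat.find hex ≠ 0 := by
    intro h0
    rw [h0, pow_zero, pow_one] at hm
    exact hv1 (mem_subgroupOf.2 hm)
  obtain ⟨m, hm'⟩ := Nat.exists_eq_succ_of_ne_zero hm0
  have hm1 : (v : G) ^ 2 ^ m ∉ A := Nat.find_min hex (by omega)
  rw [hm', Nat.succ_eq_add_one, pow_succ, mul_comm, pow_mul'] at hm
  set y : G := (v : G) ^ 2 ^ m with hy
  have hyB : y ∈ B := pow_mem v.2 _
  obtain ⟨X, hX1, hX2, hX3⟩ := exists_ext2 (hA (hBP hyB)) (by rwa [pow_two] at hm) hm1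
  refine ⟨X, fun z hz => (hX1 z).2 (Or.inl hz), ?_, ?_, hX2⟩
  · rw [hX3]
    exact sup_le (zpowers_le.2 hyB) hAB
  · intro g hg
    apply mem_norm_of
    intro z hz
    rw [hX1] at hz ⊢
    rcases hz with hz | hz
    · exact Or.inl (mem_norm (hA hg) hz)
    · right
      have h1 := mem_norm (hA hg) hz
      have h2 := hpow (2 ^ m) g hg
      have e : y⁻¹ * (g * z * g⁻¹) = (y⁻¹ * (g * y * g⁻¹)) * (g * (y⁻¹ * z) * g⁻¹) := by group
      rw [e]
      exact mul_mem h2 h1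

/-- a subgroup normalised by `P` of each intermediate order -/
lemma exists_order [Finite G] {P A B : Subgroup G} (hP : IsPGroup 2 P) (hAB : A ≤ B)
    (hBP : B ≤ P) (hA : P ≤ normalizer (A : Set G)) (hB : P ≤ normalizer (B : Set G)) {m : ℕ}
    (h1 : Nat.card A ≤ 2 ^ m) (h2 : 2 ^ m ≤ Nat.card B) :
    ∃ X : Subgroup G, A ≤ X ∧ X ≤ B ∧ P ≤ normalizer (X : Set G) ∧ Nat.card X = 2 ^ m := by
  have : Fact (Nat.Prime 2) := ⟨Nat.prime_two⟩
  obtain ⟨X, ⟨hX1, hX2, hX3, hX4⟩, hmax⟩ := (Set.toFinite {X : Subgroup G | A ≤ X ∧ X ≤ B ∧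
    P ≤ normalizer (X : Set G) ∧ Nat.card X ≤ 2 ^ m}).exists_maximal ⟨A, le_rfl, hAB, hA, h1⟩
  refine ⟨X, hX1, hX2, hX3, ?_⟩
  by_contra hne
  have hlt : Nat.card X < 2 ^ m := lt_of_le_of_ne hX4 hne
  have hXB : X ≠ B := by
    rintro rfl
    omega
  obtain ⟨Y, hY1, hY2, hY3, hY4⟩ := bottom hP hX2 hXB hBP hX3 hB
  obtain ⟨i, hi⟩ := IsPGroup.iff_card.1 (hP.to_le (hX2.trans hBP))
  have hY5 : Nat.card Y ≤ 2 ^ m := by
    rw [hY4, hi, ← pow_succ']
    rw [hi] at hlt
    have := (Nat.pow_lt_pow_iff_right (by norm_num : 1 < 2)).1 hlt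
    exact Nat.pow_le_pow_right (by norm_num) this
  have h3 := hmax ⟨hX1.trans hY1, hY2, hY3, hY5⟩ hY1
  have h4 := Subgroup.card_le_of_le h3
  have h5 : 0 < Nat.card X := Nat.card_pos
  omega

/-- the top lemma -/
lemma top [Finite G] {P A B : Subgroup G} (hP : IsPGroup 2 P) (hAB : A ≤ B) (hne : A ≠ B)
    (hBP : B ≤ P) (hA : P ≤ normalizer (A : Set G)) (hB : P ≤ normalizer (B : Set G)) :
    ∃ X : Subgroup G, A ≤ X ∧ X ≤ B ∧ P ≤ normalizer (X : Set G) ∧ Nat.card B = 2 * Nat.card X := by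
  have : Fact (Nat.Prime 2) := ⟨Nat.prime_two⟩
  obtain ⟨i, hi⟩ := IsPGroup.iff_card.1 (hP.to_le (hAB.trans hBP))
  obtain ⟨j, hj⟩ := IsPGroup.iff_card.1 (hP.to_le hBP)
  have h1 : Nat.card A < Nat.card B := by
    rcases (Subgroup.card_le_of_le hAB).lt_or_eq with h | h
    · exact h
    · exact absurd (Subgroup.eq_of_le_of_card_ge hAB h.ge) hne
  have h2 : i < j := by
    rw [hi, hj] at h1
    exact (Nat.pow_lt_pow_iff_right (by norm_num : 1 < 2)).1 h1
  obtain ⟨m, rfl⟩ : ∃ m, j = m + 1 := ⟨j - 1, by omega⟩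
  obtain ⟨X, hX1, hX2, hX3, hX4⟩ := exists_order (m := m) hP hAB hBP hA hB
    (by rw [hi]; exact Nat.pow_le_pow_right (by norm_num) (by omega))
    (by rw [hj]; exact Nat.pow_le_pow_right (by norm_num) (by omega))
  exact ⟨X, hX1, hX2, hX3, by rw [hj, hX4, pow_succ']⟩

end Pool.Agent.T6.H25.PM
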