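import Mathlib
import Pool.Agent.T6.H25.PMChain
import Pool.Agent.T6.H25.PMClos

set_option autoImplicit false

/-!
# Mutually permutable subgroups: basic facts, prefactorised Sylow subgroups
-/

namespace Pool.Agent.T6.H25.MPG

open Subgroup
open scoped Pointwise
open Pool.Agent.T6.H25.PM

universe u v
variable {G : Type u} [Group G]

/-- mutual permutability -/
def MP (A B : Subgroup G) : Prop := (∀ X ≤ A, Pm X B) ∧ (∀ X ≤ B, Pm A X)

lemma MP.symm {A B : Subgroup G} (h : MP A B) : MP B A :=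
  ⟨fun X hX => (h.2 X hX).symm, fun X hX => (h.1 X hX).symm⟩

lemma pm_of_le {X A : Subgroup G} (h : X ≤ A) : Pm X A := fun x hx a ha =>
  ⟨x * a, mul_mem (h hx) ha, 1, one_mem _, by simp⟩

lemma MP.refl (A : Subgroup G) : MP A A := ⟨fun _ hX => pm_of_le hX, fun _ hX => (pm_of_le hX).symm⟩

lemma Pm.inf_right {X B N : Subgroup G} (h : Pm X B) (hX : X ≤ N) : Pm X (N ⊓ B) := by
  intro x hx b hb
  obtain ⟨b', hb', x', hx', e⟩ := h x hx b hb.2
  refine ⟨b', mem_inf.2 ⟨?_, hb'⟩, x', hx', e⟩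
  have : b' = x * b * x'⁻¹ := by rw [e]; group
  rw [this]
  exact mul_mem (mul_mem (hX hx) hb.1) (inv_mem (hX hx'))

lemma MP.inf {A B : Subgroup G} (h : MP A B) (N : Subgroup G) : MP (N ⊓ A) (N ⊓ B) :=
  ⟨fun X hX => Pm.inf_right (h.1 X (hX.trans inf_le_right)) (hX.trans inf_le_left),
   fun X hX => (Pm.inf_right (h.2 X (hX.trans inf_le_right)).symm (hX.trans inf_le_left)).symm⟩

lemma eq_map_of_le {G' : Type*} [Group G'] {f : G →* G'} {A : Subgroup G} {X' : Subgroup G'}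
    (h : X' ≤ A.map f) : (A ⊓ X'.comap f).map f = X' := by
  ext x
  constructor
  · rintro ⟨a, ha, rfl⟩
    exact ha.2
  · intro hx
    obtain ⟨a, ha, rfl⟩ := h hx
    exact ⟨a, ⟨ha, hx⟩, rfl⟩

lemma MP.map {G' : Type*} [Group G'] (f : G →* G') {A B : Subgroup G} (h : MP A B) :
    MP (A.map f) (B.map f) := by
  constructor
  · intro X hX
    rw [← eq_map_of_le hX]
    exact (h.1 _ inf_le_left).map f
  · intro X hX
    rw [← eq_map_of_le hX]
    exact (h.2 _ inf_le_left).map f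

lemma Pm.pull {X : Subgroup G} {N : Subgroup G} {X' : Subgroup N} {B : Subgroup G}
    (hX : X'.map N.subtype = X) (h : Pm X B) : Pm X' (B.subgroupOf N) := by
  intro x hx b hb
  rw [mem_subgroupOf] at hb
  have hx' : (x : G) ∈ X := by rw [← hX]; exact ⟨x, hx, rfl⟩
  obtain ⟨b', hb', y, hy, e⟩ := h _ hx' _ hb
  rw [← hX] at hy
  obtain ⟨y', hy', rfl⟩ := hy
  have e' : (x : G) * b = b' * y' := e
  have hb'N : b' ∈ N := by
    have : b' = x * b * (y' : G)⁻¹ := by rw [e']; group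
    rw [this]
    exact mul_mem (mul_mem x.2 b.2) (inv_mem y'.2)
  exact ⟨⟨b', hb'N⟩, by rw [mem_subgroupOf]; exact hb', y', hy', Subtype.ext e'⟩

lemma MP.subgroupOf {A B : Subgroup G} (h : MP A B) (N : Subgroup G) :
    MP (A.subgroupOf N) (B.subgroupOf N) := by
  constructor
  · intro X hX
    refine Pm.pull rfl (h.1 _ ?_)
    rintro _ ⟨x, hx, rfl⟩
    exact hX hx
  · intro X hX
    refine (Pm.pull rfl (h.2 _ ?_).symm).symm
    rintro _ ⟨x, hx, rfl⟩
    exact hX hx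

lemma pm_sup {ι : Type*} [DecidableEq ι] (s : Finset ι) (K : ι → Subgroup G) {B : Subgroup G}
    (h : ∀ i ∈ s, Pm (K i) B) : Pm (s.sup K) B := by
  induction s using Finset.induction_on with
  | empty =>
    rw [Finset.sup_empty]
    intro a ha b hb
    rw [mem_bot] at ha
    exact ⟨b, hb, 1, one_mem _, by rw [ha]; simp⟩
  | insert i s _ ih =>
    rw [Finset.sup_insert]
    exact (h i (Finset.mem_insert_self i s)).sup_left
      (ih (fun j hj => h j (Finset.mem_insert_of_mem hj)))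

lemma relIndex_eq {N B T : Subgroup G} (hB : B ≤ T)
    (h : ∀ g ∈ T, ∃ n ∈ N, ∃ b ∈ B, g = n * b) : N.relIndex T = N.relIndex B := by
  have h1 := index_eq_relIndex (N := N.subgroupOf T) (B := B.subgroupOf T) (by
    intro g
    obtain ⟨n, hn, b, hb, e⟩ := h g g.2
    have hbT := hB hb
    have hnT : n ∈ T := by
      have : n = g * b⁻¹ := by rw [e]; group
      rw [this]; exact mul_mem g.2 (inv_mem hbT)
    exact ⟨⟨n, hnT⟩, mem_subgroupOf.2 hn, ⟨b, hbT⟩, mem_subgroupOf.2 hb, Subtype.ext e⟩)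
  rwa [relIndex_subgroupOf hB] at h1

lemma syl_dom [Finite G] {p : ℕ} (hp : p.Prime) {X P Q : Subgroup G} (hP : IsPGroup p P)
    (hPX : P ≤ X) (hi : ¬ p ∣ Q.relIndex X) : ∃ g ∈ X, ∀ x ∈ P, g * x * g⁻¹ ∈ Q := by
  have : Fact p.Prime := ⟨hp⟩
  obtain ⟨ω, hω⟩ := (isPGroup_subgroupOf hP X).nonempty_fixed_point_of_prime_not_dvd_card
    (↥X ⧸ Q.subgroupOf X) hi
  obtain ⟨g, rfl⟩ := QuotientGroup.mk_surjective ω
  refine ⟨(g : G)⁻¹, inv_mem g.2, fun x hx => ?_⟩
  have h1 := hω ⟨⟨x, hPX hx⟩, mem_subgroupOf.2 hx⟩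
  have h2 : (QuotientGroup.mk (⟨x, hPX hx⟩ * g) : ↥X ⧸ Q.subgroupOf X) = QuotientGroup.mk g := h1
  rw [eq_comm, QuotientGroup.eq, mem_subgroupOf] at h2
  have h3 : (g : G)⁻¹ * (x * g) ∈ Q := h2
  rw [inv_inv, mul_assoc]; exact h3

lemma exists_syl [Finite G] {p : ℕ} (hp : p.Prime) {X P0 : Subgroup G} (hP0 : IsPGroup p P0)
    (h0 : P0 ≤ X) : ∃ P : Subgroup G, P0 ≤ P ∧ P ≤ X ∧ IsPGroup p P ∧ ¬ p ∣ P.relIndex X := by
  have : Fact p.Prime := ⟨hp⟩
  obtain ⟨P, hP⟩ := (isPGroup_subgroupOf hP0 X).exists_le_sylow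
  refine ⟨(P : Subgroup X).map X.subtype, ?_, ?_, P.2.map _, ?_⟩
  · intro x hx
    exact ⟨⟨x, h0 hx⟩, hP (mem_subgroupOf.2 hx), rfl⟩
  · rintro _ ⟨x, _, rfl⟩
    exact x.2
  · rw [relIndex, subgroupOf, comap_map_eq_self_of_injective (subtype_injective X)]
    exact P.not_dvd_index

/-- prefactorised Sylow subgroups -/
lemma exists_presylow [Finite G] {p : ℕ} (hp : p.Prime) {ι : Type*} [DecidableEq ι]
    {H : ι → Subgroup G} (hmp : ∀ i j, MP (H i) (H j)) (s : Finset ι) :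
    ∃ P : Subgroup G, IsPGroup p P ∧ P ≤ s.sup H ∧ ¬ p ∣ P.relIndex (s.sup H) ∧
      P ≤ s.sup (fun i => P ⊓ H i) ∧ ∀ i ∈ s, ¬ p ∣ P.relIndex (H i) := by
  have : Fact p.Prime := ⟨hp⟩
  induction s using Finset.induction_on with
  | empty =>
    refine ⟨⊥, IsPGroup.of_bot, bot_le, ?_, bot_le, by simp⟩
    rw [Finset.sup_empty, relIndex_self]
    exact hp.one_lt.ne' ∘ Nat.dvd_one.1
  | insert j s _ ih =>
    obtain ⟨P', hP'p, hP'le, hP'i, hP'sup, hP'j⟩ := ih
    have hle2 : s.sup (fun i => P' ⊓ H i) ≤ P' := Finset.sup_le fun i _ => inf_le_left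
    have hPmj : Pm P' (H j) := by
      rw [le_antisymm hP'sup hle2]
      exact pm_sup s _ fun i _ => (hmp i j).1 _ inf_le_right
    obtain ⟨P, hP'P, hPT, hPp, hPi⟩ := exists_syl hp hP'p (le_sup_left : P' ≤ P' ⊔ H j)
    have hsup : (insert j s).sup H = H j ⊔ s.sup H := Finset.sup_insert
    have hT : P' ⊔ H j ≤ (insert j s).sup H := by
      rw [hsup]; exact sup_le (hP'le.trans le_sup_right) le_sup_left
    have hdec : ∀ g ∈ P, ∃ x ∈ P', ∃ y ∈ P ⊓ H j, g = x * y := by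
      intro g hg
      obtain ⟨x, hx, y, hy, e⟩ := hPmj.mem_sup (hPT hg)
      refine ⟨x, hx, y, mem_inf.2 ⟨?_, hy⟩, e⟩
      have : y = x⁻¹ * g := by rw [e]; group
      rw [this]; exact mul_mem (inv_mem (hP'P hx)) hg
    refine ⟨P, hPp, hPT.trans hT, ?_, ?_, ?_⟩
    · rw [← relIndex_mul_relIndex P (P' ⊔ H j) _ hPT hT]
      refine Nat.Prime.not_dvd_mul hp hPi ?_
      have h1 : (P' ⊔ H j).relIndex ((insert j s).sup H) = (P' ⊔ H j).relIndex (s.sup H) := by
        refine relIndex_eq (Finset.sup_mono (Finset.subset_insert j s)) ?_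
        intro g hg
        rw [hsup] at hg
        have h2 : Pm (H j) (s.sup H) := (pm_sup s H fun i _ => (hmp i j).1 _ le_rfl).symm
        obtain ⟨x, hx, y, hy, e⟩ := h2.mem_sup hg
        exact ⟨x, le_sup_right (a := P') hx, y, hy, e⟩
      rw [h1]
      intro h2
      exact hP'i (h2.trans (relIndex_dvd_of_le_left _ le_sup_left))
    · intro g hg
      obtain ⟨x, hx, y, hy, e⟩ := hdec g hg
      rw [e, Finset.sup_insert]
      refine mul_mem (le_sup_right (a := P ⊓ H j) ?_) (le_sup_left (a := P ⊓ H j) hy)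
      have h3 : s.sup (fun i => P' ⊓ H i) ≤ s.sup (fun i => P ⊓ H i) :=
        Finset.sup_mono_fun fun i _ => inf_le_inf_right _ hP'P
      exact h3 (hP'sup hx)
    · intro i hi
      rw [Finset.mem_insert] at hi
      rcases hi with rfl | hi
      · have h1 : P.relIndex (P' ⊔ H i) = P.relIndex (H i) := by
          refine relIndex_eq le_sup_right ?_
          intro g hg
          obtain ⟨x, hx, y, hy, e⟩ := hPmj.mem_sup hg
          exact ⟨x, hP'P hx, y, hy, e⟩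
        rw [← h1]; exact hPi
      · intro h2
        exact hP'j i hi (h2.trans (relIndex_dvd_of_le_left _ hP'P))

end Pool.Agent.T6.H25.MPG
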