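import Mathlib
import Pool.Agent.T6.H25.MPBasic

set_option autoImplicit false

/-!
# The step lemma for mutually permutable subgroups
-/

namespace Pool.Agent.T6.H25.MPG

open Subgroup
open scoped Pointwise
open Pool.Agent.T6.H25.PM

universe u v
variable {G : Type u} [Group G]

/-- a power map extracting `q`-parts -/
lemma exists_qpart (G : Type u) [Group G] [Finite G] {q : ℕ} (hq : q.Prime) :
    ∃ m : ℕ, (∀ g : G, ∃ k, (g ^ m) ^ q ^ k = 1) ∧ ∀ g : G, (∃ k, g ^ q ^ k = 1) → g ^ m = g := by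
  obtain ⟨a, u, hu, e⟩ := Nat.exists_eq_pow_mul_and_not_dvd (n := Nat.card G) Nat.card_pos.ne' q
    hq.ne_one
  have hco : Nat.Coprime (q ^ a) u := Nat.Coprime.pow_left _ ((Nat.Prime.coprime_iff_not_dvd hq).2 hu)
  obtain ⟨m, hm1, hm2⟩ := Nat.chineseRemainder hco 1 0
  refine ⟨m, fun g => ⟨a, ?_⟩, fun g ⟨k, hk⟩ => ?_⟩
  · have h1 : u ∣ m := (Nat.modEq_zero_iff_dvd).1 hm2
    rw [← pow_mul]
    obtain ⟨w, rfl⟩ := h1
    have : u * w * q ^ a = Nat.card G * w := by rw [e]; ring
    rw [this, pow_mul, pow_card_eq_one', one_pow]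
  · have h1 : orderOf g ∣ q ^ k := orderOf_dvd_of_pow_eq_one hk
    have h2 : orderOf g ∣ q ^ a * u := by rw [← e]; exact orderOf_dvd_natCard g
    have h3 : Nat.Coprime (orderOf g) u := Nat.Coprime.coprime_dvd_left h1
      (Nat.Coprime.pow_left _ ((Nat.Prime.coprime_iff_not_dvd hq).2 hu))
    have h4 : orderOf g ∣ q ^ a := h3.dvd_of_dvd_mul_right h2
    have h5 : g ^ m = g ^ 1 := pow_eq_pow_iff_modEq.2 (hm1.of_dvd h4)
    rw [h5, pow_one]

lemma isPGroup_zpowers {q : ℕ} {a : G} {k : ℕ} (h : a ^ q ^ k = 1) : IsPGroup q (zpowers a) := by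
  rintro ⟨x, hx⟩
  obtain ⟨i, rfl⟩ := mem_zpowers_iff.1 hx
  refine ⟨k, Subtype.ext ?_⟩
  change (a ^ i) ^ q ^ k = 1
  rw [← zpow_natCast, ← zpow_mul, mul_comm, zpow_mul, zpow_natCast, h, one_zpow]

/-- generation by elements of prime power order -/
lemma gen_pp [Finite G] {A K : Subgroup G}
    (h : ∀ q : ℕ, q.Prime → ∀ a ∈ A, (∃ k, a ^ q ^ k = 1) → a ∈ K) : A ≤ K := by
  rw [← relIndex_eq_one]
  by_contra hne
  obtain ⟨q, hq, hd⟩ := Nat.exists_prime_and_dvd hne
  obtain ⟨P, _, hPA, hP, hPi⟩ := exists_syl hq (IsPGroup.of_bot : IsPGroup q (⊥ : Subgroup G))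
    (bot_le : ⊥ ≤ A)
  apply hPi
  refine hd.trans (relIndex_dvd_of_le_left _ ?_)
  intro x hx
  obtain ⟨k, hk⟩ := hP ⟨x, hx⟩
  exact h q hq x (hPA hx) ⟨k, congrArg Subtype.val hk⟩

/-- a subgroup of prime order `t` permuting with a cyclic `q`-group, `q < t`, is normalised by it -/
lemma norm_of_lt [Finite G] {q t : ℕ} (hq : q.Prime) (ht : t.Prime) (hqt : q < t) {a : G} {k : ℕ}
    (ha : a ^ q ^ k = 1) {T : Subgroup G} (hT : Nat.card T = t) (h : Pm (zpowers a) T) :
    a ∈ normalizer (T : Set G) := by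
  have : Fact q.Prime := ⟨hq⟩
  have : Fact t.Prime := ⟨ht⟩
  have hA := isPGroup_zpowers ha
  have hTp : IsPGroup t T := IsPGroup.of_card (n := 1) (by rw [hT, pow_one])
  have hdis : Disjoint (zpowers a) T := IsPGroup.disjoint_of_ne q t hqt.ne _ _ hA hTp
  set W := zpowers a ⊔ T with hW
  have hrel : (zpowers a).relIndex W = t := by
    rw [relIndex_eq (B := T) le_sup_right (fun g hg => h.mem_sup hg), ← inf_relIndex_right,
      disjoint_iff.1 hdis, relIndex_bot_left, hT]
  have hTW : T ≤ W := le_sup_right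
  have hAW : zpowers a ≤ W := le_sup_left
  obtain ⟨j, hj⟩ := IsPGroup.iff_card.1 hA
  have hcW : Nat.card W = q ^ j * t := by
    rw [← hj, ← hrel, card_mul_relIndex hAW]
  rcases Nat.eq_zero_or_pos j with hj0 | hj0
  · rw [hj0, pow_zero, card_eq_one, zpowers_eq_bot] at hj
    rw [hj]; exact one_mem _
  have hmin : (Nat.card W).minFac = q := by
    have h1 : (Nat.card W).minFac.Prime := Nat.minFac_prime (by
      rw [hcW]; intro h1; exact ht.one_lt.ne' (Nat.eq_one_of_mul_eq_one_left h1))
    have h2 : (Nat.card W).minFac ≤ q := Nat.minFac_le_of_dvd hq.two_le (by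
      rw [hcW]; exact (dvd_pow_self q hj0.ne').mul_right t)
    have h3 : (Nat.card W).minFac ∣ q ^ j * t := by
      rw [← hcW]; exact Nat.minFac_dvd _
    rcases (Nat.Prime.dvd_mul h1).1 h3 with h4 | h4
    · exact (Nat.prime_dvd_prime_iff_eq h1 hq).1 (h1.dvd_of_dvd_pow h4)
    · have := (Nat.prime_dvd_prime_iff_eq h1 ht).1 h4
      omega
  have hAp : IsPGroup q ((zpowers a).subgroupOf W) := isPGroup_subgroupOf hA W
  have hni : ¬ q ∣ ((zpowers a).subgroupOf W).index := by
    change ¬ q ∣ (zpowers a).relIndex W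
    rw [hrel]
    intro h1
    exact hqt.ne ((Nat.prime_dvd_prime_iff_eq hq ht).1 h1)
  let P : Sylow q W := hAp.toSylow hni
  have hPc : IsCyclic P := by
    have h1 : IsCyclic (zpowers a) := inferInstance
    exact isCyclic_of_injective (subgroupOfEquivOfLe hAW).toMonoidHom
      (subgroupOfEquivOfLe hAW).injective
  have hc := IsCyclic.isComplement' hmin (P := P) hPc
  set K := (MonoidHom.transferSylow P (hPc.normalizer_le_centralizer hmin)).ker with hK
  have hKi : K.index = q ^ j := by
    rw [hc.symm.index_eq_card, ← hj]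
    exact Nat.card_congr (subgroupOfEquivOfLe hAW).toEquiv
  have hTK : ∀ x : W, (x : G) ∈ T → x ∈ K := by
    intro x hx
    rw [← QuotientGroup.eq_one_iff]
    have h1 : (x : W) ^ t ^ 1 = 1 := by
      apply Subtype.ext
      have h2 : (⟨x, hx⟩ : T) ^ Nat.card T = 1 := pow_card_eq_one'
      have h3 : (x : G) ^ Nat.card T = 1 := congrArg Subtype.val h2
      rw [pow_one, ← hT]
      exact_mod_cast h3
    refine coprime_one (i := 1) (j := j) ht hq hqt.ne' ?_ ?_
    · rw [← QuotientGroup.mk_pow, h1]; rfl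
    · rw [← hKi]; exact pow_card_eq_one'
  have hKT : K = T.subgroupOf W := by
    symm
    apply eq_of_le_of_card_ge
    · intro x hx; exact hTK x (mem_subgroupOf.1 hx)
    · have h1 := K.card_mul_index
      rw [hKi, hcW, mul_comm] at h1
      have h2 : Nat.card K = t := Nat.eq_of_mul_eq_mul_left (pow_pos hq.pos j) h1
      rw [h2, ← hT]
      exact (Nat.card_congr (subgroupOfEquivOfLe hTW).toEquiv).ge
  apply mem_norm_of
  intro x hx
  have haW : a ∈ W := hAW (mem_zpowers a)
  have h1 : (⟨x, hTW hx⟩ : W) ∈ K := hTK _ hx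
  have hKn : K.Normal := by rw [hK]; infer_instance
  have h2 := hKn.conj_mem _ h1 ⟨a, haW⟩
  rw [hKT, mem_subgroupOf] at h2
  exact h2

lemma lt_of_core [Finite G] {M : Subgroup G} {t q : ℕ} (ht : t.Prime) (hq : q.Prime)
    (hM : M.index = t) (hcore : M.normalCore = ⊥) (hd : q ∣ Nat.card M) : q < t := by
  have h1 : Function.Injective (MulAction.toPermHom G (G ⧸ M)) := by
    rw [← MonoidHom.ker_eq_bot_iff, ← normalCore_eq_ker, hcore]
  have h2 := card_dvd_of_injective _ h1
  have h3 : Nat.card (Equiv.Perm (G ⧸ M)) = t.factorial := by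
    rw [Nat.card_perm, ← hM]; rfl
  rw [h3, ← M.card_mul_index, hM] at h2
  have h4 : t = (t - 1) + 1 := (Nat.sub_add_cancel ht.one_le).symm
  have h5 : t.factorial = (t - 1).factorial * t := by
    conv_lhs => rw [h4, Nat.factorial_succ]
    rw [← h4, mul_comm]
  rw [h5] at h2
  have h6 : Nat.card M ∣ (t - 1).factorial := Nat.dvd_of_mul_dvd_mul_right ht.pos h2
  have h7 := (hq.dvd_factorial).1 (hd.trans h6)
  have := ht.one_lt
  omega

/-- the subgroup of prime order is normalised by the stabiliser parts -/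
lemma norm_of_core [Finite G] {M T A : Subgroup G} {t : ℕ} (ht : t.Prime) (hM : M.index = t)
    (hcore : M.normalCore = ⊥) (hT : Nat.card T = t) (hA : A ≤ M)
    (h : ∀ a ∈ A, Pm (zpowers a) T) : A ≤ normalizer (T : Set G) := by
  apply gen_pp
  rintro q hq a ha ⟨k, hk⟩
  by_cases ha1 : a = 1
  · rw [ha1]; exact one_mem _
  have hd : q ∣ Nat.card M := by
    have h1 : orderOf a ∣ q ^ k := orderOf_dvd_of_pow_eq_one hk
    obtain ⟨i, _, hi⟩ := (Nat.dvd_prime_pow hq).1 h1
    have h2 : i ≠ 0 := by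
      rintro rfl
      rw [pow_zero, orderOf_eq_one_iff] at hi
      exact ha1 hi
    have h3 : orderOf a ∣ Nat.card M := by
      have := orderOf_dvd_natCard (⟨a, hA ha⟩ : M)
      rwa [orderOf_mk] at this
    rw [hi] at h3
    exact (dvd_pow_self q h2).trans h3
  exact norm_of_lt hq ht (lt_of_core ht hq hM hcore hd) hk hT (h a ha)

lemma solv_of_core [Finite G] {M T : Subgroup G} {t : ℕ} (ht : t.Prime)
    (hcore : M.normalCore = ⊥) (hT : Nat.card T = t) [hTn : T.Normal]
    (hG : ∀ g : G, ∃ m ∈ M, ∃ x ∈ T, g = m * x) :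
    Group.IsSolvable G ∧ Nat.card G ∣ t * (t - 1) := by
  have : Fact t.Prime := ⟨ht⟩
  have hcyc : IsCyclic T := isCyclic_of_prime_card hT
  have hker : (MulAut.conjNormal : G →* MulAut T).ker ≤ T := by
    intro g hg
    have hg' : ∀ x ∈ T, g * x = x * g := by
      intro x hx
      have h1 : (MulAut.conjNormal g : MulAut T) ⟨x, hx⟩ = ⟨x, hx⟩ := by
        rw [MonoidHom.mem_ker.1 hg]; rfl
      have h2 := congrArg Subtype.val h1
      rw [MulAut.conjNormal_apply] at h2
      calc g * x = (g * x * g⁻¹) * g := by group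
        _ = x * g := by rw [h2]
    have hTc : ∀ x ∈ T, ∀ y ∈ T, x * y = y * x := by
      intro x hx y hy
      have := (IsCyclic.isMulCommutative (α := T)).is_comm.comm (⟨x, hx⟩ : T) ⟨y, hy⟩
      exact congrArg Subtype.val this
    obtain ⟨m, hm, x, hx, rfl⟩ := hG g
    have hm' : ∀ y ∈ T, m * y = y * m := by
      intro y hy
      have h1 := hg' y hy
      have h2 := hTc x hx y hy
      have : m * y * x = y * m * x := by
        calc m * y * x = m * (y * x) := by group
          _ = m * (x * y) := by rw [h2]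
          _ = m * x * y := by group
          _ = y * (m * x) := h1
          _ = _ := by group
      exact mul_right_cancel this
    have hmc : m ∈ M.normalCore := by
      intro b
      obtain ⟨m', hm2, y, hy, rfl⟩ := hG b
      have : m' * y * m * (m' * y)⁻¹ = m' * m * m'⁻¹ := by
        calc m' * y * m * (m' * y)⁻¹ = m' * (y * m) * y⁻¹ * m'⁻¹ := by group
          _ = m' * (m * y) * y⁻¹ * m'⁻¹ := by rw [hm' y hy]
          _ = _ := by group
      rw [this]
      exact mul_mem (mul_mem hm2 hm) (inv_mem hm2)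
    rw [hcore, mem_bot] at hmc
    rw [hmc, one_mul]; exact hx
  constructor
  · have h1 : Group.IsSolvable (MulAut T) := by
      have h2 : ∀ a b : MulAut T, a * b = b * a := by
        intro a b
        have := (IsCyclic.mulAutMulEquiv T).injective (a₁ := a * b) (a₂ := b * a)
          (by rw [map_mul, map_mul, mul_comm])
        exact this
      exact Group.isSolvable_of_comm h2
    have h2 : Group.IsSolvable T := by
      have : Group.IsNilpotent T := IsPGroup.isNilpotent (p := t)
        (IsPGroup.of_card (n := 1) (by rw [hT, pow_one]))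
      infer_instance
    exact Group.isSolvable_of_ker_le_range T.subtype (MulAut.conjNormal : G →* MulAut T) (by
      rw [range_subtype]; exact hker)
  · rw [← T.card_mul_index, hT]
    apply Nat.mul_dvd_mul_left
    have h1 : (MulAut.conjNormal : G →* MulAut T).ker.index ∣ Nat.card (MulAut T) := by
      rw [index_ker]; exact card_subgroup_dvd_card _
    rw [IsCyclic.card_mulAut, hT, Nat.totient_prime ht] at h1
    exact (index_dvd_of_le hker).trans h1

end Pool.Agent.T6.H25.MPG
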