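import Mathlib
import Pool.Agent.T6.H25.MPStep

set_option autoImplicit false

/-!
# The step lemma for mutually permutable subgroups: assembly
-/

namespace Pool.Agent.T6.H25.MPG

open Subgroup
open scoped Pointwise
open Pool.Agent.T6.H25.PM

universe u v
variable {G : Type u} [Group G]

/-- the step lemma -/
theorem step [Finite G] {A B : Subgroup G} (h : MP A B) {t n : ℕ} (ht : t.Prime) {c : G}
    (hc : c ∈ B) (hcn : c ^ t ^ n = 1) (htop : A ⊔ zpowers c = ⊤) :
    ∃ C : Subgroup G, ∃ _ : C.Normal, C ≤ A ⊔ zpowers (c ^ t) ∧ Group.IsSolvable (G ⧸ C) ∧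
      C.index ∣ t * (t - 1) := by
  by_cases hA0 : A ⊔ zpowers (c ^ t) = ⊤
  · refine ⟨⊤, inferInstance, by rw [hA0], ?_, by simp⟩
    have : Subsingleton (G ⧸ (⊤ : Subgroup G)) := QuotientGroup.subsingleton_quotient_top
    infer_instance
  set A0 := A ⊔ zpowers (c ^ t) with hA0def
  have hzB : zpowers c ≤ B := by rw [zpowers_le]; exact hc
  have hztB : zpowers (c ^ t) ≤ B := by rw [zpowers_le]; exact pow_mem hc t
  have hAA0 : A ≤ A0 := le_sup_left
  have hcA : c ∉ A0 := by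
    intro h1
    apply hA0
    rw [eq_top_iff, ← htop]
    exact sup_le hAA0 (by rwa [zpowers_le])
  have hctA0 : c ^ t ∈ A0 := le_sup_right (a := A) (mem_zpowers _)
  have hdec : ∀ g : G, ∃ a ∈ A, ∃ i : ℤ, g = a * c ^ i := by
    intro g
    obtain ⟨a, ha, x, hx, e⟩ := (h.2 _ hzB).mem_sup (x := g) (by rw [htop]; exact mem_top _)
    obtain ⟨i, rfl⟩ := mem_zpowers_iff.1 hx
    exact ⟨a, ha, i, e⟩
  have hdec0 : ∀ g ∈ A0, ∃ a ∈ A, ∃ i : ℤ, g = a * (c ^ t) ^ i := by
    intro g hg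
    obtain ⟨a, ha, x, hx, e⟩ := (h.2 _ hztB).mem_sup hg
    obtain ⟨i, rfl⟩ := mem_zpowers_iff.1 hx
    exact ⟨a, ha, i, e⟩
  -- c is in every subgroup containing `c ^ k`, `t ∤ k`
  have hgen : ∀ (K : Subgroup G) (k : ℤ), ¬ (t : ℤ) ∣ k → c ^ k ∈ K → c ∈ K := by
    intro K k hk hkK
    have hcop : IsCoprime k ((t : ℤ) ^ n) := by
      apply IsCoprime.pow_right
      rw [isCoprime_comm]
      exact (Nat.prime_iff_prime_int.1 ht).coprime_iff_not_dvd.2 hk
    obtain ⟨u, w, huw⟩ := hcop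
    have h1 : c ^ (w * (t : ℤ) ^ n) = 1 := by
      rw [mul_comm, zpow_mul]
      have : c ^ ((t : ℤ) ^ n) = c ^ (t ^ n) := by
        rw [← zpow_natCast]; push_cast; rfl
      rw [this, hcn, one_zpow]
    have h2 : c = (c ^ k) ^ u := by
      calc c = c ^ (u * k + w * (t : ℤ) ^ n) := by rw [huw, zpow_one]
        _ = c ^ (u * k) * c ^ (w * (t : ℤ) ^ n) := zpow_add _ _ _
        _ = c ^ (u * k) := by rw [h1, mul_one]
        _ = (c ^ k) ^ u := by rw [mul_comm, zpow_mul]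
    rw [h2]; exact zpow_mem hkK u
  -- index
  have hindex : A0.index = t := by
    have h1 : A0.index = A0.relIndex (zpowers c) := index_eq_relIndex (by
      intro g
      obtain ⟨a, ha, i, e⟩ := hdec g
      exact ⟨a, hAA0 ha, c ^ i, zpow_mem (mem_zpowers c) i, e⟩)
    have h2 : A0.index ∣ t := by
      rw [h1]
      have h3 : A0.relIndex (zpowers c) ∣ (zpowers (c ^ t)).relIndex (zpowers c) :=
        relIndex_dvd_of_le_left _ le_sup_right
      refine h3.trans ?_
      have hle : zpowers (c ^ t) ≤ zpowers c := by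
        rw [zpowers_le]; exact pow_mem (mem_zpowers c) t
      have h4 := card_mul_relIndex hle
      rw [Nat.card_zpowers, Nat.card_zpowers, orderOf_pow] at h4
      have h5 : orderOf c / (orderOf c).gcd t * (orderOf c).gcd t = orderOf c :=
        Nat.div_mul_cancel (Nat.gcd_dvd_left _ _)
      have h6 : (zpowers (c ^ t)).relIndex (zpowers c) = (orderOf c).gcd t := by
        have h7 : 0 < orderOf c / (orderOf c).gcd t :=
          Nat.div_pos (Nat.le_of_dvd (orderOf_pos c) (Nat.gcd_dvd_left _ _))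
            (Nat.gcd_pos_of_pos_left _ (orderOf_pos c))
        exact Nat.eq_of_mul_eq_mul_left h7 (by rw [h4, h5])
      rw [h6]; exact Nat.gcd_dvd_right _ _
    rcases (Nat.dvd_prime ht).1 h2 with h3 | h3
    · exact absurd (index_eq_one.1 h3) hA0
    · exact h3
  -- D = A ⊓ B is quasinormal in B
  have hD : ∀ d ∈ A ⊓ B, c * d * c⁻¹ ∈ A0 := by
    intro d hd
    by_contra hne
    have hyB : c * d * c⁻¹ ∈ B := mul_mem (mul_mem hc hd.2) (inv_mem hc)
    obtain ⟨a, ha, i, e⟩ := hdec (c * d * c⁻¹)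
    have haB : a ∈ B := by
      have : a = (c * d * c⁻¹) * (c ^ i)⁻¹ := by rw [e]; group
      rw [this]; exact mul_mem hyB (inv_mem (zpow_mem hc i))
    have hti : ¬ (t : ℤ) ∣ i := by
      rintro ⟨j, rfl⟩
      apply hne
      rw [e]
      refine mul_mem (hAA0 ha) ?_
      rw [zpow_mul, zpow_natCast]
      exact zpow_mem hctA0 j
    have hPm : Pm (A ⊓ B) (MulAut.conj c • (A ⊓ B)) := by
      have h1 : MulAut.conj c • (A ⊓ B) ≤ B := by
        intro x hx
        rw [mem_cj] at hx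
        have : x = c * (c⁻¹ * x * c) * c⁻¹ := by group
        rw [this]; exact mul_mem (mul_mem hc hx.2) (inv_mem hc)
      have h2 := (Pm.inf_right (h.2 _ h1).symm h1).symm
      rwa [inf_comm] at h2
    have hyE : c * d * c⁻¹ ∈ (A ⊓ B) ⊔ MulAut.conj c • (A ⊓ B) := by
      refine le_sup_right (a := A ⊓ B) ?_
      rw [mem_cj]
      have : c⁻¹ * (c * d * c⁻¹) * c = d := by group
      rw [this]; exact hd
    have hcE : c ∈ (A ⊓ B) ⊔ MulAut.conj c • (A ⊓ B) := by
      refine hgen _ i hti ?_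
      have : c ^ i = a⁻¹ * (c * d * c⁻¹) := by rw [e]; group
      rw [this]
      exact mul_mem (inv_mem (le_sup_left (a := A ⊓ B) (mem_inf.2 ⟨ha, haB⟩))) hyE
    obtain ⟨x, hx, y, hy, exy⟩ := hPm.mem_sup (inv_mem hcE)
    rw [mem_cj] at hy
    apply hcA
    have : c = x⁻¹ * (c⁻¹ * y * c)⁻¹ := by
      have h1 : y = x⁻¹ * c⁻¹ := by rw [exy]; group
      rw [h1]; group
    rw [this]
    exact mul_mem (inv_mem (hAA0 hx.1)) (inv_mem (hAA0 hy.1))
  have hHc : ∀ x ∈ A0 ⊓ B, c * x * c⁻¹ ∈ A0 ⊓ B := by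
    intro x hx
    obtain ⟨a, ha, i, e⟩ := hdec0 x hx.1
    have haB : a ∈ B := by
      have : a = x * ((c ^ t) ^ i)⁻¹ := by rw [e]; group
      rw [this]; exact mul_mem hx.2 (inv_mem (zpow_mem (pow_mem hc t) i))
    refine mem_inf.2 ⟨?_, mul_mem (mul_mem hc hx.2) (inv_mem hc)⟩
    have h1 : c * x * c⁻¹ = (c * a * c⁻¹) * (c ^ t) ^ i := by
      have h2 : Commute c ((c ^ t) ^ i) := ((Commute.refl c).pow_right t).zpow_right i
      rw [e]
      calc c * (a * (c ^ t) ^ i) * c⁻¹ = c * a * ((c ^ t) ^ i * c⁻¹) := by group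
        _ = c * a * (c⁻¹ * (c ^ t) ^ i) := by rw [(h2.inv_left).eq]
        _ = _ := by group
    rw [h1]
    exact mul_mem (hD a (mem_inf.2 ⟨ha, haB⟩)) (zpow_mem hctA0 i)
  have hcN : c ∈ normalizer ((A0 ⊓ B : Subgroup G) : Set G) := mem_norm_of hHc
  have hHcC : A0 ⊓ B ≤ A0.normalCore := by
    intro x hx b
    obtain ⟨a, ha, i, rfl⟩ := hdec b
    have h1 := mem_norm (zpow_mem hcN i) hx
    have : a * c ^ i * x * (a * c ^ i)⁻¹ = a * (c ^ i * x * (c ^ i)⁻¹) * a⁻¹ := by group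
    rw [this]
    exact mul_mem (mul_mem (hAA0 ha) h1.1) (inv_mem (hAA0 ha))
  refine ⟨A0.normalCore, inferInstance, normalCore_le A0, ?_⟩
  set C := A0.normalCore with hCdef
  let π := QuotientGroup.mk' C
  have hπs : Function.Surjective π := QuotientGroup.mk'_surjective C
  have hCA0 : C ≤ A0 := normalCore_le A0
  have hπ1 : ∀ x : G, π x = 1 ↔ x ∈ C := fun x => QuotientGroup.eq_one_iff x
  have hct1 : (π c) ^ t = 1 := by
    rw [← map_pow, hπ1]
    exact hHcC (mem_inf.2 ⟨hctA0, pow_mem hc t⟩)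
  have hc1 : π c ≠ 1 := by
    intro h1
    exact hcA (hCA0 ((hπ1 c).1 h1))
  have : Fact t.Prime := ⟨ht⟩
  have hordc : orderOf (π c) = t := orderOf_eq_prime hct1 hc1
  have hTcard : Nat.card (zpowers (π c)) = t := by rw [Nat.card_zpowers, hordc]
  have hTB : B.map π = zpowers (π c) := by
    apply le_antisymm
    · rintro _ ⟨b, hb, rfl⟩
      obtain ⟨a, ha, i, rfl⟩ := hdec b
      have haB : a ∈ B := by
        have : a = (a * c ^ i) * (c ^ i)⁻¹ := by group
        rw [this]; exact mul_mem hb (inv_mem (zpow_mem hc i))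
      have h1 : π a = 1 := (hπ1 a).2 (hHcC (mem_inf.2 ⟨hAA0 ha, haB⟩))
      rw [map_mul, h1, one_mul, map_zpow]
      exact zpow_mem (mem_zpowers _) i
    · rw [zpowers_le]; exact ⟨c, hc, rfl⟩
  have hMindex : (A0.map π).index = t := by
    rw [← hindex]
    exact index_map_eq A0 hπs (by rw [QuotientGroup.ker_mk']; exact hCA0)
  have hMcore : (A0.map π).normalCore = ⊥ := by
    rw [eq_bot_iff]
    intro x hx
    obtain ⟨g, rfl⟩ := hπs x
    rw [mem_bot, hπ1]
    intro b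
    have h1 := hx (π b)
    rw [← map_mul, ← map_inv, ← map_mul] at h1
    obtain ⟨y, hy, ey⟩ := h1
    have h2 : y⁻¹ * (b * g * b⁻¹) ∈ C := by
      rw [← hπ1, map_mul, map_inv, ey, inv_mul_cancel]
    have h3 : b * g * b⁻¹ = y * (y⁻¹ * (b * g * b⁻¹)) := by group
    rw [h3]; exact mul_mem hy (hCA0 h2)
  have hAnorm : A.map π ≤ normalizer (zpowers (π c) : Set (G ⧸ C)) := by
    refine norm_of_core ht hMindex hMcore hTcard (map_mono hAA0) ?_
    rintro _ ⟨a, ha, rfl⟩
    rw [← hTB, ← MonoidHom.map_zpowers]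
    exact (h.1 _ (by rw [zpowers_le]; exact ha)).map π
  have hTn : (zpowers (π c)).Normal := by
    rw [← normalizer_eq_top_iff, eq_top_iff]
    intro x _
    obtain ⟨g, rfl⟩ := hπs x
    obtain ⟨a, ha, i, rfl⟩ := hdec g
    rw [map_mul, map_zpow]
    exact mul_mem (hAnorm ⟨a, ha, rfl⟩) (zpow_mem (le_normalizer (mem_zpowers _)) i)
  have h5 := solv_of_core (M := A0.map π) (T := zpowers (π c)) ht hMcore hTcard (by
    intro x
    obtain ⟨g, rfl⟩ := hπs x
    obtain ⟨a, ha, i, rfl⟩ := hdec g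
    exact ⟨π a, ⟨a, hAA0 ha, rfl⟩, π c ^ i, zpow_mem (mem_zpowers _) i, by
      rw [map_mul, map_zpow]⟩)
  exact ⟨h5.1, h5.2⟩

end Pool.Agent.T6.H25.MPG
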