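import Mathlib
import Pool.Agent.T6.H25.MPStep2

set_option autoImplicit false

/-!
# Lemma A (elements of prime power order) and Lemma B (perfect subgroups)
-/

namespace Pool.Agent.T6.H25.MPG

open Subgroup
open scoped Pointwise
open Pool.Agent.T6.H25.PM

universe u v
variable {G : Type u} [Group G]

lemma step_sub [Finite G] {A B : Subgroup G} (h : MP A B) {t n : ℕ} (ht : t.Prime) {c : G}
    (hc : c ∈ B) (hcn : c ^ t ^ n = 1) {A1 : Subgroup G} (hA1 : A ⊔ zpowers c = A1) :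
    ∃ C : Subgroup A1, ∃ _ : C.Normal, (∀ x ∈ C, (x : G) ∈ A ⊔ zpowers (c ^ t)) ∧
      Group.IsSolvable (A1 ⧸ C) ∧ C.index ∣ t * (t - 1) := by
  have hAA1 : A ≤ A1 := by rw [← hA1]; exact le_sup_left
  have hcA1 : c ∈ A1 := by rw [← hA1]; exact le_sup_right (a := A) (mem_zpowers c)
  have hmap : ∀ y : A1, (A.subgroupOf A1 ⊔ zpowers y).map A1.subtype = A ⊔ zpowers (y : G) := by
    intro y
    rw [Subgroup.map_sup, MonoidHom.map_zpowers, subgroupOf_map_subtype, inf_of_le_left hAA1]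
    rfl
  obtain ⟨C, hC, h1, h2, h3⟩ := step (h.subgroupOf A1) (n := n) ht (c := ⟨c, hcA1⟩)
    (mem_subgroupOf.2 hc) (Subtype.ext hcn) (by
      apply map_injective (subtype_injective A1)
      rw [hmap, ← MonoidHom.range_eq_map, range_subtype]
      exact hA1)
  refine ⟨C, hC, ?_, h2, h3⟩
  intro x hx
  have h4 := hmap ((⟨c, hcA1⟩ : A1) ^ t)
  have h5 : (x : G) ∈ (A.subgroupOf A1 ⊔ zpowers ((⟨c, hcA1⟩ : A1) ^ t)).map A1.subtype :=
    ⟨x, h1 hx, rfl⟩
  rw [h4] at h5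
  exact h5

theorem lemA [Finite G] {A B : Subgroup G} (h : MP A B) {t r : ℕ} (ht : t.Prime) (hr : r.Prime)
    (hrt : ¬ r ∣ t * (t - 1)) : ∀ (n : ℕ) (c : G), c ∈ B → c ^ t ^ n = 1 →
      ∀ x ∈ A ⊔ zpowers c, (∃ k, x ^ r ^ k = 1) → x ∈ A := by
  intro n
  induction n with
  | zero =>
    intro c _ hcn x hx _
    rw [pow_zero, pow_one] at hcn
    rwa [hcn, zpowers_one_eq_bot, sup_bot_eq] at hx
  | succ n ih =>
    rintro c hc hcn x hx ⟨k, hk⟩
    obtain ⟨C, hC, h1, h2, h3⟩ := step_sub h ht hc hcn rfl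
    refine ih (c ^ t) (pow_mem hc t) (by rw [← pow_mul, ← pow_succ']; exact hcn) x ?_ ⟨k, hk⟩
    refine h1 ⟨x, hx⟩ ?_
    rw [← QuotientGroup.eq_one_iff]
    have h4 : ((⟨x, hx⟩ : ↥(A ⊔ zpowers c)) : ↥(A ⊔ zpowers c) ⧸ C) ^ r ^ k = 1 := by
      rw [← QuotientGroup.mk_pow]
      have : (⟨x, hx⟩ : ↥(A ⊔ zpowers c)) ^ r ^ k = 1 := Subtype.ext hk
      rw [this]; rfl
    have h5 : ((⟨x, hx⟩ : ↥(A ⊔ zpowers c)) : ↥(A ⊔ zpowers c) ⧸ C) ^ C.index = 1 :=
      pow_card_eq_one'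
    have h6 : Nat.Coprime (r ^ k) C.index := by
      apply Nat.Coprime.pow_left
      rw [Nat.Prime.coprime_iff_not_dvd hr]
      exact fun h => hrt (h.trans h3)
    exact orderOf_eq_one_iff.1 (Nat.eq_one_of_dvd_coprimes h6 (orderOf_dvd_of_pow_eq_one h4)
      (orderOf_dvd_of_pow_eq_one h5))

/-- the subgroup generated by the `q`-elements of `A` -/
def Kq (q : ℕ) (A : Subgroup G) : Subgroup G := closure {x | x ∈ A ∧ ∃ k, x ^ q ^ k = 1}

lemma Kq_le (q : ℕ) (A : Subgroup G) : Kq q A ≤ A := by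
  rw [Kq, closure_le]; exact fun x hx => hx.1

lemma mem_Kq {q : ℕ} {A : Subgroup G} {x : G} (hx : x ∈ A) (h : ∃ k, x ^ q ^ k = 1) :
    x ∈ Kq q A := subset_closure ⟨hx, h⟩

lemma Kq_conj {q : ℕ} {A : Subgroup G} {b : G}
    (h : ∀ x ∈ A, (∃ k, x ^ q ^ k = 1) → b * x * b⁻¹ ∈ A) : ∀ x ∈ Kq q A, b * x * b⁻¹ ∈ Kq q A := by
  have h1 : Kq q A ≤ (Kq q A).comap (MulAut.conj b).toMonoidHom := by
    conv_lhs => rw [Kq]
    rw [closure_le]
    rintro x ⟨hx, k, hk⟩
    refine mem_Kq (h x hx ⟨k, hk⟩) ⟨k, ?_⟩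
    change (b * x * b⁻¹) ^ q ^ k = 1
    rw [conj_pow, hk]; group
  exact fun x hx => h1 hx

lemma norm_Kq [Finite G] {A B : Subgroup G} (h : MP A B) {t r : ℕ} (ht : t.Prime) (hr : r.Prime)
    (hrt : ¬ r ∣ t * (t - 1)) {b : G} (hb : b ∈ B) {n : ℕ} (hbn : b ^ t ^ n = 1) :
    b ∈ normalizer (Kq r A : Set G) := by
  apply mem_norm_of
  apply Kq_conj
  rintro x hx ⟨k, hk⟩
  refine lemA h ht hr hrt n b hb hbn _ ?_ ⟨k, by rw [conj_pow, hk]; group⟩
  have hbA : b ∈ A ⊔ zpowers b := le_sup_right (a := A) (mem_zpowers b)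
  exact mul_mem (mul_mem hbA (le_sup_left (a := A) hx)) (inv_mem hbA)

theorem lemB [Finite G] {A B : Subgroup G} (h : MP A B) {t : ℕ} (ht : t.Prime) :
    ∀ (n : ℕ) (c : G), c ∈ B → c ^ t ^ n = 1 →
      ∀ E ≤ A ⊔ zpowers c, Group.IsPerfect E → E ≤ A := by
  intro n
  induction n with
  | zero =>
    intro c _ hcn x hx _
    rw [pow_zero, pow_one] at hcn
    rwa [hcn, zpowers_one_eq_bot, sup_bot_eq] at hx
  | succ n ih =>
    rintro c hc hcn E hE hEp
    obtain ⟨C, hC, h1, h2, h3⟩ := step_sub h ht hc hcn rfl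
    refine ih (c ^ t) (pow_mem hc t) (by rw [← pow_mul, ← pow_succ']; exact hcn) E ?_ hEp
    let f : E →* ↥(A ⊔ zpowers c) ⧸ C := (QuotientGroup.mk' C).comp (inclusion hE)
    have h4 : Group.IsPerfect f.range := by
      have := Group.IsPerfect.ofSurjective (f := f.rangeRestrict) f.rangeRestrict_surjective
      exact this
    have h5 : Group.IsSolvable f.range := inferInstance
    have h6 : ¬ Nontrivial f.range := fun hn => Group.IsPerfect.not_isSolvable f.range h5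
    rw [not_nontrivial_iff_subsingleton] at h6
    intro x hx
    refine h1 ⟨x, hE hx⟩ ?_
    rw [← QuotientGroup.eq_one_iff]
    have h7 : f.rangeRestrict ⟨x, hx⟩ = 1 := Subsingleton.elim _ _
    exact congrArg Subtype.val h7

/-- the subgroup generated by the perfect subgroups -/
def Rp (A : Subgroup G) : Subgroup G := sSup {E | E ≤ A ∧ Group.IsPerfect E}

lemma Rp_le (A : Subgroup G) : Rp A ≤ A := sSup_le fun _ h => h.1

lemma norm_Rp [Finite G] {A B : Subgroup G} (h : MP A B) : B ≤ normalizer (Rp A : Set G) := by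
  apply gen_pp
  rintro t ht b hb ⟨n, hn⟩
  apply mem_norm_of
  have h1 : Rp A ≤ (Rp A).comap (MulAut.conj b).toMonoidHom := by
    conv_lhs => rw [Rp]
    apply sSup_le
    rintro E ⟨hEA, hEp⟩
    rw [← map_le_iff_le_comap]
    have hp : Group.IsPerfect (E.map (MulAut.conj b).toMonoidHom) :=
      Group.IsPerfect.ofSurjective (f := (MulAut.conj b).toMonoidHom.subgroupMap E)
        ((MulAut.conj b).toMonoidHom.subgroupMap_surjective E)
    refine le_sSup ⟨?_, hp⟩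
    refine lemB h ht n b hb hn _ ?_ hp
    rintro _ ⟨x, hx, rfl⟩
    have hbA : b ∈ A ⊔ zpowers b := le_sup_right (a := A) (mem_zpowers b)
    exact mul_mem (mul_mem hbA (le_sup_left (a := A) (hEA hx))) (inv_mem hbA)
  exact fun x hx => h1 hx

lemma Rp_ne_bot [Finite G] {A : Subgroup G} (h : ¬ Group.IsSolvable A) : Rp A ≠ ⊥ := by
  obtain ⟨E, ⟨hEA, hE⟩, hmin⟩ := (Set.toFinite {E : Subgroup G | E ≤ A ∧
    ¬ Group.IsSolvable E}).exists_minimal ⟨A, le_rfl, h⟩
  have h1 : ⁅E, E⁆ = E := by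
    by_contra hne
    have hle : ⁅E, E⁆ ≤ E := commutator_le_self E
    by_cases hs : Group.IsSolvable ↥⁅E, E⁆
    · apply hE
      rw [Group.isSolvable_iff_subgroup_quotient (commutator E)]
      constructor
      · have e := map_subtype_commutator E
        have e2 := (commutator E).equivMapOfInjective E.subtype E.subtype_injective
        rw [e] at e2
        exact Group.isSolvable_of_isSolvable_injective (f := e2.toMonoidHom) e2.injective
      · exact Group.isSolvable_of_comm (G := E ⧸ commutator E)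
          (fun a b => (inferInstance : CommGroup (Abelianization E)).mul_comm a b)
    · exact hne (le_antisymm hle (hmin ⟨hle.trans hEA, hs⟩ hle))
  intro h0
  apply hE
  have h2 : E ≤ Rp A := le_sSup ⟨hEA, Subgroup.isPerfect_iff.2 h1⟩
  rw [h0, le_bot_iff] at h2
  rw [h2]; infer_instance

end Pool.Agent.T6.H25.MPG
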