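import Mathlib
import Pool.Agent.T6.H25.MPLemAB

set_option autoImplicit false

/-!
# Products of pairwise mutually permutable soluble subgroups are soluble
-/

namespace Pool.Agent.T6.H25.MPG

open Subgroup
open scoped Pointwise
open Pool.Agent.T6.H25.PM

universe u v
variable {G : Type u} [Group G]

lemma solv_of_subsingleton {K : Type*} [Group K] [Subsingleton K] : Group.IsSolvable K :=
  Group.isSolvable_of_comm fun _ _ => Subsingleton.elim _ _

lemma solv_of_pgroup {K : Type*} [Group K] [Finite K] {p : ℕ} (hp : p.Prime) (h : IsPGroup p K) :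
    Group.IsSolvable K := by
  have : Fact p.Prime := ⟨hp⟩
  have h1 : Group.IsNilpotent K := h.isNilpotent
  exact @IsNilpotent.to_isSolvable K _ h1

lemma pm_normal {P N : Subgroup G} (hN : N.Normal) : Pm P N := fun x _ n hn =>
  ⟨x * n * x⁻¹, hN.conj_mem n hn x, x, ‹_›, by group⟩

lemma not_dvd_relIndex_normal {p : ℕ} {P N : Subgroup G} (hN : N.Normal)
    (h : ¬ p ∣ P.index) : ¬ p ∣ P.relIndex N := by
  have h1 : P.relIndex (P ⊔ N) = P.relIndex N :=
    relIndex_eq le_sup_right (fun g hg => (pm_normal hN).mem_sup hg)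
  rw [← h1]
  exact fun h2 => h (h2.trans (relIndex_dvd_index_of_le le_sup_left))

/-- the product of the intersections with a normal subgroup is normal -/
lemma core_normal {ι : Type v} [Fintype ι] [DecidableEq ι] {H : ι → Subgroup G}
    (hmp : ∀ i j, MP (H i) (H j)) (htop : Finset.univ.sup H = ⊤) {N : Subgroup G}
    (hN : N.Normal) [Finite G] : (Finset.univ.sup (fun i => N ⊓ H i)).Normal := by
  rw [← normalizer_eq_top_iff, eq_top_iff, ← htop]
  apply Finset.sup_le
  intro j _ h hh
  apply mem_norm_of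
  have h1 : Finset.univ.sup (fun i => N ⊓ H i) ≤
      (Finset.univ.sup (fun i => N ⊓ H i)).comap (MulAut.conj h).toMonoidHom := by
    apply Finset.sup_le
    intro i _ x hx
    change h * x * h⁻¹ ∈ Finset.univ.sup (fun i => N ⊓ H i)
    obtain ⟨x', hx', h', hh', e⟩ := ((hmp j i).2 (N ⊓ H i) inf_le_right) h hh x hx
    have h2 : h' * h⁻¹ ∈ N ⊓ H j := by
      refine mem_inf.2 ⟨?_, mul_mem hh' (inv_mem hh)⟩
      have : h' * h⁻¹ = x'⁻¹ * (h * x * h⁻¹) := by
        rw [e]; group
      rw [this]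
      exact mul_mem (inv_mem hx'.1) (hN.conj_mem _ hx.1 h)
    rw [e, mul_assoc]
    exact mul_mem ((Finset.le_sup (f := fun i => N ⊓ H i) (Finset.mem_univ i)) hx')
      ((Finset.le_sup (f := fun i => N ⊓ H i) (Finset.mem_univ j)) h2)
  exact fun x hx => h1 hx

lemma exists_max_prime {n : ℕ} (h : 1 < n) :
    ∃ s : ℕ, s.Prime ∧ s ∣ n ∧ ∀ p : ℕ, p.Prime → p ∣ n → p ≤ s := by
  have hne : n.primeFactors.Nonempty := Nat.nonempty_primeFactors.2 h
  refine ⟨n.primeFactors.max' hne, ?_, ?_, ?_⟩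
  · exact (Nat.mem_primeFactors.1 (Finset.max'_mem _ hne)).1
  · exact (Nat.mem_primeFactors.1 (Finset.max'_mem _ hne)).2.1
  · intro p hp hd
    exact Finset.le_max' _ _ (Nat.mem_primeFactors.2 ⟨hp, hd, by omega⟩)

lemma case_i [Finite G] {ι : Type v} [Fintype ι] [DecidableEq ι] {H : ι → Subgroup G}
    (hmp : ∀ i j, MP (H i) (H j)) (htop : Finset.univ.sup H = ⊤) {N : Subgroup G}
    (hN : N.Normal) (hne : N ≠ ⊥) (hNH : ∀ i, N ⊓ H i = ⊥) :
    ∃ S : Subgroup G, S.Normal ∧ S ≠ ⊥ ∧ ∃ s : ℕ, s.Prime ∧ IsPGroup s S := by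
  have hcard : 1 < Nat.card N := (one_lt_card_iff_ne_bot N).2 hne
  obtain ⟨s, hs, hsN, hmax⟩ := exists_max_prime hcard
  obtain ⟨S, hSp, _, hSi, hSsup, _⟩ := exists_presylow hs hmp Finset.univ
  rw [htop, relIndex_top_right] at hSi
  have hNS : N ≤ normalizer ((N ⊓ S : Subgroup G) : Set G) := by
    rw [← relIndex_eq_one]
    by_contra hne1
    obtain ⟨p, hp, hd⟩ := Nat.exists_prime_and_dvd hne1
    have hpN : p ∣ Nat.card N := hd.trans (relIndex_dvd_card _ _)
    by_cases hps : p = s
    · subst hps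
      refine not_dvd_relIndex_normal hN hSi (hd.trans ?_)
      rw [← inf_relIndex_left N S]
      exact relIndex_dvd_of_le_left _ le_normalizer
    · have hlt : p < s := lt_of_le_of_ne (hmax p hp hpN) hps
      obtain ⟨P, hPp, _, hPi, hPsup, _⟩ := exists_presylow hp hmp Finset.univ
      rw [htop, relIndex_top_right] at hPi
      refine not_dvd_relIndex_normal hN hPi (hd.trans ?_)
      rw [← inf_relIndex_left N P]
      refine relIndex_dvd_of_le_left _ ?_
      have hst : ¬ s ∣ p * (p - 1) := by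
        rw [hs.dvd_mul]
        rintro (h1 | h1)
        · exact absurd (Nat.le_of_dvd hp.pos h1) (by omega)
        · have := hp.one_lt
          exact absurd (Nat.le_of_dvd (by omega) h1) (by omega)
      have hPn : ∀ i, P ≤ normalizer (Kq s (H i) : Set G) := by
        intro i
        refine hPsup.trans (Finset.sup_le fun j _ x hx => ?_)
        obtain ⟨k, hk⟩ := hPp ⟨x, hx.1⟩
        exact norm_Kq (hmp i j) hp hs hst hx.2 (congrArg Subtype.val hk)
      intro x hx
      have hxK : ∀ i, ∀ k ∈ Kq s (H i), x * k = k * x := by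
        intro i k hk
        have h1 : x * k * x⁻¹ ∈ H i := Kq_le s _ (mem_norm (hPn i hx.2) hk)
        have h2 : x * k * x⁻¹ * k⁻¹ ∈ N ⊓ H i := by
          refine mem_inf.2 ⟨?_, mul_mem h1 (inv_mem (Kq_le s _ hk))⟩
          have : x * k * x⁻¹ * k⁻¹ = x * (k * x⁻¹ * k⁻¹) := by group
          rw [this]
          exact mul_mem hx.1 (hN.conj_mem _ (inv_mem hx.1) k)
        rw [hNH, mem_bot, mul_inv_eq_one] at h2
        calc x * k = (x * k * x⁻¹) * x := by group
          _ = k * x := by rw [h2]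
      have hxS : S ≤ centralizer {x} := by
        refine hSsup.trans (Finset.sup_le fun i _ y hy => ?_)
        rw [mem_centralizer_singleton_iff]
        obtain ⟨k, hk⟩ := hSp ⟨y, hy.1⟩
        exact (hxK i y (mem_Kq hy.2 ⟨k, congrArg Subtype.val hk⟩)).symm
      apply mem_norm_of
      intro y hy
      have h1 := mem_centralizer_singleton_iff.1 (hxS hy.2)
      have : x * y * x⁻¹ = y := by rw [← h1]; group
      rw [this]; exact hy
  refine ⟨N ⊓ S, ?_, ?_, s, hs, hSp.to_le inf_le_right⟩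
  · rw [← normalizer_eq_top_iff, eq_top_iff]
    intro g _
    apply mem_norm_of
    intro x hx
    obtain ⟨w, hw, hwx⟩ := syl_dom hs (X := N) (P := MulAut.conj g • (N ⊓ S)) (Q := N ⊓ S)
      (by
        have h1 : IsPGroup s ↥(N ⊓ S) := hSp.to_le inf_le_right
        exact h1.of_equiv (equivSMul (MulAut.conj g) (N ⊓ S)))
      (by
        intro y hy
        rw [mem_cj] at hy
        have : y = g * (g⁻¹ * y * g) * g⁻¹ := by group
        rw [this]; exact hN.conj_mem _ hy.1 g)
      (by
        rw [inf_comm, inf_relIndex_right]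
        exact not_dvd_relIndex_normal hN hSi)
    have h2 := hwx (g * x * g⁻¹) (by rw [mem_cj]; convert hx using 1; group)
    have h3 := mem_norm' (hNS hw) h2
    convert h3 using 1
    group
  · intro h0
    have h1 := not_dvd_relIndex_normal hN hSi
    rw [← inf_relIndex_left N S, h0, relIndex_bot_left] at h1
    exact h1 hsN

/-- a proper quasinormal subgroup is contained in a proper normal subgroup -/
lemma exists_normal_of_qn [Finite G] {D : Subgroup G} (hD : ∀ X : Subgroup G, Pm D X)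
    (hne : D ≠ ⊤) : ∃ Y : Subgroup G, Y.Normal ∧ Y ≠ ⊤ ∧ D ≤ Y := by
  obtain ⟨Y, ⟨hY1, hY2, hY3⟩, hmax⟩ := (Set.toFinite {Y : Subgroup G | (∀ X : Subgroup G, Pm Y X) ∧
    Y ≠ ⊤ ∧ D ≤ Y}).exists_maximal ⟨D, hD, hne, le_rfl⟩
  refine ⟨Y, ?_, hY2, hY3⟩
  rw [← normalizer_eq_top_iff, eq_top_iff]
  intro g _
  apply mem_norm_of
  have h1 : ∀ X : Subgroup G, Pm (Y ⊔ MulAut.conj g • Y) X := by
    intro X
    refine (hY1 X).sup_left ?_
    have := (hY1 (MulAut.conj g⁻¹ • X)).cj g
    rwa [cj_cj, mul_inv_cancel, cj_one] at this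
  by_cases h2 : Y ⊔ MulAut.conj g • Y = ⊤
  · exfalso
    have h3 := sup_cj_eq_top (hY1 _) h2 g⁻¹
    rw [cj_cj, inv_mul_cancel, cj_one, sup_idem] at h3
    exact hY2 h3
  · have h3 := hmax ⟨h1, h2, hY3.trans le_sup_left⟩ le_sup_left
    intro x hx
    apply h3
    refine le_sup_right (a := Y) ?_
    rw [mem_cj]; convert hx using 1; group

lemma exists_prime_index [Finite G] (hs : Group.IsSolvable G) {Y : Subgroup G} (hY : Y.Normal)
    (hne : Y ≠ ⊤) : ∃ Y' : Subgroup G, Y'.Normal ∧ Y ≤ Y' ∧ Y'.index.Prime := by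
  have : Nontrivial (G ⧸ Y) := by
    rw [← not_subsingleton_iff_nontrivial]
    intro h
    exact hne (QuotientGroup.subgroup_eq_top_of_subsingleton Y h)
  obtain ⟨M, hM, _, hMs⟩ := exists_simple_quotient (G := G ⧸ Y)
  have hsol : Group.IsSolvable ((G ⧸ Y) ⧸ M) := inferInstance
  have hcomm := IsSimpleGroup.comm_iff_isSolvable.2 hsol
  let _ : CommGroup ((G ⧸ Y) ⧸ M) := { (inferInstance : Group ((G ⧸ Y) ⧸ M)) with mul_comm := hcomm }
  have hpr : (Nat.card ((G ⧸ Y) ⧸ M)).Prime := IsSimpleGroup.prime_card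
  refine ⟨M.comap (QuotientGroup.mk' Y), inferInstance, ?_, ?_⟩
  · intro x hx
    rw [mem_comap]
    have : QuotientGroup.mk' Y x = 1 := (QuotientGroup.eq_one_iff x).2 hx
    rw [this]; exact one_mem _
  · rw [index_comap_of_surjective _ (QuotientGroup.mk'_surjective Y)]
    exact hpr

lemma case_iii [Finite G] {ι : Type v} [Fintype ι] [DecidableEq ι] {H : ι → Subgroup G}
    (hmp : ∀ i j, MP (H i) (H j)) (htop : Finset.univ.sup H = ⊤)
    (hs : ∀ i, Group.IsSolvable (H i))
    (hsimple : ∀ M : Subgroup G, M.Normal → M = ⊥ ∨ M = ⊤) : Group.IsSolvable G := by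
  obtain ⟨s, hs1, hmin⟩ := (Set.toFinite {s : Finset ι | s.sup H = ⊤}).exists_minimal
    ⟨Finset.univ, htop⟩
  have hs1' : s.sup H = ⊤ := hs1
  rcases s.eq_empty_or_nonempty with rfl | ⟨j, hj⟩
  · rw [Finset.sup_empty] at hs1'
    have : Subsingleton G := by
      rw [← Subgroup.subsingleton_iff]
      exact subsingleton_of_bot_eq_top hs1'
    exact solv_of_subsingleton
  set Hh := (s.erase j).sup H with hHh
  have hsup : H j ⊔ Hh = ⊤ := by
    rw [hHh, ← Finset.sup_insert, Finset.insert_erase hj]; exact hs1'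
  have hHhne : Hh ≠ ⊤ := by
    intro h1
    have h2 := hmin h1 (Finset.erase_subset j s)
    exact Finset.notMem_erase j s (h2 hj)
  have hPm : ∀ X ≤ H j, Pm Hh X := fun X hX => pm_sup _ H fun i _ => (hmp i j).2 X hX
  have hdecG : ∀ g : G, ∃ m ∈ Hh, ∃ b ∈ H j, g = m * b := by
    intro g
    exact (hPm _ le_rfl).mem_sup (by rw [sup_comm, hsup]; exact mem_top _)
  have hDne : Hh.subgroupOf (H j) ≠ ⊤ := by
    intro h1
    rw [subgroupOf_eq_top] at h1
    rw [sup_eq_right.2 h1] at hsup
    exact hHhne hsup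
  obtain ⟨Y0, hY0n, hY0ne, hDY0⟩ := exists_normal_of_qn (D := Hh.subgroupOf (H j))
    (fun X => (Pm.pull rfl (hPm (X.map (H j).subtype) (by
      rintro _ ⟨x, _, rfl⟩; exact x.2)).symm).symm) hDne
  obtain ⟨Y, hYn, hY0Y, hYp⟩ := exists_prime_index (hs j) hY0n hY0ne
  set Yg := Y.map (H j).subtype with hYg
  have hYgj : Yg ≤ H j := by rintro _ ⟨x, _, rfl⟩; exact x.2
  set M := Hh ⊔ Yg with hM
  have hMj : M.subgroupOf (H j) = Y := by
    ext x
    rw [mem_subgroupOf]
    constructor
    · intro hx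
      obtain ⟨a, ha, y, hy, e⟩ := (hPm _ hYgj).mem_sup hx
      obtain ⟨y', hy', rfl⟩ := hy
      have haj : a ∈ H j := by
        have : a = x * (y' : G)⁻¹ := by rw [e]; simp
        rw [this]; exact mul_mem x.2 (inv_mem y'.2)
      have h1 : (⟨a, haj⟩ : H j) ∈ Y := hY0Y (hDY0 (mem_subgroupOf.2 ha))
      have h2 : x = ⟨a, haj⟩ * y' := Subtype.ext e
      rw [h2]; exact mul_mem h1 hy'
    · intro hx
      exact le_sup_right (a := Hh) ⟨x, hx, rfl⟩
  have hMindex : M.index = Y.index := by
    rw [index_eq_relIndex (N := M) (B := H j) (by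
      intro g
      obtain ⟨m, hm, b, hb, e⟩ := hdecG g
      exact ⟨m, le_sup_left (a := Hh) hm, b, hb, e⟩), relIndex, hMj]
  have hMne : M ≠ ⊤ := by
    intro h1
    rw [h1, index_top] at hMindex
    exact hYp.one_lt.ne hMindex
  have hcore : M.normalCore = ⊥ := by
    rcases hsimple _ (normalCore_normal M) with h1 | h1
    · exact h1
    · exact absurd (eq_top_iff.2 (h1 ▸ normalCore_le M)) hMne
  have hYcore : Yg ≤ M.normalCore := by
    rintro _ ⟨y, hy, rfl⟩ b
    obtain ⟨m, hm, x, hx, rfl⟩ := hdecG b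
    have h1 : x * y * x⁻¹ ∈ Yg := ⟨⟨x, hx⟩ * y * ⟨x, hx⟩⁻¹, hYn.conj_mem _ hy _, rfl⟩
    have h2 : m * x * y * (m * x)⁻¹ = m * (x * y * x⁻¹) * m⁻¹ := by group
    change m * x * y * (m * x)⁻¹ ∈ M
    rw [h2]
    exact mul_mem (mul_mem (le_sup_left (a := Hh) hm) (le_sup_right (a := Hh) h1))
      (inv_mem (le_sup_left (a := Hh) hm))
  rw [hcore, le_bot_iff] at hYcore
  have hYbot : Y = ⊥ := by
    rwa [hYg, map_eq_bot_iff_of_injective _ (subtype_injective _)] at hYcore
  have hTcard : Nat.card (H j) = Y.index := by rw [hYbot, index_bot]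
  have hMH : M = Hh := by rw [hM, hYcore, sup_bot_eq]
  have hnorm : Hh ≤ normalizer (H j : Set G) := by
    apply Finset.sup_le
    intro i hi
    refine norm_of_core (M := M) hYp hMindex hcore hTcard ?_ ?_
    · rw [hMH]; exact Finset.le_sup (f := H) hi
    · intro a ha
      exact (hmp i j).1 _ (by rw [zpowers_le]; exact ha)
  have hjn : (H j).Normal := by
    rw [← normalizer_eq_top_iff, eq_top_iff, ← hsup]
    exact sup_le le_normalizer hnorm
  rcases hsimple _ hjn with h1 | h1
  · have h2 : Nat.card (H j) = 1 := by rw [h1, card_bot]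
    rw [h2] at hTcard
    exact absurd hTcard hYp.one_lt.ne
  · have h2 := hs j
    rw [h1] at h2
    exact Group.isSolvable_of_surjective (f := (topEquiv : (⊤ : Subgroup G) ≃* G).toMonoidHom)
      (topEquiv : (⊤ : Subgroup G) ≃* G).surjective

lemma map_univ_sup {ι : Type v} [Fintype ι] {G' : Type*} [Group G'] (f : G →* G')
    (hf : Function.Surjective f) {H : ι → Subgroup G} (htop : Finset.univ.sup H = ⊤) :
    Finset.univ.sup (fun i => (H i).map f) = ⊤ := by
  rw [Finset.sup_univ_eq_iSup] at htop ⊢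
  rw [← Subgroup.map_iSup, htop, ← MonoidHom.range_eq_map, MonoidHom.range_eq_top]
  exact hf

lemma card_quot_lt [Finite G] {M : Subgroup G} (h : M ≠ ⊥) : Nat.card (G ⧸ M) < Nat.card G := by
  have h1 := (one_lt_card_iff_ne_bot M).2 h
  rw [← M.card_mul_index]
  change M.index < _
  exact lt_mul_of_one_lt_left (Nat.pos_of_ne_zero index_ne_zero_of_finite) h1

lemma sup_subgroupOf {ι : Type v} [Fintype ι] {H : ι → Subgroup G} {N : Subgroup G}
    (h : N ≤ Finset.univ.sup (fun i => N ⊓ H i)) :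
    Finset.univ.sup (fun i => (H i).subgroupOf N) = ⊤ := by
  rw [Finset.sup_univ_eq_iSup] at h ⊢
  apply map_injective (subtype_injective N)
  rw [Subgroup.map_iSup, ← MonoidHom.range_eq_map, range_subtype]
  apply le_antisymm
  · exact iSup_le fun i => by rintro _ ⟨x, _, rfl⟩; exact x.2
  · refine h.trans (iSup_mono fun i => ?_)
    rw [subgroupOf_map_subtype, inf_comm]

/-- products of pairwise mutually permutable soluble subgroups are soluble -/
theorem solv_prod : ∀ (n : ℕ) (G : Type u) [Group G] [Finite G] (ι : Type v) [Fintype ι]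
    [DecidableEq ι] (H : ι → Subgroup G), Nat.card G = n → (∀ i j, MP (H i) (H j)) →
    Finset.univ.sup H = ⊤ → (∀ i, Group.IsSolvable (H i)) → Group.IsSolvable G := by
  intro n
  induction n using Nat.strong_induction_on with
  | _ n ih =>
  intro G _ _ ι _ _ H hn hmp htop hs
  by_contra hns
  have hquot : ∀ M : Subgroup G, M.Normal → M ≠ ⊥ → ¬ Group.IsSolvable M := by
    intro M hM hMne hMs
    apply hns
    rw [Group.isSolvable_iff_subgroup_quotient M]
    refine ⟨hMs, ?_⟩
    exact ih _ (hn ▸ card_quot_lt hMne) (G ⧸ M) ι (fun i => (H i).map (QuotientGroup.mk' M)) rfl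
      (fun i j => (hmp i j).map _) (map_univ_sup _ (QuotientGroup.mk'_surjective M) htop)
      (fun i => solv_map _ (hs i))
  have htopne : (⊤ : Subgroup G) ≠ ⊥ := by
    intro h1
    apply hns
    have : Subsingleton G := by
      rw [← Subgroup.subsingleton_iff]
      exact subsingleton_of_bot_eq_top h1.symm
    exact solv_of_subsingleton
  obtain ⟨N, ⟨hN, hNne⟩, hmin⟩ := (Set.toFinite {M : Subgroup G | M.Normal ∧ M ≠ ⊥}).exists_minimal
    ⟨⊤, inferInstance, htopne⟩
  have hMN := core_normal hmp htop hN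
  have hMNle : Finset.univ.sup (fun i => N ⊓ H i) ≤ N := Finset.sup_le fun i _ => inf_le_left
  by_cases h0 : Finset.univ.sup (fun i => N ⊓ H i) = ⊥
  · obtain ⟨S, hSn, hSne, s, hsp, hSs⟩ := case_i hmp htop hN hNne (fun i => by
      rw [eq_bot_iff, ← h0]
      exact Finset.le_sup (f := fun i => N ⊓ H i) (Finset.mem_univ i))
    exact hquot S hSn hSne (solv_of_pgroup hsp hSs)
  · have hle : N ≤ Finset.univ.sup (fun i => N ⊓ H i) := hmin ⟨hMN, h0⟩ hMNle
    by_cases hNt : N = ⊤
    · apply hns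
      refine case_iii hmp htop hs fun M hM => ?_
      by_cases hMb : M = ⊥
      · exact Or.inl hMb
      · right
        rw [eq_top_iff, ← hNt]
        exact hmin ⟨hM, hMb⟩ (by rw [hNt]; exact le_top)
    · refine hquot N hN hNne ?_
      refine ih (Nat.card N) ?_ N ι (fun i => (H i).subgroupOf N) rfl
        (fun i j => (hmp i j).subgroupOf N) (sup_subgroupOf hle) ?_
      · rw [← hn]
        exact lt_of_le_of_ne (card_le_card_group N) (fun h => hNt (eq_top_of_card_eq N h))
      · intro i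
        have := hs i
        have h1 : Function.Injective ((H i).subgroupOf N).subtype := subtype_injective _
        let f : ↥((H i).subgroupOf N) →* H i :=
          { toFun := fun x => ⟨((x : N) : G), mem_subgroupOf.1 x.2⟩
            map_one' := rfl
            map_mul' := fun _ _ => rfl }
        refine Group.isSolvable_of_isSolvable_injective (f := f) ?_
        intro x y hxy
        have h2 : ((f x : H i) : G) = (f y : H i) := by rw [hxy]
        exact Subtype.ext (Subtype.ext h2)

end Pool.Agent.T6.H25.MPG
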