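import Mathlib
import Pool.Agent.T6.H25.MPSol

set_option autoImplicit false

/-!
# A nonsoluble monolith lies in every nontrivial factor
-/

namespace Pool.Agent.T6.H25.MPG

open Subgroup
open scoped Pointwise
open Pool.Agent.T6.H25.PM

universe u v
variable {G : Type u} [Group G]

/-- `N` is the unique minimal normal subgroup -/
structure Mono (N : Subgroup G) : Prop where
  normal : N.Normal
  ne : N ≠ ⊥
  le : ∀ M : Subgroup G, M.Normal → M ≠ ⊥ → N ≤ M

lemma exists_mono [Finite G] {z : G} (hz : z ≠ 1)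
    (h : ∀ M : Subgroup G, M.Normal → M ≠ ⊥ → z ∈ M) : ∃ N : Subgroup G, Mono N ∧ z ∈ N := by
  have htop : (⊤ : Subgroup G) ≠ ⊥ := by
    intro h1
    exact hz (mem_bot.1 (h1 ▸ mem_top z))
  obtain ⟨N, ⟨hN, hNne⟩, hmin⟩ := (Set.toFinite {M : Subgroup G | M.Normal ∧ M ≠ ⊥}).exists_minimal
    ⟨⊤, inferInstance, htop⟩
  refine ⟨N, ⟨hN, hNne, fun M hM hMne => ?_⟩, h N hN hNne⟩
  have h1 : N ⊓ M ≠ ⊥ := by
    intro h2
    exact hz (mem_bot.1 (h2 ▸ mem_inf.2 ⟨h N hN hNne, h M hM hMne⟩))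
  exact (hmin ⟨inferInstance, h1⟩ inf_le_left).trans inf_le_right

lemma solv_pair [Finite G] {A B : Subgroup G} (h : MP A B) (hA : Group.IsSolvable A)
    (hB : Group.IsSolvable B) : Group.IsSolvable ↥(A ⊔ B) := by
  let K : Bool → Subgroup G := fun b => if b then A else B
  have hmp : ∀ i j, MP (K i) (K j) := by
    rintro (_ | _) (_ | _)
    · exact MP.refl B
    · exact h.symm
    · exact h
    · exact MP.refl A
  have hK : ∀ i, Group.IsSolvable (K i) := by
    rintro (_ | _)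
    · exact hB
    · exact hA
  have hKle : ∀ i, K i ≤ A ⊔ B := by
    rintro (_ | _)
    · exact le_sup_right
    · exact le_sup_left
  refine solv_prod _ ↥(A ⊔ B) Bool (fun i => (K i).subgroupOf (A ⊔ B)) rfl
    (fun i j => (hmp i j).subgroupOf _) (sup_subgroupOf ?_) ?_
  · refine sup_le ?_ ?_
    · have h1 := Finset.le_sup (f := fun i => (A ⊔ B) ⊓ K i) (Finset.mem_univ true)
      exact (le_inf le_sup_left le_rfl : A ≤ (A ⊔ B) ⊓ A).trans h1
    · have h1 := Finset.le_sup (f := fun i => (A ⊔ B) ⊓ K i) (Finset.mem_univ false)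
      exact (le_inf le_sup_right le_rfl : B ≤ (A ⊔ B) ⊓ B).trans h1
  · intro i
    have := hK i
    exact Group.isSolvable_of_isSolvable_injective
      (f := (subgroupOfEquivOfLe (hKle i)).toMonoidHom) (subgroupOfEquivOfLe (hKle i)).injective

lemma solv_le {A B : Subgroup G} (h : A ≤ B) (hB : Group.IsSolvable B) : Group.IsSolvable A := by
  have := hB
  exact Group.isSolvable_of_isSolvable_injective (f := inclusion h) (inclusion_injective h)

/-- subgroups all of whose subgroups are normalised are soluble -/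
lemma solv_of_norm [Finite G] {L : Subgroup G} (h : ∀ X ≤ L, L ≤ normalizer (X : Set G)) :
    Group.IsSolvable L := by
  have h1 : Group.IsNilpotent L := by
    refine ((Group.isNilpotent_of_finite_tfae (G := L)).out 0 3).2 ?_
    intro p hp P
    rw [← normalizer_eq_top_iff, eq_top_iff]
    intro g _
    apply mem_norm_of
    intro x hx
    have h2 := h ((P : Subgroup L).map L.subtype) (by rintro _ ⟨y, _, rfl⟩; exact y.2) g.2
    have h3 := mem_norm h2 (x := (x : G)) ⟨x, hx, rfl⟩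
    obtain ⟨y, hy, ey⟩ := h3
    have : g * x * g⁻¹ = y := Subtype.ext ey.symm
    rw [this]; exact hy
  exact @IsNilpotent.to_isSolvable L _ h1

lemma cj_le_normal {N X : Subgroup G} (hN : N.Normal) (hX : X ≤ N) (g : G) :
    MulAut.conj g • X ≤ N := by
  intro y hy
  rw [mem_cj] at hy
  have : y = g * (g⁻¹ * y * g) * g⁻¹ := by group
  rw [this]; exact hN.conj_mem _ (hX hy) g

theorem lemNA [Finite G] {ι : Type v} [Fintype ι] [DecidableEq ι] {H : ι → Subgroup G}
    (hmp : ∀ i j, MP (H i) (H j)) (htop : Finset.univ.sup H = ⊤) {N : Subgroup G} (hN : Mono N)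
    (hns : ¬ Group.IsSolvable N) (j : ι) : H j = ⊥ ∨ N ≤ H j := by
  have hNn := hN.normal
  have hnosol : ∀ M : Subgroup G, M.Normal → Group.IsSolvable M → M = ⊥ := by
    intro M hM hMs
    by_contra hne
    exact hns (solv_le (hN.le M hM hne) hMs)
  have hnon : ∀ i, ¬ Group.IsSolvable (H i) → N ≤ H i := by
    intro i hi
    refine (hN.le (Rp (H i)) ?_ (Rp_ne_bot hi)).trans (Rp_le _)
    rw [← normalizer_eq_top_iff, eq_top_iff, ← htop]
    exact Finset.sup_le fun k _ => norm_Rp (hmp i k)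
  by_cases hj : Group.IsSolvable (H j)
  swap
  · exact Or.inr (hnon j hj)
  left
  obtain ⟨k, hk⟩ : ∃ k, ¬ Group.IsSolvable (H k) := by
    by_contra hall
    push Not at hall
    have h1 := solv_prod _ G ι H rfl hmp htop hall
    exact hns inferInstance
  have hNk := hnon k hk
  -- the largest soluble quasinormal subgroup of `N`
  obtain ⟨R, ⟨hR1, hR2, hR3⟩, hRmax⟩ := exists_largest (G := G)
    (fun Q => Q ≤ N ∧ (∀ X ≤ N, Pm Q X) ∧ Group.IsSolvable Q)
    ⟨⊥, bot_le, fun X _ => pm_of_le bot_le, inferInstance⟩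
    (fun A B hA hB => ⟨sup_le hA.1 hB.1, fun X hX => (hA.2.1 X hX).sup_left (hB.2.1 X hX),
      solv_pair ⟨fun X hX => (hB.2.1 X (hX.trans hA.1)).symm, fun X hX => hA.2.1 X (hX.trans hB.1)⟩
        hA.2.2 hB.2.2⟩)
  have hRn : R.Normal := by
    rw [← normalizer_eq_top_iff, eq_top_iff]
    intro g _
    apply mem_norm_of
    have h1 : MulAut.conj g • R ≤ R := by
      refine hRmax _ ⟨cj_le_normal hNn hR1 g, fun X hX => ?_, ?_⟩
      · have := (hR2 (MulAut.conj g⁻¹ • X) (cj_le_normal hNn hX g⁻¹)).cj g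
        rwa [cj_cj, mul_inv_cancel, cj_one] at this
      · have := hR3
        exact Group.isSolvable_of_surjective (f := (equivSMul (MulAut.conj g) R).toMonoidHom)
          (equivSMul (MulAut.conj g) R).surjective
    intro x hx
    apply h1
    rw [mem_cj]; convert hx using 1; group
  have hR0 : R = ⊥ := hnosol R hRn hR3
  have hQ : N ⊓ H j = ⊥ := by
    rw [eq_bot_iff, ← hR0]
    refine hRmax _ ⟨inf_le_left, fun X hX => ?_, solv_le inf_le_right hj⟩
    exact (Pm.inf_right ((hmp k j).1 X (hX.trans hNk)) hX).symm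
  have hnorm : ∀ h ∈ H j, ∀ X ≤ N, h ∈ normalizer (X : Set G) := by
    intro h hh X hX
    apply mem_norm_of
    intro x hx
    obtain ⟨x', hx', h', hh', e⟩ := ((hmp k j).1 X (hX.trans hNk)).symm h hh x hx
    have h1 : h' * h⁻¹ ∈ N ⊓ H j := by
      refine mem_inf.2 ⟨?_, mul_mem hh' (inv_mem hh)⟩
      have : h' * h⁻¹ = x'⁻¹ * (h * x * h⁻¹) := by rw [e]; group
      rw [this]
      exact mul_mem (inv_mem (hX hx')) (hNn.conj_mem _ (hX hx) h)
    rw [hQ, mem_bot] at h1
    rw [e, mul_assoc, h1, mul_one]; exact hx'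
  -- the elements of `N` normalising all subgroups of `N`
  let L : Subgroup G := N ⊓ ⨅ X : {X : Subgroup G // X ≤ N}, normalizer ((X : Subgroup G) : Set G)
  have hL : ∀ x, x ∈ L ↔ x ∈ N ∧ ∀ X : Subgroup G, X ≤ N → x ∈ normalizer (X : Set G) := by
    intro x
    rw [mem_inf, mem_iInf]
    exact ⟨fun h => ⟨h.1, fun X hX => h.2 ⟨X, hX⟩⟩, fun h => ⟨h.1, fun X => h.2 X X.2⟩⟩
  have hcjn : ∀ (x g : G), (∀ X : Subgroup G, X ≤ N → x ∈ normalizer (X : Set G)) →
      ∀ X : Subgroup G, X ≤ N → g * x * g⁻¹ ∈ normalizer (X : Set G) := by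
    intro x g h X hX
    apply mem_norm_of
    intro y hy
    have h1 := h (MulAut.conj g⁻¹ • X) (cj_le_normal hNn hX g⁻¹)
    have h2 := mem_norm h1 (x := g⁻¹ * y * g) (by rw [mem_cj]; convert hy using 1; group)
    rw [mem_cj] at h2
    convert h2 using 1
    group
  have hLn : L.Normal := by
    constructor
    intro x hx g
    rw [hL] at hx ⊢
    exact ⟨hNn.conj_mem _ hx.1 g, hcjn x g hx.2⟩
  have hL0 : L = ⊥ := hnosol L hLn (solv_of_norm fun X hX x hx =>
    ((hL x).1 hx).2 X (hX.trans inf_le_left))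
  have hcent : centralizer (N : Set G) = ⊥ := by
    by_contra hne
    have h1 := hN.le _ inferInstance hne
    apply hns
    exact Group.isSolvable_of_comm fun a b => Subtype.ext
      ((mem_centralizer_iff.1 (h1 b.2) a a.2))
  rw [eq_bot_iff, ← hcent]
  intro h hh
  rw [mem_centralizer_iff]
  intro g hg
  have h1 : g⁻¹ * h * g⁻¹⁻¹ * h⁻¹ ∈ L := by
    rw [hL]
    constructor
    · have : g⁻¹ * h * g⁻¹⁻¹ * h⁻¹ = g⁻¹ * (h * g * h⁻¹) := by group
      rw [this]
      exact mul_mem (inv_mem hg) (hNn.conj_mem _ hg h)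
    · intro X hX
      exact mul_mem (hcjn h g⁻¹ (hnorm h hh) X hX) (inv_mem (hnorm h hh X hX))
  rw [hL0, mem_bot] at h1
  have h2 : h * g = g * (g⁻¹ * h * g⁻¹⁻¹ * h⁻¹) * h := by group
  rw [h2, h1, mul_one]

end Pool.Agent.T6.H25.MPG
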