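import Mathlib
import Pool.Agent.T6.H25.MPNA

set_option autoImplicit false

/-!
# `q`-elements normalising `p`-subgroups
-/

namespace Pool.Agent.T6.H25.MPG

open Subgroup
open scoped Pointwise
open Pool.Agent.T6.H25.PM

universe u v w
variable {G : Type u} [Group G]

/-- every `q`-element of `A` normalising a `p`-subgroup of `A` centralises it -/
def NN (p q : ℕ) (A : Subgroup G) : Prop := ∀ X ≤ A, IsPGroup p X → ∀ y ∈ A, (∃ k, y ^ q ^ k = 1) →
  (∀ x ∈ X, y * x * y⁻¹ ∈ X) → ∀ x ∈ X, y * x = x * y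

lemma exists_qpart' (G : Type u) [Group G] [Finite G] {q : ℕ} (hq : q.Prime) :
    ∃ m : ℕ, (∀ g : G, ∃ k, (g ^ m) ^ q ^ k = 1) ∧
      ∀ (G' : Type w) [Group G'] (g : G'), g ^ Nat.card G = 1 → (∃ k, g ^ q ^ k = 1) → g ^ m = g := by
  obtain ⟨a, u, hu, e⟩ := Nat.exists_eq_pow_mul_and_not_dvd (n := Nat.card G) Nat.card_pos.ne' q
    hq.ne_one
  have hco : Nat.Coprime (q ^ a) u := Nat.Coprime.pow_left _ ((Nat.Prime.coprime_iff_not_dvd hq).2 hu)
  obtain ⟨m, hm1, hm2⟩ := Nat.chineseRemainder hco 1 0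
  refine ⟨m, fun g => ⟨a, ?_⟩, fun G' _ g hg ⟨k, hk⟩ => ?_⟩
  · have h1 : u ∣ m := (Nat.modEq_zero_iff_dvd).1 hm2
    rw [← pow_mul]
    obtain ⟨w, rfl⟩ := h1
    have : u * w * q ^ a = Nat.card G * w := by rw [e]; ring
    rw [this, pow_mul, pow_card_eq_one', one_pow]
  · have h1 : orderOf g ∣ q ^ k := orderOf_dvd_of_pow_eq_one hk
    have h2 : orderOf g ∣ q ^ a * u := by rw [← e]; exact orderOf_dvd_of_pow_eq_one hg
    have h3 : Nat.Coprime (orderOf g) u := Nat.Coprime.coprime_dvd_left h1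
      (Nat.Coprime.pow_left _ ((Nat.Prime.coprime_iff_not_dvd hq).2 hu))
    have h4 : orderOf g ∣ q ^ a := h3.dvd_of_dvd_mul_right h2
    have h5 : g ^ m = g ^ 1 := pow_eq_pow_iff_modEq.2 (hm1.of_dvd h4)
    rw [h5, pow_one]

lemma syl_map_eq [Finite G] {G' : Type w} [Group G'] {f : G →* G'} {p : ℕ} (hp : p.Prime)
    {P X : Subgroup G} {X' : Subgroup G'} (hX' : IsPGroup p X') (hX : X.map f = X') (hPX : P ≤ X)
    (hi : ¬ p ∣ P.relIndex X) : P.map f = X' := by
  have : Fact p.Prime := ⟨hp⟩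
  have hle : P.map f ≤ X' := by rw [← hX]; exact map_mono hPX
  apply le_antisymm hle
  rw [← relIndex_eq_one]
  have h1 : (P.map f).relIndex X' ∣ P.relIndex X := by
    rw [← hX, relIndex_map_map]
    have h2 : (P ⊔ f.ker).relIndex (X ⊔ f.ker) = (P ⊔ f.ker).relIndex X := by
      refine relIndex_eq le_sup_left ?_
      intro g hg
      rw [sup_comm] at hg
      obtain ⟨a, ha, b, hb, e⟩ := ((pm_normal (inferInstance : f.ker.Normal)).symm).mem_sup hg
      exact ⟨a, le_sup_right (a := P) ha, b, hb, e⟩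
    rw [h2]
    exact relIndex_dvd_of_le_left _ le_sup_left
  have hfin : Finite X' := by
    rw [← hX]
    exact Finite.of_surjective _ (f.subgroupMap_surjective X)
  obtain ⟨n, hn⟩ := IsPGroup.iff_card.1 hX'
  have h3 : (P.map f).relIndex X' ∣ p ^ n := by rw [← hn]; exact relIndex_dvd_card _ _
  obtain ⟨i, _, hi'⟩ := (Nat.dvd_prime_pow hp).1 h3
  rcases Nat.eq_zero_or_pos i with h0 | h0
  · rw [hi', h0, pow_zero]
  · exfalso
    apply hi
    refine dvd_trans ?_ h1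
    rw [hi']; exact dvd_pow_self p h0.ne'

lemma NN.map [Finite G] {G' : Type w} [Group G'] (f : G →* G') {p q : ℕ} (hp : p.Prime)
    (hq : q.Prime) {A : Subgroup G} (h : NN p q A) : NN p q (A.map f) := by
  rintro X' hX'A hX' _ ⟨y, hy, rfl⟩ hyq hnorm x' hx'
  obtain ⟨m, hm1, hm2⟩ := exists_qpart'.{u, w} G hq
  set Xh := A ⊓ X'.comap f with hXh
  have hXmap : Xh.map f = X' := eq_map_of_le hX'A
  obtain ⟨P, _, hPX, hPp, hPi⟩ := exists_syl hp (IsPGroup.of_bot : IsPGroup p (⊥ : Subgroup G))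
    (bot_le : ⊥ ≤ Xh)
  have hPmap : P.map f = X' := syl_map_eq hp hX' hXmap hPX hPi
  have hyX : MulAut.conj y • P ≤ Xh := by
    intro x hx
    rw [mem_cj] at hx
    have h1 := hPX hx
    have e : x = y * (y⁻¹ * x * y) * y⁻¹ := by group
    refine mem_inf.2 ⟨?_, ?_⟩
    · rw [e]; exact mul_mem (mul_mem hy h1.1) (inv_mem hy)
    · rw [mem_comap, e, map_mul, map_mul, map_inv]
      exact hnorm _ h1.2
  obtain ⟨u, hu, hux⟩ := syl_dom hp (X := Xh) (P := MulAut.conj y • P) (Q := P)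
    (hPp.of_equiv (equivSMul (MulAut.conj y) P)) hyX hPi
  obtain ⟨r, hr, er⟩ : f u ∈ P.map f := by rw [hPmap]; exact hu.2
  have hzn : r⁻¹ * u * y ∈ normalizer (P : Set G) := by
    apply mem_norm_of
    intro x hx
    have h1 := hux (y * x * y⁻¹) (by rw [mem_cj]; convert hx using 1; group)
    have e : r⁻¹ * u * y * x * (r⁻¹ * u * y)⁻¹ = r⁻¹ * (u * (y * x * y⁻¹) * u⁻¹) * r := by group
    rw [e]
    exact mul_mem (mul_mem (inv_mem hr) h1) hr
  have hfz : f (r⁻¹ * u * y) = f y := by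
    rw [map_mul, map_mul, map_inv, er, inv_mul_cancel, one_mul]
  have hzA : r⁻¹ * u * y ∈ A := mul_mem (mul_mem (inv_mem (hPX hr).1) hu.1) hy
  have hzm : f ((r⁻¹ * u * y) ^ m) = f y := by
    rw [map_pow, hfz]
    exact hm2 G' (f y) (by rw [← map_pow, pow_card_eq_one', map_one]) hyq
  rw [← hPmap] at hx'
  obtain ⟨x, hx, rfl⟩ := hx'
  have h1 := h P (hPX.trans inf_le_left) hPp _ (pow_mem hzA m) (hm1 _)
    (fun x hx => mem_norm (pow_mem hzn m) hx) x hx
  have h2 := congrArg f h1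
  rw [map_mul, map_mul, hzm] at h2
  exact h2

lemma cop {y x z : G} {p q k l : ℕ} (hp : p.Prime) (hq : q.Prime) (hpq : p ≠ q)
    (h1 : y * x * y⁻¹ = z * x) (h2 : y * z = z * y) (hy : y ^ q ^ k = 1) (hz : z ^ p ^ l = 1) :
    z = 1 := by
  have h3 : ∀ m : ℕ, y ^ m * x * (y ^ m)⁻¹ = z ^ m * x := by
    intro m
    induction m with
    | zero => simp
    | succ m ih =>
      have h4 : y * z ^ m = z ^ m * y := (Commute.pow_right (h2 : Commute y z) m).eq
      calc y ^ (m + 1) * x * (y ^ (m + 1))⁻¹ = y * (y ^ m * x * (y ^ m)⁻¹) * y⁻¹ := by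
            rw [pow_succ']; group
        _ = y * z ^ m * x * y⁻¹ := by rw [ih]; group
        _ = z ^ m * (y * x * y⁻¹) := by rw [h4]; group
        _ = z ^ (m + 1) * x := by rw [h1, pow_succ]; group
  have h5 := h3 (q ^ k)
  rw [hy, one_mul, inv_one, mul_one] at h5
  have h6 : z ^ q ^ k = 1 := by
    have : z ^ q ^ k * x = 1 * x := by rw [← h5, one_mul]
    exact mul_right_cancel this
  exact coprime_one hp hq hpq hz h6

lemma pelem_of {p : ℕ} {X : Subgroup G} (h : IsPGroup p X) {x : G} (hx : x ∈ X) :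
    ∃ k, x ^ p ^ k = 1 := by
  obtain ⟨k, hk⟩ := h ⟨x, hx⟩
  exact ⟨k, congrArg Subtype.val hk⟩

lemma normal_le_syl [Finite G] {p : ℕ} (hp : p.Prime) {N P : Subgroup G} (hN : N.Normal)
    (hNp : IsPGroup p N) (hPi : ¬ p ∣ P.index) : N ≤ P := by
  obtain ⟨g, _, hg⟩ := syl_dom hp (X := ⊤) hNp le_top (Q := P) (by rwa [relIndex_top_right])
  intro x hx
  have h1 := hg (g⁻¹ * x * g) (by
    have := hN.conj_mem x hx g⁻¹
    rwa [inv_inv] at this)
  convert h1 using 1
  group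

lemma eq_one_of_not_dvd [Finite G] {q : ℕ} (hq : q.Prime) {A : Subgroup G}
    (h : ¬ q ∣ Nat.card A) {x : G} (hx : x ∈ A) (hk : ∃ k, x ^ q ^ k = 1) : x = 1 := by
  obtain ⟨k, hk⟩ := hk
  have h1 : orderOf x ∣ q ^ k := orderOf_dvd_of_pow_eq_one hk
  have h2 : orderOf x ∣ Nat.card A := by
    have := orderOf_dvd_natCard (⟨x, hx⟩ : A)
    rwa [orderOf_mk] at this
  have h3 : Nat.Coprime (q ^ k) (Nat.card A) :=
    Nat.Coprime.pow_left _ ((Nat.Prime.coprime_iff_not_dvd hq).2 h)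
  exact orderOf_eq_one_iff.1 (Nat.eq_one_of_dvd_coprimes h3 h1 h2)

/-- a normal `p`-subgroup is centralised by all `q`-elements -/
theorem lemPG [Finite G] {p q : ℕ} (hp : p.Prime) (hq : q.Prime) (hpq : p ≠ q) {ι : Type v}
    [Fintype ι] [DecidableEq ι] {H : ι → Subgroup G} (hmp : ∀ i j, MP (H i) (H j))
    (htop : Finset.univ.sup H = ⊤) (hNN : ∀ i, NN p q (H i))
    (hst : ∀ i j, i ≠ j → q ∣ p - 1 → p ∣ Nat.card (H i) → ¬ q ∣ Nat.card (H j))
    {N : Subgroup G} (hN : N.Normal) (hNp : IsPGroup p N) {y : G} (hy : ∃ k, y ^ q ^ k = 1) :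
    ∀ x ∈ N, y * x = x * y := by
  obtain ⟨P, hPp, _, hPi, hPsup, _⟩ := exists_presylow hp hmp Finset.univ
  rw [htop, relIndex_top_right] at hPi
  have hNP : N ≤ P := normal_le_syl hp hN hNp hPi
  have hC : ∀ i, ∀ y ∈ H i, (∃ k, y ^ q ^ k = 1) → ∀ x ∈ N, y * x = x * y := by
    intro i y hyi hyq x hx
    by_cases hy1 : y = 1
    · rw [hy1, one_mul, mul_one]
    by_cases hqp : q ∣ p - 1
    · have hqi : q ∣ Nat.card (H i) := by
        by_contra h1
        exact hy1 (eq_one_of_not_dvd hq h1 hyi hyq)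
      have hPle : P ≤ H i := by
        refine hPsup.trans (Finset.sup_le fun j _ z hz => ?_)
        by_cases hij : j = i
        · rw [← hij]; exact hz.2
        · have h1 : z = 1 := eq_one_of_not_dvd hp (fun h => hst j i hij hqp h hqi) hz.2
            (pelem_of hPp hz.1)
          rw [h1]; exact one_mem _
      exact hNN i N (hNP.trans hPle) hNp y hyi hyq (fun x hx => hN.conj_mem x hx y) x hx
    · have hqt : ¬ q ∣ p * (p - 1) := by
        rw [hq.dvd_mul]
        rintro (h1 | h1)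
        · exact hpq ((Nat.prime_dvd_prime_iff_eq hq hp).1 h1).symm
        · exact hqp h1
      have hPn : P ≤ normalizer (Kq q (H i) : Set G) := by
        refine hPsup.trans (Finset.sup_le fun j _ z hz => ?_)
        obtain ⟨k, hk⟩ := pelem_of hPp hz.1
        exact norm_Kq (hmp i j) hp hq hqt hz.2 hk
      have hyK : y ∈ Kq q (H i) := mem_Kq hyi hyq
      have h1 : x⁻¹ * y * x⁻¹⁻¹ ∈ Kq q (H i) := mem_norm (inv_mem (hPn (hNP hx))) hyK
      have h2 : y * x * y⁻¹ * x⁻¹ ∈ N ⊓ H i := by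
        refine mem_inf.2 ⟨mul_mem (hN.conj_mem x hx y) (inv_mem hx), ?_⟩
        have h3 := mem_norm (hPn (hNP hx)) (inv_mem hyK)
        have : y * x * y⁻¹ * x⁻¹ = y * (x * y⁻¹ * x⁻¹) := by group
        rw [this]
        exact mul_mem hyi (Kq_le _ _ h3)
      have h3 : IsPGroup p ↥(N ⊓ H i) := hNp.to_le inf_le_left
      have h4 := hNN i (N ⊓ H i) inf_le_right h3 y hyi hyq (fun x hx =>
        mem_inf.2 ⟨hN.conj_mem x hx.1 y, mul_mem (mul_mem hyi hx.2) (inv_mem hyi)⟩) _ h2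
      obtain ⟨k, hk⟩ := hyq
      obtain ⟨l, hl⟩ := pelem_of h3 h2
      have h5 := cop hp hq hpq (x := x) (z := y * x * y⁻¹ * x⁻¹) (by group) h4 hk hl
      calc y * x = (y * x * y⁻¹ * x⁻¹) * x * y := by group
        _ = x * y := by rw [h5, one_mul]
  obtain ⟨Q, hQp, _, hQi, hQsup, _⟩ := exists_presylow hq hmp Finset.univ
  rw [htop] at hQi
  have hQc : Q ≤ centralizer (N : Set G) := by
    refine hQsup.trans (Finset.sup_le fun i _ z hz => ?_)
    rw [mem_centralizer_iff]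
    exact fun x hx => (hC i z hz.2 (pelem_of hQp hz.1) x hx).symm
  obtain ⟨k, hk⟩ := hy
  obtain ⟨g, _, hg⟩ := syl_dom hq (X := ⊤) (isPGroup_zpowers hk) le_top (Q := Q) hQi
  have h1 := hQc (hg y (mem_zpowers y))
  have h2 : y ∈ centralizer (N : Set G) := by
    have h3 : (centralizer (N : Set G)).Normal := inferInstance
    have h4 := h3.conj_mem _ h1 g⁻¹
    convert h4 using 1
    group
  intro x hx
  exact (mem_centralizer_iff.1 h2 x hx).symm

end Pool.Agent.T6.H25.MPG
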