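import Mathlib
import Pool.Agent.T6.H25.MPNc

set_option autoImplicit false

/-!
# The theorem on `N`-critical graphs: core induction
-/

namespace Pool.Agent.T6.H25.MPG

open Subgroup
open scoped Pointwise
open Pool.Agent.T6.H25.PM

universe u v w
variable {G : Type u} [Group G]

lemma exists_factor {ι : Type v} [Fintype ι] {H : ι → Subgroup G}
    (htop : Finset.univ.sup H = ⊤) {N : Subgroup G} (hN : Mono N)
    (hall : ∀ i, H i = ⊥ ∨ N ≤ H i) : ∃ k, N ≤ H k := by
  by_contra hne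
  push Not at hne
  have h1 : ∀ i, H i = ⊥ := fun i => (hall i).resolve_right (hne i)
  have h2 : Finset.univ.sup H ≤ ⊥ := Finset.sup_le fun i _ => (h1 i).le
  rw [htop] at h2
  exact hN.ne (le_bot_iff.1 (le_top.trans h2))

lemma gammaCase [Finite G] {p q : ℕ} (hp : p.Prime) (hq : q.Prime) {ι : Type v}
    [Fintype ι] [DecidableEq ι] {H : ι → Subgroup G} (hmp : ∀ i j, MP (H i) (H j))
    (htop : Finset.univ.sup H = ⊤) (hNN : ∀ i, NN p q (H i)) {N : Subgroup G} (hN : Mono N)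
    (hall : ∀ i, H i = ⊥ ∨ N ≤ H i) {X : Subgroup G} (hXN : X ≤ N) (hX : IsPGroup p X) {y : G}
    (hy : ∃ k, y ^ q ^ k = 1) (hyX : ∀ x ∈ X, y * x * y⁻¹ ∈ X) : ∀ x ∈ X, y * x = x * y := by
  have hNn := hN.normal
  obtain ⟨k0, hk0⟩ := exists_factor htop hN hall
  obtain ⟨S, _, hSN, hSp, hSi⟩ := exists_syl hp (IsPGroup.of_bot : IsPGroup p (⊥ : Subgroup G))
    (bot_le : ⊥ ≤ N)
  set L := normalizer (S : Set G) with hL
  have frat : ∀ g : G, ∃ u ∈ N, u * g ∈ L := by
    intro g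
    obtain ⟨u, hu, hux⟩ := syl_dom hp (X := N) (P := MulAut.conj g • S) (Q := S)
      (hSp.of_equiv (equivSMul (MulAut.conj g) S)) (cj_le_normal hNn hSN g) hSi
    refine ⟨u, hu, mem_norm_of fun x hx => ?_⟩
    have h1 := hux (g * x * g⁻¹) (by rw [mem_cj]; convert hx using 1; group)
    convert h1 using 1
    group
  set L' := Finset.univ.sup (fun i => L ⊓ H i) with hL'
  have hL'L : L' ≤ L := Finset.sup_le fun i _ => inf_le_left
  have hNL' : N ⊔ L' = ⊤ := by
    rw [eq_top_iff, ← htop]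
    apply Finset.sup_le
    intro i _
    rcases hall i with h1 | h1
    · rw [h1]; exact bot_le
    · intro g hg
      obtain ⟨u, hu, hug⟩ := frat g
      have e : g = u⁻¹ * (u * g) := by group
      rw [e]
      refine mul_mem (le_sup_left (a := N) (inv_mem hu)) (le_sup_right (a := N) ?_)
      exact (Finset.le_sup (f := fun i => L ⊓ H i) (Finset.mem_univ i))
        (mem_inf.2 ⟨hug, mul_mem (h1 hu) hg⟩)
  have hLL' : L ≤ L' := by
    intro g hg
    obtain ⟨l, hl, n, hn, e⟩ := (pm_normal (P := L') hNn).mem_sup (x := g)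
      (by rw [sup_comm, hNL']; exact mem_top _)
    have hnL : n ∈ L := by
      have : n = l⁻¹ * g := by rw [e]; group
      rw [this]; exact mul_mem (inv_mem (hL'L hl)) hg
    rw [e]
    refine mul_mem hl ?_
    exact (Finset.le_sup (f := fun i => L ⊓ H i) (Finset.mem_univ k0))
      (mem_inf.2 ⟨hnL, hk0 hn⟩)
  obtain ⟨Q, hQp, hQL, hQi, hQsup, _⟩ := exists_presylow hq
    (H := fun i => L ⊓ H i) (fun i j => (hmp i j).inf L) Finset.univ
  have hQc : Q ≤ centralizer (S : Set G) := by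
    refine hQsup.trans (Finset.sup_le fun i _ z hz => ?_)
    obtain ⟨hz1, hz2⟩ := mem_inf.1 hz
    obtain ⟨hz3, hz4⟩ := mem_inf.1 hz2
    rw [mem_centralizer_iff]
    intro x hx
    rcases hall i with h1 | h1
    · rw [h1, mem_bot] at hz4
      rw [hz4, one_mul, mul_one]
    · exact (hNN i S (hSN.trans h1) hSp z hz4 (pelem_of hQp hz1) (fun x hx => mem_norm hz3 hx)
        x hx).symm
  have hLc : ∀ c ∈ L, (∃ k, c ^ q ^ k = 1) → ∀ x ∈ S, c * x = x * c := by
    rintro c hc ⟨k, hk⟩ x hx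
    obtain ⟨g, hg, hgc⟩ := syl_dom hq (X := L') (isPGroup_zpowers hk)
      (by rw [zpowers_le]; exact hLL' hc) (Q := Q) hQi
    have h1 := mem_centralizer_iff.1 (hQc (hgc c (mem_zpowers c))) _ (mem_norm (hL'L hg) hx)
    have h2 : g * (x * c) * g⁻¹ = g * (c * x) * g⁻¹ := by
      calc g * (x * c) * g⁻¹ = (g * x * g⁻¹) * (g * c * g⁻¹) := by group
        _ = (g * c * g⁻¹) * (g * x * g⁻¹) := h1
        _ = _ := by group
    exact (mul_left_cancel (mul_right_cancel h2)).symm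
  -- conjugate `X` into `S`
  obtain ⟨w, hw, hwx⟩ := syl_dom hp (X := N) hX hXN (Q := S) hSi
  obtain ⟨m, hm1, hm2⟩ := exists_qpart G hq
  obtain ⟨k, hk⟩ := hy
  have hy' : ∃ k, (w * y * w⁻¹) ^ q ^ k = 1 := ⟨k, by rw [conj_pow, hk]; group⟩
  have hym := hm2 _ hy'
  set y' := w * y * w⁻¹ with hy'def
  clear_value y'
  obtain ⟨u, hu, huL⟩ := frat y'
  have hcN : y' * ((u * y') ^ m)⁻¹ ∈ N := by
    rw [← QuotientGroup.eq_one_iff]
    have h1 : ((u : G) : G ⧸ N) = 1 := (QuotientGroup.eq_one_iff u).2 hu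
    rw [QuotientGroup.mk_mul, QuotientGroup.mk_inv, QuotientGroup.mk_pow, QuotientGroup.mk_mul, h1,
      one_mul, ← QuotientGroup.mk_pow, hym, mul_inv_cancel]
  set c := (u * y') ^ m with hc
  have hcL : c ∈ L := pow_mem huL m
  have hcx := hLc c hcL (hm1 _)
  set n1 := y' * c⁻¹ with hn1
  have hstep : ∀ x ∈ X, n1 * (w * x * w⁻¹) * n1⁻¹ = w * (y * x * y⁻¹) * w⁻¹ := by
    intro x hx
    have h1 := hcx _ (hwx x hx)
    calc n1 * (w * x * w⁻¹) * n1⁻¹ = y' * (c⁻¹ * ((w * x * w⁻¹) * c)) * y'⁻¹ := by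
          rw [hn1]; group
      _ = y' * (c⁻¹ * (c * (w * x * w⁻¹))) * y'⁻¹ := by rw [h1]
      _ = w * (y * x * y⁻¹) * w⁻¹ := by rw [hy'def]; group
  have hpow : ∀ j : ℕ, ∀ x ∈ X, y ^ j * x * (y ^ j)⁻¹ ∈ X ∧
      n1 ^ j * (w * x * w⁻¹) * (n1 ^ j)⁻¹ = w * (y ^ j * x * (y ^ j)⁻¹) * w⁻¹ := by
    intro j
    induction j with
    | zero => intro x hx; simpa using hx
    | succ j ih =>
      intro x hx
      obtain ⟨h1, h2⟩ := ih x hx
      have e : y ^ (j + 1) * x * (y ^ (j + 1))⁻¹ = y * (y ^ j * x * (y ^ j)⁻¹) * y⁻¹ := by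
        rw [pow_succ']; group
      refine ⟨by rw [e]; exact hyX _ h1, ?_⟩
      calc n1 ^ (j + 1) * (w * x * w⁻¹) * (n1 ^ (j + 1))⁻¹
          = n1 * (n1 ^ j * (w * x * w⁻¹) * (n1 ^ j)⁻¹) * n1⁻¹ := by rw [pow_succ']; group
        _ = n1 * (w * (y ^ j * x * (y ^ j)⁻¹) * w⁻¹) * n1⁻¹ := by rw [h2]
        _ = w * (y * (y ^ j * x * (y ^ j)⁻¹) * y⁻¹) * w⁻¹ := hstep _ h1
        _ = _ := by rw [← e]
  have hymy : y ^ m = y := hm2 y ⟨k, hk⟩
  intro x hx
  have hX' : MulAut.conj w • X ≤ N := cj_le_normal hNn hXN w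
  have h1 := hNN k0 (MulAut.conj w • X) (hX'.trans hk0)
    (hX.of_equiv (equivSMul (MulAut.conj w) X)) (n1 ^ m) (hk0 (pow_mem hcN m)) (hm1 n1) (by
      intro z hz
      rw [mem_cj] at hz ⊢
      have h2 := (hpow m _ hz).2
      have h3 : w * (w⁻¹ * z * w) * w⁻¹ = z := by group
      rw [h3] at h2
      rw [h2]
      have h4 := (hpow m _ hz).1
      convert h4 using 1
      group) (w * x * w⁻¹) (by rw [mem_cj]; convert hx using 1; group)
  have h2 := (hpow m x hx).2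
  rw [hymy, h1] at h2
  have h3 : w * x * w⁻¹ = w * (y * x * y⁻¹) * w⁻¹ := by
    rw [← h2]; group
  have h4 : x = y * x * y⁻¹ := mul_left_cancel (mul_right_cancel h3)
  calc y * x = (y * x * y⁻¹) * y := by group
    _ = x * y := by rw [← h4]

lemma mono_solv [Finite G] {p : ℕ} (hp : p.Prime) {N : Subgroup G} (hN : Mono N)
    (hs : Group.IsSolvable N) (hd : p ∣ Nat.card N) : IsPGroup p N := by
  have : Fact p.Prime := ⟨hp⟩
  have hNn := hN.normal
  have hcomm : ∀ a ∈ N, ∀ b ∈ N, a * b = b * a := by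
    have h1 : ⁅N, N⁆ = ⊥ := by
      by_contra hne
      have h2 := hN.le _ inferInstance hne
      have h3 : Group.IsPerfect N := isPerfect_iff.2 (le_antisymm (commutator_le_self N) h2)
      have h4 : Nontrivial N := (nontrivial_iff_ne_bot N).2 hN.ne
      exact Group.IsPerfect.not_isSolvable N hs
    intro a ha b hb
    have h2 := commutator_mem_commutator ha hb
    rw [h1, mem_bot, commutatorElement_def] at h2
    calc a * b = (a * b * a⁻¹ * b⁻¹) * (b * a) := by group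
      _ = b * a := by rw [h2, one_mul]
  let T : Subgroup G :=
    { carrier := {x | x ∈ N ∧ ∃ k, x ^ p ^ k = 1}
      one_mem' := ⟨one_mem _, 0, by simp⟩
      mul_mem' := by
        rintro x y ⟨hx, k, hk⟩ ⟨hy, l, hl⟩
        refine ⟨mul_mem hx hy, k + l, ?_⟩
        have h1 : Commute x y := hcomm x hx y hy
        rw [h1.mul_pow, pow_add, pow_mul, hk, one_pow, one_mul, mul_comm, pow_mul, hl, one_pow]
      inv_mem' := by
        rintro x ⟨hx, k, hk⟩
        exact ⟨inv_mem hx, k, by rw [inv_pow, hk, inv_one]⟩ }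
  have hTn : T.Normal := by
    constructor
    rintro x ⟨hx, k, hk⟩ g
    exact ⟨hNn.conj_mem x hx g, k, by rw [conj_pow, hk]; group⟩
  have hTne : T ≠ ⊥ := by
    obtain ⟨x, hx⟩ := exists_prime_orderOf_dvd_card' p hd
    intro h0
    have h1 : (x : G) ∈ T := ⟨x.2, 1, by
      have h2 : x ^ p = 1 := by rw [← hx]; exact pow_orderOf_eq_one x
      rw [pow_one]
      exact congrArg Subtype.val h2⟩
    rw [h0, mem_bot] at h1
    have h2 : x = 1 := Subtype.ext h1
    rw [h2, orderOf_one] at hx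
    exact hp.one_lt.ne hx
  intro x
  obtain ⟨_, k, hk⟩ := hN.le T hTn hTne x.2
  exact ⟨k, Subtype.ext hk⟩

lemma card_map_dvd' [Finite G] {G' : Type w} [Group G'] (f : G →* G') (A : Subgroup G) :
    Nat.card (A.map f) ∣ Nat.card A := by
  exact card_dvd_of_surjective (f.subgroupMap A) (f.subgroupMap_surjective A)

theorem nc_thm {p q : ℕ} (hp : p.Prime) (hq : q.Prime) (hpq : p ≠ q) : ∀ (n : ℕ) (G : Type u)
    [Group G] [Finite G] (ι : Type v) [Fintype ι] [DecidableEq ι] (H : ι → Subgroup G),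
    Nat.card G = n → (∀ i j, MP (H i) (H j)) → Finset.univ.sup H = ⊤ → (∀ i, NN p q (H i)) →
    (∀ i j, i ≠ j → q ∣ p - 1 → p ∣ Nat.card (H i) → ¬ q ∣ Nat.card (H j)) →
    NN p q (⊤ : Subgroup G) := by
  intro n
  induction n using Nat.strong_induction_on with
  | _ n ih =>
  rintro G _ _ ι _ _ H hn hmp htop hNN hst X - hX y - hy hyX x hx
  by_contra hxy
  have hz : y * x * y⁻¹ * x⁻¹ ≠ 1 := by
    intro h1
    apply hxy
    calc y * x = (y * x * y⁻¹ * x⁻¹) * (x * y) := by group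
      _ = x * y := by rw [h1, one_mul]
  have hzX : y * x * y⁻¹ * x⁻¹ ∈ X := mul_mem (hyX x hx) (inv_mem hx)
  obtain ⟨N, hN, hzN⟩ := exists_mono hz (fun M hM hMne => by
    have h1 := ih _ (hn ▸ card_quot_lt hMne) (G ⧸ M) ι (fun i => (H i).map (QuotientGroup.mk' M)) rfl
      (fun i j => (hmp i j).map _) (map_univ_sup _ (QuotientGroup.mk'_surjective M) htop)
      (fun i => (hNN i).map _ hp hq) (fun i j hij h1 h2 h3 => hst i j hij h1
        (h2.trans (card_map_dvd' _ _)) (h3.trans (card_map_dvd' _ _)))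
    obtain ⟨k, hk⟩ := hy
    have h2 := h1 (X.map (QuotientGroup.mk' M)) le_top (hX.map _) (QuotientGroup.mk' M y) (mem_top _)
      ⟨k, by rw [← map_pow, hk, map_one]⟩ (by
        rintro _ ⟨x, hx, rfl⟩
        exact ⟨_, hyX x hx, by simp⟩) _ ⟨x, hx, rfl⟩
    rw [← QuotientGroup.eq_one_iff]
    change QuotientGroup.mk' M (y * x * y⁻¹ * x⁻¹) = 1
    rw [map_mul, map_mul, map_mul, h2, map_inv, map_inv]
    group)
  have key : ∀ x ∈ X ⊓ N, y * x = x * y := by
    have hNn := hN.normal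
    by_cases hs : Group.IsSolvable N
    · have hpN : p ∣ Nat.card N := by
        by_contra h1
        exact hz (eq_one_of_not_dvd hp h1 hzN (pelem_of hX hzX))
      exact fun x hx => lemPG hp hq hpq hmp htop hNN hst hNn (mono_solv hp hN hs hpN) hy x hx.2
    · exact gammaCase hp hq hmp htop hNN hN (fun i => lemNA hmp htop hN hs i) inf_le_right
        (hX.to_le inf_le_left) hy (fun x hx => mem_inf.2 ⟨hyX x hx.1, hNn.conj_mem x hx.2 y⟩)
  obtain ⟨k, hk⟩ := hy
  obtain ⟨l, hl⟩ := pelem_of hX hzX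
  exact hz (cop hp hq hpq (x := x) (z := y * x * y⁻¹ * x⁻¹) (by group)
    (key _ (mem_inf.2 ⟨hzX, hzN⟩)) hk hl)

end Pool.Agent.T6.H25.MPG
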