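import Mathlib
import Pool.Agent.T6.H25.MPNc2

set_option autoImplicit false

/-!
# The theorem on Hawkes graphs: core induction
-/

namespace Pool.Agent.T6.H25.MPG

open Subgroup
open scoped Pointwise
open Pool.Agent.T6.H25.PM

universe u v w
variable {G : Type u} [Group G]

lemma Kq_map [Finite G] {G' : Type w} [Group G'] (f : G →* G') {q : ℕ} (hq : q.Prime)
    (A : Subgroup G) : (Kq q A).map f = Kq q (A.map f) := by
  obtain ⟨m, hm1, hm2⟩ := exists_qpart'.{u, w} G hq
  apply le_antisymm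
  · rw [map_le_iff_le_comap]
    conv_lhs => rw [Kq]
    rw [closure_le]
    rintro x ⟨hx, k, hk⟩
    exact mem_Kq ⟨x, hx, rfl⟩ ⟨k, by rw [← map_pow, hk, map_one]⟩
  · conv_lhs => rw [Kq]
    rw [closure_le]
    rintro _ ⟨⟨a, ha, rfl⟩, hk⟩
    refine ⟨a ^ m, mem_Kq (pow_mem ha m) (hm1 a), ?_⟩
    rw [map_pow]
    exact hm2 G' (f a) (by rw [← map_pow, pow_card_eq_one', map_one]) hk

lemma Kq_norm [Finite G] (q : ℕ) (A : Subgroup G) : A ≤ normalizer (Kq q A : Set G) := by
  intro b hb
  apply mem_norm_of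
  exact Kq_conj fun x hx _ => mul_mem (mul_mem hb hx) (inv_mem hb)

lemma NN_of_Hk [Finite G] {p q : ℕ} (hp : p.Prime) {A : Subgroup G}
    (h : ¬ p ∣ Nat.card (Kq q A)) : NN p q A := by
  intro X hXA hX y hy hyq hyX x hx
  have h1 : y * x * y⁻¹ * x⁻¹ ∈ Kq q A := by
    have h2 := mem_norm (Kq_norm q A (hXA hx)) (inv_mem (mem_Kq hy hyq))
    have : y * x * y⁻¹ * x⁻¹ = y * (x * y⁻¹ * x⁻¹) := by group
    rw [this]
    exact mul_mem (mem_Kq hy hyq) h2
  have h3 := eq_one_of_not_dvd hp h h1 (pelem_of hX (mul_mem (hyX x hx) (inv_mem hx)))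
  calc y * x = (y * x * y⁻¹ * x⁻¹) * (x * y) := by group
    _ = x * y := by rw [h3, one_mul]

lemma mono_cent {N : Subgroup G} (hN : Mono N) (hns : ¬ Group.IsSolvable N) :
    centralizer (N : Set G) = ⊥ := by
  have := hN.normal
  by_contra hne
  have h1 := hN.le _ inferInstance hne
  apply hns
  exact Group.isSolvable_of_comm fun a b => Subtype.ext
    ((mem_centralizer_iff.1 (h1 b.2) a a.2))

lemma nonsolv_inf [Finite G] {p : ℕ} (hp : p.Prime) {N : Subgroup G} (hN : Mono N)
    (hpN : p ∣ Nat.card N) {K : Subgroup G} (hK : N ≤ normalizer (K : Set G))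
    (hpK : ¬ p ∣ Nat.card K) : N ⊓ K = ⊥ := by
  have hNn := hN.normal
  obtain ⟨R, ⟨hR1, hR2, hR3⟩, hRmax⟩ := exists_largest (G := G)
    (fun Q => Q ≤ N ∧ N ≤ normalizer (Q : Set G) ∧ ¬ p ∣ Nat.card Q)
    ⟨⊥, bot_le, fun x _ => by
        apply mem_norm_of
        intro y hy
        rw [mem_bot] at hy ⊢
        rw [hy]; group,
      by rw [card_bot]; exact hp.one_lt.ne' ∘ Nat.dvd_one.1⟩
    (fun A B hA hB => by
      refine ⟨sup_le hA.1 hB.1, fun x hx => ?_, ?_⟩
      · apply mem_norm_of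
        have h1 : A ⊔ B ≤ (A ⊔ B).comap (MulAut.conj x).toMonoidHom := by
          refine sup_le (fun y hy => ?_) (fun y hy => ?_)
          · exact le_sup_left (a := A) (mem_norm (hA.2.1 hx) hy)
          · exact le_sup_right (a := A) (mem_norm (hB.2.1 hx) hy)
        exact fun y hy => h1 hy
      · have h1 : Pm A B := fun a ha b hb => ⟨a * b * a⁻¹, mem_norm (hB.2.1 (hA.1 ha)) hb, a, ha,
          by group⟩
        have h2 := card_mul_relIndex (le_sup_left : A ≤ A ⊔ B)
        rw [relIndex_eq (B := B) le_sup_right (fun g hg => h1.mem_sup hg)] at h2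
        rw [← h2]
        refine Nat.Prime.not_dvd_mul hp hA.2.2 ?_
        exact fun h => hB.2.2 (h.trans (relIndex_dvd_card _ _)))
  have hRn : R.Normal := by
    rw [← normalizer_eq_top_iff, eq_top_iff]
    intro g _
    apply mem_norm_of
    have h1 : MulAut.conj g • R ≤ R := by
      refine hRmax _ ⟨cj_le_normal hNn hR1 g, fun x hx => ?_, ?_⟩
      · apply mem_norm_of
        intro y hy
        rw [mem_cj] at hy ⊢
        have h2 : g⁻¹ * x * g ∈ N := by
          have := hNn.conj_mem x hx g⁻¹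
          rwa [inv_inv] at this
        have h3 := mem_norm (hR2 h2) hy
        convert h3 using 1
        group
      · have h2 := Nat.card_congr (equivSMul (MulAut.conj g) R).toEquiv
        rw [← h2]; exact hR3
    intro x hx
    apply h1
    rw [mem_cj]; convert hx using 1; group
  have hR0 : R = ⊥ := by
    by_contra hne
    have h1 := hN.le R hRn hne
    rw [le_antisymm hR1 h1] at hR3
    exact hR3 hpN
  rw [eq_bot_iff, ← hR0]
  refine hRmax _ ⟨inf_le_left, fun x hx => ?_, ?_⟩
  · apply mem_norm_of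
    intro y hy
    exact mem_inf.2 ⟨hNn.conj_mem y hy.1 x, mem_norm (hK hx) hy.2⟩
  · exact fun h => hpK (h.trans (card_dvd_of_le inf_le_right))

theorem hk_thm {p q : ℕ} (hp : p.Prime) (hq : q.Prime) (hpq : p ≠ q) : ∀ (n : ℕ) (G : Type u)
    [Group G] [Finite G] (ι : Type v) [Fintype ι] [DecidableEq ι] (H : ι → Subgroup G),
    Nat.card G = n → (∀ i j, MP (H i) (H j)) → Finset.univ.sup H = ⊤ →
    (∀ i, ¬ p ∣ Nat.card (Kq q (H i))) →
    (∀ i j, i ≠ j → q ∣ p - 1 → p ∣ Nat.card (H i) → ¬ q ∣ Nat.card (H j)) →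
    ¬ p ∣ Nat.card (Kq q (⊤ : Subgroup G)) := by
  intro n
  induction n using Nat.strong_induction_on with
  | _ n ih =>
  intro G _ _ ι _ _ H hn hmp htop hK hst hd
  have hNN : ∀ i, NN p q (H i) := fun i => NN_of_Hk hp (hK i)
  have : Fact p.Prime := ⟨hp⟩
  obtain ⟨⟨z, hzK⟩, hz0⟩ := exists_prime_orderOf_dvd_card' p hd
  rw [orderOf_mk] at hz0
  have hzp : z ^ p = 1 := by rw [← hz0]; exact pow_orderOf_eq_one z
  have hz : z ≠ 1 := by
    rintro rfl
    rw [orderOf_one] at hz0
    exact hp.one_lt.ne hz0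
  have hquot : ∀ (M : Subgroup G) (_ : M.Normal), M ≠ ⊥ →
      ¬ p ∣ Nat.card ((Kq q (⊤ : Subgroup G)).map (QuotientGroup.mk' M)) := by
    intro M hM hMne
    have h1 := ih _ (hn ▸ card_quot_lt hMne) (G ⧸ M) ι (fun i => (H i).map (QuotientGroup.mk' M)) rfl
      (fun i j => (hmp i j).map _) (map_univ_sup _ (QuotientGroup.mk'_surjective M) htop)
      (fun i => by
        rw [← Kq_map _ hq]
        exact fun h => hK i (h.trans (card_map_dvd' _ _))) (fun i j hij h1 h2 h3 => hst i j hij h1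
        (h2.trans (card_map_dvd' _ _)) (h3.trans (card_map_dvd' _ _)))
    have h2 : Kq q (⊤ : Subgroup (G ⧸ M)) = (Kq q (⊤ : Subgroup G)).map (QuotientGroup.mk' M) := by
      rw [Kq_map _ hq, ← MonoidHom.range_eq_map, QuotientGroup.range_mk']
    rwa [h2] at h1
  obtain ⟨N, hN, hzN⟩ := exists_mono hz (fun M hM hMne => by
    have h1 : QuotientGroup.mk' M z = 1 := eq_one_of_not_dvd hp (hquot M hM hMne) ⟨z, hzK, rfl⟩
      ⟨1, by rw [pow_one, ← map_pow, hzp, map_one]⟩
    exact (QuotientGroup.eq_one_iff z).1 h1)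
  have hNn := hN.normal
  have hpN : p ∣ Nat.card N := by
    by_contra h1
    exact hz (eq_one_of_not_dvd hp h1 hzN ⟨1, by rw [pow_one]; exact hzp⟩)
  set K := Kq q (⊤ : Subgroup G) with hKdef
  by_cases hs : Group.IsSolvable N
  · have hPG : ∀ {y : G}, (∃ k, y ^ q ^ k = 1) → ∀ x ∈ N, y * x = x * y := fun hy =>
      lemPG hp hq hpq hmp htop hNN hst hNn (mono_solv hp hN hs hpN) hy
    have hKc : K ≤ centralizer (N : Set G) := by
      rw [hKdef, Kq, closure_le]
      rintro y ⟨-, hy⟩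
      rw [SetLike.mem_coe, mem_centralizer_iff]
      exact fun x hx => (hPG hy x hx).symm
    have hZ : N.subgroupOf K ≤ center K := by
      intro x hx
      rw [mem_center_iff]
      intro y
      exact Subtype.ext ((mem_centralizer_iff.1 (hKc y.2) x (mem_subgroupOf.1 hx)).symm)
    have hZi : ¬ p ∣ (center K).index := by
      have h1 : (N.subgroupOf K).index = Nat.card (K.map (QuotientGroup.mk' N)) := by
        rw [← relIndex_ker, QuotientGroup.ker_mk']; rfl
      intro h2
      apply hquot N hNn hN.ne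
      rw [← h1]
      exact h2.trans (index_dvd_of_le hZ)
    have hmul : ∀ x ∈ K, ∀ y ∈ K, ∃ a b : K, (x * y) ^ (center K).index = x ^ (center K).index *
        y ^ (center K).index ∧ x ^ (center K).index * y ^ (center K).index =
        y ^ (center K).index * x ^ (center K).index := by
      intro x hx y hy
      refine ⟨1, 1, ?_, ?_⟩
      · have h1 := map_mul (MonoidHom.transferCenterPow K) ⟨x, hx⟩ ⟨y, hy⟩
        have h2 := congrArg (fun w : center K => ((w : K) : G)) h1
        simpa [MonoidHom.transferCenterPow_apply] using h2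
      · have h1 := mem_center_iff.1 (MonoidHom.transferCenterPow K ⟨x, hx⟩).2
          ((⟨y, hy⟩ : K) ^ (center K).index)
        have h2 := congrArg (fun w : K => (w : G)) h1
        exact h2.symm
    have hall : ∀ x ∈ K, x ∈ K ∧ ∃ k, (x ^ (center K).index) ^ q ^ k = 1 := by
      intro x hx
      have hx' : x ∈ closure {x | x ∈ (⊤ : Subgroup G) ∧ ∃ k, x ^ q ^ k = 1} := hx
      induction hx' using closure_induction with
      | mem x h =>
        obtain ⟨_, k, hk⟩ := h
        exact ⟨hx, k, by rw [← pow_mul, mul_comm, pow_mul, hk, one_pow]⟩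
      | one => exact ⟨hx, 0, by simp⟩
      | mul x y hx1 hy1 ihx ihy =>
        obtain ⟨hxK, k, hk⟩ := ihx hx1
        obtain ⟨hyK, l, hl⟩ := ihy hy1
        obtain ⟨_, _, e1, e2⟩ := hmul x hxK y hyK
        refine ⟨hx, k + l, ?_⟩
        rw [e1, (show Commute _ _ from e2).mul_pow, pow_add, pow_mul, hk, one_pow, one_mul,
          mul_comm (q ^ k), pow_mul, hl, one_pow]
      | inv x hx1 ihx =>
        obtain ⟨hxK, k, hk⟩ := ihx hx1
        exact ⟨hx, k, by rw [inv_pow, inv_pow, hk, inv_one]⟩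
    obtain ⟨_, k, hk⟩ := hall z hzK
    have h1 : z ^ (center K).index = 1 := coprime_one (i := 1) (j := k) hp hq hpq (by
      rw [pow_one, ← pow_mul, mul_comm, pow_mul, hzp, one_pow]) hk
    have h2 : Nat.Coprime p (center K).index := (Nat.Prime.coprime_iff_not_dvd hp).2 hZi
    exact hz (orderOf_eq_one_iff.1 (Nat.eq_one_of_dvd_coprimes h2 (orderOf_dvd_of_pow_eq_one hzp)
      (orderOf_dvd_of_pow_eq_one h1)))
  · have hcent := mono_cent hN hs
    have hKi : ∀ i, Kq q (H i) = ⊥ := by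
      intro i
      rcases lemNA hmp htop hN hs i with h1 | h1
      · rw [eq_bot_iff, ← h1]; exact Kq_le q _
      · have h2 : N ≤ normalizer (Kq q (H i) : Set G) := h1.trans (Kq_norm q _)
        have h3 := nonsolv_inf hp hN hpN h2 (hK i)
        rw [eq_bot_iff, ← hcent]
        intro y hy
        rw [mem_centralizer_iff]
        intro x hx
        have h4 : x * y * x⁻¹ * y⁻¹ ∈ N ⊓ Kq q (H i) := by
          refine mem_inf.2 ⟨?_, mul_mem (mem_norm (h2 hx) hy) (inv_mem hy)⟩
          have : x * y * x⁻¹ * y⁻¹ = x * (y * x⁻¹ * y⁻¹) := by group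
          rw [this]
          exact mul_mem hx (hNn.conj_mem _ (inv_mem hx) y)
        rw [h3, mem_bot] at h4
        calc x * y = (x * y * x⁻¹ * y⁻¹) * (y * x) := by group
          _ = y * x := by rw [h4, one_mul]
    obtain ⟨Q, hQp, _, hQi, hQsup, _⟩ := exists_presylow hq hmp Finset.univ
    have hQ0 : Q = ⊥ := by
      rw [eq_bot_iff]
      refine hQsup.trans (Finset.sup_le fun i _ x hx => ?_)
      rw [← hKi i]
      exact mem_Kq hx.2 (pelem_of hQp hx.1)
    rw [htop, hQ0, relIndex_bot_left] at hQi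
    have h1 : K ≤ ⊥ := by
      rw [hKdef, Kq, closure_le]
      rintro y ⟨hy, hyk⟩
      exact mem_bot.2 (eq_one_of_not_dvd hq hQi hy hyk)
    exact hz (mem_bot.1 (h1 hzK))

end Pool.Agent.T6.H25.MPG
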