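import Mathlib
import Pool.Agent.T6.H25.MPHk

set_option autoImplicit false

/-!
# `p`-nilpotent subgroups and Schmidt subgroups
-/

namespace Pool.Agent.T6.H25.MPG

open Subgroup
open scoped Pointwise
open Pool.Agent.T6.H25.PM

universe u v w
variable {G : Type u} [Group G]

/-- `p`-nilpotent: a normal `p'`-subgroup of `p`-power index -/
def PNilp (p : ℕ) (X : Type u) [Group X] : Prop :=
  ∃ K : Subgroup X, K.Normal ∧ ¬ p ∣ Nat.card K ∧ ∃ k : ℕ, K.index = p ^ k

/-- elementwise form -/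
def PN (p : ℕ) (N : Subgroup G) : Prop :=
  ∃ K : Subgroup G, K ≤ N ∧ N ≤ normalizer (K : Set G) ∧ ¬ p ∣ Nat.card K ∧ ∃ k : ℕ, K.relIndex N = p ^ k

lemma pn_iff [Finite G] {p : ℕ} {N : Subgroup G} : PNilp p N ↔ PN p N := by
  constructor
  · rintro ⟨K, hK, hc, k, hk⟩
    refine ⟨K.map N.subtype, by rintro _ ⟨x, _, rfl⟩; exact x.2, ?_, ?_, k, ?_⟩
    · intro g hg
      apply mem_norm_of
      rintro _ ⟨x, hx, rfl⟩
      exact ⟨⟨g, hg⟩ * x * ⟨g, hg⟩⁻¹, hK.conj_mem x hx _, rfl⟩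
    · rwa [Nat.card_congr (K.equivMapOfInjective N.subtype N.subtype_injective).symm.toEquiv]
    · rw [relIndex, subgroupOf, comap_map_eq_self_of_injective (subtype_injective N)]
      exact hk
  · rintro ⟨K, hKN, hn, hc, k, hk⟩
    refine ⟨K.subgroupOf N, ?_, ?_, k, hk⟩
    · constructor
      intro x hx g
      rw [mem_subgroupOf] at hx ⊢
      exact mem_norm (hn g.2) hx
    · rwa [Nat.card_congr (subgroupOfEquivOfLe hKN).toEquiv]

lemma pn_mem [Finite G] {p k : ℕ} (hp : p.Prime) {K N : Subgroup G} (hKN : K ≤ N)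
    (hn : N ≤ normalizer (K : Set G)) (hc : ¬ p ∣ Nat.card K) (hk : K.relIndex N = p ^ k) {x : G}
    (hx : x ∈ N) : x ∈ K ↔ ¬ p ∣ orderOf x := by
  constructor
  · intro h1 h2
    apply hc
    have := orderOf_dvd_natCard (⟨x, h1⟩ : K)
    rw [orderOf_mk] at this
    exact h2.trans this
  · intro h1
    have hKn : (K.subgroupOf N).Normal := by
      constructor
      intro x hx g
      rw [mem_subgroupOf] at hx ⊢
      exact mem_norm (hn g.2) hx
    have h2 : (⟨x, hx⟩ : N) ^ (K.subgroupOf N).index ∈ K.subgroupOf N := pow_index_mem _ _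
    have h2' : x ^ p ^ k ∈ K := by
      rw [← hk]; exact h2
    have h3 : Nat.Coprime (p ^ k) (orderOf x) :=
      Nat.Coprime.pow_left _ ((Nat.Prime.coprime_iff_not_dvd hp).2 h1)
    obtain ⟨m, hm⟩ := exists_pow_eq_self_of_coprime h3
    rw [← hm]; exact pow_mem h2' m

lemma pn_sup [Finite G] {p : ℕ} (hp : p.Prime) {A B : Subgroup G} (hA : A.Normal) (hB : B.Normal)
    (h1 : PN p A) (h2 : PN p B) : PN p (A ⊔ B) := by
  have hnorm : ∀ {N K : Subgroup G} {k : ℕ}, N.Normal → K ≤ N → N ≤ normalizer (K : Set G) →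
      ¬ p ∣ Nat.card K → K.relIndex N = p ^ k → K.Normal := by
    intro N K k hN hKN hn hc hk
    constructor
    intro x hx g
    have h3 : g * x * g⁻¹ ∈ N := hN.conj_mem x (hKN hx) g
    rw [pn_mem hp hKN hn hc hk h3]
    rw [pn_mem hp hKN hn hc hk (hKN hx)] at hx
    have h4 : orderOf (g * x * g⁻¹) = orderOf x := by
      have := orderOf_injective (MulAut.conj g).toMonoidHom (MulAut.conj g).injective x
      exact this
    rwa [h4]
  obtain ⟨K, hKA, hKn, hKc, k, hk⟩ := h1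
  obtain ⟨L, hLB, hLn, hLc, l, hl⟩ := h2
  have hK := hnorm hA hKA hKn hKc hk
  have hL := hnorm hB hLB hLn hLc hl
  have hKL : (K ⊔ L).Normal := inferInstance
  refine ⟨K ⊔ L, sup_le_sup hKA hLB, ?_, ?_, ?_⟩
  · rw [normalizer_eq_top_iff.2 hKL]; exact le_top
  · have h2 := card_mul_relIndex (le_sup_left : K ≤ K ⊔ L)
    rw [relIndex_eq (B := L) le_sup_right (fun g hg => (pm_normal hL).mem_sup hg)] at h2
    rw [← h2]
    refine Nat.Prime.not_dvd_mul hp hKc ?_
    exact fun h => hLc (h.trans (relIndex_dvd_card _ _))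
  · have h3 : (K ⊔ L) ≤ A ⊔ L := sup_le_sup hKA le_rfl
    have h4 : A ⊔ L ≤ A ⊔ B := sup_le_sup le_rfl hLB
    have e1 : (K ⊔ L).relIndex (A ⊔ L) ∣ p ^ k := by
      rw [relIndex_eq (N := K ⊔ L) (B := A) le_sup_left (fun g hg => by
        rw [sup_comm] at hg
        obtain ⟨x, hx, y, hy, e⟩ := (pm_normal hA).mem_sup hg
        exact ⟨x, le_sup_right (a := K) hx, y, hy, e⟩), ← hk]
      exact relIndex_dvd_of_le_left _ le_sup_left
    have e2 : (A ⊔ L).relIndex (A ⊔ B) ∣ p ^ l := by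
      rw [relIndex_eq (N := A ⊔ L) (B := B) le_sup_right (fun g hg => by
        obtain ⟨x, hx, y, hy, e⟩ := (pm_normal hB).mem_sup hg
        exact ⟨x, le_sup_left (a := A) hx, y, hy, e⟩), ← hl]
      exact relIndex_dvd_of_le_left _ le_sup_right
    obtain ⟨i, _, hi⟩ := (Nat.dvd_prime_pow hp).1 e1
    obtain ⟨j, _, hj⟩ := (Nat.dvd_prime_pow hp).1 e2
    exact ⟨i + j, by rw [← relIndex_mul_relIndex _ _ _ h3 h4, hi, hj, pow_add]⟩

/-- `O_{p',p}(X)`: the largest normal `p`-nilpotent subgroup -/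
def opp (p : ℕ) (X : Type u) [Group X] : Subgroup X := sSup {N : Subgroup X | N.Normal ∧ PNilp p N}

lemma opp_isGreatest {p : ℕ} (hp : p.Prime) (X : Type u) [Group X] [Finite X] :
    IsGreatest {N : Subgroup X | N.Normal ∧ PNilp p N} (opp p X) := by
  obtain ⟨R, hR, hmax⟩ := exists_largest (G := X) (fun N => N.Normal ∧ PNilp p N)
    ⟨⊥, inferInstance, pn_iff.2 ⟨⊥, le_rfl, fun x hx => by
        rw [mem_bot] at hx; rw [hx]; exact one_mem _,
      by rw [card_bot]; exact hp.one_lt.ne' ∘ Nat.dvd_one.1, 0, by rw [relIndex_self, pow_zero]⟩⟩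
    (fun A B hA hB => ⟨by have := hA.1; have := hB.1; infer_instance,
      pn_iff.2 (pn_sup hp hA.1 hB.1 (pn_iff.1 hA.2) (pn_iff.1 hB.2))⟩)
  have h1 : opp p X = R := le_antisymm (sSup_le hmax) (le_sSup hR)
  rw [h1]
  exact ⟨hR, fun A hA => hmax A hA⟩

lemma hk_of_opp {p q : ℕ} (hp : p.Prime) (hq : q.Prime) (hpq : p ≠ q) {X : Type u} [Group X]
    [Finite X] (h : ¬ q ∣ (opp p X).index) : ¬ p ∣ Nat.card (Kq q (⊤ : Subgroup X)) := by
  obtain ⟨⟨hLn, hLp⟩, _⟩ := opp_isGreatest hp X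
  obtain ⟨K, hKL, hKn, hKc, k, hk⟩ := pn_iff.1 hLp
  have h1 : Kq q (⊤ : Subgroup X) ≤ K := by
    rw [Kq, closure_le]
    rintro x ⟨-, i, hi⟩
    have hxL : x ∈ opp p X := by
      obtain ⟨g, _, hg⟩ := syl_dom hq (X := ⊤) (isPGroup_zpowers hi) le_top (Q := opp p X)
        (by rwa [relIndex_top_right])
      have h2 := hLn.conj_mem _ (hg x (mem_zpowers x)) g⁻¹
      convert h2 using 1
      group
    refine (pn_mem hp hKL hKn hKc hk hxL).2 ?_
    intro h2
    have h3 : p ∣ q ^ i := h2.trans (orderOf_dvd_of_pow_eq_one hi)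
    exact hpq ((Nat.prime_dvd_prime_iff_eq hp hq).1 (hp.dvd_of_dvd_pow h3))
  exact fun h2 => hKc (h2.trans (card_dvd_of_le h1))

lemma opp_of_hk {p q : ℕ} (hp : p.Prime) (hq : q.Prime) {X : Type u} [Group X]
    [Finite X] (h : ¬ p ∣ Nat.card (Kq q (⊤ : Subgroup X))) : ¬ q ∣ (opp p X).index := by
  have h1 : Kq q (⊤ : Subgroup X) ≤ opp p X := by
    refine le_sSup ⟨?_, pn_iff.2 ⟨Kq q ⊤, le_rfl, le_normalizer, h, 0, by
      rw [relIndex_self, pow_zero]⟩⟩
    rw [← normalizer_eq_top_iff, eq_top_iff]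
    exact Kq_norm q ⊤
  obtain ⟨Q, _, _, hQ, hQi⟩ := exists_syl hq (IsPGroup.of_bot : IsPGroup q (⊥ : Subgroup X))
    (bot_le : ⊥ ≤ (⊤ : Subgroup X))
  rw [relIndex_top_right] at hQi
  intro h2
  apply hQi
  refine h2.trans (index_dvd_of_le ?_)
  intro x hx
  exact h1 (mem_Kq (mem_top x) (pelem_of hQ hx))

/-- the set of primes dividing `n` -/
def primes (n : ℕ) : Set ℕ := {p | p.Prime ∧ p ∣ n}

/-- Schmidt groups -/
def IsSchmidt (S : Type u) [Group S] : Prop :=
  ¬ Group.IsNilpotent S ∧ ∀ T : Subgroup S, T ≠ ⊤ → Group.IsNilpotent T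

/-- Schmidt `(p, q)`-groups -/
def IsSchmidtPQ (p q : ℕ) (S : Type u) [Group S] : Prop :=
  IsSchmidt S ∧ primes (Nat.card S) = {p, q} ∧ ∃ P : Sylow p S, (P : Subgroup S).Normal

lemma no_schmidt {p q : ℕ} (hp : p.Prime) (hq : q.Prime) {X : Type u} [Group X]
    [Finite X] (h : NN p q (⊤ : Subgroup X)) (S : Subgroup X) : ¬ IsSchmidtPQ p q S := by
  rintro ⟨⟨hS, _⟩, hpr, P, hP⟩
  apply hS
  have hpf : Fact p.Prime := ⟨hp⟩
  refine ((Group.isNilpotent_of_finite_tfae (G := S)).out 0 3).2 ?_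
  intro r hr R
  by_cases hrp : r = p
  · subst hrp
    have h1 : R = P := by
      obtain ⟨g, hg⟩ := MulAction.exists_smul_eq S P R
      rw [← hg]
      exact (Sylow.smul_eq_of_normal (g := g) (P := P))
    rw [h1]; exact hP
  by_cases hrq : r = q
  · subst hrq
    have hRP : ∀ x ∈ R, ∀ y ∈ P, x * y = y * x := by
      intro x hx y hy
      have h1 := h ((P : Subgroup S).map S.subtype) le_top (P.2.map _) (x : X) (mem_top _) (by
        obtain ⟨k, hk⟩ := pelem_of R.2 hx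
        exact ⟨k, by exact_mod_cast congrArg Subtype.val hk⟩) (by
        rintro _ ⟨z, hz, rfl⟩
        exact ⟨x * z * x⁻¹, hP.conj_mem z hz x, rfl⟩) (y : X) ⟨y, hy, rfl⟩
      exact Subtype.ext h1
    have hnP : (P : Subgroup S) ≤ normalizer ((R : Subgroup S) : Set S) := by
      intro y hy
      apply mem_norm_of
      intro x hx
      have h1 : y * x * y⁻¹ = x := by rw [← hRP x hx y hy]; group
      rw [h1]; exact hx
    have hnR : (R : Subgroup S) ≤ normalizer ((R : Subgroup S) : Set S) := le_normalizer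
    rw [← normalizer_eq_top_iff, ← index_eq_one]
    by_contra hne
    obtain ⟨s, hs, hd⟩ := Nat.exists_prime_and_dvd hne
    have h1 : s ∈ primes (Nat.card S) := ⟨hs, hd.trans (index_dvd_card _)⟩
    rw [hpr] at h1
    rcases h1 with rfl | h1
    · exact P.not_dvd_index (hd.trans (index_dvd_of_le hnP))
    · rw [Set.mem_singleton_iff] at h1
      subst h1
      exact R.not_dvd_index (hd.trans (index_dvd_of_le hnR))
  · have hR : (R : Subgroup S) = ⊥ := by
      by_contra hne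
      have h1 : r ∣ Nat.card R := by
        obtain ⟨k, hk⟩ := IsPGroup.iff_card.1 R.2
        have : k ≠ 0 := by
          rintro rfl
          rw [pow_zero, card_eq_one] at hk
          exact hne hk
        rw [hk]; exact dvd_pow_self r this
      have h2 : r ∈ primes (Nat.card S) := ⟨hr.out, h1.trans (card_subgroup_dvd_card _)⟩
      rw [hpr] at h2
      rcases h2 with h2 | h2
      · exact hrp h2
      · exact hrq h2
    rw [hR]; infer_instance

lemma exists_schmidt {p q : ℕ} (hp : p.Prime) (hq : q.Prime) (hpq : p ≠ q) {X : Type u} [Group X]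
    [Finite X] (h : ¬ NN p q (⊤ : Subgroup X)) : ∃ S : Subgroup X, IsSchmidtPQ p q S := by
  have hpf : Fact p.Prime := ⟨hp⟩
  have hqf : Fact q.Prime := ⟨hq⟩
  unfold NN at h
  push Not at h
  obtain ⟨Y, -, hY, y, -, ⟨k, hk⟩, hyY, x, hx, hxy⟩ := h
  set T := Y ⊔ zpowers y with hT
  have hyn : y ∈ normalizer (Y : Set X) := mem_norm_of hyY
  have hTn : T ≤ normalizer (Y : Set X) := sup_le le_normalizer (by rwa [zpowers_le])
  have hPm : Pm Y (zpowers y) := by
    refine Pm.symm fun b hb a ha => ?_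
    have h1 : b ∈ normalizer (Y : Set X) := (zpowers_le.2 hyn) hb
    exact ⟨b * a * b⁻¹, mem_norm h1 ha, b, hb, by group⟩
  obtain ⟨a, ha⟩ := IsPGroup.iff_card.1 hY
  have hTc : Nat.card T ∣ p ^ a * q ^ k := by
    have h2 := card_mul_relIndex (le_sup_left : Y ≤ Y ⊔ zpowers y)
    rw [relIndex_eq (B := zpowers y) le_sup_right (fun g hg => hPm.mem_sup hg)] at h2
    rw [← h2, ha]
    apply Nat.mul_dvd_mul_left
    refine (relIndex_dvd_card _ _).trans ?_
    rw [Nat.card_zpowers]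
    exact orderOf_dvd_of_pow_eq_one hk
  have hTnil : ¬ Group.IsNilpotent T := by
    intro hnil
    have h1 := ((Group.isNilpotent_of_finite_tfae (G := T)).out 0 3).1 hnil
    have hxT : x ∈ T := le_sup_left (a := Y) hx
    have hyT : y ∈ T := le_sup_right (a := Y) (mem_zpowers y)
    obtain ⟨l, hl⟩ := pelem_of hY hx
    have hxp : (⟨x, hxT⟩ : T) ^ p ^ l = 1 := Subtype.ext hl
    have hyq : (⟨y, hyT⟩ : T) ^ q ^ k = 1 := Subtype.ext hk
    obtain ⟨P, hPx⟩ := (isPGroup_zpowers hxp).exists_le_sylow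
    obtain ⟨Q, hQy⟩ := (isPGroup_zpowers hyq).exists_le_sylow
    have hPn := h1 p hpf P
    have hQn := h1 q hqf Q
    have hdis := IsPGroup.disjoint_of_ne p q hpq _ _ P.2 Q.2
    have h2 := hPx (mem_zpowers _)
    have h3 := hQy (mem_zpowers _)
    have h4 : (⟨y, hyT⟩ : T) * ⟨x, hxT⟩ * ⟨y, hyT⟩⁻¹ * ⟨x, hxT⟩⁻¹ ∈ (P : Subgroup T) ⊓ Q := by
      refine mem_inf.2 ⟨mul_mem (hPn.conj_mem _ h2 _) (inv_mem h2), ?_⟩
      have e : (⟨y, hyT⟩ : T) * ⟨x, hxT⟩ * ⟨y, hyT⟩⁻¹ * ⟨x, hxT⟩⁻¹ =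
        ⟨y, hyT⟩ * (⟨x, hxT⟩ * ⟨y, hyT⟩⁻¹ * ⟨x, hxT⟩⁻¹) := by group
      rw [e]
      exact mul_mem h3 (hQn.conj_mem _ (inv_mem h3) _)
    rw [disjoint_iff.1 hdis, mem_bot] at h4
    have h5 : y * x * y⁻¹ * x⁻¹ = 1 := congrArg Subtype.val h4
    apply hxy
    calc y * x = (y * x * y⁻¹ * x⁻¹) * (x * y) := by group
      _ = x * y := by rw [h5, one_mul]
  obtain ⟨S, ⟨hST, hSn⟩, hmin⟩ := (Set.toFinite {S : Subgroup X | S ≤ T ∧
    ¬ Group.IsNilpotent S}).exists_minimal ⟨T, le_rfl, hTnil⟩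
  have hSc : Nat.card S ∣ p ^ a * q ^ k := (card_dvd_of_le hST).trans hTc
  have hSp : p ∣ Nat.card S := by
    by_contra h1
    apply hSn
    have h2 : Nat.Coprime (Nat.card S) (p ^ a) := Nat.Coprime.pow_right _
      ((Nat.coprime_comm).1 ((Nat.Prime.coprime_iff_not_dvd hp).2 h1))
    have h3 : Nat.card S ∣ q ^ k := h2.dvd_of_dvd_mul_left hSc
    obtain ⟨i, _, hi⟩ := (Nat.dvd_prime_pow hq).1 h3
    exact (IsPGroup.of_card hi).isNilpotent
  have hSq : q ∣ Nat.card S := by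
    by_contra h1
    apply hSn
    have h2 : Nat.Coprime (Nat.card S) (q ^ k) := Nat.Coprime.pow_right _
      ((Nat.coprime_comm).1 ((Nat.Prime.coprime_iff_not_dvd hq).2 h1))
    have h3 : Nat.card S ∣ p ^ a := h2.dvd_of_dvd_mul_right hSc
    obtain ⟨i, _, hi⟩ := (Nat.dvd_prime_pow hp).1 h3
    exact (IsPGroup.of_card hi).isNilpotent
  refine ⟨S, ⟨hSn, ?_⟩, ?_, ?_⟩
  · intro U hU
    have h1 : U.map S.subtype ≤ S := by rintro _ ⟨z, _, rfl⟩; exact z.2
    by_contra h2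
    have h3 : ¬ Group.IsNilpotent (U.map S.subtype) := by
      intro h4
      apply h2
      exact Group.nilpotent_of_mulEquiv
        (U.equivMapOfInjective S.subtype S.subtype_injective).symm
    have h4 := hmin ⟨h1.trans hST, h3⟩ h1
    apply hU
    rw [eq_top_iff]
    intro z _
    obtain ⟨z', hz', e⟩ := h4 z.2
    have : z' = z := Subtype.ext e
    rw [← this]; exact hz'
  · ext r
    constructor
    · rintro ⟨hr, hd⟩
      rcases (Nat.Prime.dvd_mul hr).1 (hd.trans hSc) with h1 | h1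
      · left; exact (Nat.prime_dvd_prime_iff_eq hr hp).1 (hr.dvd_of_dvd_pow h1)
      · right; exact (Nat.prime_dvd_prime_iff_eq hr hq).1 (hr.dvd_of_dvd_pow h1)
    · rintro (rfl | h1)
      · exact ⟨hp, hSp⟩
      · rw [Set.mem_singleton_iff] at h1
        rw [h1]; exact ⟨hq, hSq⟩
  · have h1 : IsPGroup p (Y.subgroupOf S) := isPGroup_subgroupOf hY S
    have h2 : ¬ p ∣ (Y.subgroupOf S).index := by
      intro h3
      have h4 : (Y.subgroupOf S).index ∣ q ^ k := by
        have h5 : Y.relIndex S ∣ Y.relIndex T := by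
          have h6 : (Y.subgroupOf T).Normal := by
            constructor
            intro x hx g
            rw [mem_subgroupOf] at hx ⊢
            exact mem_norm (hTn g.2) hx
          have h7 := relIndex_dvd_index_of_normal (Y.subgroupOf T) (S.subgroupOf T)
          rwa [relIndex_subgroupOf hST] at h7
        refine (h5 : (Y.subgroupOf S).index ∣ _).trans ?_
        rw [hT, relIndex_eq (B := zpowers y) le_sup_right (fun g hg => hPm.mem_sup hg)]
        refine (relIndex_dvd_card _ _).trans ?_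
        rw [Nat.card_zpowers]
        exact orderOf_dvd_of_pow_eq_one hk
      exact hpq ((Nat.prime_dvd_prime_iff_eq hp hq).1 (hp.dvd_of_dvd_pow (h3.trans h4)))
    refine ⟨h1.toSylow h2, ?_⟩
    constructor
    intro x hx g
    have hx' : (x : X) ∈ Y := mem_subgroupOf.1 hx
    exact mem_subgroupOf.2 (mem_norm (hTn (hST g.2)) hx')

end Pool.Agent.T6.H25.MPG
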