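import Mathlib
import Pool.Agent.T6.H25.PMChain

set_option autoImplicit false

/-!
# Lemmas for the case of large 2-radical
-/

namespace Pool.Agent.T6.H25.PM

open Subgroup
open scoped Pointwise

universe u
variable {G : Type u} [Group G]

lemma eq_one_of_odd {c : G} {m i : ℕ} (hm : Odd m) (h1 : c ^ m = 1) (h2 : c ^ 2 ^ i = 1) :
    c = 1 := by
  have h3 : orderOf c ∣ m := orderOf_dvd_of_pow_eq_one h1
  have h4 : orderOf c ∣ 2 ^ i := orderOf_dvd_of_pow_eq_one h2
  have h5 : Nat.Coprime m (2 ^ i) := (Nat.coprime_two_right.2 hm).pow_right i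
  exact orderOf_eq_one_iff.1 (Nat.eq_one_of_dvd_coprimes h5 h3 h4)

/-- coprime action on a coset -/
lemma fix_of_comm {x y c : G} {m i : ℕ} (hm : Odd m) (hy : y ^ m = 1) (hc : c ^ 2 ^ i = 1)
    (hyc : y * c = c * y) (h : y * x * y⁻¹ = x * c) : c = 1 := by
  have key : ∀ j : ℕ, y ^ j * x * (y ^ j)⁻¹ = x * c ^ j := by
    intro j
    induction j with
    | zero => simp
    | succ j ih =>
      have h1 : y * c ^ j * y⁻¹ = c ^ j := by
        have : Commute y (c ^ j) := (show Commute y c from hyc).pow_right j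
        rw [this.eq, mul_inv_cancel_right]
      calc y ^ (j + 1) * x * (y ^ (j + 1))⁻¹ = y * (y ^ j * x * (y ^ j)⁻¹) * y⁻¹ := by
            rw [pow_succ']; group
        _ = (y * x * y⁻¹) * (y * c ^ j * y⁻¹) := by rw [ih]; group
        _ = x * c ^ (j + 1) := by rw [h, h1, mul_assoc, ← pow_succ']
  have h1 := key m
  rw [hy, inv_one, one_mul, mul_one] at h1
  have h2 : c ^ m = 1 := by
    have := h1.symm
    rwa [mul_eq_left] at this
  exact eq_one_of_odd hm h2 hc

lemma s4 {U C : Subgroup G} (hU : IsPGroup 2 U) {y : G} {m : ℕ} (hm : Odd m)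
    (hy : y ^ m = 1) (hyU : ∀ x ∈ U, y * x * y⁻¹ ∈ U) (hyC : ∀ c ∈ C, y * c = c * y)
    (hCn : ∀ x ∈ U, ∀ c ∈ C, x * c * x⁻¹ ∈ C) (hsq : ∀ x ∈ U, x * x ∈ C)
    (h4 : ∀ s ∈ U, s ^ 4 = 1 → y * s = s * y) : ∀ x ∈ U, y * x = x * y := by
  have h2el : ∀ x ∈ U, ∃ i : ℕ, x ^ 2 ^ i = 1 := by
    intro x hx
    obtain ⟨i, hi⟩ := hU ⟨x, hx⟩
    exact ⟨i, congrArg Subtype.val hi⟩
  intro x hx
  obtain ⟨t, ht⟩ : ∃ t, t = x⁻¹ * (y * x * y⁻¹) := ⟨_, rfl⟩
  have htU : t ∈ U := by rw [ht]; exact mul_mem (inv_mem hx) (hyU x hx)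
  -- `t` centralises `C`
  have htC : ∀ c ∈ C, t * c = c * t := by
    intro c hc
    have h1 := hyC _ (hCn x hx c hc)
    have h2 := hyC c hc
    have h3 : y⁻¹ * c * y = c := by rw [mul_assoc, ← h2, inv_mul_cancel_left]
    have h5 : (y * x * y⁻¹) * c * (y * x * y⁻¹)⁻¹ = x * c * x⁻¹ := by
      calc (y * x * y⁻¹) * c * (y * x * y⁻¹)⁻¹ = y * (x * (y⁻¹ * c * y) * x⁻¹) * y⁻¹ := by group
        _ = y * (x * c * x⁻¹) * y⁻¹ := by rw [h3]
        _ = (x * c * x⁻¹) := by rw [h1, mul_inv_cancel_right]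
    have h6 : t * c * t⁻¹ = c := by
      calc t * c * t⁻¹ = x⁻¹ * ((y * x * y⁻¹) * c * (y * x * y⁻¹)⁻¹) * x := by rw [ht]; group
        _ = x⁻¹ * (x * c * x⁻¹) * x := by rw [h5]
        _ = c := by group
    rw [mul_inv_eq_iff_eq_mul] at h6
    exact h6
  obtain ⟨s, hs⟩ : ∃ s, s = (y * t * y⁻¹) * t⁻¹ := ⟨_, rfl⟩
  have hsU : s ∈ U := by rw [hs]; exact mul_mem (hyU t htU) (inv_mem htU)
  have hst : y * t * y⁻¹ = s * t := by rw [hs]; group
  have h1 : s * t * s = t := by
    have h2 := hyC _ (hsq t htU)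
    have h3 : (s * t) * (s * t) = t * t := by
      rw [← hst]
      calc (y * t * y⁻¹) * (y * t * y⁻¹) = y * (t * t) * y⁻¹ := by group
        _ = t * t := by rw [h2, mul_inv_cancel_right]
    have h5 : (s * t * s) * t = t * t := by rw [← h3]; group
    exact mul_right_cancel h5
  have h2 : s ^ 4 = 1 := by
    have h3 := htC _ (hsq s hsU)
    -- t = s t s, so t * (s s) = s t s s s
    have h5 : t * (s * s) = s⁻¹ * s⁻¹ * t := by
      have h6 : t * s = s⁻¹ * t := by
        have : s * (t * s) = t := by rw [← mul_assoc]; exact h1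
        rw [eq_inv_mul_iff_mul_eq]; exact this
      rw [← mul_assoc, h6, mul_assoc, h6, ← mul_assoc]
    rw [h5] at h3
    have h7 := mul_right_cancel h3
    calc s ^ 4 = (s * s) * (s * s) := by simp [pow_succ, mul_assoc]
      _ = (s⁻¹ * s⁻¹) * (s * s) := by rw [h7]
      _ = 1 := by group
  have h3 := h4 s hsU h2
  have h5 : s = 1 := by
    obtain ⟨i, hi⟩ := h2el s hsU
    have h6 : y * t⁻¹ * y⁻¹ = t⁻¹ * s⁻¹ := by
      rw [← mul_inv_rev, ← hst]; group
    have h7 : s⁻¹ = 1 := by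
      refine fix_of_comm (i := i) hm hy (by rw [inv_pow, hi, inv_one]) ?_ h6
      exact ((show Commute y s from h3).inv_right).eq
    rwa [inv_eq_one] at h7
  rw [h5, one_mul] at hst
  have h6 : y * t = t * y := by rwa [mul_inv_eq_iff_eq_mul] at hst
  obtain ⟨i, hi⟩ := h2el t htU
  have h7 : t = 1 := fix_of_comm (x := x) hm hy hi h6 (by rw [ht]; group)
  rw [h7] at ht
  have h8 : y * x * y⁻¹ = x := by
    have := ht.symm
    rw [inv_mul_eq_one] at this
    exact this.symm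
  rwa [mul_inv_eq_iff_eq_mul] at h8

/-- index two: the quotient of two elements outside lies inside -/
lemma mem_of_index_two {Y R : Subgroup G} (hYR : Y ≤ R) (hc : Nat.card R = 2 * Nat.card Y)
    [Finite G] {a b : G} (ha : a ∈ R) (hb : b ∈ R) (haY : a ∉ Y) (hbY : b ∉ Y) : a⁻¹ * b ∈ Y := by
  have h1 : (Y.subgroupOf R).index = 2 := by
    have h2 := card_mul_relIndex hYR
    rw [hc, mul_comm] at h2
    exact Nat.eq_of_mul_eq_mul_right Nat.card_pos h2
  have h3 := mul_mem_iff_of_index_two h1 (a := (⟨a, ha⟩⁻¹ : R)) (b := ⟨b, hb⟩)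
  rw [mem_subgroupOf, mem_subgroupOf, mem_subgroupOf] at h3
  change a⁻¹ * b ∈ Y ↔ (a⁻¹ ∈ Y ↔ b ∈ Y) at h3
  rw [h3, inv_mem_iff]
  exact ⟨fun h => absurd h haY, fun h => absurd h hbY⟩

lemma sq_mem_of_index_two {Y R : Subgroup G} (hYR : Y ≤ R) (hc : Nat.card R = 2 * Nat.card Y)
    [Finite G] {a : G} (ha : a ∈ R) : a * a ∈ Y := by
  by_cases h : a ∈ Y
  · exact mul_mem h h
  · have h1 := mem_of_index_two hYR hc (inv_mem ha) ha (fun h' => h ((inv_mem_iff).1 h')) h
    rwa [inv_inv] at h1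

section line
variable [Finite G] {P R F : Subgroup G}

/-- the line lemma -/
lemma line (hP2 : IsPGroup 2 P) (hR : R.Normal) (hRP : R ≤ P) (hF : F.Normal) (hFR : F ≤ R)
    (hmax : ∀ D : Subgroup G, D.Normal → F ≤ D → D ≤ R → D = F ∨ D = R) {s : G} (hs : s ∈ R)
    (hsF : s ∉ F) (hTI : TI P (zpowers s ⊔ F)) : zpowers s ⊔ F = R := by
  have hFneR : F ≠ R := by
    rintro rfl
    exact hsF hs
  have hnF : P ≤ normalizer (F : Set G) := by
    rw [normalizer_eq_top_iff.2 hF]; exact le_top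
  have hnR : P ≤ normalizer (R : Set G) := by
    rw [normalizer_eq_top_iff.2 hR]; exact le_top
  obtain ⟨Y, hFY, hYR, hPY, hcY⟩ := top hP2 hFR hFneR hRP hnF hnR
  have hYne : ¬ R ≤ Y := by
    intro h
    have h1 := Subgroup.card_le_of_le h
    have h2 : 0 < Nat.card Y := Nat.card_pos
    omega
  have hsX : s ∈ zpowers s ⊔ F := le_sup_left (a := zpowers s) (mem_zpowers s)
  have hFX : F ≤ zpowers s ⊔ F := le_sup_right
  have hXR : zpowers s ⊔ F ≤ R := sup_le (zpowers_le.2 hs) hFR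
  -- a normal subgroup inside `Y` containing `F` equals `F`
  have hYF : ∀ D : Subgroup G, D.Normal → F ≤ D → D ≤ Y → D = F := by
    intro D hD h1 h2
    rcases hmax D hD h1 (h2.trans hYR) with h | h
    · exact h
    · exact absurd (h ▸ h2) hYne
  by_cases hsY : s ∈ Y
  · exfalso
    have hXY : zpowers s ⊔ F ≤ Y := sup_le (zpowers_le.2 hsY) hFY
    have h1 : normalClosure ((zpowers s ⊔ F : Subgroup G) : Set G) ≤ Y := by
      apply normalClosure_le_of
      intro g x hx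
      obtain ⟨n, hn, p, hp, e⟩ := hTI g⁻¹
      have e' : g = p⁻¹ * n⁻¹ := by rw [← mul_inv_rev, ← e, inv_inv]
      have h2 : n⁻¹ * x * n ∈ Y := hXY (mem_norm' hn hx)
      have h3 := mem_norm' (hPY hp) h2
      have h4 : g * x * g⁻¹ = p⁻¹ * (n⁻¹ * x * n) * p := by rw [e']; group
      rwa [h4]
    have h2 := hYF _ inferInstance (hFX.trans le_normalClosure) h1
    apply hsF
    rw [← h2]
    exact le_normalClosure (show s ∈ ((zpowers s ⊔ F : Subgroup G) : Set G) from hsX)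
  · -- all conjugates of `s` lie outside of `Y`
    have hout : ∀ g : G, g * s * g⁻¹ ∉ Y := by
      intro g hg
      apply hsY
      have h1 : zpowers s ⊔ F ≤ MulAut.conj g⁻¹ • Y := by
        refine sup_le (zpowers_le.2 ?_) ?_
        · rw [mem_cj, inv_inv]; exact hg
        · intro f hf
          rw [mem_cj, inv_inv]
          exact hFY (hF.conj_mem f hf g)
      obtain ⟨n, hn, p, hp, e⟩ := hTI g⁻¹
      have e' : g = p⁻¹ * n⁻¹ := by rw [← mul_inv_rev, ← e, inv_inv]
      have h2 := h1 (mem_norm hn hsX)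
      rw [mem_cj, inv_inv] at h2
      have h3 : g * (n * s * n⁻¹) * g⁻¹ = p⁻¹ * s * p := by rw [e']; group
      rw [h3] at h2
      have h4 := mem_norm (hPY hp) h2
      have h5 : p * (p⁻¹ * s * p) * p⁻¹ = s := by group
      rwa [h5] at h4
    have hin : ∀ a b : G, (a * s * a⁻¹)⁻¹ * (b * s * b⁻¹) ∈ Y := fun a b =>
      mem_of_index_two hYR hcY (hR.conj_mem s hs a) (hR.conj_mem s hs b) (hout a) (hout b)
    let T : Set G := {x | x ∈ F ∨ ∃ a b : G, x = (a * s * a⁻¹)⁻¹ * (b * s * b⁻¹)}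
    have hT : normalClosure T ≤ Y := by
      rw [normalClosure, closure_le]
      intro x hx
      obtain ⟨z, hz, hzx⟩ := Group.mem_conjugatesOfSet_iff.1 hx
      obtain ⟨c, rfl⟩ := isConj_iff.1 hzx
      rcases hz with hz | ⟨a, b, rfl⟩
      · exact hFY (hF.conj_mem z hz c)
      · have h1 := hin (c * a) (c * b)
        have h2 : c * ((a * s * a⁻¹)⁻¹ * (b * s * b⁻¹)) * c⁻¹ =
            (c * a * s * (c * a)⁻¹)⁻¹ * (c * b * s * (c * b)⁻¹) := by group
        rw [h2]
        exact h1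
    have hN : (normalClosure T).Normal := normalClosure_normal
    have h1 : normalClosure T = F :=
      hYF _ hN (fun f hf => subset_normalClosure (show f ∈ T from Or.inl hf)) hT
    have h2 : ∀ g : G, s⁻¹ * (g * s * g⁻¹) ∈ F := by
      intro g
      rw [← h1]
      apply subset_normalClosure
      exact Or.inr ⟨1, g, by simp⟩
    have h3 : (zpowers s ⊔ F).Normal := by
      constructor
      intro x hx g
      have h4 : zpowers s ⊔ F ≤ MulAut.conj g⁻¹ • (zpowers s ⊔ F) := by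
        refine sup_le (zpowers_le.2 ?_) ?_
        · rw [mem_cj, inv_inv]
          have h5 : g * s * g⁻¹ = s * (s⁻¹ * (g * s * g⁻¹)) := by group
          rw [h5]
          exact mul_mem hsX (hFX (h2 g))
        · intro f hf
          rw [mem_cj, inv_inv]
          exact hFX (hF.conj_mem f hf g)
      have h5 := h4 hx
      rwa [mem_cj, inv_inv] at h5
    rcases hmax _ h3 hFX hXR with h | h
    · exact absurd (h ▸ hsX) hsF
    · exact h

end line

end Pool.Agent.T6.H25.PM
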