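import Mathlib
import Pool.Agent.T6.H25.PMLem

set_option autoImplicit false

/-!
# The case of a cyclic section of order 4
-/

namespace Pool.Agent.T6.H25.PM

open Subgroup

section
variable {E : Type*} [Group E]

lemma order4_aux (Z : Subgroup E) (hcomm : ∀ x : E, x ∉ Z → ∀ z ∈ Z, x * z = z * x)
    (hsq : ∀ x : E, x * x ∈ Z) (h4 : ∀ x : E, x ∉ Z → x ^ 4 ≠ 1) {s t : E} (hs : s ∉ Z)
    (ht : t ∉ Z) (hst : s * t ∉ Z) (h : (s * s) * (t * t) = 1) : False := by
  have hc : s⁻¹ * t⁻¹ * s * t ∈ Z := by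
    have h1 : s⁻¹ * t⁻¹ * s * t = (s⁻¹ * s⁻¹) * ((s * t⁻¹) * (s * t⁻¹)) * (t * t) := by group
    rw [h1]
    exact mul_mem (mul_mem (hsq _) (hsq _)) (hsq _)
  obtain ⟨c, hcd⟩ : ∃ c, c = s⁻¹ * t⁻¹ * s * t := ⟨_, rfl⟩
  rw [← hcd] at hc
  have hcs := hcomm s hs c hc
  have hct := hcomm t ht c hc
  have hts : s * t = t * s * c := by rw [hcd]; group
  -- c * c = 1
  have hcc : c * c = 1 := by
    have h1 := hcomm t ht _ (hsq s)
    have h2 : (s * s) * t = t * (s * s) * (c * c) := by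
      calc (s * s) * t = s * (s * t) := by group
        _ = s * (t * s * c) := by rw [hts]
        _ = (s * t) * (s * c) := by group
        _ = t * s * (c * s) * c := by rw [hts]; group
        _ = t * s * (s * c) * c := by rw [hcs]
        _ = _ := by group
    rw [← h1] at h2
    have := h2.symm
    rwa [mul_eq_left] at this
  apply h4 _ hst
  have h1 : (s * t) * (s * t) = c⁻¹ := by
    have h2 : t * s = s * t * c⁻¹ := by rw [hts]; group
    have hct' : c⁻¹ * t = t * c⁻¹ := by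
      rw [inv_mul_eq_iff_eq_mul, ← mul_assoc, ← hct, mul_inv_cancel_right]
    calc (s * t) * (s * t) = s * (t * s) * t := by group
      _ = s * (s * t * c⁻¹) * t := by rw [h2]
      _ = s * s * t * (c⁻¹ * t) := by group
      _ = s * s * t * (t * c⁻¹) := by rw [hct']
      _ = (s * s) * (t * t) * c⁻¹ := by group
      _ = c⁻¹ := by rw [h, one_mul]
  calc (s * t) ^ 4 = ((s * t) * (s * t)) * ((s * t) * (s * t)) := by simp [pow_succ, mul_assoc]
    _ = (c * c)⁻¹ := by rw [h1]; group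
    _ = 1 := by rw [hcc, inv_one]

lemma order4 (Z : Subgroup E) (hZ : Nat.card Z = 4) (hsq : ∀ x : E, x * x ∈ Z)
    (h4 : ∀ x : E, x ∉ Z → x ^ 4 ≠ 1) {s t : E} (hs : s ∉ Z) (ht : t ∉ Z) (hst : s * t ∉ Z)
    (hst' : s * t⁻¹ ∉ Z) : False := by
  have : Finite Z := Nat.finite_of_card_ne_zero (by omega)
  -- every element of `Z` is a power of `x * x`
  have hcard4 : ∀ z ∈ Z, z ^ 4 = 1 := by
    intro z hz
    have : (⟨z, hz⟩ : Z) ^ 4 = 1 := by rw [← hZ]; exact pow_card_eq_one'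
    exact congrArg Subtype.val this
  have hgen : ∀ x : E, x ∉ Z → zpowers (x * x) = Z := by
    intro x hx
    have h1 : orderOf (x * x) = 4 := by
      have h2 : orderOf (x * x) = 2 ^ (1 + 1) := by
        apply orderOf_eq_prime_pow
        · intro h
          apply h4 x hx
          calc x ^ 4 = (x * x) ^ 2 ^ 1 := by simp [pow_succ, mul_assoc]
            _ = 1 := h
        · exact hcard4 _ (hsq x)
      simpa using h2
    apply Subgroup.eq_of_le_of_card_ge (zpowers_le.2 (hsq x))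
    rw [Nat.card_zpowers, h1, hZ]
  have hcomm : ∀ x : E, x ∉ Z → ∀ z ∈ Z, x * z = z * x := by
    intro x hx z hz
    rw [← hgen x hx] at hz
    obtain ⟨i, rfl⟩ := mem_zpowers_iff.1 hz
    exact (((Commute.refl x).mul_right (Commute.refl x)).zpow_right i).eq
  -- t * t is a power of s * s
  have h1 : t * t ∈ zpowers (s * s) := by rw [hgen s hs]; exact hsq t
  have h2 : (s * s) ^ 4 = 1 := hcard4 _ (hsq s)
  have hfin : IsOfFinOrder (s * s) := isOfFinOrder_iff_pow_eq_one.2 ⟨4, by norm_num, h2⟩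
  obtain ⟨i, hi⟩ := (hfin.mem_powers_iff_mem_zpowers.2 h1)
  have hi' : (s * s) ^ i = t * t := hi
  have h3 : (s * s) ^ (i % 4) = t * t := by
    rw [← hi', ← Nat.mod_add_div i 4, pow_add, pow_mul, h2, one_pow, mul_one]
    simp
  have h4' : i % 4 < 4 := Nat.mod_lt _ (by norm_num)
  have ht4 := h4 t ht
  have ht4' : t ^ 4 = (t * t) ^ 2 := by simp [pow_succ, mul_assoc]
  rw [ht4', ← h3] at ht4
  interval_cases hh : i % 4
  · apply ht4; simp
  · -- t * t = s * s
    have ht' : t⁻¹ ∉ Z := fun h => ht ((inv_mem_iff).1 h)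
    refine order4_aux Z hcomm hsq h4 hs ht' hst' ?_
    rw [pow_one] at h3
    rw [← mul_inv_rev, ← h3, mul_inv_cancel]
  · apply ht4
    rw [← pow_mul]
    exact h2
  · refine order4_aux Z hcomm hsq h4 hs ht hst ?_
    rw [← h3, ← pow_succ']
    exact h2

end

end Pool.Agent.T6.H25.PM
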