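import Mathlib
import Pool.Agent.T6.H25.PMFour

set_option autoImplicit false

/-!
# The case where all maximal subgroups of the radical have conjugates under a Sylow subgroup only
-/

namespace Pool.Agent.T6.H25.PM

open Subgroup
open scoped Pointwise

section
universe u
variable {G : Type u} [Group G]

/-- a `q`-group acting on the complement of a subgroup of index two has a fixed point -/
lemma exists_fixed_outside [Finite G] {Q R X : Subgroup G} {q m : ℕ} (hq : q.Prime) (hq2 : q ≠ 2)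
    (hQ : IsPGroup q Q) (hX : X ≤ R) (hcX : Nat.card X = 2 ^ m) (hcR : Nat.card R = 2 ^ (m + 1))
    (hQR : ∀ g ∈ Q, ∀ x ∈ R, g * x * g⁻¹ ∈ R) (hQX : ∀ g ∈ Q, ∀ x ∈ X, g * x * g⁻¹ ∈ X) :
    ∃ x ∈ R, x ∉ X ∧ ∀ g ∈ Q, g * x = x * g := by
  have : Fact q.Prime := ⟨hq⟩
  let S : Set G := (R : Set G) \ (X : Set G)
  have hS : ∀ g ∈ Q, ∀ x ∈ S, g * x * g⁻¹ ∈ S := by
    intro g hg x hx
    refine ⟨hQR g hg x hx.1, fun h => hx.2 ?_⟩
    have h1 := hQX g⁻¹ (inv_mem hg) _ h
    have h2 : g⁻¹ * (g * x * g⁻¹) * g⁻¹⁻¹ = x := by group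
    rwa [h2] at h1
  let act : MulAction Q S :=
    { smul := fun g b => ⟨g * b * (g : G)⁻¹, hS g g.2 b b.2⟩
      one_smul := fun b => Subtype.ext (by
        change ((1 : Q) : G) * b * ((1 : Q) : G)⁻¹ = b
        simp)
      mul_smul := fun g h b => Subtype.ext (by
        change ((g * h : Q) : G) * b * ((g * h : Q) : G)⁻¹ = g * (h * b * (h : G)⁻¹) * (g : G)⁻¹
        rw [Subgroup.coe_mul]; group) }
  have hsm : ∀ (g : Q) (b : S), ((g • b : S) : G) = g * b * (g : G)⁻¹ := fun g b => rfl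
  have hcard : Nat.card S = 2 ^ m := by
    have h1 := Set.ncard_sdiff_add_ncard_of_subset (s := (X : Set G)) (t := (R : Set G)) hX
      (Set.toFinite _)
    have h2 : (X : Set G).ncard = 2 ^ m := by rw [← hcX]; rfl
    have h3 : (R : Set G).ncard = 2 ^ (m + 1) := by rw [← hcR]; rfl
    rw [h2, h3, pow_succ] at h1
    change S.ncard = 2 ^ m
    have h4 : S.ncard + 2 ^ m = 2 ^ m * 2 := h1
    omega
  have hnd : ¬ q ∣ Nat.card S := by
    rw [hcard]
    intro h
    exact hq2 ((Nat.prime_dvd_prime_iff_eq hq Nat.prime_two).1 (hq.dvd_of_dvd_pow h))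
  obtain ⟨x, hx⟩ := hQ.nonempty_fixed_point_of_prime_not_dvd_card S hnd
  refine ⟨x, x.2.1, x.2.2, fun g hg => ?_⟩
  have h1 := congrArg Subtype.val (hx ⟨g, hg⟩)
  rw [hsm] at h1
  rwa [mul_inv_eq_iff_eq_mul] at h1

/-- the action of `G` on the linear characters of order two of a normal subgroup -/
def cact (R : Subgroup G) [R.Normal] (g : G) (f : R →* ℤˣ) : R →* ℤˣ :=
  f.comp (MulAut.conjNormal g⁻¹ : R ≃* R).toMonoidHom

lemma cact_apply (R : Subgroup G) [R.Normal] (g : G) (f : R →* ℤˣ) (x : R) :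
    cact R g f x = f ((MulAut.conjNormal g⁻¹ : R ≃* R) x) := rfl

lemma cact_one (R : Subgroup G) [R.Normal] (f : R →* ℤˣ) : cact R 1 f = f := by
  ext x
  rw [cact_apply]
  simp

lemma cact_mul (R : Subgroup G) [R.Normal] (g h : G) (f : R →* ℤˣ) :
    cact R (g * h) f = cact R g (cact R h f) := by
  ext x
  rw [cact_apply, cact_apply, cact_apply, mul_inv_rev, map_mul]
  rfl

lemma cact_map_mul (R : Subgroup G) [R.Normal] (g : G) (f f' : R →* ℤˣ) :
    cact R g (f * f') = cact R g f * cact R g f' := by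
  ext x
  rfl

lemma cact_map_one (R : Subgroup G) [R.Normal] (g : G) : cact R g 1 = 1 := by
  ext x
  rfl

lemma cact_map_inv (R : Subgroup G) [R.Normal] (g : G) (f : R →* ℤˣ) :
    cact R g f⁻¹ = (cact R g f)⁻¹ := by
  ext x
  rfl

lemma units_eq {a b : ℤˣ} (h : a = 1 ↔ b = 1) : a = b := by
  rcases Int.units_eq_one_or a with ha | ha <;> rcases Int.units_eq_one_or b with hb | hb
  · rw [ha, hb]
  · rw [ha, hb] at h
    exact absurd (h.1 rfl) (by decide)
  · rw [ha, hb] at h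
    exact absurd (h.2 rfl) (by decide)
  · rw [ha, hb]

lemma char_sq (R : Subgroup G) (f : R →* ℤˣ) : f * f = 1 := by
  ext x
  rw [MonoidHom.mul_apply, MonoidHom.one_apply, Int.units_mul_self]

/-- the subgroup of characters fixed by all elements of odd order -/
def fixedChars (R : Subgroup G) [R.Normal] : Subgroup (R →* ℤˣ) where
  carrier := {f | ∀ h : G, (∃ m, Odd m ∧ h ^ m = 1) → cact R h f = f}
  one_mem' := fun h _ => cact_map_one R h
  mul_mem' := fun {a b} ha hb h hh => by rw [cact_map_mul, ha h hh, hb h hh]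
  inv_mem' := fun {a} ha h hh => by rw [cact_map_inv, ha h hh]

lemma fixedChars_inv (R : Subgroup G) [R.Normal] {f : R →* ℤˣ} (hf : f ∈ fixedChars R) (g : G) :
    cact R g f ∈ fixedChars R := by
  intro h hh
  obtain ⟨m, hm, hm'⟩ := hh
  have h1 : h * g = g * (g⁻¹ * h * g) := by group
  rw [← cact_mul, h1, cact_mul]
  congr 1
  apply hf
  refine ⟨m, hm, ?_⟩
  have h2 : (g⁻¹ * h * g⁻¹⁻¹) ^ m = g⁻¹ * h ^ m * g⁻¹⁻¹ := conj_pow
  rw [inv_inv] at h2
  rw [h2, hm']
  group

/-- if all maximal subgroups are `TI` then elements of odd order fix all characters -/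
lemma fixedChars_eq_top [Finite G] (P : Sylow 2 G) (R : Subgroup G) [hR : R.Normal]
    (hTI : ∀ X ≤ R, Nat.card R = 2 * Nat.card X → TI (P : Subgroup G) X) :
    fixedChars R = ⊤ := by
  have : Fact (Nat.Prime 2) := ⟨Nat.prime_two⟩
  by_contra hne
  have hfin : Finite (R →* ℤˣ) := Finite.of_injective (fun f => (f : R → ℤˣ)) DFunLike.coe_injective
  let act : MulAction (P : Subgroup G) (R →* ℤˣ) :=
    { smul := fun g f => cact R g f
      one_smul := fun f => cact_one R f
      mul_smul := fun g h f => cact_mul R g h f }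
  have hsm : ∀ (g : (P : Subgroup G)) (f : R →* ℤˣ), g • f = cact R (g : G) f := fun g f => rfl
  have hV : IsPGroup 2 (R →* ℤˣ) := by
    intro f
    exact ⟨1, by rw [pow_one, pow_two]; exact char_sq R f⟩
  obtain ⟨f, hf1, hf2⟩ := exists_fix (P := (P : Subgroup G)) P.2 hV (fixedChars R) hne
    (by
      intro g a b hab
      rw [hsm, hsm, ← cact_map_inv, ← cact_map_mul]
      exact fixedChars_inv R hab g)
    (by
      intro g
      rw [hsm, cact_map_one]
      exact one_mem _)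
  -- the kernel
  let X : Subgroup G := f.ker.map R.subtype
  have hXR : X ≤ R := map_subtype_le _
  have hXmem : ∀ x : R, (x : G) ∈ X ↔ f x = 1 := by
    intro x
    constructor
    · rintro ⟨y, hy, hyx⟩
      have : y = x := Subtype.ext hyx
      rw [← this]; exact hy
    · intro h
      exact ⟨x, h, rfl⟩
  have hf0 : f ≠ 1 := by
    rintro rfl
    exact hf1 (one_mem _)
  have hcX : Nat.card R = 2 * Nat.card X := by
    have h1 : Nat.card X = Nat.card f.ker :=
      (Nat.card_congr (f.ker.equivMapOfInjective _ R.subtype_injective).toEquiv).symm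
    have h2 : f.ker.index = 2 := by
      rw [index_ker]
      have h3 : f.range = ⊤ := by
        obtain ⟨x, hx⟩ : ∃ x, f x ≠ 1 := by
          by_contra hcon
          push Not at hcon
          exact hf0 (MonoidHom.ext hcon)
        rw [eq_top_iff]
        intro z _
        rcases Int.units_eq_one_or z with hz | hz
        · exact ⟨1, by rw [map_one, hz]⟩
        · exact ⟨x, by rw [hz]; exact (Int.units_eq_one_or (f x)).resolve_left hx⟩
      rw [h3, card_top]
      rw [Nat.card_eq_fintype_card, Fintype.card_units_int]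
    rw [h1, mul_comm, ← h2, card_mul_index]
  have hXTI := hTI X hXR hcX
  -- conjugation by all elements
  have hall : ∀ g : G, f⁻¹ * cact R g f ∈ fixedChars R := by
    intro g
    obtain ⟨n, hn, p, hp, e⟩ := hXTI g⁻¹
    have e' : g = p⁻¹ * n⁻¹ := by rw [← mul_inv_rev, ← e, inv_inv]
    have h1 : cact R n⁻¹ f = f := by
      ext1 x
      apply units_eq
      rw [cact_apply, ← hXmem, ← hXmem, MulAut.conjNormal_apply, inv_inv]
      exact ((mem_normalizer_iff.1 hn (x : G))).symm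
    rw [e', cact_mul, h1]
    exact hf2 ⟨p⁻¹, inv_mem hp⟩
  apply hf1
  rintro h ⟨m, hm, hm'⟩
  have hσ := hall h
  obtain ⟨σ, hσd⟩ : ∃ σ, σ = f⁻¹ * cact R h f := ⟨_, rfl⟩
  rw [← hσd] at hσ
  have hσf : cact R h σ = σ := hσ h ⟨m, hm, hm'⟩
  have h1 : cact R h f = f * σ := by rw [hσd, mul_inv_cancel_left]
  have key : ∀ j : ℕ, cact R (h ^ j) f = f * σ ^ j := by
    intro j
    induction j with
    | zero => rw [pow_zero, cact_one, pow_zero, mul_one]
    | succ j ih =>
      have h2 : ∀ j : ℕ, cact R h (σ ^ j) = σ ^ j := by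
        intro j
        induction j with
        | zero => rw [pow_zero, cact_map_one]
        | succ j ih => rw [pow_succ, cact_map_mul, ih, hσf]
      rw [pow_succ', cact_mul, ih, cact_map_mul, h1, h2, mul_assoc, ← pow_succ']
  have h2 := key m
  rw [hm', cact_one] at h2
  have h3 : σ ^ m = 1 := by
    have := h2.symm
    rwa [mul_eq_left] at this
  have h4 : σ = 1 := eq_one_of_odd (i := 1) hm h3 (by rw [pow_one, pow_two]; exact char_sq R σ)
  rw [h1, h4, mul_one]

lemma exists_char (R : Subgroup G) (K : Subgroup R) (hK : K.index = 2) :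
    ∃ f : R →* ℤˣ, ∀ x, f x = 1 ↔ x ∈ K := by
  classical
  refine ⟨{ toFun := fun x => if x ∈ K then 1 else -1
            map_one' := by rw [if_pos (one_mem _)]
            map_mul' := fun x y => ?_ }, fun x => ?_⟩
  · have h := mul_mem_iff_of_index_two hK (a := x) (b := y)
    by_cases hx : x ∈ K <;> by_cases hy : y ∈ K
    · rw [if_pos (h.2 (by tauto)), if_pos hx, if_pos hy]; rfl
    · rw [if_neg (fun h' => by have := h.1 h'; tauto), if_pos hx, if_neg hy]; rfl
    · rw [if_neg (fun h' => by have := h.1 h'; tauto), if_neg hx, if_pos hy]; rfl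
    · rw [if_pos (h.2 (by tauto)), if_neg hx, if_neg hy]; rfl
  · change (if x ∈ K then (1 : ℤˣ) else -1) = 1 ↔ x ∈ K
    by_cases hx : x ∈ K
    · simp [hx]
    · rw [if_neg hx]
      exact ⟨fun h => absurd h (by decide), fun h => absurd h hx⟩

lemma exists_index_two [Finite G] {R C : Subgroup G} (hR2 : IsPGroup 2 R) (hCR : C ≤ R)
    (hne : C ≠ R) : ∃ m, Nat.card R = 2 ^ (m + 1) ∧ ∃ X, C ≤ X ∧ X ≤ R ∧ Nat.card X = 2 ^ m := by
  have : Fact (Nat.Prime 2) := ⟨Nat.prime_two⟩
  obtain ⟨i, hi⟩ := IsPGroup.iff_card.1 (hR2.to_le hCR)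
  obtain ⟨r, hr⟩ := IsPGroup.iff_card.1 hR2
  have h1 : Nat.card C < Nat.card R := by
    rcases (Subgroup.card_le_of_le hCR).lt_or_eq with h | h
    · exact h
    · exact absurd (Subgroup.eq_of_le_of_card_ge hCR h.ge) hne
  have h2 : i < r := by
    rw [hi, hr] at h1
    exact (Nat.pow_lt_pow_iff_right (by norm_num : 1 < 2)).1 h1
  obtain ⟨m, rfl⟩ : ∃ m, r = m + 1 := ⟨r - 1, by omega⟩
  refine ⟨m, hr, ?_⟩
  obtain ⟨K, hK1, hK2⟩ := Sylow.exists_subgroup_card_pow_prime_le 2 (G := R) (n := i) (m := m)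
    (by rw [hr]; exact pow_dvd_pow 2 (by omega)) (C.subgroupOf R)
    (by rw [← hi]; exact Nat.card_congr (subgroupOfEquivOfLe hCR).toEquiv) (by omega)
  refine ⟨K.map R.subtype, ?_, map_subtype_le _, ?_⟩
  · intro x hx
    exact ⟨⟨x, hCR hx⟩, hK2 (mem_subgroupOf.2 hx), rfl⟩
  · rw [← hK1]
    exact (Nat.card_congr (K.equivMapOfInjective _ R.subtype_injective).toEquiv).symm

lemma case3b [Finite G] (P : Sylow 2 G) {R : Subgroup G} (hR : R.Normal) (hR2 : IsPGroup 2 R)
    (hTI : ∀ X ≤ R, Nat.card R = 2 * Nat.card X → TI (P : Subgroup G) X) {q j : ℕ}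
    (hq : q.Prime) (hq2 : q ≠ 2) {g : G} (hg : g ^ q ^ j = 1) : ∀ x ∈ R, g * x = x * g := by
  have hodd : Odd (q ^ j) := (hq.odd_of_ne_two hq2).pow
  have htop := fixedChars_eq_top P R hTI
  by_contra hcon
  push Not at hcon
  obtain ⟨x0, hx0, hx0'⟩ := hcon
  let C : Subgroup G := R ⊓ centralizer {g}
  have hCmem : ∀ x, x ∈ C ↔ x ∈ R ∧ g * x = x * g := by
    intro x
    rw [mem_inf, mem_centralizer_singleton_iff]
    exact ⟨fun h => ⟨h.1, h.2.symm⟩, fun h => ⟨h.1, h.2.symm⟩⟩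
  have hCR : C ≤ R := inf_le_left
  have hne : C ≠ R := by
    intro h
    rw [← h] at hx0
    exact hx0' ((hCmem x0).1 hx0).2
  obtain ⟨m, hm, X, hCX, hXR, hX⟩ := exists_index_two hR2 hCR hne
  have hidx : (X.subgroupOf R).index = 2 := by
    have h2 := card_mul_relIndex hXR
    rw [hX, hm, pow_succ] at h2
    exact Nat.eq_of_mul_eq_mul_left (by positivity) h2
  obtain ⟨f, hf⟩ := exists_char R (X.subgroupOf R) hidx
  have hXg : ∀ y ∈ zpowers g, ∀ x ∈ X, y * x * y⁻¹ ∈ X := by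
    intro y hy x hx
    have hyo : y⁻¹ ^ q ^ j = 1 := by
      obtain ⟨i, rfl⟩ := mem_zpowers_iff.1 hy
      rw [inv_pow, ← zpow_natCast, ← zpow_mul, mul_comm, zpow_mul, zpow_natCast, hg, one_zpow,
        inv_one]
    have h1 : f ∈ fixedChars R := by rw [htop]; exact mem_top _
    have h2 := h1 y⁻¹ ⟨_, hodd, hyo⟩
    have h3 : f ((MulAut.conjNormal y⁻¹⁻¹ : R ≃* R) ⟨x, hXR hx⟩) = f ⟨x, hXR hx⟩ :=
      DFunLike.congr_fun h2 _
    have h4 : f ⟨x, hXR hx⟩ = 1 := (hf _).2 (mem_subgroupOf.2 hx)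
    rw [h4, hf, mem_subgroupOf, MulAut.conjNormal_apply, inv_inv] at h3
    exact h3
  obtain ⟨x, hxR, hxX, hx⟩ := exists_fixed_outside hq hq2 (Q := zpowers g) (by
    rintro ⟨y, hy⟩
    refine ⟨j, Subtype.ext ?_⟩
    obtain ⟨i, rfl⟩ := mem_zpowers_iff.1 hy
    change (g ^ i) ^ q ^ j = 1
    rw [← zpow_natCast, ← zpow_mul, mul_comm, zpow_mul, zpow_natCast, hg, one_zpow]) hXR hX hm
    (fun y _ x hx => hR.conj_mem x hx y) hXg
  exact hxX (hCX ((hCmem x).2 ⟨hxR, hx g (mem_zpowers g)⟩))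

end

end Pool.Agent.T6.H25.PM
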