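import Mathlib
import Pool.Agent.T6.H25.PMDual

set_option autoImplicit false

/-!
# If the 2-radical is larger than `2 ^ k` then elements of odd order centralise it
-/

namespace Pool.Agent.T6.H25.PM

open Subgroup
open scoped Pointwise

universe u
variable {G : Type u} [Group G]

/-- case of a normal subgroup `F` of order `2 ^ k` and index at least four -/
lemma case3a [Finite G] {P R F : Subgroup G} {k : ℕ} (hk : 2 ≤ k) (hP2 : IsPGroup 2 P)
    (hR : R.Normal) (hRP : R ≤ P) (hF : F.Normal) (hFR : F ≤ R)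
    (hmax : ∀ D : Subgroup G, D.Normal → F ≤ D → D ≤ R → D = F ∨ D = R)
    (hsq : ∀ x ∈ R, x * x ∈ F) (hcF : Nat.card F = 2 ^ k) (hcR : 4 * 2 ^ k ≤ Nat.card R)
    (hTI : ∀ H ≤ R, Nat.card H = 2 ^ k → TI P H) : False := by
  have hnF : P ≤ normalizer (F : Set G) := by
    rw [normalizer_eq_top_iff.2 hF]; exact le_top
  have hFP : F ≤ P := hFR.trans hRP
  have hposk : 0 < 2 ^ k := by positivity
  -- no subgroup of order `2 ^ k` of the form `zpowers s ⊔ A` with `A ≤ F`
  have hno : ∀ s ∈ R, s ∉ F → ∀ A ≤ F, Nat.card (zpowers s ⊔ A : Subgroup G) ≠ 2 ^ k := by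
    intro s hs hsF A hA hc
    have h1 : TI P (zpowers s ⊔ A) := hTI _ (sup_le (zpowers_le.2 hs) (hA.trans hFR)) hc
    have h2 := h1.sup hF
    rw [sup_assoc, sup_eq_right.2 hA] at h2
    have h3 := line hP2 hR hRP hF hFR hmax hs hsF h2
    obtain ⟨X, -, hX2, hX3⟩ := exists_ext2 (hnF (hRP hs)) (hsq s hs) hsF
    rw [← hX3] at h3
    rw [h3, hcF] at hX2
    omega
  obtain ⟨H00, -, h00F, h00P, h00c⟩ := exists_order (m := k - 2) hP2 (bot_le : ⊥ ≤ F) hFP
    (by intro g _; rw [mem_normalizer_iff]; intro x; rw [mem_bot, mem_bot]; simp) hnF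
    (by rw [card_bot]; exact Nat.one_le_two_pow)
    (by rw [hcF]; exact Nat.pow_le_pow_right (by norm_num) (by omega))
  have hk4 : 2 ^ k = 4 * 2 ^ (k - 2) := by
    have : k = (k - 2) + 2 := by omega
    conv_lhs => rw [this, pow_add]
    ring
  have h00ne : H00 ≠ F := by
    rintro rfl
    rw [h00c] at hcF
    have : 0 < 2 ^ (k - 2) := by positivity
    omega
  obtain ⟨H0, h0a, h0F, h0P, h0c⟩ := bottom hP2 h00F h00ne hFP h00P hnF
  rw [h00c] at h0c
  have hs2 : ∀ s ∈ R, s ∉ F → s * s ∉ H0 := by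
    intro s hs hsF h
    obtain ⟨X, -, hX2, hX3⟩ := exists_ext2 (h0P (hRP hs)) h (fun h' => hsF (h0F h'))
    apply hno s hs hsF H0 h0F
    rw [← hX3, hX2, h0c, hk4]; ring
  have hs4 : ∀ s ∈ R, s ∉ F → (s * s) * (s * s) ∉ H00 := by
    intro s hs hsF h
    have ha : s * s ∈ F := hsq s hs
    obtain ⟨X, hX1, hX2, hX3⟩ := exists_ext2 (h00P (hFP ha)) h
      (fun h' => hs2 s hs hsF (h0a h'))
    have hXF : X ≤ F := by rw [hX3]; exact sup_le (zpowers_le.2 ha) h00F
    have hsX : s ∈ normalizer (X : Set G) := by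
      apply mem_norm_of
      intro x hx
      rw [hX1] at hx ⊢
      rcases hx with hx | hx
      · exact Or.inl (mem_norm (h00P (hRP hs)) hx)
      · right
        have h1 := mem_norm (h00P (hRP hs)) hx
        have e : (s * s)⁻¹ * (s * x * s⁻¹) = s * ((s * s)⁻¹ * x) * s⁻¹ := by group
        rw [e]; exact h1
    obtain ⟨Y, -, hY2, hY3⟩ := exists_ext2 hsX (by
      rw [hX1]; right; rw [inv_mul_cancel]; exact one_mem _) (fun h' => hsF (hXF h'))
    apply hno s hs hsF X hXF
    rw [← hY3, hY2, hX2, h00c, hk4]; ring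
  -- the quotient
  have hn00 : (H00.subgroupOf R).Normal := by
    constructor
    intro x hx g
    rw [mem_subgroupOf] at hx ⊢
    exact mem_norm (h00P (hRP g.2)) hx
  have hRnF : ∃ s ∈ R, s ∉ F := by
    by_contra hcon
    push Not at hcon
    have := Subgroup.card_le_of_le (show R ≤ F from hcon)
    omega
  obtain ⟨s, hs, hsF⟩ := hRnF
  obtain ⟨K, hK1, hK2, hK3⟩ := exists_ext2 (hnF (hRP hs)) (hsq s hs) hsF
  have hKR : K ≤ R := by rw [hK3]; exact sup_le (zpowers_le.2 hs) hFR
  have hRnK : ∃ t ∈ R, t ∉ K := by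
    by_contra hcon
    push Not at hcon
    have := Subgroup.card_le_of_le (show R ≤ K from hcon)
    omega
  obtain ⟨t, ht, htK⟩ := hRnK
  have hFK : F ≤ K := fun x hx => (hK1 x).2 (Or.inl hx)
  have hsK : s ∈ K := (hK1 s).2 (Or.inr (by rw [inv_mul_cancel]; exact one_mem _))
  let π := QuotientGroup.mk' (H00.subgroupOf R)
  let Z := (F.subgroupOf R).map π
  have hle : H00.subgroupOf R ≤ F.subgroupOf R := fun x hx => mem_subgroupOf.2 (h00F (mem_subgroupOf.1 hx))
  have hZmem : ∀ x : R, π x ∈ Z ↔ (x : G) ∈ F := by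
    intro x
    constructor
    · rintro ⟨y, hy, hyx⟩
      have h1 : y⁻¹ * x ∈ H00.subgroupOf R := QuotientGroup.eq.1 hyx
      have h2 := hle h1
      have h3 : x ∈ F.subgroupOf R := (Subgroup.mul_mem_cancel_left _ (inv_mem hy)).1 h2
      exact mem_subgroupOf.1 h3
    · intro h
      exact ⟨x, mem_subgroupOf.2 h, rfl⟩
  have hZc : Nat.card Z = 4 := by
    have h1 := relIndex_map_map π (⊥ : Subgroup R) (F.subgroupOf R)
    rw [Subgroup.map_bot, relIndex_bot_left, bot_sup_eq, QuotientGroup.ker_mk',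
      sup_eq_left.2 hle, relIndex_subgroupOf hFR] at h1
    have h2 := card_mul_relIndex h00F
    rw [h00c, hcF, hk4, mul_comm] at h2
    have h3 : 0 < 2 ^ (k - 2) := by positivity
    have h4 := Nat.eq_of_mul_eq_mul_right h3 h2
    change Nat.card Z = 4
    rw [h1, h4]
  refine order4 Z hZc ?_ ?_ (s := π ⟨s, hs⟩) (t := π ⟨t, ht⟩) ?_ ?_ ?_ ?_
  · intro x
    obtain ⟨x, rfl⟩ := QuotientGroup.mk'_surjective _ x
    rw [← map_mul, hZmem]
    exact hsq x x.2
  · intro x
    obtain ⟨x, rfl⟩ := QuotientGroup.mk'_surjective _ x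
    intro hx h4
    have hx' : (x : G) ∉ F := fun h => hx ((hZmem x).2 h)
    apply hs4 x x.2 hx'
    have h1 : x ^ 4 ∈ H00.subgroupOf R := by
      rw [← map_pow] at h4
      exact (QuotientGroup.eq_one_iff _).1 h4
    rw [mem_subgroupOf] at h1
    have h2 : ((x ^ 4 : R) : G) = (x * x) * (x * x) := by simp [pow_succ, mul_assoc]
    rwa [h2] at h1
  · rw [hZmem]; exact hsF
  · rw [hZmem]; exact fun h => htK (hFK h)
  · rw [← map_mul, hZmem]
    intro h
    exact htK ((Subgroup.mul_mem_cancel_left K hsK).1 (hFK h))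
  · rw [← map_inv, ← map_mul, hZmem]
    intro h
    exact htK ((inv_mem_iff).1 ((Subgroup.mul_mem_cancel_left K hsK).1 (hFK h)))

theorem a1 [Finite G] (P : Sylow 2 G) {k : ℕ} (hk : 2 ≤ k) {q j : ℕ} (hq : q.Prime) (hq2 : q ≠ 2)
    {g : G} (hg : g ^ q ^ j = 1) :
    ∀ (n : ℕ) (R : Subgroup G), Nat.card R = n → R.Normal → IsPGroup 2 R → 2 ^ k < Nat.card R →
      (∀ H ≤ R, Nat.card H = 2 ^ k → TI (P : Subgroup G) H) → ∀ x ∈ R, g * x = x * g := by
  have hfact : Fact (Nat.Prime 2) := ⟨Nat.prime_two⟩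
  have hodd : Odd (q ^ j) := (hq.odd_of_ne_two hq2).pow
  intro n
  induction n using Nat.strong_induction_on with
  | _ n ih =>
  intro R hn hR hR2 hRk hTI
  have hRP : R ≤ (P : Subgroup G) := hR2.le_sylow_of_normal P
  have hRbot : R ≠ ⊥ := by
    rintro rfl
    rw [card_bot] at hRk
    have := Nat.one_le_two_pow (n := k)
    omega
  obtain ⟨F, ⟨hF, hFR, hFne⟩, hFmax⟩ := (Set.toFinite {F : Subgroup G | F.Normal ∧ F ≤ R ∧
    F ≠ R}).exists_maximal ⟨⊥, inferInstance, bot_le, hRbot.symm⟩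
  have hmax : ∀ D : Subgroup G, D.Normal → F ≤ D → D ≤ R → D = F ∨ D = R := by
    intro D hD h1 h2
    by_cases h3 : D = R
    · exact Or.inr h3
    · exact Or.inl (le_antisymm (hFmax ⟨hD, h2, h3⟩ h1) h1)
  have hnF : (P : Subgroup G) ≤ normalizer (F : Set G) := by
    rw [normalizer_eq_top_iff.2 hF]; exact le_top
  have hnR : (P : Subgroup G) ≤ normalizer (R : Set G) := by
    rw [normalizer_eq_top_iff.2 hR]; exact le_top
  have hcFR : Nat.card F < Nat.card R := by
    rcases (Subgroup.card_le_of_le hFR).lt_or_eq with h | h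
    · exact h
    · exact absurd (Subgroup.eq_of_le_of_card_ge hFR h.ge) hFne
  -- squares lie in F
  have hsq : ∀ x ∈ R, x * x ∈ F := by
    obtain ⟨Y, hFY, hYR, hPY, hcY⟩ := top P.2 hFR hFne hRP hnF hnR
    let T : Set G := {x | x ∈ F ∨ ∃ a ∈ R, x = a * a}
    have hT : normalClosure T ≤ Y := by
      rw [normalClosure, closure_le]
      intro x hx
      obtain ⟨z, hz, hzx⟩ := Group.mem_conjugatesOfSet_iff.1 hx
      obtain ⟨c, rfl⟩ := isConj_iff.1 hzx
      rcases hz with hz | ⟨a, ha, rfl⟩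
      · exact hFY (hF.conj_mem z hz c)
      · have h1 := sq_mem_of_index_two hYR hcY (hR.conj_mem a ha c)
        have h2 : c * (a * a) * c⁻¹ = (c * a * c⁻¹) * (c * a * c⁻¹) := by group
        rw [h2]
        exact h1
    have hN : (normalClosure T).Normal := normalClosure_normal
    have h1 : normalClosure T = F := by
      rcases hmax _ hN (fun f hf => subset_normalClosure (show f ∈ T from Or.inl hf))
        (hT.trans hYR) with h | h
      · exact h
      · exfalso
        rw [h] at hT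
        have h1 := Subgroup.card_le_of_le hT
        have h2 : 0 < Nat.card Y := Nat.card_pos
        omega
    intro x hx
    rw [← h1]
    apply subset_normalClosure
    exact Or.inr ⟨x, hx, rfl⟩
  rcases lt_trichotomy (Nat.card F) (2 ^ k) with hlt | heq | hgt
  · -- case 2
    exfalso
    obtain ⟨X, hFX, hXR, hPX, hcX⟩ := exists_order P.2 hFR hRP hnF hnR hlt.le hRk.le
    have hXn := (hTI X hXR hcX).normal hPX
    rcases hmax X hXn hFX hXR with h | h
    · rw [h] at hcX; omega
    · rw [h] at hcX; omega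
  · -- case 3
    obtain ⟨r, hr⟩ := IsPGroup.iff_card.1 hR2
    have hrk : k < r := by
      rw [hr] at hRk
      exact (Nat.pow_lt_pow_iff_right (by norm_num : 1 < 2)).1 hRk
    by_cases hr1 : r = k + 1
    · refine case3b P hR hR2 ?_ hq hq2 hg
      intro X hX hcX
      apply hTI X hX
      rw [hr, hr1, pow_succ] at hcX
      omega
    · exfalso
      refine case3a hk P.2 hR hRP hF hFR hmax hsq heq ?_ hTI
      rw [hr]
      calc 4 * 2 ^ k = 2 ^ (k + 2) := by rw [pow_add]; ring
        _ ≤ 2 ^ r := Nat.pow_le_pow_right (by norm_num) (by omega)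
  · -- case 1
    have hgF : ∀ x ∈ F, g * x = x * g := ih _ (by omega) F rfl hF (hR2.to_le hFR) hgt
      (fun H hH hc => hTI H (hH.trans hFR) hc)
    have hC : ∀ x ∈ R, ∀ c ∈ F, x * c * x⁻¹ ∈ F := fun x _ c hc => hF.conj_mem c hc x
    refine s4 hR2 hodd hg (fun x hx => hR.conj_mem x hx g) hgF hC hsq ?_
    intro s hs hs4
    by_cases hsF : s ∈ F
    · exact hgF s hsF
    · -- a subgroup of order `2 ^ k` between `⟨s⟩` and `⟨s⟩ F`
      obtain ⟨K, hKd⟩ : ∃ K, K = zpowers s ⊔ F := ⟨_, rfl⟩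
      have hKR : K ≤ R := by rw [hKd]; exact sup_le (zpowers_le.2 hs) hFR
      have hFK : F ≤ K := by rw [hKd]; exact le_sup_right
      have hsK : zpowers s ≤ K := by rw [hKd]; exact le_sup_left
      obtain ⟨i, hi⟩ := IsPGroup.iff_card.1 (hR2.to_le (zpowers_le.2 hs))
      obtain ⟨r, hr⟩ := IsPGroup.iff_card.1 (hR2.to_le hKR)
      have hi2 : i ≤ k := by
        have h1 : Nat.card (zpowers s) ∣ 4 := by
          rw [Nat.card_zpowers]; exact orderOf_dvd_of_pow_eq_one hs4
        have h2 : 2 ^ i ≤ 2 ^ 2 := by rw [← hi]; exact Nat.le_of_dvd (by norm_num) h1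
        have h3 := (Nat.pow_le_pow_iff_right (by norm_num : 1 < 2)).1 h2
        omega
      have hkr : k ≤ r := by
        have h1 := Subgroup.card_le_of_le hFK
        rw [hr] at h1
        have h2 : 2 ^ k < 2 ^ r := by omega
        exact ((Nat.pow_lt_pow_iff_right (by norm_num : 1 < 2)).1 h2).le
      obtain ⟨X, hX1, hX2⟩ := Sylow.exists_subgroup_card_pow_prime_le 2 (G := K) (n := i) (m := k)
        (by rw [hr]; exact pow_dvd_pow 2 hkr) ((zpowers s).subgroupOf K)
        (by rw [← hi]; exact Nat.card_congr (subgroupOfEquivOfLe hsK).toEquiv) hi2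
      have hHK : X.map K.subtype ≤ K := map_subtype_le _
      have hsH : zpowers s ≤ X.map K.subtype := by
        intro x hx
        exact ⟨⟨x, hsK hx⟩, hX2 (mem_subgroupOf.2 hx), rfl⟩
      have h1 : TI (P : Subgroup G) (X.map K.subtype) := by
        apply hTI _ (hHK.trans hKR)
        rw [← hX1]
        exact (Nat.card_congr (X.equivMapOfInjective _ K.subtype_injective).toEquiv).symm
      have h2 := h1.sup hF
      have h3 : X.map K.subtype ⊔ F = zpowers s ⊔ F := by
        apply le_antisymm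
        · rw [← hKd]
          exact sup_le hHK hFK
        · exact sup_le_sup_right hsH F
      rw [h3] at h2
      have h4 := line P.2 hR hRP hF hFR hmax hs hsF h2
      obtain ⟨Y, -, hY2, hY3⟩ := exists_ext2 (hnF (hRP hs)) (hsq s hs) hsF
      rw [← hY3] at h4
      rw [h4] at hY2
      -- the index of `F` is two
      have h5 : s⁻¹ * (g * s * g⁻¹) ∈ F := by
        refine mem_of_index_two hFR hY2 hs (hR.conj_mem s hs g) hsF ?_
        intro h
        apply hsF
        have h6 := hF.conj_mem _ h g⁻¹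
        have h7 : g⁻¹ * (g * s * g⁻¹) * g⁻¹⁻¹ = s := by group
        rwa [h7] at h6
      obtain ⟨i', hi'⟩ := hR2 ⟨_, hFR h5⟩
      have h6 : s⁻¹ * (g * s * g⁻¹) = 1 :=
        fix_of_comm (x := s) (i := i') hodd hg (congrArg Subtype.val hi') (hgF _ h5) (by group)
      rw [inv_mul_eq_one] at h6
      rw [eq_comm, mul_inv_eq_iff_eq_mul] at h6
      exact h6

end Pool.Agent.T6.H25.PM
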