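import Mathlib
import Pool.Agent.T6.H25.PMA1

set_option autoImplicit false

/-!
# The case of a small 2-radical
-/

namespace Pool.Agent.T6.H25.PM

open Subgroup
open scoped Pointwise

universe u
variable {G : Type u} [Group G]

lemma exists_between [Finite G] {A B : Subgroup G} (hB : IsPGroup 2 B) (hAB : A ≤ B) {k : ℕ}
    (h1 : Nat.card A ≤ 2 ^ k) (h2 : 2 ^ k ≤ Nat.card B) :
    ∃ H : Subgroup G, A ≤ H ∧ H ≤ B ∧ Nat.card H = 2 ^ k := by
  have : Fact (Nat.Prime 2) := ⟨Nat.prime_two⟩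
  obtain ⟨i, hi⟩ := IsPGroup.iff_card.1 (hB.to_le hAB)
  obtain ⟨r, hr⟩ := IsPGroup.iff_card.1 hB
  rw [hi] at h1
  rw [hr] at h2
  have h3 := (Nat.pow_le_pow_iff_right (by norm_num : 1 < 2)).1 h1
  have h4 := (Nat.pow_le_pow_iff_right (by norm_num : 1 < 2)).1 h2
  obtain ⟨X, hX1, hX2⟩ := Sylow.exists_subgroup_card_pow_prime_le 2 (G := B) (n := i) (m := k)
    (by rw [hr]; exact pow_dvd_pow 2 h4) (A.subgroupOf B)
    (by rw [← hi]; exact Nat.card_congr (subgroupOfEquivOfLe hAB).toEquiv) h3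
  refine ⟨X.map B.subtype, ?_, map_subtype_le _, ?_⟩
  · intro x hx
    exact ⟨⟨x, hAB hx⟩, hX2 (mem_subgroupOf.2 hx), rfl⟩
  · rw [← hX1]
    exact (Nat.card_congr (X.equivMapOfInjective _ B.subtype_injective).toEquiv).symm

theorem caseB [Finite G] (P : Sylow 2 G) {R M : Subgroup G} (hR : R.Normal) (hR2 : IsPGroup 2 R)
    (hM : M.Normal) {q : ℕ} (hq : q.Prime) (hq2 : q ≠ 2) (Q : Sylow q M)
    (hMQ : ∀ x ∈ M, ∃ r ∈ R, ∃ y ∈ (Q : Subgroup M).map M.subtype, x = r * y)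
    (hnc : ¬ ∀ y ∈ (Q : Subgroup M).map M.subtype, ∀ r ∈ R, y * r = r * y) {k : ℕ}
    (hRk : Nat.card R ≤ 2 ^ k) (hkP : 2 ^ k < Nat.card (P : Subgroup G))
    (hTI : ∀ H ≤ (P : Subgroup G), Nat.card H = 2 ^ k → TI (P : Subgroup G) (H ⊓ R)) :
    False := by
  have hf2 : Fact (Nat.Prime 2) := ⟨Nat.prime_two⟩
  have hfq : Fact q.Prime := ⟨hq⟩
  have hRP : R ≤ (P : Subgroup G) := hR2.le_sylow_of_normal P
  obtain ⟨Q0, hQ0⟩ : ∃ Q0, Q0 = (Q : Subgroup M).map M.subtype := ⟨_, rfl⟩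
  have hQ0q : IsPGroup q Q0 := by rw [hQ0]; exact Q.2.map _
  obtain ⟨N, hN⟩ : ∃ N, N = normalizer (Q0 : Set G) := ⟨_, rfl⟩
  have hFr : N ⊔ M = ⊤ := by rw [hN, hQ0]; exact Sylow.normalizer_sup_eq_top Q
  have hQN : Q0 ≤ N := by rw [hN]; exact le_normalizer
  rw [← hQ0] at hMQ hnc
  -- factorisation
  have hfac : ∀ g : G, ∃ r ∈ R, ∃ n ∈ N, g = r * n := by
    intro g
    obtain ⟨n, hn, m, hm, rfl⟩ := mem_sup_of_normal_right.1 (show g ∈ N ⊔ M by
      rw [hFr]; exact mem_top _)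
    obtain ⟨r, hr, y, hy, rfl⟩ := hMQ m hm
    refine ⟨n * r * n⁻¹, hR.conj_mem r hr n, n * y, mul_mem hn (hQN hy), by group⟩
  -- elements of `R` normalising `Q0` centralise it
  have hcomm : ∀ r ∈ R, r ∈ N → ∀ y ∈ Q0, y * r = r * y := by
    intro r hr hrN y hy
    rw [hN] at hrN
    have h1 : y * r * y⁻¹ * r⁻¹ ∈ R := mul_mem (hR.conj_mem r hr y) (inv_mem hr)
    have h2 : y * r * y⁻¹ * r⁻¹ ∈ Q0 := by
      have h3 := mem_norm hrN (inv_mem hy)
      have h4 : y * r * y⁻¹ * r⁻¹ = y * (r * y⁻¹ * r⁻¹) := by group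
      rw [h4]
      exact mul_mem hy h3
    obtain ⟨i, hi⟩ := hR2 ⟨_, h1⟩
    obtain ⟨j, hj⟩ := hQ0q ⟨_, h2⟩
    have h3 := coprime_one (i := i) (j := j) Nat.prime_two hq hq2.symm (congrArg Subtype.val hi)
      (congrArg Subtype.val hj)
    rw [mul_inv_eq_one, mul_inv_eq_iff_eq_mul] at h3
    exact h3
  have hne : (P : Subgroup G) ⊓ N ≠ P := by
    intro h
    apply hnc
    intro y hy r hr
    have h1 : r ∈ (P : Subgroup G) ⊓ N := by rw [h]; exact hRP hr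
    exact hcomm r hr h1.2 y hy
  obtain ⟨m, hm, Y, hNY, hYP, hY⟩ := exists_index_two P.2 (inf_le_left : (P : Subgroup G) ⊓ N ≤ P) hne
  have hcY : Nat.card (P : Subgroup G) = 2 * Nat.card Y := by rw [hm, hY, pow_succ']
  -- `P = R Y`
  have hPRY : ∀ p ∈ (P : Subgroup G), ∃ r ∈ R, ∃ y ∈ Y, p = r * y := by
    intro p hp
    obtain ⟨r, hr, n, hn, rfl⟩ := hfac p
    refine ⟨r, hr, n, hNY ⟨(Subgroup.mul_mem_cancel_left _ (hRP hr)).1 hp, hn⟩, rfl⟩
  have hRY : ∃ a ∈ R, a ∉ Y := by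
    by_contra hcon
    push Not at hcon
    have h1 : (P : Subgroup G) ≤ Y := by
      intro p hp
      obtain ⟨r, hr, y, hy, rfl⟩ := hPRY p hp
      exact mul_mem (hcon r hr) hy
    have h2 := Subgroup.card_le_of_le h1
    have h3 : 0 < Nat.card Y := Nat.card_pos
    omega
  have hYn : (P : Subgroup G) ≤ normalizer (Y : Set G) := by
    intro p hp
    apply mem_norm_of
    intro y hy
    by_cases hpY : p ∈ Y
    · exact mul_mem (mul_mem hpY hy) (inv_mem hpY)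
    · have h1 := mem_of_index_two hYP hcY (a := (p * y)⁻¹) (b := p⁻¹)
        (inv_mem (mul_mem hp (hYP hy))) (inv_mem hp)
        (fun h => hpY ((Subgroup.mul_mem_cancel_right Y hy).1 ((inv_mem_iff).1 h)))
        (fun h => hpY ((inv_mem_iff).1 h))
      rwa [inv_inv] at h1
  obtain ⟨X, hX⟩ : ∃ X, X = Y ⊓ R := ⟨_, rfl⟩
  have hXn : (P : Subgroup G) ≤ normalizer (X : Set G) := by
    intro p hp
    apply mem_norm_of
    intro x hx
    rw [hX] at hx ⊢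
    exact mem_inf.2 ⟨mem_norm (hYn hp) hx.1, hR.conj_mem x hx.2 p⟩
  have hXR : X ≤ R := by rw [hX]; exact inf_le_right
  have hXY : X ≤ Y := by rw [hX]; exact inf_le_left
  obtain ⟨a, haR, haY⟩ := hRY
  obtain ⟨X', hX'1, hX'2, hX'3⟩ := exists_ext2 (A := X) (hXn (hRP haR)) (by
      rw [hX]
      exact mem_inf.2 ⟨sq_mem_of_index_two hYP hcY (hRP haR), mul_mem haR haR⟩)
    (fun h => haY (hXY h))
  have hX'R : X' = R := by
    apply le_antisymm
    · rw [hX'3]; exact sup_le (zpowers_le.2 haR) hXR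
    · intro r hr
      rw [hX'1]
      by_cases hrY : r ∈ Y
      · left; rw [hX]; exact mem_inf.2 ⟨hrY, hr⟩
      · right; rw [hX]
        exact mem_inf.2 ⟨mem_of_index_two hYP hcY (hRP haR) (hRP hr) haY hrY,
          mul_mem (inv_mem haR) hr⟩
  rw [hX'R] at hX'2
  obtain ⟨i, hi⟩ := IsPGroup.iff_card.1 (hR2.to_le hXR)
  have hcR : Nat.card R = 2 ^ (i + 1) := by rw [hX'2, hi, pow_succ']
  obtain ⟨H, hXH, hHY, hcH⟩ := exists_between (P.2.to_le hYP) hXY (k := k) (by omega) (by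
    rw [hY]
    rw [hm] at hkP
    have := (Nat.pow_lt_pow_iff_right (by norm_num : 1 < 2)).1 hkP
    exact Nat.pow_le_pow_right (by norm_num) (by omega))
  have hHR : H ⊓ R = X := by
    apply le_antisymm
    · rw [hX]; exact inf_le_inf_right R hHY
    · exact le_inf hXH hXR
  have hTX := hTI H (hHY.trans hYP) hcH
  rw [hHR] at hTX
  have hXnormal := hTX.normal hXn
  obtain ⟨z, hzR, hzX, hz⟩ := exists_fixed_outside hq hq2 hQ0q hXR hi hcR
    (fun g _ x hx => hR.conj_mem x hx g) (fun g _ x hx => hXnormal.conj_mem x hx g)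
  apply hzX
  rw [hX]
  refine mem_inf.2 ⟨hNY ⟨hRP hzR, ?_⟩, hzR⟩
  rw [hN]
  apply mem_norm_of
  intro y hy
  rw [← hz y hy, mul_inv_cancel_right]
  exact hy

end Pool.Agent.T6.H25.PM
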