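import Mathlib
import Pool.Agent.T6.H25.PMCaseB
import Pool.Agent.R691.PN.Basic

set_option autoImplicit false

/-!
# Groups with central elements of order dividing 4; 2-groups with a unique subgroup of order `2 ^ k`
-/

namespace Pool.Agent.T6.H25.PM

open Subgroup
open scoped Pointwise

universe u
variable {G : Type u} [Group G]

lemma ito_aux [Finite G] (h4 : ∀ x : G, x ^ 4 = 1 → ∀ y, y * x = x * y) {y : G} {m : ℕ}
    (hm : Odd m) (hy : y ^ m = 1) :
    ∀ (n : ℕ) (U : Subgroup G), Nat.card U = n → IsPGroup 2 U → y ∈ normalizer (U : Set G) →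
      ∀ x ∈ U, y * x = x * y := by
  intro n
  induction n using Nat.strong_induction_on with
  | _ n ih =>
  intro U hn hU hyU
  by_cases hbot : U = ⊥
  · intro x hx
    rw [hbot, mem_bot] at hx
    rw [hx, mul_one, one_mul]
  · obtain ⟨m', hm', Y, -, hYU, hY⟩ := exists_index_two hU (bot_le : ⊥ ≤ U) (Ne.symm hbot)
    have hcY : Nat.card U = 2 * Nat.card Y := by rw [hm', hY, pow_succ']
    obtain ⟨V, hV⟩ : ∃ V, V = closure {z : G | ∃ x ∈ U, z = x * x} := ⟨_, rfl⟩
    have hVY : V ≤ Y := by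
      rw [hV, closure_le]
      rintro _ ⟨x, hx, rfl⟩
      exact sq_mem_of_index_two hYU hcY hx
    have hVn : ∀ g ∈ normalizer (U : Set G), ∀ c ∈ V, g * c * g⁻¹ ∈ V := by
      intro g hg c hc
      have h1 : V ≤ MulAut.conj g⁻¹ • V := by
        conv_lhs => rw [hV]
        rw [closure_le]
        rintro _ ⟨x, hx, rfl⟩
        rw [SetLike.mem_coe, mem_cj, inv_inv, hV]
        apply Subgroup.subset_closure
        exact ⟨g * x * g⁻¹, mem_norm hg hx, by group⟩
      have h2 := h1 hc
      rwa [mem_cj, inv_inv] at h2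
    have hVlt : Nat.card V < n := by
      have h1 := Subgroup.card_le_of_le hVY
      have h2 : 0 < Nat.card Y := Nat.card_pos
      omega
    have hyV := ih _ hVlt V rfl (hU.to_le (hVY.trans hYU)) (mem_norm_of (hVn y hyU))
    refine s4 hU hm hy (fun x hx => mem_norm hyU hx) hyV
      (fun x hx c hc => hVn x (le_normalizer hx) c hc) (fun x hx => ?_)
      (fun s _ hs => h4 s hs y)
    rw [hV]
    exact Subgroup.subset_closure ⟨x, hx, rfl⟩

open Pool.Agent.R691.PN in
lemma ito [Finite G] (h4 : ∀ x : G, x ^ 4 = 1 → ∀ y, y * x = x * y) : PNilp 2 G := by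
  have : Fact (Nat.Prime 2) := ⟨Nat.prime_two⟩
  apply pnilp_of_frob _ G rfl
  intro Q hQ g hg hgo x hx
  refine ito_aux h4 (m := orderOf g) ?_ (pow_orderOf_eq_one g) _ Q rfl hQ hg x hx
  rw [← Nat.not_even_iff_odd, even_iff_two_dvd]
  exact hgo

/-- a 2-group with a unique subgroup of order `2 ^ k`, where `2 ≤ k`, is abelian -/
lemma comm_of_unique [Finite G] (hG : IsPGroup 2 G) {U : Subgroup G} {k : ℕ} (hk : 2 ≤ k)
    (hlt : 2 ^ k < Nat.card G) (huniq : ∀ H : Subgroup G, Nat.card H = 2 ^ k → H = U) :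
    ∀ x y : G, x * y = y * x := by
  have : Fact (Nat.Prime 2) := ⟨Nat.prime_two⟩
  have hT2 : IsPGroup 2 (⊤ : Subgroup G) := hG.to_subgroup ⊤
  have h1 : ∀ x : G, orderOf x ≤ 2 ^ k → x ∈ U := by
    intro x hx
    obtain ⟨H, hH1, -, hH3⟩ := exists_between hT2 (le_top : zpowers x ≤ ⊤) (k := k)
      (by rw [Nat.card_zpowers]; exact hx) (by rw [card_top]; exact hlt.le)
    rw [← huniq H hH3]
    exact hH1 (mem_zpowers x)
  have h2 : ∀ x : G, 2 ^ k ≤ orderOf x → U ≤ zpowers x := by
    intro x hx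
    obtain ⟨H, -, hH2, hH3⟩ := exists_between (hG.to_subgroup (zpowers x))
      (bot_le : ⊥ ≤ zpowers x) (k := k) (by rw [card_bot]; exact Nat.one_le_two_pow)
      (by rw [Nat.card_zpowers]; exact hx)
    rw [← huniq H hH3]
    exact hH2
  have h2' : ∀ x : G, x ∉ U → U ≤ zpowers x := by
    intro x hx
    apply h2
    by_contra hcon
    exact hx (h1 x (by omega))
  have hUc : Nat.card U = 2 ^ k := by
    obtain ⟨H, -, -, hH3⟩ := exists_between hT2 (bot_le : ⊥ ≤ (⊤ : Subgroup G)) (k := k)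
      (by rw [card_bot]; exact Nat.one_le_two_pow) (by rw [card_top]; exact hlt.le)
    rw [← huniq H hH3, hH3]
  have hUne : ∃ w, w ∉ U := by
    by_contra hcon
    push Not at hcon
    have h3 : U = ⊤ := by rw [eq_top_iff]; exact fun x _ => hcon x
    rw [h3, card_top] at hUc
    omega
  obtain ⟨w, hw⟩ := hUne
  obtain ⟨x, hx⟩ := Finite.exists_max (fun x : G => orderOf x)
  have hxo : 2 ^ k < orderOf x := by
    by_contra hcon
    apply hw
    apply h1
    have := hx w
    omega
  obtain ⟨m, hm⟩ := IsPGroup.iff_card.1 (hG.to_subgroup (zpowers x))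
  rw [Nat.card_zpowers] at hm
  have hkm : k < m := by
    rw [hm] at hxo
    exact (Nat.pow_lt_pow_iff_right (by norm_num : 1 < 2)).1 hxo
  have hUx := h2 x hxo.le
  by_cases htop : zpowers x = ⊤
  · intro a b
    have ha : a ∈ zpowers x := by rw [htop]; exact mem_top _
    have hb : b ∈ zpowers x := by rw [htop]; exact mem_top _
    obtain ⟨i, rfl⟩ := mem_zpowers_iff.1 ha
    obtain ⟨j, rfl⟩ := mem_zpowers_iff.1 hb
    rw [← zpow_add, ← zpow_add, add_comm]
  · exfalso
    have hcx : Nat.card (zpowers x) = 2 ^ m := by rw [Nat.card_zpowers, hm]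
    have hcG : Nat.card (zpowers x) < Nat.card G := by
      rcases (Subgroup.card_le_card_group (zpowers x)).lt_or_eq with h | h
      · exact h
      · exact absurd (Subgroup.eq_top_of_card_eq _ h) htop
    obtain ⟨r, hr⟩ := IsPGroup.iff_card.1 hG
    have hmr : m < r := by
      rw [hcx, hr] at hcG
      exact (Nat.pow_lt_pow_iff_right (by norm_num : 1 < 2)).1 hcG
    obtain ⟨K, hxK, -, hK⟩ := exists_between hT2 (le_top : zpowers x ≤ ⊤) (k := m + 1)
      (by rw [hcx]; exact Nat.pow_le_pow_right (by norm_num) (by omega))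
      (by rw [card_top, hr]; exact Nat.pow_le_pow_right (by norm_num) (by omega))
    have hcK : Nat.card K = 2 * Nat.card (zpowers x) := by rw [hK, hcx, pow_succ']
    have hy : ∃ y ∈ K, y ∉ zpowers x := by
      by_contra hcon
      push Not at hcon
      have h3 := Subgroup.card_le_of_le (show K ≤ zpowers x from hcon)
      have h4 : 0 < Nat.card (zpowers x) := Nat.card_pos
      omega
    obtain ⟨y, hyK, hyx⟩ := hy
    have hy2 : y * y ∈ zpowers x := sq_mem_of_index_two hxK hcK hyK
    have hyxy : y * x * y⁻¹ ∈ zpowers x := by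
      have h3 := mem_of_index_two hxK hcK (a := (y * x)⁻¹) (b := y⁻¹)
        (inv_mem (mul_mem hyK (hxK (mem_zpowers x)))) (inv_mem hyK)
        (fun h => hyx ((Subgroup.mul_mem_cancel_right _ (mem_zpowers x)).1 ((inv_mem_iff).1 h)))
        (fun h => hyx ((inv_mem_iff).1 h))
      rwa [inv_inv] at h3
    obtain ⟨a, ha⟩ := mem_zpowers_iff.1 hyxy
    obtain ⟨j, hj⟩ := mem_zpowers_iff.1 hy2
    have hyU : y ∉ U := fun h => hyx (hUx h)
    -- an element of order four
    have hxm : x ^ 2 ^ m = 1 := by rw [← hm]; exact pow_orderOf_eq_one x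
    have hpow : 2 ^ m = 2 ^ (m - 2) * 4 := by
      have : m = (m - 2) + 2 := by omega
      conv_lhs => rw [this, pow_add]
      norm_num
    obtain ⟨z, hz⟩ : ∃ z, z = x ^ 2 ^ (m - 2) := ⟨_, rfl⟩
    have hz4 : z ^ 4 = 1 := by rw [hz, ← pow_mul, ← hpow, hxm]
    have hzo : orderOf z = 4 := by
      rw [hz, orderOf_pow, hm, Nat.gcd_eq_right (pow_dvd_pow 2 (by omega)), hpow]
      exact Nat.mul_div_cancel_left _ (by positivity)
    have hzU : z ∈ U := by
      apply h1
      rw [hzo]
      calc 4 = 2 ^ 2 := by norm_num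
        _ ≤ 2 ^ k := Nat.pow_le_pow_right (by norm_num) hk
    have hzy : y * z = z * y := by
      obtain ⟨i, hi⟩ := mem_zpowers_iff.1 (h2' y hyU hzU)
      rw [← hi, ← zpow_one_add, ← zpow_add_one, add_comm]
    have hza : z ^ (a - 1) = 1 := by
      have h3 : y * z * y⁻¹ = z ^ a := by
        rw [hz, ← conj_pow, ← ha, ← zpow_natCast, ← zpow_natCast, ← zpow_mul, ← zpow_mul, mul_comm]
      rw [hzy, mul_inv_cancel_right] at h3
      rw [zpow_sub_one, ← h3, mul_inv_cancel]
    have h4a : (4 : ℤ) ∣ a - 1 := by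
      have := orderOf_dvd_iff_zpow_eq_one.2 hza
      rw [hzo] at this
      exact_mod_cast this
    have hjeven : Even j := by
      by_contra hodd
      rw [Int.not_even_iff_odd] at hodd
      have hcop : IsCoprime j ((2 ^ m : ℕ) : ℤ) := by
        rw [Nat.cast_pow]
        apply IsCoprime.pow_right
        rw [Int.isCoprime_iff_gcd_eq_one]
        have := Int.odd_iff.1 hodd
        have h5 : Int.gcd j ((2 : ℕ) : ℤ) ∣ 2 := by
          have := Int.gcd_dvd_natAbs_right j ((2 : ℕ) : ℤ)
          simpa using this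
        rcases (Nat.dvd_prime Nat.prime_two).1 h5 with h6 | h6
        · exact h6
        · exfalso
          have h7 : ((Int.gcd j ((2 : ℕ) : ℤ) : ℕ) : ℤ) ∣ j := Int.gcd_dvd_left ..
          rw [h6] at h7
          obtain ⟨c, hc⟩ := h7
          omega
      obtain ⟨u, v, huv⟩ := hcop
      have h5 : x ∈ zpowers y := by
        have h6 : x = (y * y) ^ u := by
          rw [← hj, ← zpow_mul]
          have h7 : j * u = 1 - v * ((2 ^ m : ℕ) : ℤ) := by linarith
          rw [h7, zpow_sub, zpow_one, mul_comm v, zpow_mul, zpow_natCast, hxm, one_zpow, inv_one,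
            mul_one]
        rw [h6]
        exact zpow_mem (mul_mem (mem_zpowers y) (mem_zpowers y)) u
      have h6 : zpowers x = zpowers y := by
        apply Subgroup.eq_of_le_of_card_ge (zpowers_le.2 h5)
        rw [Nat.card_zpowers, Nat.card_zpowers]
        exact hx y
      apply hyx
      rw [h6]
      exact mem_zpowers y
    obtain ⟨i, hi⟩ := hjeven
    obtain ⟨e, he⟩ := h4a
    -- (1 + a) = 2 * c with c = 2 e + 1
    have hcop : IsCoprime (2 * e + 1) ((2 ^ m : ℕ) : ℤ) := by
      rw [Nat.cast_pow]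
      apply IsCoprime.pow_right
      refine ⟨1, -e, ?_⟩
      push_cast
      ring
    obtain ⟨u, v, huv⟩ := hcop
    obtain ⟨b, hb⟩ : ∃ b, b = -(i * u) := ⟨_, rfl⟩
    have hexp : b + a * b + j = ((2 ^ m : ℕ) : ℤ) * (2 * i * v) := by
      have h5 : a = 4 * e + 1 := by linarith
      rw [h5, hb, hi]
      have h6 : v * ((2 ^ m : ℕ) : ℤ) = 1 - u * (2 * e + 1) := by linarith
      calc -(i * u) + (4 * e + 1) * -(i * u) + (i + i) = 2 * i * (1 - u * (2 * e + 1)) := by ring
        _ = 2 * i * (v * ((2 ^ m : ℕ) : ℤ)) := by rw [h6]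
        _ = _ := by ring
    have hzz : (x ^ b * y) * (x ^ b * y) = 1 := by
      have h5 : y * x ^ b * y⁻¹ = x ^ (a * b) := by
        rw [zpow_mul, ha, conj_zpow]
      calc (x ^ b * y) * (x ^ b * y) = x ^ b * (y * x ^ b * y⁻¹) * (y * y) := by group
        _ = x ^ b * x ^ (a * b) * x ^ j := by rw [h5, hj]
        _ = x ^ (b + a * b + j) := by rw [← zpow_add, ← zpow_add]
        _ = 1 := by rw [hexp, zpow_mul, zpow_natCast, hxm, one_zpow]
    have h5 : x ^ b * y ∈ U := by
      apply h1
      have h6 : orderOf (x ^ b * y) ≤ 2 := by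
        apply orderOf_le_of_pow_eq_one (by norm_num)
        rw [pow_two]; exact hzz
      calc orderOf (x ^ b * y) ≤ 2 := h6
        _ ≤ 2 ^ k := by
          calc 2 = 2 ^ 1 := by norm_num
            _ ≤ 2 ^ k := Nat.pow_le_pow_right (by norm_num) (by omega)
    exact hyx ((Subgroup.mul_mem_cancel_left _ (zpow_mem (mem_zpowers x) b)).1 (hUx h5))

end Pool.Agent.T6.H25.PM
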