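import Mathlib
import Pool.Agent.T6.H25.PMIto

set_option autoImplicit false

/-!
# Assembly: propermutable subgroups of a Sylow 2-subgroup and 2-nilpotency
-/

namespace Pool.Agent.T6.H25.PM

open Subgroup Pool.Agent.R691.PN
open scoped Pointwise

section
universe u
variable {G : Type u} [Group G]

/-- elementwise version of propermutability -/
def PropE (H : Subgroup G) : Prop :=
  ∃ B : Subgroup G, (∀ g : G, ∃ n ∈ normalizer (H : Set G), ∃ b ∈ B, g = n * b) ∧
    ∀ X ≤ B, Pm H X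

/-- a nontrivial solvable normal subgroup modulo the 2-radical -/
lemma exists_M [Finite G] {R : Subgroup G} (hR : R.Normal) (hR2 : IsPGroup 2 R)
    (hRmax : ∀ T : Subgroup G, T.Normal → IsPGroup 2 T → T ≤ R)
    (hO : ∀ N : Subgroup G, N.Normal → Odd (Nat.card N) → N = ⊥) {K : Subgroup G}
    (hK : K.Normal) (hKs : Group.IsSolvable K) (hKR : ¬ K ≤ R) :
    ∃ M : Subgroup G, M.Normal ∧ ∃ q, q.Prime ∧ q ≠ 2 ∧ ∃ Q : Sylow q M,
      (∀ x ∈ M, ∃ r ∈ R, ∃ y ∈ (Q : Subgroup M).map M.subtype, x = r * y) ∧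
      ¬ (∀ y ∈ (Q : Subgroup M).map M.subtype, ∀ r ∈ R, y * r = r * y) := by
  have hf2 : Fact (Nat.Prime 2) := ⟨Nat.prime_two⟩
  have hKbar : K.map (QuotientGroup.mk' R) ≠ ⊥ := by
    intro h
    rw [Subgroup.map_eq_bot_iff, QuotientGroup.ker_mk'] at h
    exact hKR h
  obtain ⟨D, ⟨hD1, hD2, hD3⟩, hDmin⟩ := (Set.toFinite {D : Subgroup (G ⧸ R) | D.Normal ∧
    Group.IsSolvable D ∧ D ≠ ⊥}).exists_minimal ⟨K.map (QuotientGroup.mk' R),
      hK.map _ (QuotientGroup.mk'_surjective R), solv_map _ hKs, hKbar⟩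
  -- `D` is abelian
  have hDab : ∀ a ∈ D, ∀ b ∈ D, a * b = b * a := by
    have hnt : Nontrivial D := (nontrivial_iff_ne_bot D).2 hD3
    have h1 : commutator D < ⊤ := Group.IsSolvable.commutator_lt_top_of_nontrivial D
    have h2 : ⁅D, D⁆ ≠ D := by
      intro h
      rw [← map_subtype_commutator] at h
      apply h1.ne
      have h3 : (commutator D).map D.subtype = (⊤ : Subgroup D).map D.subtype := by
        rw [h, ← MonoidHom.range_eq_map, range_subtype]
      exact map_injective D.subtype_injective h3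
    have hle : ⁅D, D⁆ ≤ D := commutator_le_left D D
    have h3 : ⁅D, D⁆ = ⊥ := by
      by_contra hne
      apply h2
      apply le_antisymm hle
      refine hDmin ⟨inferInstance, ?_, hne⟩ hle
      exact Group.isSolvable_of_isSolvable_injective (f := Subgroup.inclusion hle)
        (Subgroup.inclusion_injective hle)
    intro a ha b hb
    have h4 := commutator_mem_commutator ha hb
    rw [h3, mem_bot, commutatorElement_eq_one_iff_mul_comm] at h4
    exact h4
  have hcard : Nat.card D ≠ 1 := by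
    rw [Ne, Subgroup.card_eq_one]; exact hD3
  obtain ⟨q, hq, hqD⟩ := Nat.exists_prime_and_dvd hcard
  have hfq : Fact q.Prime := ⟨hq⟩
  let E : Subgroup (G ⧸ R) :=
    { carrier := {x | x ∈ D ∧ x ^ q = 1}
      one_mem' := ⟨one_mem _, one_pow _⟩
      mul_mem' := by
        rintro a b ⟨ha, ha'⟩ ⟨hb, hb'⟩
        refine ⟨mul_mem ha hb, ?_⟩
        have h5 : Commute a b := hDab a ha b hb
        rw [h5.mul_pow, ha', hb', one_mul]
      inv_mem' := by
        rintro a ⟨ha, ha'⟩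
        exact ⟨inv_mem ha, by rw [inv_pow, ha', inv_one]⟩ }
  have hEmem : ∀ x, x ∈ E ↔ x ∈ D ∧ x ^ q = 1 := fun x => Iff.rfl
  have hEn : E.Normal := by
    constructor
    rintro x ⟨hx, hx'⟩ g
    refine ⟨hD1.conj_mem x hx g, ?_⟩
    rw [conj_pow, hx', mul_one, mul_inv_cancel]
  have hEne : E ≠ ⊥ := by
    obtain ⟨x, hx⟩ := exists_prime_orderOf_dvd_card' q hqD
    intro h
    have h1 : (x : G ⧸ R) ∈ E := by
      refine ⟨x.2, ?_⟩
      have : x ^ q = 1 := by rw [← hx]; exact pow_orderOf_eq_one x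
      exact congrArg Subtype.val this
    rw [h, mem_bot] at h1
    have h2 : x = 1 := Subtype.ext h1
    rw [h2, orderOf_one] at hx
    exact hq.one_lt.ne hx
  obtain ⟨M, hM⟩ : ∃ M, M = E.comap (QuotientGroup.mk' R) := ⟨_, rfl⟩
  have hMn : M.Normal := by rw [hM]; infer_instance
  have hMmem : ∀ x, x ∈ M ↔ QuotientGroup.mk' R x ∈ E := fun x => by rw [hM, mem_comap]
  have hRM : R ≤ M := by
    intro x hx
    rw [hMmem]
    have : QuotientGroup.mk' R x = 1 := (QuotientGroup.eq_one_iff x).2 hx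
    rw [this]; exact one_mem _
  have hMR : ¬ M ≤ R := by
    intro h
    apply hEne
    rw [eq_bot_iff]
    intro x hx
    obtain ⟨x, rfl⟩ := QuotientGroup.mk'_surjective R x
    exact (QuotientGroup.eq_one_iff x).2 (h ((hMmem x).2 hx))
  have hMq : ∀ x ∈ M, x ^ q ∈ R := by
    intro x hx
    have h1 := ((hMmem x).1 hx).2
    rw [← map_pow] at h1
    exact (QuotientGroup.eq_one_iff _).1 h1
  have hq2 : q ≠ 2 := by
    rintro rfl
    apply hMR
    apply hRmax M hMn
    rintro ⟨x, hx⟩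
    obtain ⟨i, hi⟩ := hR2 ⟨_, hMq x hx⟩
    refine ⟨i + 1, Subtype.ext ?_⟩
    have h1 : (x ^ 2) ^ 2 ^ i = 1 := congrArg Subtype.val hi
    rw [← pow_mul, ← pow_succ'] at h1
    exact h1
  obtain ⟨Q⟩ : Nonempty (Sylow q M) := inferInstance
  have hfacM : ∀ x ∈ M, ∃ r ∈ R, ∃ y ∈ (Q : Subgroup M).map M.subtype, x = r * y := by
    have hRn : (R.subgroupOf M).Normal := hR.subgroupOf M
    obtain ⟨e, he⟩ := index_pow_of_forall (p := q) (N := R.subgroupOf M) (fun g =>
      ⟨1, by rw [pow_one, mem_subgroupOf]; exact hMq g g.2⟩)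
    have hcop : Nat.Coprime (R.subgroupOf M).index (Q : Subgroup M).index := by
      rw [he]
      exact ((Nat.Prime.coprime_iff_not_dvd hq).2 Q.not_dvd_index).pow_left e
    intro x hx
    obtain ⟨n, hn, b, hb, e⟩ := mul_of_coprime_index hcop ⟨x, hx⟩
    exact ⟨n, mem_subgroupOf.1 hn, b, ⟨b, hb, rfl⟩, congrArg Subtype.val e⟩
  refine ⟨M, hMn, q, hq, hq2, Q, hfacM, ?_⟩
  intro hcen
  -- `Q` is normal in `M`
  have hQn : (Q : Subgroup M).Normal := by
    constructor
    intro y hy x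
    obtain ⟨r, hr, z, ⟨z', hz', hzz⟩, hx⟩ := hfacM x x.2
    have h1 : z' * y * z'⁻¹ ∈ (Q : Subgroup M) := mul_mem (mul_mem hz' hy) (inv_mem hz')
    have h2 : x * y * x⁻¹ = z' * y * z'⁻¹ := by
      apply Subtype.ext
      have h3 := hcen ((z' * y * z'⁻¹ : M) : G) ⟨_, h1, rfl⟩ r hr
      change (x : G) * y * (x : G)⁻¹ = ((z' * y * z'⁻¹ : M) : G)
      have hzz' : (z' : G) = z := hzz
      calc (x : G) * y * (x : G)⁻¹ = r * (z * y * z⁻¹) * r⁻¹ := by rw [hx]; group
        _ = r * ((z' * y * z'⁻¹ : M) : G) * r⁻¹ := by rw [← hzz']; rfl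
        _ = ((z' * y * z'⁻¹ : M) : G) := by rw [← h3, mul_inv_cancel_right]
    rw [h2]
    exact h1
  have hQ0n : ((Q : Subgroup M).map M.subtype).Normal := by
    constructor
    rintro _ ⟨y, hy, rfl⟩ g
    have h1 : g * (y : G) * g⁻¹ ∈ M := hMn.conj_mem _ y.2 g
    refine ⟨⟨_, h1⟩, ?_, rfl⟩
    have h2 : IsPGroup q (zpowers (⟨_, h1⟩ : M)) := by
      obtain ⟨i, hi⟩ := Q.2 ⟨y, hy⟩
      have hi' : y ^ q ^ i = 1 := congrArg Subtype.val hi
      have hi'' : (y : G) ^ q ^ i = 1 := congrArg Subtype.val hi'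
      rintro ⟨z, hz⟩
      refine ⟨i, Subtype.ext ?_⟩
      obtain ⟨j, rfl⟩ := mem_zpowers_iff.1 hz
      change ((⟨_, h1⟩ : M) ^ j) ^ q ^ i = 1
      have h3 : (⟨_, h1⟩ : M) ^ q ^ i = 1 := by
        apply Subtype.ext
        change (g * (y : G) * g⁻¹) ^ q ^ i = 1
        rw [conj_pow, hi'', mul_one, mul_inv_cancel]
      rw [← zpow_natCast, ← zpow_mul, mul_comm, zpow_mul, zpow_natCast, h3, one_zpow]
    obtain ⟨Q', hQ'⟩ := h2.exists_le_sylow
    have h3 : Q' = Q := by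
      obtain ⟨x, hx⟩ := MulAction.exists_smul_eq M Q Q'
      rw [← hx]
      exact Sylow.smul_eq_of_normal
    rw [h3] at hQ'
    exact hQ' (mem_zpowers _)
  have hQ0 := hO _ hQ0n (by
    rw [← Nat.card_congr ((Q : Subgroup M).equivMapOfInjective _ M.subtype_injective).toEquiv]
    obtain ⟨e, he⟩ := IsPGroup.iff_card.1 Q.2
    rw [he]
    exact (hq.odd_of_ne_two hq2).pow)
  apply hMR
  intro x hx
  obtain ⟨r, hr, y, hy, rfl⟩ := hfacM x hx
  rw [hQ0, mem_bot] at hy
  rw [hy, mul_one]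
  exact hr

end

end Pool.Agent.T6.H25.PM
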