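import Mathlib
import Pool.Agent.T6.H25.PMFinal
import Pool.Agent.H32BU.TBUR
import Pool.Agent.H32BU.TPPC
import Pool.Agent.H32BU.TWED
import Pool.Agent.H32BU.TTRZ
import Pool.Agent.H32BU.TINTG
import Pool.Agent.H32BU.TNRM
import Pool.Agent.H32BU.TCEN
import Pool.Agent.H32BU.TTRI

set_option autoImplicit false

/-!
# Main theorem: propermutable subgroups of order `2 ^ k` of a nonabelian Sylow 2-subgroup
-/

namespace Pool.Agent.T6.H25.PM

open Subgroup Pool.Agent.R691.PN
open scoped Pointwise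

theorem burn : Burn := fun G _ _ p q c d hp hq h =>
  Pool.Agent.H32BU.t_BUR (Pool.Agent.H32BU.t_PPC Pool.Agent.H32BU.t_WED Pool.Agent.H32BU.t_TRZ
    Pool.Agent.H32BU.t_INTG (Pool.Agent.H32BU.t_NRM Pool.Agent.H32BU.t_INTG)
    Pool.Agent.H32BU.t_CEN Pool.Agent.H32BU.t_TRI) G p q c d hp hq h

variable {G : Type} [Group G] [Finite G]

theorem core (P : Sylow 2 G) (hnc : ¬ ∀ x ∈ P, ∀ y ∈ P, x * y = y * x) {k : ℕ}
    (hk : 2 ≤ k) (hkn : 2 ^ k < Nat.card (P : Subgroup G))
    (hprop : ∀ H : Subgroup G, H ≤ P → Nat.card H = 2 ^ k → PropE H)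
    (hO : ∀ N : Subgroup G, N.Normal → Odd (Nat.card N) → N = ⊥) : IsPGroup 2 G := by
  have hf2 : Fact (Nat.Prime 2) := ⟨Nat.prime_two⟩
  obtain ⟨R, ⟨hR, hR2⟩, hRmax'⟩ := exists_largest
    (fun N : Subgroup G => N.Normal ∧ IsPGroup 2 N) ⟨⊥, inferInstance, IsPGroup.of_bot⟩
    (fun A B hA hB => ⟨by have := hA.1; have := hB.1; infer_instance,
      by have := hB.1; exact hA.2.to_sup_of_normal_right hB.2⟩)
  have hRmax : ∀ T : Subgroup G, T.Normal → IsPGroup 2 T → T ≤ R := fun T h1 h2 => hRmax' T ⟨h1, h2⟩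
  have hRP : R ≤ (P : Subgroup G) := hR2.le_sylow_of_normal P
  have hpow : ∀ H : Subgroup G, Nat.card H = 2 ^ k → IsPGroup 2 H := fun H h => IsPGroup.of_card h
  have hTI : ∀ H ≤ (P : Subgroup G), Nat.card H = 2 ^ k → TI (P : Subgroup G) (H ⊓ R) := by
    intro H hH hc
    obtain ⟨B, hB1, hB2⟩ := hprop H hH hc
    exact ti_of_propermutable P (hpow H hc) hR2 hR hB1 hB2
  have hTI' : ∀ H ≤ R, Nat.card H = 2 ^ k → TI (P : Subgroup G) H := by
    intro H hH hc
    have := hTI H (hH.trans hRP) hc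
    rwa [inf_eq_left.2 hH] at this
  have hcen : 2 ^ k < Nat.card R → ∀ q : ℕ, q.Prime → q ≠ 2 → ∀ (g : G) (j : ℕ), g ^ q ^ j = 1 →
      ∀ x ∈ R, g * x = x * g := fun hlt q hq hq2 g j hg =>
    a1 P hk hq hq2 hg _ R rfl hR hR2 hlt hTI'
  -- all subgroups of order `2 ^ k` lie in the radical
  have hHR : ∀ H : Subgroup G, H ≤ P → Nat.card H = 2 ^ k → H ≤ R := by
    intro H hH hc
    by_contra hHR
    obtain ⟨B, hB1, hB2⟩ := hprop H hH hc
    have hsol := solv_closure burn Nat.prime_two (hpow H hc) hB1 hB2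
    obtain ⟨M, hM, q, hq, hq2, Q, hMQ, hncen⟩ := exists_M hR hR2 hRmax hO
      (K := normalClosure (H : Set G)) inferInstance hsol (fun h => hHR (le_normalClosure.trans h))
    rcases le_or_gt (Nat.card R) (2 ^ k) with hle | hgt
    · exact caseB P hR hR2 hM hq hq2 Q hMQ hncen hle hkn hTI
    · apply hncen
      rintro _ ⟨y, hy, rfl⟩ r hr
      obtain ⟨j, hj⟩ := Q.2 ⟨y, hy⟩
      have hj' : y ^ q ^ j = 1 := congrArg Subtype.val hj
      exact hcen hgt q hq hq2 y j (congrArg Subtype.val hj') r hr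
  have hex : ∀ A : Subgroup G, A ≤ P → Nat.card A ≤ 2 ^ k → A ≤ R := by
    intro A hA hc
    obtain ⟨H, h1, h2, h3⟩ := exists_between P.2 hA (k := k) hc hkn.le
    exact h1.trans (hHR H h2 h3)
  have hgt : 2 ^ k < Nat.card R := by
    by_contra hcon
    push Not at hcon
    obtain ⟨H, -, h2, h3⟩ := exists_between P.2 (bot_le : ⊥ ≤ (P : Subgroup G)) (k := k)
      (by rw [card_bot]; exact Nat.one_le_two_pow) hkn.le
    have h4 := Subgroup.card_le_of_le (hHR H h2 h3)
    have hRc : Nat.card R = 2 ^ k := by omega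
    have huniq : ∀ H : Subgroup (P : Subgroup G), Nat.card H = 2 ^ k → H = R.subgroupOf P := by
      intro K hK
      have h5 : Nat.card (K.map (P : Subgroup G).subtype) = 2 ^ k := by
        rw [← hK]
        exact (Nat.card_congr (K.equivMapOfInjective _
          (P : Subgroup G).subtype_injective).toEquiv).symm
      have h6 : K.map (P : Subgroup G).subtype = R := by
        apply Subgroup.eq_of_le_of_card_ge (hHR _ (map_subtype_le _) h5)
        rw [h5, hRc]
      rw [← h6]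
      ext x
      rw [mem_subgroupOf]
      constructor
      · exact fun hx => ⟨x, hx, rfl⟩
      · rintro ⟨y, hy, hyx⟩
        have : y = x := Subtype.ext hyx
        rw [← this]; exact hy
    apply hnc
    intro x hx y hy
    have h5 := comm_of_unique (G := (P : Subgroup G)) P.2 hk hkn huniq ⟨x, hx⟩ ⟨y, hy⟩
    exact congrArg Subtype.val h5
  have hcen' := hcen hgt
  -- elements of order dividing four lie in `R`
  have h4R : ∀ x : G, x ^ 4 = 1 → x ∈ R := by
    intro x hx
    have h1 : IsPGroup 2 (zpowers x) := by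
      rintro ⟨z, hz⟩
      obtain ⟨j, rfl⟩ := mem_zpowers_iff.1 hz
      refine ⟨2, Subtype.ext ?_⟩
      change (x ^ j) ^ 2 ^ 2 = 1
      have h2 : x ^ (2 ^ 2) = 1 := by norm_num; exact hx
      rw [← zpow_natCast, ← zpow_mul, mul_comm, zpow_mul, zpow_natCast, h2, one_zpow]
    obtain ⟨P', hP'⟩ := h1.exists_le_sylow
    obtain ⟨g, hg⟩ := MulAction.exists_smul_eq G P P'
    have h2 : g⁻¹ * x * g ∈ (P : Subgroup G) := by
      have h3 : x ∈ (P' : Subgroup G) := hP' (mem_zpowers x)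
      rw [← hg, Sylow.coe_subgroup_smul, mem_cj] at h3
      exact h3
    have h3 : zpowers (g⁻¹ * x * g) ≤ R := by
      apply hex _ (zpowers_le.2 h2)
      rw [Nat.card_zpowers]
      have h4 : (g⁻¹ * x * g) ^ 4 = 1 := by
        have h5 : (g⁻¹ * x * g⁻¹⁻¹) ^ 4 = g⁻¹ * x ^ 4 * g⁻¹⁻¹ := conj_pow
        rw [inv_inv, hx] at h5
        rw [h5]; group
      calc orderOf (g⁻¹ * x * g) ≤ 4 := orderOf_le_of_pow_eq_one (by norm_num) h4
        _ = 2 ^ 2 := by norm_num
        _ ≤ 2 ^ k := Nat.pow_le_pow_right (by norm_num) hk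
    have h4 := hR.conj_mem _ (h3 (mem_zpowers _)) g
    have h5 : g * (g⁻¹ * x * g) * g⁻¹ = x := by group
    rwa [h5] at h4
  -- the centraliser of `R`
  obtain ⟨C, hC⟩ : ∃ C, C = centralizer (R : Set G) := ⟨_, rfl⟩
  have hCmem : ∀ x, x ∈ C ↔ ∀ r ∈ R, x * r = r * x := by
    intro x
    rw [hC, mem_centralizer_iff]
    exact ⟨fun h r hr => (h r hr).symm, fun h r hr => (h r hr).symm⟩
  have hCn : C.Normal := by
    constructor
    intro x hx g
    rw [hCmem] at hx ⊢
    intro r hr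
    have h1 := hR.conj_mem r hr g⁻¹
    rw [inv_inv] at h1
    have h2 := hx _ h1
    calc g * x * g⁻¹ * r = g * (x * (g⁻¹ * r * g)) * g⁻¹ := by group
      _ = g * ((g⁻¹ * r * g) * x) * g⁻¹ := by rw [h2]
      _ = r * (g * x * g⁻¹) := by group
  obtain ⟨N, hN, hNc, e, hNe⟩ : PNilp 2 C := by
    apply ito
    intro x hx y
    apply Subtype.ext
    have h1 : (x : G) ^ 4 = 1 := congrArg Subtype.val hx
    exact (hCmem y).1 y.2 x (h4R x h1)
  have hNn : (N.map C.subtype).Normal := by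
    constructor
    rintro _ ⟨y, hy, rfl⟩ g
    have h1 : g * (y : G) * g⁻¹ ∈ C := hCn.conj_mem _ y.2 g
    refine ⟨⟨_, h1⟩, ?_, rfl⟩
    apply mem_of_index hNe
    have hyo : ¬ 2 ∣ orderOf y := by
      intro h
      apply hNc
      have h2 : orderOf (⟨y, hy⟩ : N) ∣ Nat.card N := orderOf_dvd_natCard _
      rw [← Subgroup.orderOf_coe] at h2
      exact h.trans h2
    rw [← Subgroup.orderOf_coe]
    have h2 : orderOf (MulAut.conj g (y : G)) = orderOf (y : G) :=
      orderOf_injective (MulAut.conj g).toMonoidHom (MulAut.conj g).injective _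
    have h3 : MulAut.conj g (y : G) = g * y * g⁻¹ := rfl
    rw [h3, Subgroup.orderOf_coe] at h2
    change ¬ 2 ∣ orderOf (g * (y : G) * g⁻¹)
    rw [h2]; exact hyo
  have hNbot := hO _ hNn (by
    rw [← Nat.card_congr (N.equivMapOfInjective _ C.subtype_injective).toEquiv,
      ← Nat.not_even_iff_odd, even_iff_two_dvd]
    exact hNc)
  rw [map_eq_bot_iff_of_injective _ C.subtype_injective] at hNbot
  rw [hNbot, index_bot] at hNe
  -- no odd prime divides the order of `G`
  have hpr : ∀ q : ℕ, q.Prime → q ∣ Nat.card G → q = 2 := by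
    intro q hq hqG
    by_contra hq2
    have hfq : Fact q.Prime := ⟨hq⟩
    obtain ⟨x, hx⟩ := exists_prime_orderOf_dvd_card' q hqG
    have h1 : x ∈ C := by
      rw [hCmem]
      refine hcen' q hq hq2 x 1 ?_
      rw [pow_one, ← hx]; exact pow_orderOf_eq_one x
    have h2 : q ∣ Nat.card C := by
      rw [← hx]; exact Subgroup.orderOf_dvd_natCard C h1
    rw [hNe] at h2
    exact hq2 ((Nat.prime_dvd_prime_iff_eq hq Nat.prime_two).1 (hq.dvd_of_dvd_pow h2))
  exact IsPGroup.of_card (Nat.eq_prime_pow_of_unique_prime_dvd (Nat.card_pos (α := G)).ne'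
    (fun {d} hd hdS => hpr d hd hdS))

theorem main (P : Sylow 2 G) (hnc : ¬ ∀ x ∈ P, ∀ y ∈ P, x * y = y * x) {k : ℕ}
    (hk : 2 ≤ k) (hkn : 2 ^ k < Nat.card (P : Subgroup G))
    (hprop : ∀ H : Subgroup G, H ≤ P → Nat.card H = 2 ^ k → PropE H) :
    ∃ N : Subgroup G, N.Normal ∧ Odd (Nat.card N) ∧ ∀ g : G, ∃ n ∈ N, ∃ p ∈ P, g = n * p := by
  have hf2 : Fact (Nat.Prime 2) := ⟨Nat.prime_two⟩
  obtain ⟨N, ⟨hN, hNo⟩, hNmax⟩ := exists_largest
    (fun N : Subgroup G => N.Normal ∧ Odd (Nat.card N)) ⟨⊥, inferInstance, by rw [card_bot]; exact odd_one⟩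
    (fun A B hA hB => ⟨by have := hA.1; have := hB.1; infer_instance, by
      have := hA.1
      have h1 := card_mul_relIndex (le_sup_left : A ≤ A ⊔ B)
      rw [relIndex_sup_left] at h1
      rw [← h1]
      apply hA.2.mul
      exact Odd.of_dvd_nat hB.2 ((A.subgroupOf B).index_dvd_card)⟩)
  refine ⟨N, hN, hNo, ?_⟩
  let π := QuotientGroup.mk' N
  have hπ : Function.Surjective π := QuotientGroup.mk'_surjective N
  -- `π` is injective on `P`
  have hinj : ∀ x ∈ (P : Subgroup G), π x = 1 → x = 1 := by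
    intro x hx h
    have hxN : x ∈ N := (QuotientGroup.eq_one_iff x).1 h
    obtain ⟨i, hi⟩ := P.2 ⟨x, hx⟩
    have h1 : x ^ Nat.card N = 1 := by
      have : (⟨x, hxN⟩ : N) ^ Nat.card N = 1 := pow_card_eq_one'
      exact congrArg Subtype.val this
    exact eq_one_of_odd hNo h1 (congrArg Subtype.val hi)
  have hcardmap : ∀ H : Subgroup G, H ≤ P → Nat.card (H.map π) = Nat.card H := by
    intro H hH
    refine (Nat.card_congr (Equiv.ofBijective (π.subgroupMap H) ⟨?_, π.subgroupMap_surjective H⟩)).symm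
    intro a b hab
    have h1 : π a = π b := congrArg Subtype.val hab
    have h2 : π ((a : G)⁻¹ * b) = 1 := by rw [map_mul, map_inv, h1, inv_mul_cancel]
    have h3 := hinj _ (mul_mem (inv_mem (hH a.2)) (hH b.2)) h2
    rw [inv_mul_eq_one] at h3
    exact Subtype.ext h3
  let P' : Sylow 2 (G ⧸ N) := P.mapSurjective hπ
  have hP' : (P' : Subgroup (G ⧸ N)) = (P : Subgroup G).map π := rfl
  have h2g : IsPGroup 2 (G ⧸ N) := by
    refine core P' ?_ hk ?_ ?_ ?_
    · intro h
      apply hnc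
      intro x hx y hy
      have h1 := h (π x) ⟨x, hx, rfl⟩ (π y) ⟨y, hy, rfl⟩
      have h2 : π ((x * y)⁻¹ * (y * x)) = 1 := by
        rw [map_mul, map_inv, map_mul, map_mul, h1, inv_mul_cancel]
      have h3 := hinj _ (mul_mem (inv_mem (mul_mem hx hy)) (mul_mem hy hx)) h2
      rw [inv_mul_eq_one] at h3
      exact h3
    · rw [hP', hcardmap _ le_rfl]
      exact hkn
    · intro H hH hc
      obtain ⟨H', hH'⟩ : ∃ H', H' = H.comap π ⊓ (P : Subgroup G) := ⟨_, rfl⟩
      have hmap : H'.map π = H := by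
        apply le_antisymm
        · rintro _ ⟨x, hx, rfl⟩
          rw [hH'] at hx
          exact hx.1
        · intro y hy
          obtain ⟨x, hx, rfl⟩ := hH hy
          refine ⟨x, ?_, rfl⟩
          rw [hH']
          exact ⟨hy, hx⟩
      have hle : H' ≤ (P : Subgroup G) := by rw [hH']; exact inf_le_right
      obtain ⟨B, hB1, hB2⟩ := hprop H' hle (by rw [← hc, ← hmap, hcardmap _ hle])
      refine ⟨B.map π, ?_, ?_⟩
      · intro g
        obtain ⟨g, rfl⟩ := hπ g
        obtain ⟨n, hn, b, hb, rfl⟩ := hB1 g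
        refine ⟨π n, ?_, π b, ⟨b, hb, rfl⟩, map_mul _ _ _⟩
        apply mem_norm_of
        rw [← hmap]
        rintro _ ⟨x, hx, rfl⟩
        exact ⟨n * x * n⁻¹, mem_norm hn hx, by rw [map_mul, map_mul, map_inv]⟩
      · intro X hX
        have h1 := (hB2 (X.comap π ⊓ B) inf_le_right).map π
        rw [hmap] at h1
        have h2 : (X.comap π ⊓ B).map π = X := by
          apply le_antisymm
          · rintro _ ⟨x, hx, rfl⟩
            exact hx.1
          · intro y hy
            obtain ⟨x, hx, rfl⟩ := hX hy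
            exact ⟨x, ⟨hy, hx⟩, rfl⟩
        rwa [h2] at h1
    · intro M hM hMo
      have h1 : (M.comap π).Normal := inferInstance
      have hNM : N ≤ M.comap π := by
        intro x hx
        rw [mem_comap]
        have : π x = 1 := (QuotientGroup.eq_one_iff x).2 hx
        rw [this]; exact one_mem _
      have h2 : Odd (Nat.card (M.comap π)) := by
        rw [← card_mul_relIndex hNM]
        apply hNo.mul
        have h3 := relIndex_map_map π (⊥ : Subgroup G) (M.comap π)
        rw [Subgroup.map_bot, relIndex_bot_left, bot_sup_eq, QuotientGroup.ker_mk',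
          sup_eq_left.2 hNM, map_comap_eq_self_of_surjective hπ] at h3
        rw [← h3]
        exact hMo
      have h3 := hNmax _ ⟨h1, h2⟩
      rw [eq_bot_iff]
      intro y hy
      obtain ⟨x, rfl⟩ := hπ y
      exact (QuotientGroup.eq_one_iff x).2 (h3 hy)
  apply mul_of_coprime_index
  obtain ⟨e, he⟩ := IsPGroup.iff_card.1 h2g
  have he' : N.index = 2 ^ e := he
  rw [he']
  exact ((Nat.Prime.coprime_iff_not_dvd Nat.prime_two).2 P.not_dvd_index).pow_left e

end Pool.Agent.T6.H25.PM
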