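import Mathlib
import Pool.Agent.Helper240.Amen.HB

set_option autoImplicit false

/-!
# Profinite completions, rational cores
-/

namespace Pool.Agent.T6.H25.PC

/-- the normal subgroups of finite index of `G` -/
def Ix (G : Type) [Group G] : Type := {N : Subgroup G // N.Normal ∧ N.FiniteIndex}

/-- the underlying subgroup -/
def sb {G : Type} [Group G] (N : Ix G) : Subgroup G := N.1

instance ns {G : Type} [Group G] (N : Ix G) : (sb N).Normal := N.2.1

/-- the finite quotient `G / N` -/
def Qt {G : Type} [Group G] (N : Ix G) : Type := G ⧸ sb N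

instance gq {G : Type} [Group G] (N : Ix G) : Group (Qt N) := QuotientGroup.Quotient.group (sb N)

/-- the map `G → G / N` -/
def mk {G : Type} [Group G] (N : Ix G) : G →* Qt N := QuotientGroup.mk' (sb N)

/-- the map `G / M → G / N`, for `M ≤ N` -/
def tr {G : Type} [Group G] (M N : Ix G) (h : sb M ≤ sb N) : Qt M →* Qt N :=
  QuotientGroup.map (sb M) (sb N) (MonoidHom.id G) (by simpa using h)

/-- the profinite completion of `G`: the compatible families of elements of the finite quotients
`G / N` -/
def CT (G : Type) [Group G] : Type :=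
  {x : (N : Ix G) → Qt N // ∀ (M N : Ix G) (h : sb M ≤ sb N), tr M N h (x M) = x N}

instance mc {G : Type} [Group G] : Mul (CT G) :=
  ⟨fun x y => ⟨fun N => x.1 N * y.1 N, fun M N h => by rw [map_mul, x.2, y.2]⟩⟩

instance oc {G : Type} [Group G] : One (CT G) :=
  ⟨⟨fun _ => 1, fun _ _ _ => by rw [map_one]⟩⟩

instance ic {G : Type} [Group G] : Inv (CT G) :=
  ⟨fun x => ⟨fun N => (x.1 N)⁻¹, fun M N h => by rw [map_inv, x.2]⟩⟩

instance gc {G : Type} [Group G] : Group (CT G) := Group.ofLeftAxioms
  (fun _ _ _ => Subtype.ext (funext fun _ => mul_assoc _ _ _))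
  (fun _ => Subtype.ext (funext fun _ => one_mul _))
  (fun _ => Subtype.ext (funext fun _ => inv_mul_cancel _))

/-- the topology of the profinite completion: the coarsest one for which the maps to the discrete
finite quotients `G / N` are continuous -/
instance tc {G : Type} [Group G] : TopologicalSpace (CT G) :=
  ⨅ N : Ix G, TopologicalSpace.induced (fun x : CT G => x.1 N) ⊥

/-- the canonical map of `G` to its profinite completion -/
def cn {G : Type} [Group G] : G →* CT G where
  toFun g := ⟨fun N => mk N g, fun _ _ _ => rfl⟩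
  map_one' := rfl
  map_mul' _ _ := rfl

/-- `D` has trivial rational core: `⋂_{k ∈ G} k D k⁻¹ = {1}` (`D` is the underlying set of a
subgroup of the profinite completion) -/
def TrivialCore {G : Type} [Group G] (D : Set (CT G)) : Prop :=
  ∀ x : CT G, (∀ k : G, cn k * x * (cn k)⁻¹ ∈ D) → x = 1

/-- torsion-free -/
def TF (G : Type) [Group G] : Prop := ∀ (g : G) (n : ℕ), 0 < n → g ^ n = 1 → g = 1

universe u

/-- The condition of Q1 on the profinite group `H`: there are a finitely generated, torsion-free
amenable group `G` and a topological isomorphism `φ` of `H` with a closed subgroup `D = φ(H)` of the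
profinite completion of `G` that has trivial rational core. -/
def Occurs (H : Type u) [Group H] [TopologicalSpace H] : Prop :=
  ∃ (G : Type) (_ : Group G), Group.FG G ∧ TF G ∧ Pool.Agent.Helper240.Amen.Amenable G ∧
    ∃ φ : H →* CT G, Topology.IsClosedEmbedding φ ∧ TrivialCore (Set.range φ)

theorem isOpen_pre {G : Type} [Group G] (N : Ix G) (s : Set (Qt N)) :
    IsOpen ((fun x : CT G => x.1 N) ⁻¹' s) := by
  have h1 : @IsOpen _ (TopologicalSpace.induced (fun x : CT G => x.1 N) ⊥)
      ((fun x : CT G => x.1 N) ⁻¹' s) := ⟨s, trivial, rfl⟩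
  exact (iInf_le (fun N : Ix G => TopologicalSpace.induced (fun x : CT G => x.1 N) ⊥) N) _ h1

theorem t2 (G : Type) [Group G] : T2Space (CT G) := by
  refine ⟨fun x y hxy => ?_⟩
  have hN : ∃ N, x.1 N ≠ y.1 N := by
    by_contra h
    push Not at h
    exact hxy (Subtype.ext (funext h))
  obtain ⟨N, hN⟩ := hN
  refine ⟨_, _, isOpen_pre N {x.1 N}, isOpen_pre N {y.1 N}, rfl, rfl, ?_⟩
  rw [Set.disjoint_left]
  intro z h1 h2
  exact hN ((show z.1 N = x.1 N from h1).symm.trans h2)

/-- continuity of a map to the completion -/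
theorem continuous_of {G : Type} [Group G] {H : Type u} [TopologicalSpace H] (φ : H → CT G)
    (h : ∀ (N : Ix G) (s : Set (Qt N)), IsOpen {x | (φ x).1 N ∈ s}) : Continuous φ := by
  refine continuous_iInf_rng.2 fun N => ?_
  let _ : TopologicalSpace (Qt N) := ⊥
  refine continuous_induced_rng.2 ?_
  exact ⟨fun s _ => h N s⟩

end Pool.Agent.T6.H25.PC
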