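import Mathlib
import Pool.Agent.T6.H25.PCDef

set_option autoImplicit false

/-!
# `F / [R, R]` is torsion-free
-/

namespace Pool.Agent.T6.H25.PC

open scoped commutatorElement

/-- the abelianization of a free group is torsion-free -/
theorem freeGroup_comm (α : Type) (g : FreeGroup α) (n : ℕ) (hn : 0 < n)
    (h : g ^ n ∈ commutator (FreeGroup α)) : g ∈ commutator (FreeGroup α) := by
  have h1 : (Abelianization.of (g ^ n) : Abelianization (FreeGroup α)) = 1 := by
    rw [← MonoidHom.mem_ker, Abelianization.ker_of]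
    exact h
  rw [map_pow] at h1
  obtain ⟨w, hw⟩ : ∃ w : FreeAbelianGroup α, w = Additive.ofMul (Abelianization.of g) := ⟨_, rfl⟩
  have h2 : n • w = 0 := by
    rw [hw]
    exact congrArg Additive.ofMul h1
  have h3 : n • (FreeAbelianGroup.equivFinsupp α w) = 0 := by
    rw [← map_nsmul, h2, map_zero]
  have h4 : (FreeAbelianGroup.equivFinsupp α w) = 0 := by
    ext a
    have := DFunLike.congr_fun h3 a
    simpa [hn.ne'] using this
  have h5 : w = 0 := (FreeAbelianGroup.equivFinsupp α).injective (h4.trans (map_zero _).symm)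
  have h6 : (Abelianization.of g : Abelianization (FreeGroup α)) = 1 := by
    rw [hw] at h5
    exact h5
  rw [← MonoidHom.mem_ker, Abelianization.ker_of] at h6
  exact h6

theorem isFree_comm {G : Type} [Group G] [IsFreeGroup G] (g : G) (n : ℕ) (hn : 0 < n)
    (h : g ^ n ∈ commutator G) : g ∈ commutator G := by
  let e : FreeGroup (IsFreeGroup.Generators G) ≃* G := IsFreeGroup.mulEquiv G
  have h1 : commutator G = (commutator (FreeGroup (IsFreeGroup.Generators G))).map e.toMonoidHom := by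
    rw [commutator_def, commutator_def, Subgroup.map_commutator,
      Subgroup.map_top_of_surjective _ e.surjective]
  rw [h1] at h ⊢
  obtain ⟨a, ha, hb⟩ := h
  have h2 : a = (e.symm g) ^ n := by
    apply e.injective
    rw [map_pow, e.apply_symm_apply]
    exact hb
  refine ⟨e.symm g, freeGroup_comm _ _ n hn (h2 ▸ ha), ?_⟩
  exact e.apply_symm_apply g

theorem sub_comm {F : Type} [Group F] [IsFreeGroup F] (S : Subgroup F) (g : F) (hg : g ∈ S) (n : ℕ)
    (hn : 0 < n) (h : g ^ n ∈ ⁅S, S⁆) : g ∈ ⁅S, S⁆ := by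
  have h1 : ⁅S, S⁆ = (commutator S).map S.subtype := by
    rw [commutator_def, Subgroup.map_commutator, ← MonoidHom.range_eq_map, Subgroup.range_subtype]
  rw [h1] at h ⊢
  obtain ⟨a, ha, hb⟩ := h
  have h2 : a = (⟨g, hg⟩ : S) ^ n := Subtype.ext hb
  have : IsFreeGroup S := subgroupIsFreeOfIsFree S
  exact ⟨⟨g, hg⟩, isFree_comm _ n hn (h2 ▸ ha), rfl⟩

theorem mod_comm {F : Type} [Group F] [IsFreeGroup F] (R : Subgroup F) [R.Normal] (g : F) (n : ℕ)
    (hn : 0 < n) (h : g ^ n ∈ ⁅R, R⁆) : g ∈ ⁅R, R⁆ := by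
  let S : Subgroup F := R ⊔ Subgroup.zpowers g
  have h1 : ⁅S, S⁆ ≤ R := by
    let q : F →* F ⧸ R := QuotientGroup.mk' R
    have h2 : ∀ s ∈ S, ∃ k : ℤ, q s = q g ^ k := by
      intro s hs
      obtain ⟨r, hr, z, hz, rfl⟩ := Subgroup.mem_sup_of_normal_left.1 hs
      obtain ⟨k, rfl⟩ := Subgroup.mem_zpowers_iff.1 hz
      refine ⟨k, ?_⟩
      rw [map_mul, map_zpow]
      have : q r = 1 := (QuotientGroup.eq_one_iff r).2 hr
      rw [this, one_mul]
    rw [Subgroup.commutator_le]
    intro a ha b hb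
    obtain ⟨k, hk⟩ := h2 a ha
    obtain ⟨l, hl⟩ := h2 b hb
    rw [← QuotientGroup.eq_one_iff]
    change q ⁅a, b⁆ = 1
    rw [map_commutatorElement, hk, hl, commutatorElement_eq_one_iff_mul_comm]
    exact ((Commute.refl (q g)).zpow_zpow k l).eq
  have h3 : g ∈ ⁅S, S⁆ := by
    refine sub_comm S g (Subgroup.mem_sup_right (Subgroup.mem_zpowers g)) n hn ?_
    exact Subgroup.commutator_mono le_sup_left le_sup_left h
  exact sub_comm R g (h1 h3) n hn h

/-- every finitely generated group is the quotient of a finitely generated torsion-free group by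
a commutative normal subgroup -/
theorem exists_cover (Γ : Type) [Group Γ] (hfg : Group.FG Γ) :
    ∃ (E : Type) (_ : Group E) (γ : E →* Γ), Group.FG E ∧ TF E ∧ Function.Surjective γ ∧
      ∀ a b, γ a = 1 → γ b = 1 → a * b = b * a := by
  obtain ⟨α, _, π, hπ⟩ := Group.fg_iff_exists_freeGroup_hom_surjective_finite.1 hfg
  let R : Subgroup (FreeGroup α) := π.ker
  let N : Subgroup (FreeGroup α) := ⁅R, R⁆
  have hN : N ≤ π.ker := Subgroup.commutator_le_left R R
  refine ⟨FreeGroup α ⧸ N, inferInstance, QuotientGroup.lift N π hN, ?_, ?_, ?_, ?_⟩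
  · have : Group.FG (FreeGroup α) := inferInstance
    exact Group.fg_of_surjective (QuotientGroup.mk'_surjective N)
  · intro g n hn hg
    obtain ⟨x, rfl⟩ := QuotientGroup.mk_surjective g
    rw [← QuotientGroup.mk_pow, QuotientGroup.eq_one_iff] at hg
    rw [QuotientGroup.eq_one_iff]
    exact mod_comm R x n hn hg
  · intro y
    obtain ⟨x, rfl⟩ := hπ y
    exact ⟨QuotientGroup.mk x, rfl⟩
  · intro a b ha hb
    obtain ⟨x, rfl⟩ := QuotientGroup.mk_surjective a
    obtain ⟨y, rfl⟩ := QuotientGroup.mk_surjective b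
    rw [← QuotientGroup.mk_mul, ← QuotientGroup.mk_mul, QuotientGroup.eq]
    have hx : x ∈ R := ha
    have hy : y ∈ R := hb
    have h1 : (x * y)⁻¹ * (y * x) = ⁅y⁻¹, x⁻¹⁆ := by
      rw [commutatorElement_def]; group
    rw [h1]
    exact Subgroup.commutator_mem_commutator (R.inv_mem hy) (R.inv_mem hx)

end Pool.Agent.T6.H25.PC
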