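import Mathlib
import Pool.Agent.Helper240.Amen.HB

set_option autoImplicit false

/-!
# Closure properties of the invariant Hahn-Banach property
-/

namespace Pool.Agent.T6.H25.PC

open Pool.Agent.Helper240.Amen
open Filter Topology

theorem InvHB.of_surj {G Q : Type} [Group G] [Group Q] (f : G →* Q) (hf : Function.Surjective f)
    (h : InvHB G) : InvHB Q := by
  intro E _ _ π p h1 h2 h3
  obtain ⟨m, hm1, hm2⟩ := h E (π.comp f) p h1 h2 (fun g x => h3 (f g) x)
  refine ⟨m, hm1, fun q x => ?_⟩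
  obtain ⟨g, rfl⟩ := hf q
  exact hm2 g x

theorem InvHB.ext' {G : Type} [Group G] (N : Subgroup G) [N.Normal] (hN : InvHB N)
    (hQ : InvHB (G ⧸ N)) : InvHB G := by
  intro E _ _ π p h1 h2 hp
  have hne : (MM π p N).Nonempty := by
    obtain ⟨m, hm1, hm2⟩ := hN E (π.comp N.subtype) p h1 h2 (fun g x => hp g x)
    exact ⟨m, hm1, fun n hn x => hm2 ⟨n, hn⟩ x⟩
  set K := KK π p N with hK
  let ρ : G →* Module.End ℝ (E ⧸ K) :=
    { toFun := fun g => K.mapQ K (π g) (fun x hx => KK_inv π p N hp g hx)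
      map_one' := by
        apply LinearMap.ext
        intro v
        obtain ⟨x, rfl⟩ := K.mkQ_surjective v
        simp
      map_mul' := by
        intro g h
        apply LinearMap.ext
        intro v
        obtain ⟨x, rfl⟩ := K.mkQ_surjective v
        simp }
  have hρ : ∀ g x, ρ g (K.mkQ x) = K.mkQ (π g x) := fun g x => rfl
  have hker : ∀ n ∈ N, ρ n = 1 := by
    intro n hn
    apply LinearMap.ext
    intro v
    obtain ⟨x, rfl⟩ := K.mkQ_surjective v
    rw [hρ]
    change K.mkQ (π n x) = K.mkQ x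
    rw [← sub_eq_zero, ← map_sub, Submodule.mkQ_apply, Submodule.Quotient.mk_eq_zero]
    intro m hm
    rw [map_sub, hm.2 n hn x, sub_self]
  let ρ' : G ⧸ N →* Module.End ℝ (E ⧸ K) := QuotientGroup.lift N ρ hker
  let p' : E ⧸ K → ℝ := fun v => qq π p N v.out
  have hp' : ∀ x, p' (K.mkQ x) = qq π p N x := by
    intro x
    refine qq_congr π p N hne ?_
    rw [← hK, ← Submodule.Quotient.mk_eq_zero, Submodule.Quotient.mk_sub, sub_eq_zero]
    exact Quotient.out_eq _
  obtain ⟨m, hm1, hm2⟩ := hQ (E ⧸ K) ρ' p' (by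
      intro c hc v
      obtain ⟨x, rfl⟩ := K.mkQ_surjective v
      rw [← map_smul, hp', hp', qq_smul π p N hne c hc]) (by
      intro v w
      obtain ⟨x, rfl⟩ := K.mkQ_surjective v
      obtain ⟨y, rfl⟩ := K.mkQ_surjective w
      rw [← map_add, hp', hp', hp']
      exact qq_add π p N hne x y) (by
      intro q v
      obtain ⟨g, rfl⟩ := QuotientGroup.mk_surjective q
      obtain ⟨x, rfl⟩ := K.mkQ_surjective v
      change p' (ρ g (K.mkQ x)) ≤ _
      rw [hρ, hp', hp']
      exact qq_inv π p N hne hp g x)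
  refine ⟨m.comp K.mkQ, fun x => ?_, fun g x => ?_⟩
  · refine (hm1 _).trans ?_
    rw [hp']
    exact qq_le π p N hne (fun m hm => hm.1 x)
  · exact hm2 (QuotientGroup.mk g) (K.mkQ x)

theorem InvHB.ext {G Q : Type} [Group G] [Group Q] (f : G →* Q) (h1 : InvHB f.ker)
    (h2 : InvHB f.range) : InvHB G := by
  refine InvHB.ext' f.ker h1 ?_
  exact InvHB.of_surj (QuotientGroup.quotientKerEquivRange f).symm.toMonoidHom
    (QuotientGroup.quotientKerEquivRange f).symm.surjective h2

theorem InvHB.of_finite {G : Type} [Group G] [Finite G] : InvHB G := by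
  intro E _ _ π p h1 h2 hp
  obtain ⟨m, hm⟩ := exists_le p h1 h2
  have := Fintype.ofFinite G
  have hc : (0 : ℝ) < Fintype.card G := by exact_mod_cast Fintype.card_pos
  refine ⟨(Fintype.card G : ℝ)⁻¹ • ∑ g : G, m.comp (π g), fun x => ?_, fun h x => ?_⟩
  · rw [LinearMap.smul_apply, LinearMap.sum_apply, smul_eq_mul, inv_mul_le_iff₀ hc]
    calc ∑ g : G, (m.comp (π g)) x ≤ ∑ _g : G, p x := Finset.sum_le_sum fun g _ =>
          (hm _).trans (hp g x)
      _ = Fintype.card G * p x := by rw [Finset.sum_const, Finset.card_univ, nsmul_eq_mul]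
  · rw [LinearMap.smul_apply, LinearMap.smul_apply, LinearMap.sum_apply, LinearMap.sum_apply]
    congr 1
    refine Fintype.sum_equiv (Equiv.mulRight h) _ _ fun g => ?_
    change m (π g (π h x)) = m (π (g * h) x)
    rw [map_mul]; rfl

theorem InvHB.of_union {G : Type} [Group G] (S : ℕ → Subgroup G) (hS : Monotone S)
    (h : ∀ n, InvHB (S n)) (hU : ∀ g, ∃ n, g ∈ S n) : InvHB G := by
  intro E _ _ π p h1 h2 hp
  have h3 : ∀ n, ∃ m : E →ₗ[ℝ] ℝ, (∀ x, m x ≤ p x) ∧ ∀ g ∈ S n, ∀ x, m (π g x) = m x := by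
    intro n
    obtain ⟨m, hm1, hm2⟩ := h n E (π.comp (S n).subtype) p h1 h2 (fun g x => hp g x)
    exact ⟨m, hm1, fun g hg x => hm2 ⟨g, hg⟩ x⟩
  choose m hm1 hm2 using h3
  have hlim : ∀ x, ∃ l : ℝ, Tendsto (fun n => m n x) (hyperfilter ℕ : Filter ℕ) (𝓝 l) := by
    intro x
    have hc : IsCompact (Set.Icc (-p (-x)) (p x)) := isCompact_Icc
    have hmem : ∀ n, m n x ∈ Set.Icc (-p (-x)) (p x) := by
      intro n
      refine ⟨?_, hm1 n x⟩
      have := hm1 n (-x)
      rw [map_neg] at this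
      linarith
    obtain ⟨l, _, hl⟩ := hc.ultrafilter_le_nhds ((hyperfilter ℕ).map (fun n => m n x)) (by
      rw [le_principal_iff]
      exact (Filter.Eventually.of_forall hmem :
        ∀ᶠ n in (hyperfilter ℕ : Filter ℕ), m n x ∈ Set.Icc (-p (-x)) (p x)))
    exact ⟨l, hl⟩
  choose L hL using hlim
  refine ⟨{ toFun := L, map_add' := ?_, map_smul' := ?_ }, fun x => ?_, fun g x => ?_⟩
  · intro x y
    refine tendsto_nhds_unique (hL (x + y)) ?_
    have := (hL x).add (hL y)
    refine this.congr fun n => ?_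
    rw [map_add]
  · intro c x
    refine tendsto_nhds_unique (hL (c • x)) ?_
    have := (hL x).const_mul c
    refine this.congr fun n => ?_
    rw [map_smul, smul_eq_mul]
  · exact le_of_tendsto (hL x) (Eventually.of_forall fun n => hm1 n x)
  · obtain ⟨k, hk⟩ := hU g
    change L (π g x) = L x
    refine tendsto_nhds_unique (hL (π g x)) ((hL x).congr' ?_)
    have h4 : ∀ᶠ n in atTop, k ≤ n := eventually_ge_atTop k
    have h5 : ∀ᶠ n in (hyperfilter ℕ : Filter ℕ), k ≤ n := by
      apply Nat.hyperfilter_le_atTop h4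
    filter_upwards [h5] with n hn
    exact (hm2 n g (hS hn hk) x).symm

theorem InvHB.step' {G A : Type} [Group G] [Group A] (f : G →* A)
    (hc : ∀ a b, f a * f b = f b * f a) (h : InvHB f.ker) : InvHB G := by
  refine InvHB.step f.ker ?_ h
  intro a b
  rw [MonoidHom.mem_ker, map_mul, map_mul, map_mul, map_inv, map_inv, hc a b]
  group

theorem InvHB.of_comm {G : Type} [Group G] (hc : ∀ a b : G, a * b = b * a) : InvHB G := by
  refine InvHB.step' (MonoidHom.id G) hc ?_
  apply InvHB.of_trivial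
  rintro ⟨g, hg⟩
  exact Subtype.ext hg

end Pool.Agent.T6.H25.PC
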