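import Mathlib
import Pool.Agent.T6.H25.PCDef
import Pool.Agent.T6.H25.PCAmen

set_option autoImplicit false

/-!
# A twisted product `X × Hom(X, M) × E`
-/

namespace Pool.Agent.T6.H25.PC

/-- the data: `M` is a commutative normal subgroup of `E` (via `ι`) that acts trivially on `X` -/
class TwD (E M X : Type) [Group E] [CommGroup M] [CommGroup X] [MulDistribMulAction E M]
    [MulDistribMulAction E X] where
  ι : M →* E
  hι : ∀ (e : E) (m : M), ι (e • m) = e * ι m * e⁻¹
  hM : ∀ (m m' : M), ι m • m' = m'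
  hX : ∀ (m : M) (x : X), ι m • x = x

/-- the group of triples -/
@[ext]
structure Tw (E M X : Type) [Group E] [CommGroup M] [CommGroup X] where
  x : X
  y : X →* M
  e : E

namespace Tw

variable {E M X : Type} [Group E] [CommGroup M] [CommGroup X] [MulDistribMulAction E M]
    [MulDistribMulAction E X] [TwD E M X]

/-- the action on `Hom(X, M)` -/
def act (e : E) (y : X →* M) : X →* M where
  toFun x := e • y (e⁻¹ • x)
  map_one' := by rw [smul_one, map_one, smul_one]
  map_mul' a b := by rw [smul_mul', map_mul, smul_mul']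

omit [TwD E M X] in
theorem act_apply (e : E) (y : X →* M) (x : X) : act e y x = e • y (e⁻¹ • x) := rfl

omit [TwD E M X] in
@[simp] theorem act_one (y : X →* M) : act (1 : E) y = y := by
  ext x; simp [act_apply]

omit [TwD E M X] in
@[simp] theorem act_map_one (e : E) : act e (1 : X →* M) = 1 := by
  ext x; simp [act_apply]

omit [TwD E M X] in
theorem act_mul (e e' : E) (y : X →* M) : act (e * e') y = act e (act e' y) := by
  ext x; simp [act_apply, mul_smul]

omit [TwD E M X] in
theorem act_map_mul (e : E) (y y' : X →* M) : act e (y * y') = act e y * act e y' := by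
  ext x; simp [act_apply, smul_mul']

omit [TwD E M X] in
theorem act_map_pow (e : E) (y : X →* M) (n : ℕ) : act e (y ^ n) = (act e y) ^ n := by
  induction n with
  | zero => simp
  | succ n ih => rw [pow_succ, act_map_mul, ih, pow_succ]

omit [TwD E M X] in
theorem act_map_inv (e : E) (y : X →* M) : act e (y⁻¹) = (act e y)⁻¹ := by
  rw [eq_inv_iff_mul_eq_one, ← act_map_mul, inv_mul_cancel, act_map_one]

variable (X) in
theorem hM' (m m' : M) : (TwD.ι (X := X) m : E) • m' = m' := TwD.hM (X := X) m m'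

theorem act_ι (m : M) (y : X →* M) : act (TwD.ι (X := X) m : E) y = y := by
  ext x
  rw [act_apply, ← map_inv, TwD.hX, hM']

instance : Mul (Tw E M X) :=
  ⟨fun a b => ⟨a.x * a.e • b.x, a.y * act a.e b.y, TwD.ι (X := X) (a.y (a.e • b.x)) * a.e * b.e⟩⟩

instance : One (Tw E M X) := ⟨⟨1, 1, 1⟩⟩

instance : Inv (Tw E M X) :=
  ⟨fun a => ⟨(a.e⁻¹ • a.x)⁻¹, (act a.e⁻¹ a.y)⁻¹, TwD.ι (X := X) (a.e⁻¹ • a.y a.x) * a.e⁻¹⟩⟩

theorem mul_x (a b : Tw E M X) : (a * b).x = a.x * a.e • b.x := rfl
theorem mul_y (a b : Tw E M X) : (a * b).y = a.y * act a.e b.y := rfl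
theorem mul_e (a b : Tw E M X) :
    (a * b).e = TwD.ι (X := X) (a.y (a.e • b.x)) * a.e * b.e := rfl
omit [MulDistribMulAction E M] [MulDistribMulAction E X] [TwD E M X] in
@[simp] theorem one_x : (1 : Tw E M X).x = 1 := rfl
omit [MulDistribMulAction E M] [MulDistribMulAction E X] [TwD E M X] in
@[simp] theorem one_y : (1 : Tw E M X).y = 1 := rfl
omit [MulDistribMulAction E M] [MulDistribMulAction E X] [TwD E M X] in
@[simp] theorem one_e : (1 : Tw E M X).e = 1 := rfl
theorem inv_x (a : Tw E M X) : (a⁻¹).x = (a.e⁻¹ • a.x)⁻¹ := rfl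
theorem inv_y (a : Tw E M X) : (a⁻¹).y = (act a.e⁻¹ a.y)⁻¹ := rfl
theorem inv_e (a : Tw E M X) : (a⁻¹).e = TwD.ι (X := X) (a.e⁻¹ • a.y a.x) * a.e⁻¹ := rfl

theorem ι_comm (m m' : M) : (TwD.ι (X := X) m : E) * TwD.ι (X := X) m' =
    TwD.ι (X := X) m' * TwD.ι (X := X) m := by
  rw [← map_mul, mul_comm, map_mul]

instance : Group (Tw E M X) := Group.ofLeftAxioms
  (by
    intro a b c
    have h1 : ∀ z : X, (TwD.ι (X := X) (a.y (a.e • b.x)) * a.e * b.e : E) • z = a.e • b.e • z := by
      intro z
      rw [mul_smul, mul_smul, TwD.hX]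
    ext1
    · rw [mul_x, mul_x, mul_x, mul_x, mul_e, h1, smul_mul', mul_assoc]
    · rw [mul_y, mul_y, mul_y, mul_y, mul_e, act_mul, act_mul, act_ι, act_map_mul, mul_assoc]
    · rw [mul_e, mul_e, mul_e, mul_e, mul_y, mul_x, h1, MonoidHom.mul_apply, act_apply,
        smul_mul', map_mul, map_mul, inv_smul_smul, TwD.hι, map_mul]
      have hpq := ι_comm (E := E) (X := X) (a.y (a.e • b.e • c.x)) (a.y (a.e • b.x))
      have hrp := ι_comm (E := E) (X := X) (a.e • b.y (b.e • c.x)) (a.y (a.e • b.x))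
      rw [TwD.hι] at hrp
      revert hpq hrp
      generalize (TwD.ι (X := X) (a.y (a.e • b.x)) : E) = p
      generalize (TwD.ι (X := X) (a.y (a.e • b.e • c.x)) : E) = q
      generalize (TwD.ι (X := X) (b.y (b.e • c.x)) : E) = r
      generalize a.e = u
      generalize b.e = v
      generalize c.e = w
      intro hpq hrp
      calc q * (u * r * u⁻¹) * (p * u * v) * w = q * ((u * r * u⁻¹) * p) * u * v * w := by group
        _ = (q * p) * (u * r * u⁻¹) * u * v * w := by rw [hrp]; group
        _ = p * q * u * (r * v * w) := by rw [hpq]; group)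
  (by
    intro a
    ext1
    · rw [mul_x, one_x, one_e, one_smul, one_mul]
    · rw [mul_y, one_y, one_e, act_one, one_mul]
    · rw [mul_e, one_y, one_e, MonoidHom.one_apply, map_one, one_mul, one_mul])
  (by
    intro a
    ext1
    · rw [mul_x, inv_x, inv_e, mul_smul, TwD.hX, inv_mul_cancel, one_x]
    · rw [mul_y, inv_y, inv_e, act_mul, act_ι, inv_mul_cancel, one_y]
    · rw [mul_e, inv_y, inv_e, mul_smul, TwD.hX, MonoidHom.inv_apply, act_apply, inv_inv,
        smul_inv_smul, map_inv, one_e]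
      group)

variable (M X) in
/-- the embedding of `E` -/
def j : E →* Tw E M X where
  toFun e := ⟨1, 1, e⟩
  map_one' := rfl
  map_mul' a b := by
    ext1
    · rw [mul_x]; simp
    · rw [mul_y]; simp
    · rw [mul_e]; simp

theorem conj_j (e : E) (x : X) : j M X e * ⟨x, 1, 1⟩ * (j M X e)⁻¹ = ⟨e • x, 1, 1⟩ := by
  rw [mul_inv_eq_iff_eq_mul]
  ext1
  · simp [mul_x, j]
  · simp [mul_y, j]
  · simp [mul_e, j]

theorem comm_xy (x : X) (y : X →* M) :
    (⟨1, y, 1⟩ : Tw E M X) * ⟨x, 1, 1⟩ =
      j M X (TwD.ι (X := X) (y x)) * (⟨x, 1, 1⟩ * ⟨1, y, 1⟩) := by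
  ext1
  · simp [mul_x, j, TwD.hX]
  · simp [mul_y, j, act_ι]
  · simp [mul_e, j]

/-- the projection -/
def pr {Q : Type} [Group Q] (f : E →* Q) (hf : ∀ m : M, f (TwD.ι (X := X) m) = 1) :
    Tw E M X →* Q where
  toFun a := f a.e
  map_one' := map_one f
  map_mul' a b := by rw [mul_e, map_mul, map_mul, hf, one_mul]

theorem pr_j {Q : Type} [Group Q] (f : E →* Q) (hf : ∀ m : M, f (TwD.ι (X := X) m) = 1) (e : E) :
    pr f hf (j M X e) = f e := rfl

/-- the kernel of a projection is amenable -/
theorem amen_ker {K : Type} [Group K] (f : K →* Tw E M X) (hf : Function.Injective f)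
    (h : ∀ k, ∃ m : M, (f k).e = TwD.ι (X := X) m) : Pool.Agent.Helper240.Amen.InvHB K := by
  have hx : ∀ k (z : X), (f k).e • z = z := by
    intro k z
    obtain ⟨m, hm⟩ := h k
    rw [hm, TwD.hX]
  have hy : ∀ k (z : X →* M), act (f k).e z = z := by
    intro k z
    obtain ⟨m, hm⟩ := h k
    rw [hm, act_ι]
  let g : K →* X × (X →* M) :=
    { toFun := fun k => ((f k).x, (f k).y)
      map_one' := by rw [map_one]; rfl
      map_mul' := by
        intro a b
        rw [map_mul, mul_x, mul_y, hx, hy]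
        rfl }
  refine InvHB.step' g (fun a b => mul_comm _ _) ?_
  refine InvHB.of_comm ?_
  rintro ⟨a, ha⟩ ⟨b, hb⟩
  apply Subtype.ext
  apply hf
  change f (a * b) = f (b * a)
  have ha' := Prod.ext_iff.1 (MonoidHom.mem_ker.1 ha)
  have hb' := Prod.ext_iff.1 (MonoidHom.mem_ker.1 hb)
  have hax : (f a).x = 1 := ha'.1
  have hay : (f a).y = 1 := ha'.2
  have hbx : (f b).x = 1 := hb'.1
  have hby : (f b).y = 1 := hb'.2
  obtain ⟨m, hm⟩ := h a
  obtain ⟨m', hm'⟩ := h b
  rw [map_mul, map_mul]
  ext1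
  · rw [mul_x, mul_x, hax, hbx]; simp
  · rw [mul_y, mul_y, hay, hby]; simp
  · rw [mul_e, mul_e, hay, hby, hm, hm']
    simpa using ι_comm m m'

/-- elements `y` fixed by a subgroup -/
theorem pow_eq_one (n : ℕ) (hn : 0 < n) (hM : TF M) (hE : TF E) (a : Tw E M X)
    (hy : act a.e a.y = a.y) (h : a ^ n = 1) (hx : ∀ x : X, x ^ n = 1 → x = 1) : a = 1 := by
  have h1 : ∀ k, (a ^ k).y = a.y ^ k := by
    intro k
    induction k with
    | zero => rw [pow_zero, pow_zero]; rfl
    | succ k ih =>
      rw [pow_succ', mul_y, ih, act_map_pow, hy, pow_succ']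
  have h2 : a.y = 1 := by
    have h3 : a.y ^ n = 1 := by rw [← h1, h]; rfl
    ext x
    apply hM _ n hn
    have := DFunLike.congr_fun h3 x
    rwa [MonoidHom.pow_apply] at this
  have h4 : ∀ k, (a ^ k).e = a.e ^ k := by
    intro k
    induction k with
    | zero => rw [pow_zero, pow_zero]; rfl
    | succ k ih =>
      rw [pow_succ', mul_e, ih, h2, pow_succ']
      simp
  have h5 : a.e = 1 := by
    apply hE _ n hn
    rw [← h4, h]; rfl
  have h6 : ∀ k, (a ^ k).x = a.x ^ k := by
    intro k
    induction k with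
    | zero => rw [pow_zero, pow_zero]; rfl
    | succ k ih =>
      rw [pow_succ', mul_x, ih, h5, pow_succ', one_smul]
  have h7 : a.x = 1 := by
    apply hx
    rw [← h6, h]; rfl
  ext1
  · exact h7
  · exact h2
  · exact h5

/-- the elements whose `y` is fixed by `K` -/
def invY (K : Subgroup E) [K.Normal] : Subgroup (Tw E M X) where
  carrier := {a | ∀ k ∈ K, act k a.y = a.y}
  one_mem' := by
    intro k _
    rw [one_y, act_map_one]
  mul_mem' := by
    intro a b ha hb k hk
    have h1 : act k (act a.e b.y) = act a.e b.y := by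
      rw [← act_mul, show k * a.e = a.e * (a.e⁻¹ * k * a.e) by group, act_mul,
        hb _ (by simpa using (inferInstance : K.Normal).conj_mem k hk a.e⁻¹)]
    rw [mul_y, act_map_mul, ha k hk, h1]
  inv_mem' := by
    intro a ha k hk
    rw [inv_y, act_map_inv, ← act_mul, show k * a.e⁻¹ = a.e⁻¹ * (a.e * k * a.e⁻¹) by group,
      act_mul, ha _ ((inferInstance : K.Normal).conj_mem k hk a.e)]

end Tw

section concrete

variable {E Γ : Type} [Group E] [Group Γ] (γ : E →* Γ) (ε : Γ →* Multiplicative ℤ)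

/-- the functions `ℤ → M` -/
def XX {E Γ : Type} [Group E] [Group Γ] (γ : E →* Γ) : Type := ℤ → γ.ker

/-- commutativity of the kernel -/
@[reducible] def commKer (hc : ∀ a b, γ a = 1 → γ b = 1 → a * b = b * a) : CommGroup γ.ker :=
  { (inferInstance : Group γ.ker) with
    mul_comm := fun a b => Subtype.ext (hc a b a.2 b.2) }

/-- the conjugation action -/
@[reducible] def actKer (hc : ∀ a b, γ a = 1 → γ b = 1 → a * b = b * a) :
    letI := commKer γ hc
    MulDistribMulAction E γ.ker :=
  letI := commKer γ hc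
  { smul := fun e m => ⟨e * m.1 * e⁻¹, by
      rw [MonoidHom.mem_ker, map_mul, map_mul, map_inv, MonoidHom.mem_ker.1 m.2]; simp⟩
    one_smul := fun m => Subtype.ext (by change 1 * m.1 * 1⁻¹ = m.1; simp)
    mul_smul := fun a b m => Subtype.ext (by
      change (a * b) * m.1 * (a * b)⁻¹ = a * (b * m.1 * b⁻¹) * a⁻¹; group)
    smul_one := fun a => Subtype.ext (by change a * 1 * a⁻¹ = 1; simp)
    smul_mul := fun a m m' => Subtype.ext (by
      change a * (m.1 * m'.1) * a⁻¹ = (a * m.1 * a⁻¹) * (a * m'.1 * a⁻¹); group) }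

/-- the group `X` -/
@[reducible] def commXX (hc : ∀ a b, γ a = 1 → γ b = 1 → a * b = b * a) : CommGroup (XX γ) :=
  letI := commKer γ hc
  (inferInstance : CommGroup (ℤ → γ.ker))

/-- the action on `X` -/
@[reducible] def actXX (hc : ∀ a b, γ a = 1 → γ b = 1 → a * b = b * a) :
    letI := commXX γ hc
    MulDistribMulAction E (XX γ) :=
  letI := commKer γ hc
  letI := actKer γ hc
  letI := commXX γ hc
  { smul := fun e f i => e • f (i - Multiplicative.toAdd (ε (γ e)))
    one_smul := fun f => funext fun i => by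
      change (1 : E) • f (i - Multiplicative.toAdd (ε (γ 1))) = f i
      rw [one_smul, map_one, map_one]
      simp
    mul_smul := fun a b f => funext fun i => by
      change (a * b) • f (i - Multiplicative.toAdd (ε (γ (a * b)))) =
        a • b • f (i - Multiplicative.toAdd (ε (γ a)) - Multiplicative.toAdd (ε (γ b)))
      rw [mul_smul, map_mul, map_mul, toAdd_mul, sub_add_eq_sub_sub]
    smul_one := fun a => funext fun i => by
      change a • (1 : γ.ker) = 1
      rw [smul_one]
    smul_mul := fun a f f' => funext fun i => by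
      change a • (f _ * f' _) = (a • f _) * (a • f' _)
      rw [smul_mul'] }

/-- the data -/
@[reducible] def twd (hc : ∀ a b, γ a = 1 → γ b = 1 → a * b = b * a) :
    letI := commKer γ hc
    letI := actKer γ hc
    letI := commXX γ hc
    letI := actXX γ ε hc
    TwD E γ.ker (XX γ) :=
  letI := commKer γ hc
  letI := actKer γ hc
  letI := commXX γ hc
  letI := actXX γ ε hc
  { ι := γ.ker.subtype
    hι := fun e m => rfl
    hM := fun m m' => Subtype.ext (by
      change m.1 * m'.1 * m.1⁻¹ = m'.1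
      rw [hc m.1 m'.1 m.2 m'.2, mul_inv_cancel_right])
    hX := fun m x => funext fun i => Subtype.ext (by
      change m.1 * (x (i - Multiplicative.toAdd (ε (γ m)))).1 * m.1⁻¹ = (x i).1
      rw [hc m.1 _ m.2 (x _).2, mul_inv_cancel_right, MonoidHom.mem_ker.1 m.2, map_one]
      simp) }

end concrete

end Pool.Agent.T6.H25.PC
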