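import Mathlib
import Pool.Agent.T6.H25.PCTw

set_option autoImplicit false

namespace Pool.Agent.T6.H25.PC

open Pool.Agent.Helper240.Amen

theorem InvHB.ext_surj {G Q : Type} [Group G] [Group Q] (f : G →* Q) (hf : Function.Surjective f)
    (h1 : InvHB f.ker) (h2 : InvHB Q) : InvHB G := by
  refine InvHB.ext' f.ker h1 ?_
  exact InvHB.of_surj (QuotientGroup.quotientKerEquivOfSurjective f hf).symm.toMonoidHom
    (QuotientGroup.quotientKerEquivOfSurjective f hf).symm.surjective h2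

theorem countable_of_fg (G : Type) [Group G] (h : Group.FG G) : Countable G := by
  obtain ⟨α, _, π, hπ⟩ := Group.fg_iff_exists_freeGroup_hom_surjective_finite.1 h
  have : Countable (FreeGroup α) := by
    unfold FreeGroup
    infer_instance
  exact hπ.countable

/-- a finitely generated torsion-free group, the finite quotients of which come from `Γ` on a
subgroup that maps onto `Γ` -/
theorem exists_tw {E Γ : Type} [Group E] [Group Γ] (γ : E →* Γ) (hγ : Function.Surjective γ)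
    (hfg : Group.FG E) (htf : TF E) (hc : ∀ a b, γ a = 1 → γ b = 1 → a * b = b * a)
    (hΓ : InvHB Γ) (ε : Γ →* Multiplicative ℤ) (t : Γ) (ht : ε t = Multiplicative.ofAdd 1) :
    ∃ (G : Type) (_ : Group G) (j : E →* G) (ρ : G →* Γ), Group.FG G ∧ TF G ∧ InvHB G ∧
      (∀ e, ρ (j e) = γ e) ∧
      ∀ N : Subgroup G, N.Normal → N.FiniteIndex → ∀ e, γ e = 1 → j e ∈ N := by
  letI := commKer γ hc
  letI := actKer γ hc
  letI := commXX γ hc
  letI := actXX γ ε hc
  letI := twd γ ε hc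
  have hsm : ∀ (e : E) (f : XX γ) (i : ℤ),
      (e • f) i = e • f (i - Multiplicative.toAdd (ε (γ e))) := fun _ _ _ => rfl
  obtain ⟨τ, hτ⟩ := hγ t
  have hcE : Countable E := countable_of_fg E hfg
  obtain ⟨r, hr⟩ := exists_surjective_nat γ.ker
  let xel : XX γ := fun i => if i ≤ 0 then r i.natAbs else 1
  let ev : XX γ →* γ.ker := { toFun := fun f => f 0, map_one' := rfl, map_mul' := fun _ _ => rfl }
  obtain ⟨S, hS, hSf⟩ := (Group.fg_iff).1 hfg
  let J : E →* Tw E γ.ker (XX γ) := Tw.j γ.ker (XX γ)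
  let T : Set (Tw E γ.ker (XX γ)) := J '' S ∪ {⟨xel, 1, 1⟩, ⟨1, ev, 1⟩}
  have hTf : T.Finite := (hSf.image J).union (Set.toFinite _)
  let G : Subgroup (Tw E γ.ker (XX γ)) := Subgroup.closure T
  have hJ : ∀ e, J e ∈ G := by
    intro e
    have h1 : (Subgroup.closure S).map J ≤ G := by
      rw [MonoidHom.map_closure]
      exact Subgroup.closure_mono Set.subset_union_left
    exact h1 ⟨e, by rw [hS]; trivial, rfl⟩
  have hX1 : (⟨xel, 1, 1⟩ : Tw E γ.ker (XX γ)) ∈ G := Subgroup.subset_closure (Or.inr (Or.inl rfl))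
  have hY1 : (⟨1, ev, 1⟩ : Tw E γ.ker (XX γ)) ∈ G := Subgroup.subset_closure (Or.inr (Or.inr rfl))
  let j : E →* G := J.codRestrict G hJ
  let pγ : Tw E γ.ker (XX γ) →* Γ := Tw.pr γ (fun m => m.2)
  let pε : Tw E γ.ker (XX γ) →* Multiplicative ℤ := Tw.pr (ε.comp γ) (fun m => by
    change ε (γ m.1) = 1
    rw [MonoidHom.mem_ker.1 m.2, map_one])
  refine ⟨G, inferInstance, j, pγ.comp G.subtype, ?_, ?_, ?_, fun e => rfl, ?_⟩
  · rw [Group.fg_iff_subgroup_fg]
    exact (Subgroup.fg_iff _).2 ⟨T, rfl, hTf⟩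
  · -- torsion-free
    have hMtf : TF γ.ker := by
      intro g n hn hg
      apply Subtype.ext
      exact htf g.1 n hn (by rw [← Subgroup.coe_pow, hg]; rfl)
    have hinv : G ≤ Tw.invY (M := γ.ker) (X := XX γ) (ε.comp γ).ker := by
      rw [Subgroup.closure_le]
      rintro _ (⟨e, _, rfl⟩ | rfl | rfl)
      · intro k _
        exact Tw.act_map_one k
      · intro k _
        exact Tw.act_map_one k
      · intro k hk
        have hk' : ε (γ k) = 1 := hk
        ext f
        change ((k • (ev (k⁻¹ • f))).1 : E) = (ev f).1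
        change ((k • ((k⁻¹ • f) 0)).1 : E) = (f 0).1
        rw [hsm, map_inv, map_inv, hk', smul_inv_smul]
        simp
    rintro ⟨g, hg⟩ n hn hgn
    have hgn' : g ^ n = 1 := congrArg Subtype.val hgn
    apply Subtype.ext
    refine Tw.pow_eq_one n hn hMtf htf g ?_ hgn' ?_
    · refine hinv hg g.e ?_
      rw [MonoidHom.mem_ker]
      have h1 : (pε g) ^ n = 1 := by rw [← map_pow, hgn', map_one]
      have h2 : n • Multiplicative.toAdd (pε g) = 0 := h1
      have h3 : Multiplicative.toAdd (pε g) = 0 := by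
        rcases smul_eq_zero.1 h2 with h | h
        · omega
        · exact h
      exact h3
    · intro x hx
      funext i
      exact hMtf _ n hn (congrFun hx i)
  · -- amenable
    refine InvHB.ext_surj (pγ.comp G.subtype) ?_ ?_ hΓ
    · intro a
      obtain ⟨e, rfl⟩ := hγ a
      exact ⟨j e, rfl⟩
    · refine Tw.amen_ker (G.subtype.comp (pγ.comp G.subtype).ker.subtype) ?_ ?_
      · exact (Subtype.val_injective).comp Subtype.val_injective
      · rintro ⟨k, hk⟩
        exact ⟨⟨k.1.e, hk⟩, rfl⟩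
  · -- the kernel dies
    intro N hN hNf m hm
    let q : G →* G ⧸ N := QuotientGroup.mk' N
    obtain ⟨s, hs⟩ := hr ⟨m, hm⟩
    obtain ⟨k, hk0, -, hk⟩ := Subgroup.exists_pow_mem_of_index_ne_zero hNf.index_ne_zero (j τ)
    have hq : q (j τ) ^ k = 1 := by
      rw [← map_pow]
      exact (QuotientGroup.eq_one_iff _).2 hk
    let X1 : G := ⟨_, hX1⟩
    let Y1 : G := ⟨_, hY1⟩
    let c : E → G := fun a => j ((a • xel) 0 : γ.ker).1
    have hcc : ∀ a, Y1 * (j a * X1 * (j a)⁻¹) = c a * ((j a * X1 * (j a)⁻¹) * Y1) := by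
      intro a
      apply Subtype.ext
      change (⟨1, ev, 1⟩ : Tw E γ.ker (XX γ)) * (J a * ⟨xel, 1, 1⟩ * (J a)⁻¹) =
        J ((a • xel) 0 : γ.ker).1 * ((J a * ⟨xel, 1, 1⟩ * (J a)⁻¹) * ⟨1, ev, 1⟩)
      rw [Tw.conj_j, Tw.comm_xy]
      rfl
    have hqc : ∀ a b, q (j a) = q (j b) → q (c a) = q (c b) := by
      intro a b hab
      have h1 : ∀ a, q (c a) = q Y1 * (q (j a) * q X1 * (q (j a))⁻¹) *
          ((q (j a) * q X1 * (q (j a))⁻¹) * q Y1)⁻¹ := by
        intro a
        rw [eq_mul_inv_iff_mul_eq, ← map_inv, ← map_mul, ← map_mul, ← map_mul, ← map_mul,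
          ← map_mul, hcc]
      rw [h1, h1, hab]
    have ha : ∀ z : ℤ, Multiplicative.toAdd (ε (γ (τ ^ z))) = z := by
      intro z
      rw [map_zpow, map_zpow, hτ, ht, toAdd_zpow, toAdd_ofAdd]
      simp
    have h1 := hqc (τ ^ (s : ℤ)) (τ ^ ((s : ℤ) - k * (s + 1))) (by
      rw [map_zpow, map_zpow, map_zpow, map_zpow, zpow_sub, zpow_mul, zpow_natCast _ k, hq]
      simp)
    have h2 : c (τ ^ ((s : ℤ) - k * (s + 1))) = 1 := by
      change j ((τ ^ ((s : ℤ) - k * (s + 1)) • xel) 0 : γ.ker).1 = 1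
      rw [hsm, ha]
      have h3 : ¬ ((0 : ℤ) - (s - k * (s + 1)) ≤ 0) := by
        have : (1 : ℤ) ≤ k := by exact_mod_cast hk0
        nlinarith
      have h4 : xel ((0 : ℤ) - (s - k * (s + 1))) = 1 := if_neg h3
      rw [h4, smul_one]
      exact map_one j
    have h3 : c (τ ^ (s : ℤ)) = j (τ ^ (s : ℤ)) * j m * (j (τ ^ (s : ℤ)))⁻¹ := by
      change j ((τ ^ (s : ℤ) • xel) 0 : γ.ker).1 = _
      rw [hsm, ha]
      have h4 : xel ((0 : ℤ) - s) = ⟨m, hm⟩ := by
        change (if (0 : ℤ) - s ≤ 0 then r ((0 : ℤ) - s).natAbs else 1) = _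
        rw [if_pos (by omega), show ((0 : ℤ) - s).natAbs = s by omega, hs]
      rw [h4, ← map_inv, ← map_mul, ← map_mul]
      rfl
    rw [h2, h3, map_one, map_mul, map_mul, map_inv] at h1
    have h5 : q (j m) = 1 := by
      have := congrArg (fun z => (q (j (τ ^ (s : ℤ))))⁻¹ * z * q (j (τ ^ (s : ℤ)))) h1
      simpa [mul_assoc] using this
    exact (QuotientGroup.eq_one_iff _).1 h5

end Pool.Agent.T6.H25.PC
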