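import Mathlib
import Pool.Agent.T6.H25.PCTw2
import Pool.Agent.T6.H25.PCMag

set_option autoImplicit false

namespace Pool.Agent.T6.H25.PC

open Pool.Agent.Helper240.Amen

theorem assemble (F : ℕ → Type) [∀ n, Group (F n)]
    (Γ : Type) [Group Γ] (hfg : Group.FG Γ) (hΓ : InvHB Γ) (ε : Γ →* Multiplicative ℤ) (t : Γ)
    (ht : ε t = Multiplicative.ofAdd 1)
    (T : ℕ → (∀ n, F n) →* Γ) (δ : ∀ n, F n →* Γ) (hT0 : T 0 = 1)
    (hT : ∀ m x, T (m + 1) x = T m x * δ m (x m))
    (hδ : ∀ N : Subgroup Γ, N.Normal → N.FiniteIndex → ∃ n0, ∀ n ≥ n0, ∀ f, δ n f ∈ N)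
    (P : ℕ → Type) [∀ n, Group (P n)] [∀ n, Finite (P n)] (π : ∀ n, Γ →* P n) (b : Γ)
    (hb : ∀ n m x x', n < m → π n (b * T m x * b⁻¹) = π n (T m x') → x n = 1) :
    ∃ (G : Type) (_ : Group G), Group.FG G ∧ TF G ∧ Amenable G ∧
      ∃ φ : (∀ n, F n) →* CT G, Function.Injective φ ∧
        (∀ N : Ix G, ∃ m, ∀ x x', (∀ n < m, x n = x' n) → (φ x).1 N = (φ x').1 N) ∧
        TrivialCore (Set.range φ) := by
  obtain ⟨E, _, γ, hEfg, hEtf, hγ, hc⟩ := exists_cover Γ hfg
  obtain ⟨G, _, j, ρ, hGfg, hGtf, hGam, hρ, hkill⟩ :=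
    exists_tw γ hγ hEfg hEtf hc hΓ ε t ht
  -- the maps from `Γ` to the finite quotients
  have hθ : ∀ N : Ix G, ∃ θ : Γ →* Qt N, ∀ e, θ (γ e) = mk N (j e) := by
    intro N
    refine ⟨γ.liftOfSurjective hγ ⟨(mk N).comp j, ?_⟩, fun e => ?_⟩
    · intro e he
      exact (QuotientGroup.eq_one_iff _).2 (hkill N.1 N.2.1 N.2.2 e he)
    · exact MonoidHom.liftOfRightInverse_comp_apply _ _ _ _ _
  choose θ hθ using hθ
  have hfin : ∀ N : Ix G, Finite (Qt N) := by
    intro N
    have := N.2.2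
    exact (inferInstance : Finite (G ⧸ N.1))
  have hm0 : ∀ N : Ix G, ∃ m, ∀ n ≥ m, ∀ f, θ N (δ n f) = 1 := by
    intro N
    have := hfin N
    exact hδ (θ N).ker inferInstance (Subgroup.finiteIndex_ker (θ N))
  choose m0 hm0 using hm0
  have hst : ∀ (N : Ix G) (m : ℕ), m0 N ≤ m → ∀ x, θ N (T m x) = θ N (T (m0 N) x) := by
    intro N m hm x
    induction m, hm using Nat.le_induction with
    | base => rfl
    | succ m hm ih => rw [hT, map_mul, hm0 N m hm, mul_one, ih]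
  have htr : ∀ (M N : Ix G) (h : sb M ≤ sb N) (g : Γ), tr M N h (θ M g) = θ N g := by
    intro M N h g
    obtain ⟨e, rfl⟩ := hγ g
    rw [hθ, hθ]
    rfl
  let φ : (∀ n, F n) →* CT G :=
    { toFun := fun x => ⟨fun N => θ N (T (m0 N) x), fun M N h => by
        change tr M N h (θ M (T (m0 M) x)) = θ N (T (m0 N) x)
        rw [← hst M (max (m0 M) (m0 N)) (le_max_left _ _),
          ← hst N (max (m0 M) (m0 N)) (le_max_right _ _), htr]⟩
      map_one' := Subtype.ext (funext fun N => by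
        change θ N (T (m0 N) 1) = 1
        rw [map_one, map_one])
      map_mul' := fun x y => Subtype.ext (funext fun N => by
        change θ N (T (m0 N) (x * y)) = θ N (T (m0 N) x) * θ N (T (m0 N) y)
        rw [map_mul, map_mul]) }
  have hφ : ∀ x N m, m0 N ≤ m → (φ x).1 N = θ N (T m x) := fun x N m hm => (hst N m hm x).symm
  -- the detecting quotients
  have hdet : ∀ n, ∃ N : Ix G, ∀ g g', θ N g = θ N g' → π n g = π n g' := by
    intro n
    let N : Ix G := ⟨((π n).comp ρ).ker, inferInstance, Subgroup.finiteIndex_ker _⟩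
    refine ⟨N, fun g g' h => ?_⟩
    obtain ⟨e, rfl⟩ := hγ g
    obtain ⟨e', rfl⟩ := hγ g'
    rw [hθ N e, hθ N e'] at h
    have h1 : (j e)⁻¹ * j e' ∈ sb N := QuotientGroup.eq.1 h
    have h2 : π n (ρ ((j e)⁻¹ * j e')) = 1 := h1
    rw [map_mul, map_mul, map_inv, map_inv, hρ, hρ, inv_mul_eq_one] at h2
    exact h2
  refine ⟨G, inferInstance, hGfg, hGtf, hGam.amenable, φ, ?_, ?_, ?_⟩
  · rw [injective_iff_map_eq_one]
    intro a ha
    funext n
    obtain ⟨N, hN⟩ := hdet n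
    have h1 : (φ a).1 N = 1 := by rw [ha]; rfl
    rw [hφ a N (max (m0 N) (n + 1)) (le_max_left _ _)] at h1
    have h2 := hN (T (max (m0 N) (n + 1)) a) 1 (by rw [h1, map_one])
    refine hb n (max (m0 N) (n + 1)) a 1 (by omega) ?_
    rw [map_mul, map_mul, h2, map_one, map_one, mul_one, map_inv, mul_inv_cancel, map_one]
  · intro N
    refine ⟨m0 N, fun x x' h => ?_⟩
    have h1 : ∀ m, (∀ n < m, x n = x' n) → T m x = T m x' := by
      intro m
      induction m with
      | zero => intro _; rw [hT0]; rfl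
      | succ m ih =>
        intro h
        rw [hT, hT, ih (fun n hn => h n (by omega)), h m (by omega)]
    change θ N (T (m0 N) x) = θ N (T (m0 N) x')
    rw [h1 _ h]
  · intro x hx
    obtain ⟨a, ha⟩ := hx 1
    have hxa : x = φ a := by
      rw [ha, map_one, one_mul, inv_one, mul_one]
    obtain ⟨bt, hbt⟩ := hγ b
    obtain ⟨a', ha'⟩ := hx (j bt)
    have h1 : a = 1 := by
      funext n
      obtain ⟨N, hN⟩ := hdet n
      have h2 : (φ a').1 N = mk N (j bt) * (φ a).1 N * (mk N (j bt))⁻¹ := by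
        rw [ha', hxa]; rfl
      rw [hφ a N (max (m0 N) (n + 1)) (le_max_left _ _),
        hφ a' N (max (m0 N) (n + 1)) (le_max_left _ _), ← hθ, hbt, ← map_inv, ← map_mul,
        ← map_mul] at h2
      exact hb n (max (m0 N) (n + 1)) a a' (by omega) (hN _ _ h2).symm
    rw [hxa, h1, map_one]

end Pool.Agent.T6.H25.PC
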