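import Mathlib
import Pool.Agent.T6.H25.PCDef

set_option autoImplicit false

/-!
# The group `Γ`: definitions
-/

namespace Pool.Agent.T6.H25.PC

open SemidirectProduct

/-- the finite index sets -/
abbrev Q (ℓ : ℕ → ℕ) (n : ℕ) : Type := ZMod (ℓ n) × ZMod (ℓ n) × ZMod (ℓ n)

/-- the base group -/
abbrev Bt (ℓ : ℕ → ℕ) (F : ℕ → Type) : Type := ∀ n, Q ℓ n → F n

/-- the acting group -/
abbrev V : Type := Multiplicative (ℤ × ℤ × ℤ)

/-- reduction -/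
def cc (ℓ : ℕ → ℕ) (n : ℕ) : ℤ × ℤ × ℤ →+ Q ℓ n :=
  AddMonoidHom.prodMap (Int.castAddHom _) (AddMonoidHom.prodMap (Int.castAddHom _)
    (Int.castAddHom _))

theorem cc_apply (ℓ : ℕ → ℕ) (n : ℕ) (v : ℤ × ℤ × ℤ) :
    cc ℓ n v = ((v.1 : ZMod (ℓ n)), (v.2.1 : ZMod (ℓ n)), (v.2.2 : ZMod (ℓ n))) := rfl

variable (ℓ : ℕ → ℕ) (F : ℕ → Type) [∀ n, Group (F n)]

/-- the translations -/
def sh : V →* MulAut (Bt ℓ F) where
  toFun v :=
    { toFun := fun φ n q => φ n (q - cc ℓ n v.toAdd)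
      invFun := fun φ n q => φ n (q + cc ℓ n v.toAdd)
      left_inv := fun φ => by funext n q; simp
      right_inv := fun φ => by funext n q; simp
      map_mul' := fun φ φ' => rfl }
  map_one' := by
    ext φ n q
    simp
  map_mul' v w := by
    ext φ n q
    change φ n (q - cc ℓ n (v.toAdd + w.toAdd)) = φ n (q - cc ℓ n v.toAdd - cc ℓ n w.toAdd)
    rw [map_add, sub_add_eq_sub_sub]

variable {ℓ F}

theorem sh_apply (v : V) (φ : Bt ℓ F) (n : ℕ) (q : Q ℓ n) :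
    sh ℓ F v φ n q = φ n (q - cc ℓ n v.toAdd) := rfl

variable (ℓ F)

/-- the big group -/
abbrev PP : Type := Bt ℓ F ⋊[sh ℓ F] V

variable {F}

/-- the first generator, from functions `u n` -/
def gx (u : ∀ n, ZMod (ℓ n) → F n) : Bt ℓ F := fun n q =>
  open scoped Classical in if q.1 = 0 ∧ q.2.2 = 0 then u n q.2.1 else 1

/-- the second generator -/
def gy (u : ∀ n, ZMod (ℓ n) → F n) : Bt ℓ F := fun n q =>
  open scoped Classical in if q.1 = 0 ∧ q.2.1 = 0 then u n q.2.2 else 1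

/-- the generating set -/
def gens (u : ∀ n, ZMod (ℓ n) → F n) : Set (PP ℓ F) :=
  {inl (gx ℓ u), inl (gy ℓ u), inr (Multiplicative.ofAdd (1, 0, 0)),
    inr (Multiplicative.ofAdd (0, 1, 0)), inr (Multiplicative.ofAdd (0, 0, 1))}

/-- the group `Γ` -/
def Gam (u : ∀ n, ZMod (ℓ n) → F n) : Subgroup (PP ℓ F) := Subgroup.closure (gens ℓ u)

theorem Gam_fg (u : ∀ n, ZMod (ℓ n) → F n) : Group.FG (Gam ℓ u) := by
  rw [Group.fg_iff_subgroup_fg]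
  refine (Subgroup.fg_iff _).2 ⟨_, rfl, ?_⟩
  unfold gens
  exact Set.toFinite _

theorem inr_mem (u : ∀ n, ZMod (ℓ n) → F n) (v : V) : (inr v : PP ℓ F) ∈ Gam ℓ u := by
  have h1 : (inr (Multiplicative.ofAdd (1, 0, 0)) : PP ℓ F) ∈ Gam ℓ u :=
    Subgroup.subset_closure (by simp [gens])
  have h2 : (inr (Multiplicative.ofAdd (0, 1, 0)) : PP ℓ F) ∈ Gam ℓ u :=
    Subgroup.subset_closure (by simp [gens])
  have h3 : (inr (Multiplicative.ofAdd (0, 0, 1)) : PP ℓ F) ∈ Gam ℓ u :=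
    Subgroup.subset_closure (by simp [gens])
  have h4 : v = (Multiplicative.ofAdd (1, 0, 0)) ^ v.toAdd.1 *
      (Multiplicative.ofAdd (0, 1, 0)) ^ v.toAdd.2.1 *
      (Multiplicative.ofAdd (0, 0, 1)) ^ v.toAdd.2.2 := by
    apply Multiplicative.toAdd.injective
    rw [toAdd_mul, toAdd_mul, toAdd_zpow, toAdd_zpow, toAdd_zpow]
    ext <;> simp
  rw [h4, map_mul, map_mul, map_zpow, map_zpow, map_zpow]
  exact mul_mem (mul_mem (zpow_mem h1 _) (zpow_mem h2 _)) (zpow_mem h3 _)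

theorem inl_sh_mem (u : ∀ n, ZMod (ℓ n) → F n) (v : V) (φ : Bt ℓ F)
    (h : (inl φ : PP ℓ F) ∈ Gam ℓ u) : (inl (sh ℓ F v φ) : PP ℓ F) ∈ Gam ℓ u := by
  rw [inl_aut, map_inv]
  exact mul_mem (mul_mem (inr_mem ℓ u v) h) (inv_mem (inr_mem ℓ u v))

theorem gx_mem (u : ∀ n, ZMod (ℓ n) → F n) : (inl (gx ℓ u) : PP ℓ F) ∈ Gam ℓ u :=
  Subgroup.subset_closure (by simp [gens])

theorem gy_mem (u : ∀ n, ZMod (ℓ n) → F n) : (inl (gy ℓ u) : PP ℓ F) ∈ Gam ℓ u :=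
  Subgroup.subset_closure (by simp [gens])

variable (F) in
/-- the factor `F n` at the place `0` of the coordinate `n` -/
def dl (n : ℕ) : F n →* Bt ℓ F where
  toFun f := Pi.mulSingle n (Pi.mulSingle 0 f)
  map_one' := by simp
  map_mul' f g := by rw [Pi.mulSingle_mul, Pi.mulSingle_mul]

theorem dl_same (n : ℕ) (f : F n) : dl ℓ F n f n 0 = f := by
  simp [dl]

theorem dl_same' (n : ℕ) (f : F n) (q : Q ℓ n) (hq : q ≠ 0) : dl ℓ F n f n q = 1 := by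
  simp [dl, hq]

theorem dl_other (n m : ℕ) (h : m ≠ n) (f : F n) (q : Q ℓ m) : dl ℓ F n f m q = 1 := by
  simp [dl, h]

/-- the hypotheses -/
structure Hyp (ℓ : ℕ → ℕ) (F : ℕ → Type) [∀ n, Group (F n)] (u : ∀ n, ZMod (ℓ n) → F n)
    (s : ∀ n, F n → ℤ) : Prop where
  mono : StrictMono ℓ
  prime : ∀ n, (ℓ n).Prime
  perf : ∀ n, commutator (F n) = ⊤
  us : ∀ n f, u n (s n f : ZMod (ℓ n)) = f
  ue : ∀ n z, u n z ≠ 1 → ∃ f, z = (s n f : ZMod (ℓ n))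
  dvd : ∀ (n : ℕ) (f : F n), ((n : ℤ) + 1) ∣ s n f
  pos : ∀ n f, 0 < s n f
  lt : ∀ (n : ℕ) (f : F n), s n f + ((n : ℤ) + 1) < ℓ n

theorem comm_mem_aux {u : ∀ n, ZMod (ℓ n) → F n} {s : ∀ n, F n → ℤ} (H : Hyp ℓ F u s) (n : ℕ)
    (f g : F n) : dl ℓ F n (f * g * f⁻¹ * g⁻¹) =
      sh ℓ F (Multiplicative.ofAdd ((ℓ n : ℤ), -s n f, 0)) (gx ℓ u) *
      sh ℓ F (Multiplicative.ofAdd (0, 0, -s n g)) (gy ℓ u) *
      (sh ℓ F (Multiplicative.ofAdd ((ℓ n : ℤ), -s n f, 0)) (gx ℓ u))⁻¹ *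
      (sh ℓ F (Multiplicative.ofAdd (0, 0, -s n g)) (gy ℓ u))⁻¹ := by
  let v : V := Multiplicative.ofAdd ((ℓ n : ℤ), -s n f, 0)
  let w : V := Multiplicative.ofAdd (0, 0, -s n g)
  funext m q
  change _ = sh ℓ F v (gx ℓ u) m q * sh ℓ F w (gy ℓ u) m q * (sh ℓ F v (gx ℓ u) m q)⁻¹ *
    (sh ℓ F w (gy ℓ u) m q)⁻¹
  rw [sh_apply, sh_apply]
  have hv : cc ℓ m v.toAdd = ((ℓ n : ZMod (ℓ m)), ((-s n f : ℤ) : ZMod (ℓ m)), 0) := by
    rw [cc_apply]; simp [v]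
  have hw : cc ℓ m w.toAdd = (0, 0, ((-s n g : ℤ) : ZMod (ℓ m))) := by
    rw [cc_apply]; simp [w]
  rw [hv, hw]
  by_cases hmn : m = n
  · subst hmn
    by_cases hq : q = 0
    · subst hq
      rw [dl_same]
      have e1 : gx ℓ u m (0 - ((ℓ m : ZMod (ℓ m)), ((-s m f : ℤ) : ZMod (ℓ m)), 0)) = f := by
        simpa [gx] using H.us m f
      have e2 : gy ℓ u m (0 - (0, 0, ((-s m g : ℤ) : ZMod (ℓ m)))) = g := by
        simpa [gy] using H.us m g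
      rw [e1, e2]
    · rw [dl_same' ℓ m _ q hq]
      by_cases hq1 : q.1 = 0 ∧ q.2.2 = 0
      · have hq2 : q.2.1 ≠ 0 := by
          intro h
          apply hq
          ext1
          · exact hq1.1
          · ext1
            · exact h
            · exact hq1.2
        have e2 : gy ℓ u m (q - (0, 0, ((-s m g : ℤ) : ZMod (ℓ m)))) = 1 := by
          simp [gy, hq2]
        rw [e2]; simp
      · have e1 : gx ℓ u m (q - ((ℓ m : ZMod (ℓ m)), ((-s m f : ℤ) : ZMod (ℓ m)), 0)) = 1 := by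
          rw [gx, if_neg]
          simpa using hq1
        rw [e1]; simp
  · rw [dl_other ℓ n m hmn]
    by_cases hq : q.1 = 0
    · have e1 : gx ℓ u m (q - ((ℓ n : ZMod (ℓ m)), ((-s n f : ℤ) : ZMod (ℓ m)), 0)) = 1 := by
        rw [gx, if_neg]
        rintro ⟨h, -⟩
        simp only [Prod.fst_sub, hq, zero_sub, neg_eq_zero] at h
        rw [ZMod.natCast_eq_zero_iff] at h
        rw [Nat.prime_dvd_prime_iff_eq (H.prime m) (H.prime n)] at h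
        exact hmn (H.mono.injective h)
      rw [e1]; simp
    · have e2 : gy ℓ u m (q - (0, 0, ((-s n g : ℤ) : ZMod (ℓ m)))) = 1 := by
        simp [gy, hq]
      rw [e2]; simp

theorem comm_mem {u : ∀ n, ZMod (ℓ n) → F n} {s : ∀ n, F n → ℤ} (H : Hyp ℓ F u s) (n : ℕ)
    (f g : F n) : (inl (dl ℓ F n (f * g * f⁻¹ * g⁻¹)) : PP ℓ F) ∈ Gam ℓ u := by
  let v : V := Multiplicative.ofAdd ((ℓ n : ℤ), -s n f, 0)
  let w : V := Multiplicative.ofAdd (0, 0, -s n g)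
  have h1 := inl_sh_mem ℓ u v _ (gx_mem ℓ u)
  have h2 := inl_sh_mem ℓ u w _ (gy_mem ℓ u)
  have h3 := mul_mem (mul_mem (mul_mem h1 h2) (inv_mem h1)) (inv_mem h2)
  have h4 : (inl (dl ℓ F n (f * g * f⁻¹ * g⁻¹)) : PP ℓ F) =
      inl (sh ℓ F v (gx ℓ u)) * inl (sh ℓ F w (gy ℓ u)) * (inl (sh ℓ F v (gx ℓ u)))⁻¹ *
        (inl (sh ℓ F w (gy ℓ u)))⁻¹ := by
    have h5 : ∀ a b : Bt ℓ F, (inl a * inl b * (inl a)⁻¹ * (inl b)⁻¹ : PP ℓ F) =
        inl (a * b * a⁻¹ * b⁻¹) := by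
      intro a b
      simp only [map_mul, map_inv]
    rw [h5]
    congr 1
    exact comm_mem_aux ℓ H n f g
  rw [h4]
  exact h3

theorem dl_mem {u : ∀ n, ZMod (ℓ n) → F n} {s : ∀ n, F n → ℤ} (H : Hyp ℓ F u s) (n : ℕ)
    (f : F n) : (inl (dl ℓ F n f) : PP ℓ F) ∈ Gam ℓ u := by
  have h1 : (⊤ : Subgroup (F n)).map (inl.comp (dl ℓ F n)) ≤ Gam ℓ u := by
    rw [← H.perf n, commutator_eq_closure, MonoidHom.map_closure, Subgroup.closure_le]
    rintro _ ⟨_, ⟨a, b, rfl⟩, rfl⟩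
    rw [commutatorElement_def]
    exact comm_mem ℓ H n a b
  exact h1 ⟨f, trivial, rfl⟩

end Pool.Agent.T6.H25.PC
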