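import Mathlib
import Pool.Agent.T6.H25.PCGam

set_option autoImplicit false

/-!
# The group `Γ`: finite quotients
-/

namespace Pool.Agent.T6.H25.PC

open SemidirectProduct
open scoped commutatorElement

variable (ℓ : ℕ → ℕ) {F : ℕ → Type} [∀ n, Group (F n)]

/-- `dl` with values in `Γ` -/
def dlG {u : ∀ n, ZMod (ℓ n) → F n} {s : ∀ n, F n → ℤ} (H : Hyp ℓ F u s) (n : ℕ) :
    F n →* Gam ℓ u :=
  (inl.comp (dl ℓ F n)).codRestrict (Gam ℓ u) (dl_mem ℓ H n)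

variable (F) in
/-- the truncations -/
def Tb (m : ℕ) : (∀ n, F n) →* Bt ℓ F where
  toFun x := fun n => if n < m then Pi.mulSingle 0 (x n) else 1
  map_one' := by
    funext n
    by_cases h : n < m <;> simp [h]
  map_mul' x y := by
    funext n
    by_cases h : n < m <;> simp [h, Pi.mulSingle_mul]

theorem Tb_zero : Tb ℓ F 0 = 1 := by
  ext x n
  simp [Tb]

theorem Tb_succ (m : ℕ) (x : ∀ n, F n) : Tb ℓ F (m + 1) x = Tb ℓ F m x * dl ℓ F m (x m) := by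
  funext n q
  change (if n < m + 1 then Pi.mulSingle 0 (x n) else (1 : Q ℓ n → F n)) q =
    (if n < m then Pi.mulSingle 0 (x n) else (1 : Q ℓ n → F n)) q * dl ℓ F m (x m) n q
  rcases lt_trichotomy n m with h | h | h
  · rw [if_pos (by omega), if_pos h, dl_other ℓ m n (by omega), mul_one]
  · subst h
    rw [if_pos (by omega), if_neg (by omega)]
    simp [dl]
  · rw [if_neg (by omega), if_neg (by omega), dl_other ℓ m n (by omega), mul_one]

theorem Tb_mem {u : ∀ n, ZMod (ℓ n) → F n} {s : ∀ n, F n → ℤ} (H : Hyp ℓ F u s) (m : ℕ)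
    (x : ∀ n, F n) : (inl (Tb ℓ F m x) : PP ℓ F) ∈ Gam ℓ u := by
  induction m with
  | zero => rw [Tb_zero]; simp
  | succ m ih =>
    rw [Tb_succ, map_mul]
    exact mul_mem ih (dl_mem ℓ H m _)

/-- the truncations with values in `Γ` -/
def TG {u : ∀ n, ZMod (ℓ n) → F n} {s : ∀ n, F n → ℤ} (H : Hyp ℓ F u s) (m : ℕ) :
    (∀ n, F n) →* Gam ℓ u :=
  (inl.comp (Tb ℓ F m)).codRestrict (Gam ℓ u) (Tb_mem ℓ H m)

theorem TG_zero {u : ∀ n, ZMod (ℓ n) → F n} {s : ∀ n, F n → ℤ} (H : Hyp ℓ F u s) :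
    TG ℓ H 0 = 1 := by
  ext1 x
  apply Subtype.ext
  change (inl (Tb ℓ F 0 x) : PP ℓ F) = 1
  rw [Tb_zero]; simp

theorem TG_succ {u : ∀ n, ZMod (ℓ n) → F n} {s : ∀ n, F n → ℤ} (H : Hyp ℓ F u s) (m : ℕ)
    (x : ∀ n, F n) : TG ℓ H (m + 1) x = TG ℓ H m x * dlG ℓ H m (x m) := by
  apply Subtype.ext
  change (inl (Tb ℓ F (m + 1) x) : PP ℓ F) = inl (Tb ℓ F m x) * inl (dl ℓ F m (x m))
  rw [Tb_succ, map_mul]

/-- finite quotients kill almost all `F n` -/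
theorem kill {u : ∀ n, ZMod (ℓ n) → F n} {s : ∀ n, F n → ℤ} (H : Hyp ℓ F u s)
    (N : Subgroup (Gam ℓ u)) (hN : N.Normal) (hNf : N.FiniteIndex) :
    ∃ n0, ∀ n ≥ n0, ∀ f, dlG ℓ H n f ∈ N := by
  let b : Gam ℓ u := ⟨inr (Multiplicative.ofAdd (0, 1, 0)), inr_mem ℓ u _⟩
  obtain ⟨k, hk0, -, hk⟩ := Subgroup.exists_pow_mem_of_index_ne_zero hNf.index_ne_zero b
  let q : Gam ℓ u →* Gam ℓ u ⧸ N := QuotientGroup.mk' N
  have hq : ∀ g, q g = 1 ↔ g ∈ N := fun g => QuotientGroup.eq_one_iff g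
  refine ⟨k, fun n hn f => ?_⟩
  have hbk : ((b ^ k : Gam ℓ u) : PP ℓ F) = inr (Multiplicative.ofAdd (0, (k : ℤ), 0)) := by
    rw [Subgroup.coe_pow]
    change (inr (Multiplicative.ofAdd (0, 1, 0)) : PP ℓ F) ^ k = _
    rw [← map_pow, ← ofAdd_nsmul]
    simp
  have hne : ∀ q : Q ℓ n, q - cc ℓ n (0, (k : ℤ), 0) = 0 → q ≠ 0 := by
    intro q h1 h2
    rw [h2, zero_sub, neg_eq_zero, cc_apply] at h1
    have h3 : ((k : ℤ) : ZMod (ℓ n)) = 0 := congrArg (fun z : Q ℓ n => z.2.1) h1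
    rw [Int.cast_natCast, ZMod.natCast_eq_zero_iff] at h3
    have h4 := Nat.le_of_dvd hk0 h3
    have h5 : ∀ n, n < ℓ n := by
      intro n
      induction n with
      | zero => exact (H.prime 0).pos
      | succ n ih => exact lt_of_le_of_lt ih (H.mono (Nat.lt_succ_self n))
    have := h5 n
    omega
  have hcomm : ∀ f g : F n, b ^ k * dlG ℓ H n f * (b ^ k)⁻¹ * dlG ℓ H n g =
      dlG ℓ H n g * (b ^ k * dlG ℓ H n f * (b ^ k)⁻¹) := by
    intro f g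
    apply Subtype.ext
    change ((b ^ k : Gam ℓ u) : PP ℓ F) * inl (dl ℓ F n f) * ((b ^ k : Gam ℓ u) : PP ℓ F)⁻¹ *
      inl (dl ℓ F n g) = inl (dl ℓ F n g) * (((b ^ k : Gam ℓ u) : PP ℓ F) * inl (dl ℓ F n f) *
        ((b ^ k : Gam ℓ u) : PP ℓ F)⁻¹)
    rw [hbk, ← map_inv, ← inl_aut, ← map_mul, ← map_mul]
    congr 1
    funext m q
    change sh ℓ F (Multiplicative.ofAdd (0, (k : ℤ), 0)) (dl ℓ F n f) m q * dl ℓ F n g m q =
      dl ℓ F n g m q * sh ℓ F (Multiplicative.ofAdd (0, (k : ℤ), 0)) (dl ℓ F n f) m q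
    rw [sh_apply]
    by_cases hmn : m = n
    · subst hmn
      by_cases h : q - cc ℓ m (Multiplicative.toAdd (Multiplicative.ofAdd (0, (k : ℤ), 0))) = 0
      · rw [dl_same' ℓ m g q (hne q h)]; simp
      · rw [dl_same' ℓ m f _ h]; simp
    · rw [dl_other ℓ n m hmn]; simp
  have hcomm2 : ∀ f g : F n, q (dlG ℓ H n f) * q (dlG ℓ H n g) =
      q (dlG ℓ H n g) * q (dlG ℓ H n f) := by
    intro f g
    have h1 := congrArg q (hcomm f g)
    rw [map_mul, map_mul, map_mul, map_mul, map_mul, map_mul, map_inv, (hq _).2 hk] at h1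
    simpa using h1
  have h2 : (⊤ : Subgroup (F n)) ≤ (q.comp (dlG ℓ H n)).ker := by
    rw [← H.perf n, commutator_eq_closure, Subgroup.closure_le]
    rintro _ ⟨a, b, rfl⟩
    change q (dlG ℓ H n ⁅a, b⁆) = 1
    rw [map_commutatorElement, map_commutatorElement, commutatorElement_eq_one_iff_mul_comm]
    exact hcomm2 a b
  exact (hq _).1 (h2 (Subgroup.mem_top f))

/-- the projection to `ℤ` -/
def epsG (u : ∀ n, ZMod (ℓ n) → F n) : Gam ℓ u →* Multiplicative ℤ :=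
  (AddMonoidHom.toMultiplicative (AddMonoidHom.fst ℤ (ℤ × ℤ))).comp
    (rightHom.comp (Gam ℓ u).subtype)

theorem epsG_surj (u : ∀ n, ZMod (ℓ n) → F n) : ∃ t, epsG ℓ u t = Multiplicative.ofAdd 1 :=
  ⟨⟨inr (Multiplicative.ofAdd (1, 0, 0)), inr_mem ℓ u _⟩, rfl⟩

variable (F) in
/-- the translations on one coordinate -/
def shn (n : ℕ) : Multiplicative (Q ℓ n) →* MulAut (Q ℓ n → F n) where
  toFun v :=
    { toFun := fun φ q => φ (q - v.toAdd)
      invFun := fun φ q => φ (q + v.toAdd)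
      left_inv := fun φ => by funext q; simp
      right_inv := fun φ => by funext q; simp
      map_mul' := fun φ φ' => rfl }
  map_one' := by
    ext φ q
    simp
  map_mul' v w := by
    ext φ q
    change φ (q - (v.toAdd + w.toAdd)) = φ (q - v.toAdd - w.toAdd)
    rw [sub_add_eq_sub_sub]

variable (F) in
/-- the finite groups -/
abbrev Pn (n : ℕ) : Type := (Q ℓ n → F n) ⋊[shn ℓ F n] Multiplicative (Q ℓ n)

variable (F) in
/-- the detecting maps -/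
def pin (n : ℕ) : PP ℓ F →* Pn ℓ F n :=
  SemidirectProduct.map (Pi.evalMonoidHom _ n) (AddMonoidHom.toMultiplicative (cc ℓ n))
    (by intro v; rfl)

theorem pin_left (n : ℕ) (g : PP ℓ F) : (pin ℓ F n g).left = g.left n := rfl

theorem detect {u : ∀ n, ZMod (ℓ n) → F n} {s : ∀ n, F n → ℤ} (H : Hyp ℓ F u s) (n m : ℕ)
    (x x' : ∀ n, F n) (hnm : n < m)
    (h : pin ℓ F n (inr (Multiplicative.ofAdd (0, 1, 0)) * inl (Tb ℓ F m x) *
      (inr (Multiplicative.ofAdd (0, 1, 0)))⁻¹) = pin ℓ F n (inl (Tb ℓ F m x'))) : x n = 1 := by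
  rw [← map_inv, ← inl_aut] at h
  have h1 := congrArg (fun g : Pn ℓ F n => g.left (0, 1, 0)) h
  change sh ℓ F (Multiplicative.ofAdd (0, 1, 0)) (Tb ℓ F m x) n (0, 1, 0) =
    Tb ℓ F m x' n (0, 1, 0) at h1
  rw [sh_apply] at h1
  have h2 : ((0, 1, 0) : Q ℓ n) - cc ℓ n (Multiplicative.toAdd (Multiplicative.ofAdd (0, 1, 0)))
      = 0 := by
    rw [cc_apply]; simp
  rw [h2] at h1
  have h3 : Tb ℓ F m x n 0 = x n := by
    simp [Tb, hnm]
  have h4 : ((0, 1, 0) : Q ℓ n) ≠ 0 := by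
    intro h
    have h5 : (1 : ZMod (ℓ n)) = 0 := congrArg (fun z : Q ℓ n => z.2.1) h
    have : Fact (1 < ℓ n) := ⟨(H.prime n).one_lt⟩
    exact one_ne_zero h5
  have h5 : Tb ℓ F m x' n (0, 1, 0) = 1 := by
    change (if n < m then Pi.mulSingle 0 (x' n) else (1 : Q ℓ n → F n)) _ = 1
    rw [if_pos hnm]
    exact Pi.mulSingle_eq_of_ne h4 _
  rw [h3, h5] at h1
  exact h1

end Pool.Agent.T6.H25.PC
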