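import Mathlib
import Pool.Agent.T6.H25.PCGam
import Pool.Agent.T6.H25.PCAmen

set_option autoImplicit false

/-!
# The group `Γ`: amenability
-/

namespace Pool.Agent.T6.H25.PC

open SemidirectProduct
open Pool.Agent.Helper240.Amen

variable (ℓ : ℕ → ℕ) {F : ℕ → Type} [∀ n, Group (F n)]

/-- the translates of the generators -/
def trs (u : ∀ n, ZMod (ℓ n) → F n) : Set (Bt ℓ F) :=
  {φ | ∃ v : V, φ = sh ℓ F v (gx ℓ u) ∨ φ = sh ℓ F v (gy ℓ u)}

variable (F) in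
/-- the finitely supported elements -/
def B0 : Subgroup (Bt ℓ F) where
  carrier := {φ | ∃ n0, ∀ n ≥ n0, φ n = 1}
  one_mem' := ⟨0, fun n _ => rfl⟩
  mul_mem' := by
    rintro a b ⟨n, hn⟩ ⟨m, hm⟩
    refine ⟨max n m, fun k hk => ?_⟩
    change a k * b k = 1
    rw [hn k (by omega), hm k (by omega), mul_one]
  inv_mem' := by
    rintro a ⟨n, hn⟩
    refine ⟨n, fun k hk => ?_⟩
    change (a k)⁻¹ = 1
    rw [hn k hk, inv_one]

instance B0_normal : (B0 ℓ F).Normal := by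
  refine ⟨?_⟩
  rintro a ⟨n, hn⟩ b
  refine ⟨n, fun k hk => ?_⟩
  change b k * a k * (b k)⁻¹ = 1
  rw [hn k hk, mul_one, mul_inv_cancel]

section arith

variable {ℓ}
variable {u : ∀ n, ZMod (ℓ n) → F n} {s : ∀ n, F n → ℤ} (H : Hyp ℓ F u s)

include H

/-- small integers are not positions -/
theorem not_pos (a : ℤ) (n : ℕ) (hn : a.natAbs < n + 1) (z : ZMod (ℓ n)) (hz : z = (a : ZMod (ℓ n)))
    : u n z = 1 := by
  by_contra h
  obtain ⟨f, hf⟩ := H.ue n z h
  rw [hz] at hf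
  have h1 := (ZMod.intCast_eq_intCast_iff_dvd_sub _ _ _).1 hf
  have h2 := H.lt n f
  have h3 := H.pos n f
  have h4 := H.dvd n f
  have h5 : s n f - a = 0 := by
    refine Int.eq_zero_of_abs_lt_dvd h1 ?_
    rw [abs_lt]
    constructor <;> omega
  have h6 : ((n : ℤ) + 1) ≤ s n f := Int.le_of_dvd h3 h4
  omega

/-- two positions do not differ by a small nonzero integer -/
theorem not_diff (a : ℤ) (ha : a ≠ 0) (n : ℕ) (hn : a.natAbs < n + 1) (z z' : ZMod (ℓ n))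
    (hz : z = z' + (a : ZMod (ℓ n))) : u n z = 1 ∨ u n z' = 1 := by
  by_contra h
  push Not at h
  obtain ⟨f, hf⟩ := H.ue n z h.1
  obtain ⟨g, hg⟩ := H.ue n z' h.2
  rw [hf, hg, ← Int.cast_add] at hz
  have h1 := (ZMod.intCast_eq_intCast_iff_dvd_sub _ _ _).1 hz
  have h2 := H.lt n f
  have h3 := H.pos n f
  have h4 := H.dvd n f
  have h2' := H.lt n g
  have h3' := H.pos n g
  have h4' := H.dvd n g
  have h5 : s n g + a - s n f = 0 := by
    refine Int.eq_zero_of_abs_lt_dvd h1 ?_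
    rw [abs_lt]
    constructor <;> omega
  have h6 : ((n : ℤ) + 1) ∣ a := by
    have : a = s n f - s n g := by omega
    rw [this]
    exact dvd_sub h4 h4'
  have h7 := Nat.le_of_dvd (by omega : 0 < a.natAbs) (Int.natAbs_dvd_natAbs.2 h6)
  omega

omit H in
omit [∀ n, Group (F n)] in
theorem sub_fst_eq (n : ℕ) (q : Q ℓ n) (v : ℤ × ℤ × ℤ) :
    q - cc ℓ n v = (q.1 - (v.1 : ZMod (ℓ n)), q.2.1 - (v.2.1 : ZMod (ℓ n)),
      q.2.2 - (v.2.2 : ZMod (ℓ n))) := rfl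

theorem comm_xx (v w : V) : ∃ n0 : ℕ, ∀ n ≥ n0, ∀ q, sh ℓ F v (gx ℓ u) n q *
    sh ℓ F w (gx ℓ u) n q = sh ℓ F w (gx ℓ u) n q * sh ℓ F v (gx ℓ u) n q := by
  refine ⟨(w.toAdd.2.1 - v.toAdd.2.1).natAbs, fun n hn q => ?_⟩
  rw [sh_apply, sh_apply, sub_fst_eq, sub_fst_eq]
  simp only [gx]
  by_cases h1 : q.1 - (v.toAdd.1 : ZMod (ℓ n)) = 0 ∧ q.2.2 - (v.toAdd.2.2 : ZMod (ℓ n)) = 0
  · by_cases h2 : q.1 - (w.toAdd.1 : ZMod (ℓ n)) = 0 ∧ q.2.2 - (w.toAdd.2.2 : ZMod (ℓ n)) = 0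
    · rw [if_pos h1, if_pos h2]
      by_cases h3 : w.toAdd.2.1 - v.toAdd.2.1 = 0
      · rw [show w.toAdd.2.1 = v.toAdd.2.1 by omega]
      · rcases not_diff H _ h3 n (by omega) (q.2.1 - (v.toAdd.2.1 : ZMod (ℓ n)))
          (q.2.1 - (w.toAdd.2.1 : ZMod (ℓ n))) (by push_cast; ring) with h | h
        · rw [h]; simp
        · rw [h]; simp
    · rw [if_neg h2]; simp
  · rw [if_neg h1]; simp

theorem comm_yy (v w : V) : ∃ n0 : ℕ, ∀ n ≥ n0, ∀ q, sh ℓ F v (gy ℓ u) n q *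
    sh ℓ F w (gy ℓ u) n q = sh ℓ F w (gy ℓ u) n q * sh ℓ F v (gy ℓ u) n q := by
  refine ⟨(w.toAdd.2.2 - v.toAdd.2.2).natAbs, fun n hn q => ?_⟩
  rw [sh_apply, sh_apply, sub_fst_eq, sub_fst_eq]
  simp only [gy]
  by_cases h1 : q.1 - (v.toAdd.1 : ZMod (ℓ n)) = 0 ∧ q.2.1 - (v.toAdd.2.1 : ZMod (ℓ n)) = 0
  · by_cases h2 : q.1 - (w.toAdd.1 : ZMod (ℓ n)) = 0 ∧ q.2.1 - (w.toAdd.2.1 : ZMod (ℓ n)) = 0
    · rw [if_pos h1, if_pos h2]
      by_cases h3 : w.toAdd.2.2 - v.toAdd.2.2 = 0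
      · rw [show w.toAdd.2.2 = v.toAdd.2.2 by omega]
      · rcases not_diff H _ h3 n (by omega) (q.2.2 - (v.toAdd.2.2 : ZMod (ℓ n)))
          (q.2.2 - (w.toAdd.2.2 : ZMod (ℓ n))) (by push_cast; ring) with h | h
        · rw [h]; simp
        · rw [h]; simp
    · rw [if_neg h2]; simp
  · rw [if_neg h1]; simp

theorem comm_xy' (v w : V) : ∃ n0 : ℕ, ∀ n ≥ n0, ∀ q, sh ℓ F v (gx ℓ u) n q *
    sh ℓ F w (gy ℓ u) n q = sh ℓ F w (gy ℓ u) n q * sh ℓ F v (gx ℓ u) n q := by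
  refine ⟨(w.toAdd.2.1 - v.toAdd.2.1).natAbs, fun n hn q => ?_⟩
  rw [sh_apply, sh_apply, sub_fst_eq, sub_fst_eq]
  simp only [gx, gy]
  by_cases h1 : q.1 - (v.toAdd.1 : ZMod (ℓ n)) = 0 ∧ q.2.2 - (v.toAdd.2.2 : ZMod (ℓ n)) = 0
  · by_cases h2 : q.1 - (w.toAdd.1 : ZMod (ℓ n)) = 0 ∧ q.2.1 - (w.toAdd.2.1 : ZMod (ℓ n)) = 0
    · rw [if_pos h1, if_pos h2]
      rw [not_pos H (w.toAdd.2.1 - v.toAdd.2.1) n (by omega) (q.2.1 - (v.toAdd.2.1 : ZMod (ℓ n)))
        (by rw [sub_eq_zero.1 h2.2]; push_cast; ring)]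
      simp
    · rw [if_neg h2]; simp
  · rw [if_neg h1]; simp

theorem trs_comm (a : Bt ℓ F) (ha : a ∈ trs ℓ u) (b : Bt ℓ F) (hb : b ∈ trs ℓ u) :
    (QuotientGroup.mk a : Bt ℓ F ⧸ B0 ℓ F) * QuotientGroup.mk b =
      QuotientGroup.mk b * QuotientGroup.mk a := by
  have h1 : ∃ n0 : ℕ, ∀ n ≥ n0, ∀ q, a n q * b n q = b n q * a n q := by
    obtain ⟨v, rfl | rfl⟩ := ha
    · obtain ⟨w, rfl | rfl⟩ := hb
      · exact comm_xx H v w
      · exact comm_xy' H v w
    · obtain ⟨w, rfl | rfl⟩ := hb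
      · obtain ⟨n0, h⟩ := comm_xy' H w v
        exact ⟨n0, fun n hn q => (h n hn q).symm⟩
      · exact comm_yy H v w
  obtain ⟨n0, hn0⟩ := h1
  rw [← QuotientGroup.mk_mul, ← QuotientGroup.mk_mul, QuotientGroup.eq]
  refine ⟨n0, fun n hn => ?_⟩
  funext q
  change (a n q * b n q)⁻¹ * (b n q * a n q) = 1
  rw [hn0 n hn q, inv_mul_cancel]

theorem clo_comm (a : Bt ℓ F) (ha : a ∈ Subgroup.closure (trs ℓ u)) (b : Bt ℓ F)
    (hb : b ∈ Subgroup.closure (trs ℓ u)) :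
    (QuotientGroup.mk a : Bt ℓ F ⧸ B0 ℓ F) * QuotientGroup.mk b =
      QuotientGroup.mk b * QuotientGroup.mk a := by
  induction ha using Subgroup.closure_induction with
  | mem a ha =>
    induction hb using Subgroup.closure_induction with
    | mem b hb => exact trs_comm H a ha b hb
    | one => simp
    | mul x y _ _ hx hy =>
      rw [QuotientGroup.mk_mul]
      exact (Commute.mul_right (show Commute _ _ from hx) hy).eq
    | inv x _ hx =>
      rw [QuotientGroup.mk_inv]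
      exact (Commute.inv_right (show Commute _ _ from hx)).eq
  | one => simp
  | mul x y _ _ hx hy =>
    rw [QuotientGroup.mk_mul]
    exact (Commute.mul_left (show Commute _ _ from hx) hy).eq
  | inv x _ hx =>
    rw [QuotientGroup.mk_inv]
    exact (Commute.inv_left (show Commute _ _ from hx)).eq

end arith

variable {u : ∀ n, ZMod (ℓ n) → F n}

theorem sh_clo (v : V) (a : Bt ℓ F) (ha : a ∈ Subgroup.closure (trs ℓ u)) :
    sh ℓ F v a ∈ Subgroup.closure (trs ℓ u) := by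
  have h1 : (Subgroup.closure (trs ℓ u)).map (sh ℓ F v).toMonoidHom ≤
      Subgroup.closure (trs ℓ u) := by
    rw [MonoidHom.map_closure, Subgroup.closure_le]
    rintro _ ⟨_, ⟨w, rfl | rfl⟩, rfl⟩
    · refine Subgroup.subset_closure ⟨v * w, Or.inl ?_⟩
      rw [map_mul]; rfl
    · refine Subgroup.subset_closure ⟨v * w, Or.inr ?_⟩
      rw [map_mul]; rfl
  exact h1 ⟨a, ha, rfl⟩

theorem Gam_left (g : PP ℓ F) (hg : g ∈ Gam ℓ u) : g.left ∈ Subgroup.closure (trs ℓ u) := by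
  let S : Subgroup (PP ℓ F) :=
    { carrier := {g | g.left ∈ Subgroup.closure (trs ℓ u)}
      one_mem' := (one_mem (Subgroup.closure (trs ℓ u)) : (1 : Bt ℓ F) ∈ _)
      mul_mem' := by
        intro a b ha hb
        exact mul_mem ha (sh_clo ℓ _ _ hb)
      inv_mem' := by
        intro a ha
        exact sh_clo ℓ _ _ (inv_mem ha) }
  have h1 : Gam ℓ u ≤ S := by
    unfold Gam
    rw [Subgroup.closure_le]
    rintro _ (rfl | rfl | rfl | rfl | rfl)
    · exact Subgroup.subset_closure ⟨1, Or.inl (by rw [map_one]; rfl)⟩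
    · exact Subgroup.subset_closure ⟨1, Or.inr (by rw [map_one]; rfl)⟩
    · exact (one_mem (Subgroup.closure (trs ℓ u)) : (1 : Bt ℓ F) ∈ _)
    · exact (one_mem (Subgroup.closure (trs ℓ u)) : (1 : Bt ℓ F) ∈ _)
    · exact (one_mem (Subgroup.closure (trs ℓ u)) : (1 : Bt ℓ F) ∈ _)
  exact h1 hg

theorem Gam_amen [∀ n, Finite (F n)] {s : ∀ n, F n → ℤ} (H : Hyp ℓ F u s) :
    InvHB (Gam ℓ u) := by
  let f : Gam ℓ u →* V := rightHom.comp (Gam ℓ u).subtype
  refine InvHB.step' f (fun a b => mul_comm _ _) ?_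
  have hr : ∀ a : f.ker, (a.1.1 : PP ℓ F).right = 1 := fun a => a.2
  have hml : ∀ a b : f.ker, ((a * b).1.1 : PP ℓ F).left = a.1.1.left * b.1.1.left := by
    intro a b
    change (a.1.1 * b.1.1 : PP ℓ F).left = _
    rw [SemidirectProduct.mul_left, hr a, map_one]
    rfl
  let f2 : f.ker →* Bt ℓ F ⧸ B0 ℓ F :=
    { toFun := fun a => QuotientGroup.mk a.1.1.left
      map_one' := rfl
      map_mul' := fun a b => by rw [hml, QuotientGroup.mk_mul] }
  refine InvHB.step' f2 (fun a b => ?_) ?_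
  · exact clo_comm H _ (Gam_left ℓ _ a.1.2) _ (Gam_left ℓ _ b.1.2)
  · let S : ℕ → Subgroup f2.ker := fun m =>
      { carrier := {a | ∀ n ≥ m, a.1.1.1.left n = 1}
        one_mem' := fun n _ => rfl
        mul_mem' := by
          intro a b ha hb n hn
          change ((a.1 * b.1 : f.ker).1.1.left) n = 1
          rw [hml, Pi.mul_apply, ha n hn, hb n hn, mul_one]
        inv_mem' := by
          intro a ha n hn
          change (a.1.1.1⁻¹ : PP ℓ F).left n = 1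
          rw [SemidirectProduct.inv_left, hr a.1, inv_one, map_one]
          change (a.1.1.1.left n)⁻¹ = 1
          rw [ha n hn, inv_one] }
    refine InvHB.of_union S ?_ ?_ ?_
    · intro a b hab g hg n hn
      exact hg n (le_trans hab hn)
    · intro m
      have : Finite (S m) := by
        have : ∀ n, NeZero (ℓ n) := fun n => ⟨(H.prime n).ne_zero⟩
        refine Finite.of_injective
          (fun (a : S m) (n : Fin m) => (a.1.1.1.1.left n : Q ℓ n → F n)) ?_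
        intro a b hab
        apply Subtype.ext
        apply Subtype.ext
        apply Subtype.ext
        apply Subtype.ext
        ext1
        · funext n
          by_cases hn : n < m
          · exact congrFun hab ⟨n, hn⟩
          · rw [a.2 n (by omega), b.2 n (by omega)]
        · rw [hr a.1.1, hr b.1.1]
      exact InvHB.of_finite
    · intro g
      have h1 : (QuotientGroup.mk g.1.1.1.left : Bt ℓ F ⧸ B0 ℓ F) = 1 := g.2
      rw [QuotientGroup.eq_one_iff] at h1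
      exact h1

end Pool.Agent.T6.H25.PC
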