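import Mathlib
import Pool.Agent.T6.H25.PCGam2
import Pool.Agent.T6.H25.PCGam3
import Pool.Agent.T6.H25.PCAsm

set_option autoImplicit false

/-!
# Products of perfect finite groups
-/

namespace Pool.Agent.T6.H25.PC

open SemidirectProduct Filter

theorem exists_ell (b : ℕ → ℕ) : ∃ ℓ : ℕ → ℕ, StrictMono ℓ ∧ ∀ n, (ℓ n).Prime ∧ b n ≤ ℓ n := by
  refine extraction_forall_of_frequently (P := fun n k => k.Prime ∧ b n ≤ k) fun n => ?_
  rw [frequently_atTop]
  intro a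
  obtain ⟨p, hp, hpp⟩ := Nat.exists_infinite_primes (max a (b n))
  exact ⟨p, le_trans (le_max_left _ _) hp, hpp, le_trans (le_max_right _ _) hp⟩

theorem exists_hyp (F : ℕ → Type) [∀ n, Group (F n)] [∀ n, Finite (F n)]
    (hF : ∀ n, commutator (F n) = ⊤) :
    ∃ (ℓ : ℕ → ℕ) (u : ∀ n, ZMod (ℓ n) → F n) (s : ∀ n, F n → ℤ), Hyp ℓ F u s := by
  obtain ⟨ℓ, hℓ, hℓ2⟩ := exists_ell (fun n => (Nat.card (F n) + 2) * (n + 1))
  let s : ∀ n, F n → ℤ := fun n f => ((Finite.equivFin (F n) f : ℕ) + 1) * ((n : ℤ) + 1)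
  have hpos : ∀ n f, 0 < s n f := by
    intro n f
    positivity
  have hlt : ∀ (n : ℕ) (f : F n), s n f + ((n : ℤ) + 1) < ℓ n := by
    intro n f
    have h1 := (Finite.equivFin (F n) f).isLt
    have h2 := (hℓ2 n).2
    have h3 : (((Nat.card (F n) + 2) * (n + 1) : ℕ) : ℤ) ≤ ℓ n := by exact_mod_cast h2
    push_cast at h3
    have h4 : (((Finite.equivFin (F n) f : ℕ) : ℤ)) + 1 ≤ Nat.card (F n) := by exact_mod_cast h1
    have h5 : s n f ≤ (Nat.card (F n) : ℤ) * ((n : ℤ) + 1) :=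
      mul_le_mul_of_nonneg_right h4 (by positivity)
    nlinarith
  have hinj : ∀ n, Function.Injective (fun f : F n => (s n f : ZMod (ℓ n))) := by
    intro n f g h
    have h1 := (ZMod.intCast_eq_intCast_iff_dvd_sub _ _ _).1 h
    have h2 := hlt n f
    have h3 := hlt n g
    have h4 := hpos n f
    have h5 := hpos n g
    have h6 : s n g - s n f = 0 := by
      refine Int.eq_zero_of_abs_lt_dvd h1 ?_
      rw [abs_lt]
      constructor <;> omega
    have h7 : (((Finite.equivFin (F n) f : ℕ) : ℤ) + 1) * ((n : ℤ) + 1) =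
        (((Finite.equivFin (F n) g : ℕ) : ℤ) + 1) * ((n : ℤ) + 1) := by
      change s n f = s n g
      omega
    have h8 := mul_right_cancel₀ (by positivity : ((n : ℤ) + 1) ≠ 0) h7
    apply (Finite.equivFin (F n)).injective
    apply Fin.ext
    omega
  refine ⟨ℓ, fun n => Function.extend (fun f : F n => (s n f : ZMod (ℓ n))) id 1, s, ?_⟩
  refine ⟨hℓ, fun n => (hℓ2 n).1, hF, ?_, ?_, ?_, hpos, hlt⟩
  · intro n f
    exact (hinj n).extend_apply _ _ f
  · intro n z hz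
    by_contra h
    push Not at h
    apply hz
    rw [Function.extend_apply']
    · rfl
    · rintro ⟨f, hf⟩
      exact h f hf.symm
  · intro n f
    exact Dvd.intro_left _ rfl

theorem perfect_case (F : ℕ → Type) [∀ n, Group (F n)] [∀ n, Finite (F n)]
    (hF : ∀ n, commutator (F n) = ⊤) :
    ∃ (G : Type) (_ : Group G), Group.FG G ∧ TF G ∧ Pool.Agent.Helper240.Amen.Amenable G ∧
      ∃ φ : (∀ n, F n) →* CT G, Function.Injective φ ∧
        (∀ N : Ix G, ∃ m, ∀ x x', (∀ n < m, x n = x' n) → (φ x).1 N = (φ x').1 N) ∧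
        TrivialCore (Set.range φ) := by
  obtain ⟨ℓ, u, s, H⟩ := exists_hyp F hF
  obtain ⟨t, ht⟩ := epsG_surj ℓ u
  have : ∀ n, NeZero (ℓ n) := fun n => ⟨(H.prime n).ne_zero⟩
  have hfin : ∀ n, Finite (Pn ℓ F n) := fun n =>
    Finite.of_equiv _ (SemidirectProduct.equivProd (φ := shn ℓ F n)).symm
  refine assemble F (Gam ℓ u) (Gam_fg ℓ u) (Gam_amen ℓ H) (epsG ℓ u) t ht (TG ℓ H) (dlG ℓ H)
    (TG_zero ℓ H) (TG_succ ℓ H) (kill ℓ H) (Pn ℓ F) (fun n => (pin ℓ F n).comp (Gam ℓ u).subtype)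
    ⟨inr (Multiplicative.ofAdd (0, 1, 0)), inr_mem ℓ u _⟩ ?_
  intro n m x x' hnm h
  exact detect ℓ H n m x x' hnm h

end Pool.Agent.T6.H25.PC
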