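import Mathlib
import Pool.Agent.T6.H25.PCPerf

set_option autoImplicit false

/-!
# Second countable profinite groups occur
-/

namespace Pool.Agent.T6.H25.PC

open Topology

universe u

/-- every finite group embeds in a finite perfect group -/
theorem exists_perfect' (K : Type) [Group K] [Finite K] :
    ∃ (F : Type) (_ : Group F), Finite F ∧ commutator F = ⊤ ∧
      ∃ f : K →* F, Function.Injective f := by
  classical
  have := Fintype.ofFinite K
  let L : K →* Equiv.Perm K := MulAction.toPermHom K K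
  let σ : K →* Equiv.Perm (K ⊕ (K ⊕ Fin 5)) :=
    (Equiv.Perm.sumCongrHom K (K ⊕ Fin 5)).comp
      (L.prod ((Equiv.Perm.sumCongrHom K (Fin 5)).comp (L.prod 1)))
  have hσ : ∀ k, σ k ∈ alternatingGroup (K ⊕ (K ⊕ Fin 5)) := by
    intro k
    rw [Equiv.Perm.mem_alternatingGroup]
    change Equiv.Perm.sign (Equiv.Perm.sumCongr (L k) (Equiv.Perm.sumCongr (L k) 1)) = 1
    rw [Equiv.Perm.sign_sumCongr, Equiv.Perm.sign_sumCongr, map_one, mul_one]
    exact Int.units_mul_self _
  refine ⟨alternatingGroup (K ⊕ (K ⊕ Fin 5)), inferInstance, inferInstance, ?_,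
    σ.codRestrict _ hσ, ?_⟩
  · apply commutator_alternatingGroup_eq_top
    rw [Nat.card_sum, Nat.card_sum, Nat.card_fin]
    omega
  · intro a b hab
    have h1 : σ a = σ b := congrArg Subtype.val hab
    have h2 := congrArg (fun p : Equiv.Perm (K ⊕ (K ⊕ Fin 5)) => p (Sum.inl 1)) h1
    have h3 : (Sum.inl (a * 1) : K ⊕ (K ⊕ Fin 5)) = Sum.inl (b * 1) := h2
    simpa using Sum.inl_injective h3

theorem exists_perfect (K : Type u) [Group K] [Finite K] :
    ∃ (F : Type) (_ : Group F), Finite F ∧ commutator F = ⊤ ∧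
      ∃ f : K →* F, Function.Injective f := by
  obtain ⟨K', _, _, ⟨e⟩⟩ := Finite.exists_type_univ_nonempty_mulEquiv.{u, 0} K
  obtain ⟨F, gF, fF, pF, f, hf⟩ := exists_perfect' K'
  exact ⟨F, gF, fF, pF, f.comp e.toMonoidHom, hf.comp e.injective⟩

theorem occurs_of_secondCountable (H : Type u) [Group H] [TopologicalSpace H] [IsTopologicalGroup H]
    [CompactSpace H] [TotallyDisconnectedSpace H] [T2Space H] [SecondCountableTopology H] :
    Occurs H := by
  -- a sequence of open normal subgroups with trivial intersection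
  obtain ⟨W, hW⟩ := (𝓝 (1 : H)).exists_antitone_basis
  have h1 : ∀ n, ∃ U : OpenNormalSubgroup H, (U : Set H) ⊆ W n := by
    intro n
    obtain ⟨V, hVW, hVo, hV1⟩ := mem_nhds_iff.1 (hW.1.mem_of_mem (i := n) trivial)
    obtain ⟨U, hU⟩ := ProfiniteGrp.exist_openNormalSubgroup_sub_open_nhds_of_one hVo hV1
    exact ⟨U, hU.trans hVW⟩
  choose U hU using h1
  have hUtriv : ∀ x : H, (∀ n, x ∈ (U n : Set H)) → x = 1 := by
    intro x hx
    by_contra hne
    obtain ⟨n, -, hn⟩ := hW.1.mem_iff.1 (isOpen_ne.mem_nhds (Ne.symm hne) : {y | y ≠ x} ∈ 𝓝 (1 : H))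
    exact hn (hU n (hx n)) rfl
  have hUo : ∀ n, IsOpen ((U n : Subgroup H) : Set H) := fun n => (U n).isOpen'
  have hfin : ∀ n, Finite (H ⧸ (U n : Subgroup H)) := fun n =>
    Subgroup.quotient_finite_of_isOpen _ (hUo n)
  have h2 : ∀ n, ∃ (F : Type) (_ : Group F), Finite F ∧ commutator F = ⊤ ∧
      ∃ f : H ⧸ (U n : Subgroup H) →* F, Function.Injective f := fun n => exists_perfect _
  choose F gF fF pF f hf using h2
  obtain ⟨G, _, hGfg, hGtf, hGam, φ, hφi, hφc, hφt⟩ := perfect_case F pF
  let i : H →* ∀ n, F n := MonoidHom.pi (fun n => (f n).comp (QuotientGroup.mk' _))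
  have hi : Function.Injective i := by
    rw [injective_iff_map_eq_one]
    intro x hx
    apply hUtriv
    intro n
    have h3 : f n (QuotientGroup.mk x) = 1 := congrFun hx n
    have h4 : (QuotientGroup.mk x : H ⧸ (U n : Subgroup H)) = 1 := hf n (h3.trans (map_one _).symm)
    exact (QuotientGroup.eq_one_iff x).1 h4
  have := t2 G
  refine ⟨G, inferInstance, hGfg, hGtf, hGam, φ.comp i, ?_, ?_⟩
  · refine Continuous.isClosedEmbedding ?_ (hφi.comp hi)
    refine continuous_of _ fun N s => ?_
    obtain ⟨m, hm⟩ := hφc N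
    rw [isOpen_iff_mem_nhds]
    intro x hx
    have h5 : IsOpen (⋂ n ∈ Finset.range m, {y : H | x⁻¹ * y ∈ (U n : Subgroup H)}) := by
      refine isOpen_biInter_finset fun n _ => ?_
      exact (hUo n).preimage (continuous_const.mul continuous_id)
    refine Filter.mem_of_superset (h5.mem_nhds ?_) ?_
    · simp [one_mem]
    · intro y hy
      have h6 : ∀ n < m, i x n = i y n := by
        intro n hn
        have h7 : x⁻¹ * y ∈ (U n : Subgroup H) := by
          have := Set.mem_iInter₂.1 hy n (Finset.mem_range.2 hn)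
          exact this
        change f n (QuotientGroup.mk x) = f n (QuotientGroup.mk y)
        rw [QuotientGroup.eq.2 h7]
      change (φ (i y)).1 N ∈ s
      rw [← hm _ _ h6]
      exact hx
  · intro x hx
    refine hφt x fun k => ?_
    obtain ⟨y, hy⟩ := hx k
    exact ⟨i y, hy⟩

end Pool.Agent.T6.H25.PC
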