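import Mathlib
import Pool.Agent.T6.H25.PCDef
import Pool.Agent.T6.H25.PCTw2

set_option autoImplicit false

/-!
# Groups that occur are second countable
-/

namespace Pool.Agent.T6.H25.PC

open Topology

theorem countable_Ix (G : Type) [Group G] (h : Group.FG G) : Countable (Ix G) := by
  have := countable_of_fg G h
  have h1 : ∀ N : Ix G, ∃ S : Finset G, Subgroup.closure (S : Set G) = sb N := by
    intro N
    have h2 : (sb N).FG := by
      have := N.2.2
      have h3 : Group.FG (N.1) := Subgroup.fg_of_index_ne_zero N.1
      exact (Group.fg_iff_subgroup_fg _).1 h3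
    exact h2
  choose S hS using h1
  have h2 : Function.Injective S := by
    intro M N hMN
    apply Subtype.ext
    change sb M = sb N
    rw [← hS, ← hS, hMN]
  exact h2.countable

theorem secondCountable_CT (G : Type) [Group G] (h : Group.FG G) :
    SecondCountableTopology (CT G) := by
  have := countable_Ix G h
  refine TopologicalSpace.secondCountableTopology_iInf fun N => ?_
  have h1 : Finite (Qt N) := by
    have := N.2.2
    exact (inferInstance : Finite (G ⧸ N.1))
  let _ : TopologicalSpace (Qt N) := ⊥
  have : DiscreteTopology (Qt N) := ⟨rfl⟩
  have : SecondCountableTopology (Qt N) := inferInstance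
  exact TopologicalSpace.secondCountableTopology_induced _ _ _

theorem secondCountable_of_occurs (H : Type*) [Group H] [TopologicalSpace H] (h : Occurs H) :
    SecondCountableTopology H := by
  obtain ⟨G, _, hfg, -, -, φ, hφ, -⟩ := h
  have := secondCountable_CT G hfg
  exact hφ.isEmbedding.secondCountableTopology

end Pool.Agent.T6.H25.PC
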